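import Pool.Agent.TC.Cross

/-!
# TC: difference quotients of forms
-/

set_option autoImplicit false

open MvPolynomial

namespace Pool.Agent.TC

open Pool.Agent.H36.BP (EN)

variable {N : ℕ}

/-! ## polynomials -/

theorem eval_smul_hom {ι : Type*} {P : MvPolynomial ι ℂ} {d : ℕ} (hP : P.IsHomogeneous d) (c : ℂ) (f : ι → ℂ) :
    eval (fun i => c * f i) P = c ^ d * eval f P := by
  rw [eval_eq, eval_eq, Finset.mul_sum]
  refine Finset.sum_congr rfl fun m hm => ?_
  have hd : ∑ i ∈ m.support, m i = d := by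
    have := hP (mem_support_iff.1 hm)
    rw [Finsupp.weight_apply, Finsupp.sum] at this
    simpa using this
  have h1 : ∏ i ∈ m.support, (c * f i) ^ m i = c ^ d * ∏ i ∈ m.support, f i ^ m i := by
    simp only [mul_pow]
    rw [Finset.prod_mul_distrib, Finset.prod_pow_eq_pow_sum, hd]
  rw [h1]
  ring

theorem analyticAt_eval {ι : Type*} {E : Type*} [NormedAddCommGroup E] [NormedSpace ℂ E] {f : ι → E → ℂ} {p : E}
    (hf : ∀ i, AnalyticAt ℂ (f i) p) (P : MvPolynomial ι ℂ) : AnalyticAt ℂ (fun z => eval (fun i => f i z) P) p := by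
  induction P using MvPolynomial.induction_on with
  | C a =>
    simp only [eval_C]
    exact analyticAt_const
  | add p q hp hq =>
    simp only [map_add]
    exact hp.add hq
  | mul_X p i hp =>
    simp only [map_mul, eval_X]
    exact hp.mul (hf i)

theorem homogeneousComponent_mul_left {ι : Type*} {p q : MvPolynomial ι ℂ} (hp : p.IsHomogeneous 1) (d : ℕ) :
    homogeneousComponent (d + 1) (p * q) = p * homogeneousComponent d q := by
  classical
  have h1 : p * q = ∑ k ∈ Finset.range (q.totalDegree + 1), p * homogeneousComponent k q := by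
    rw [← Finset.mul_sum, sum_homogeneousComponent]
  rw [h1, map_sum]
  have h2 : ∀ k ∈ Finset.range (q.totalDegree + 1), homogeneousComponent (d + 1) (p * homogeneousComponent k q) =
      if k = d then p * homogeneousComponent k q else 0 := by
    intro k _
    have h3 : (p * homogeneousComponent k q).IsHomogeneous (1 + k) := hp.mul (homogeneousComponent_isHomogeneous k q)
    rw [homogeneousComponent_of_mem ((mem_homogeneousSubmodule _ _).2 h3)]
    by_cases hk : k = d
    · rw [if_pos (by omega), if_pos hk]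
    · rw [if_neg (by omega), if_neg hk]
  rw [Finset.sum_congr rfl h2, Finset.sum_ite_eq']
  by_cases hd : d ∈ Finset.range (q.totalDegree + 1)
  · rw [if_pos hd]
  · rw [if_neg hd, homogeneousComponent_eq_zero _ _ (by simpa [Nat.lt_succ_iff] using hd), mul_zero]

/-- `q` is a system of difference quotients of `Q` -/
def IsDq (Q : MvPolynomial (Fin (N + 1)) ℂ) (q : Fin (N + 1) → MvPolynomial (Fin (N + 1) ⊕ Fin (N + 1)) ℂ) : Prop :=
  rename Sum.inr Q - rename Sum.inl Q = ∑ i, (X (Sum.inr i) - X (Sum.inl i)) * q i ∧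
    ∀ d, 1 ≤ d → Q.IsHomogeneous d → ∀ i, (q i).IsHomogeneous (d - 1)

theorem exists_isDq {Q : MvPolynomial (Fin (N + 1)) ℂ} {d : ℕ} (hd : 1 ≤ d) (hQ : Q.IsHomogeneous d) :
    ∃ q, IsDq Q q := by
  classical
  by_cases hQ0 : Q = 0
  · refine ⟨fun _ => 0, ?_, fun _ _ _ _ => isHomogeneous_zero _ _ _⟩
    simp [hQ0]
  have hdu : ∀ e, Q.IsHomogeneous e → e = d := fun e he => he.inj_right hQ hQ0
  set v : Fin (N + 1) → MvPolynomial (Fin (N + 1) ⊕ Fin (N + 1)) ℂ := fun i => X (Sum.inr i) - X (Sum.inl i) with hv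
  have hmem : rename Sum.inr Q - rename Sum.inl Q ∈ Ideal.span (Set.range v) := by
    rw [← Ideal.Quotient.eq]
    have h1 : ∀ P : MvPolynomial (Fin (N + 1)) ℂ,
        Ideal.Quotient.mkₐ ℂ (Ideal.span (Set.range v)) (rename Sum.inr P) =
          Ideal.Quotient.mkₐ ℂ (Ideal.span (Set.range v)) (rename Sum.inl P) := by
      intro P
      have h2 : (Ideal.Quotient.mkₐ ℂ (Ideal.span (Set.range v))).comp (rename Sum.inr) =
          (Ideal.Quotient.mkₐ ℂ (Ideal.span (Set.range v))).comp (rename Sum.inl) := by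
        refine algHom_ext fun i => ?_
        simp only [AlgHom.comp_apply, rename_X]
        refine Ideal.Quotient.eq.2 ?_
        exact Ideal.subset_span ⟨i, rfl⟩
      exact congrArg (fun φ => φ P) h2
    exact h1 Q
  obtain ⟨c, hc⟩ := (Ideal.mem_span_range_iff_exists_fun).1 hmem
  refine ⟨fun i => homogeneousComponent (d - 1) (c i), ?_, ?_⟩
  · obtain ⟨e, rfl⟩ : ∃ e, d = e + 1 := ⟨d - 1, by omega⟩
    have h1 : (rename Sum.inr Q - rename Sum.inl Q :
        MvPolynomial (Fin (N + 1) ⊕ Fin (N + 1)) ℂ).IsHomogeneous (e + 1) :=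
      (hQ.rename_isHomogeneous).sub (hQ.rename_isHomogeneous)
    have h2 : homogeneousComponent (e + 1) (rename Sum.inr Q - rename Sum.inl Q :
        MvPolynomial (Fin (N + 1) ⊕ Fin (N + 1)) ℂ) = rename Sum.inr Q - rename Sum.inl Q := by
      rw [homogeneousComponent_of_mem ((mem_homogeneousSubmodule _ _).2 h1), if_pos rfl]
    rw [← h2, ← hc, map_sum]
    refine Finset.sum_congr rfl fun i _ => ?_
    rw [mul_comm (c i)]
    exact homogeneousComponent_mul_left ((isHomogeneous_X _ _).sub (isHomogeneous_X _ _)) e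
  · intro e _ he' i
    rw [hdu e he']
    exact homogeneousComponent_isHomogeneous _ _

open Classical in
/-- the difference quotients of a form -/
noncomputable def dqP (Q : MvPolynomial (Fin (N + 1)) ℂ) : Fin (N + 1) → MvPolynomial (Fin (N + 1) ⊕ Fin (N + 1)) ℂ :=
  if h : ∃ q, IsDq Q q then h.choose else 0

theorem dqP_spec {Q : MvPolynomial (Fin (N + 1)) ℂ} {d : ℕ} (hd : 1 ≤ d) (hQ : Q.IsHomogeneous d) : IsDq Q (dqP Q) := by
  rw [dqP, dif_pos (exists_isDq hd hQ)]
  exact (exists_isDq hd hQ).choose_spec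

/-- the difference quotients of the form `Q` at `x`, `y` -/
noncomputable def dq (Q : MvPolynomial (Fin (N + 1)) ℂ) (x y : EN N) : Fin (N + 1) → ℂ :=
  fun i => eval (Sum.elim (fun j => x j) fun j => y j) (dqP Q i)

theorem grad_apply (Q : MvPolynomial (Fin (N + 1)) ℂ) (x : EN N) (i : Fin (N + 1)) :
    grad Q x i = eval (fun j => x j) (pderiv i Q) := rfl

theorem dq_apply (Q : MvPolynomial (Fin (N + 1)) ℂ) (x y : EN N) (i : Fin (N + 1)) :
    dq Q x y i = eval (Sum.elim (fun j => x j) fun j => y j) (dqP Q i) := rfl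

theorem ev_sub_ev {Q : MvPolynomial (Fin (N + 1)) ℂ} {d : ℕ} (hd : 1 ≤ d) (hQ : Q.IsHomogeneous d) (x y : EN N) :
    ev Q y - ev Q x = dt (fun i => (y - x) i) (dq Q x y) := by
  have h := congrArg (eval (Sum.elim (fun j => x j) fun j => y j)) (dqP_spec hd hQ).1
  simp only [map_sub, eval_rename, map_sum, map_mul, eval_X, Sum.elim_inl, Sum.elim_inr] at h
  simpa [dt, ev, dq_apply, Function.comp_def] using h

theorem dq_self {Q : MvPolynomial (Fin (N + 1)) ℂ} {d : ℕ} (hd : 1 ≤ d) (hQ : Q.IsHomogeneous d) (x : EN N) :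
    dq Q x x = grad Q x := by
  classical
  funext i
  have h := congrArg (fun P => eval (Sum.elim (fun j => x j) fun j => x j) (pderiv (Sum.inr i) P)) (dqP_spec hd hQ).1
  have h1 : pderiv (Sum.inr i : Fin (N + 1) ⊕ Fin (N + 1)) (rename Sum.inl Q : MvPolynomial (Fin (N + 1) ⊕ Fin (N + 1)) ℂ) =
      0 := by
    refine pderiv_eq_zero_of_notMem_vars fun hmem => ?_
    have := vars_rename (Sum.inl : Fin (N + 1) → Fin (N + 1) ⊕ Fin (N + 1)) Q hmem
    simp at this
  have h2 : pderiv (Sum.inr i : Fin (N + 1) ⊕ Fin (N + 1)) (rename Sum.inr Q : MvPolynomial (Fin (N + 1) ⊕ Fin (N + 1)) ℂ) =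
      rename Sum.inr (pderiv i Q) := pderiv_rename Sum.inr_injective i Q
  simp only [map_sub, map_sum, h1, h2, sub_zero, Derivation.leibniz, smul_eq_mul, map_add, map_mul, eval_X, Sum.elim_inl,
    Sum.elim_inr, sub_self, zero_mul, pderiv_X, eval_rename] at h
  rw [grad_apply, dq_apply]
  have h3 : eval (fun j => x j) (pderiv i Q) = eval (Sum.elim (fun j => x j) fun j => x j) (dqP Q i) := by
    have h4 : (Sum.elim (fun j => x j) (fun j => x j) ∘ Sum.inr : Fin (N + 1) → ℂ) = fun j => x j := rfl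
    rw [h4] at h
    rw [h, Finset.sum_eq_single i]
    · simp
    · intro j _ hj
      simp [hj]
    · simp
  exact h3.symm

theorem dq_smul {Q : MvPolynomial (Fin (N + 1)) ℂ} {d : ℕ} (hd : 1 ≤ d) (hQ : Q.IsHomogeneous d) (c : ℂ) (x y : EN N) :
    dq Q (c • x) (c • y) = c ^ (d - 1) • dq Q x y := by
  funext i
  rw [Pi.smul_apply, smul_eq_mul, dq_apply, dq_apply, ← eval_smul_hom ((dqP_spec hd hQ).2 d hd hQ i)]
  congr 2
  funext j
  rcases j with j | j <;> simp

theorem continuous_dq (Q : MvPolynomial (Fin (N + 1)) ℂ) : Continuous fun p : EN N × EN N => dq Q p.1 p.2 := by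
  refine continuous_pi fun i => ?_
  refine (MvPolynomial.continuous_eval (dqP Q i)).comp (continuous_pi fun j => ?_)
  rcases j with j | j
  · exact (EuclideanSpace.proj (𝕜 := ℂ) j).continuous.comp continuous_fst
  · exact (EuclideanSpace.proj (𝕜 := ℂ) j).continuous.comp continuous_snd

theorem continuous_grad (Q : MvPolynomial (Fin (N + 1)) ℂ) : Continuous (grad Q) := by
  refine continuous_pi fun i => ?_
  refine (MvPolynomial.continuous_eval (pderiv i Q)).comp (continuous_pi fun j => ?_)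
  exact (EuclideanSpace.proj (𝕜 := ℂ) j).continuous

theorem continuous_ev (Q : MvPolynomial (Fin (N + 1)) ℂ) : Continuous (ev Q) :=
  (MvPolynomial.continuous_eval Q).comp (continuous_pi fun j => (EuclideanSpace.proj (𝕜 := ℂ) j).continuous)

theorem analyticAt_dq {E : Type*} [NormedAddCommGroup E] [NormedSpace ℂ E] (Q : MvPolynomial (Fin (N + 1)) ℂ)
    {F G : E → EN N} {p : E} (hF : AnalyticAt ℂ F p) (hG : AnalyticAt ℂ G p) (i : Fin (N + 1)) :
    AnalyticAt ℂ (fun z => dq Q (F z) (G z) i) p := by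
  have h := analyticAt_eval (p := p) (f := fun (j : Fin (N + 1) ⊕ Fin (N + 1)) (z : E) =>
    Sum.elim (fun j => F z j) (fun j => G z j) j) (fun j => by
      rcases j with j | j
      · exact analyticAt_apply hF j
      · exact analyticAt_apply hG j) (dqP Q i)
  exact h

theorem analyticAt_grad {E : Type*} [NormedAddCommGroup E] [NormedSpace ℂ E] (Q : MvPolynomial (Fin (N + 1)) ℂ)
    {F : E → EN N} {p : E} (hF : AnalyticAt ℂ F p) (i : Fin (N + 1)) : AnalyticAt ℂ (fun z => grad Q (F z) i) p :=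
  analyticAt_eval (fun j => analyticAt_apply hF j) (pderiv i Q)

theorem analyticAt_ev {E : Type*} [NormedAddCommGroup E] [NormedSpace ℂ E] (Q : MvPolynomial (Fin (N + 1)) ℂ)
    {F : E → EN N} {p : E} (hF : AnalyticAt ℂ F p) : AnalyticAt ℂ (fun z => ev Q (F z)) p :=
  analyticAt_eval (fun j => analyticAt_apply hF j) Q

theorem ev_smul {Q : MvPolynomial (Fin (N + 1)) ℂ} {d : ℕ} (hQ : Q.IsHomogeneous d) (c : ℂ) (x : EN N) :
    ev Q (c • x) = c ^ d * ev Q x := by
  rw [ev, ev, ← eval_smul_hom hQ]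
  rfl

theorem grad_smul {Q : MvPolynomial (Fin (N + 1)) ℂ} {d : ℕ} (hd : 1 ≤ d) (hQ : Q.IsHomogeneous d) (c : ℂ) (x : EN N) :
    grad Q (c • x) = c ^ (d - 1) • grad Q x := by
  rw [← dq_self hd hQ, ← dq_self hd hQ, dq_smul hd hQ]

/-- Euler's formula -/
theorem dt_self_grad {Q : MvPolynomial (Fin (N + 1)) ℂ} {d : ℕ} (hQ : Q.IsHomogeneous d) (x : EN N) :
    dt (fun i => x i) (grad Q x) = d * ev Q x := by
  have h := hQ.sum_X_mul_pderiv
  have h1 := congrArg (eval fun j => x j) h
  simpa [dt, grad_apply, ev] using h1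

theorem hasDerivAt_eval {ι : Type*} [Fintype ι] {f : ι → ℂ → ℂ} {f' : ι → ℂ} {z : ℂ} (hf : ∀ i, HasDerivAt (f i) (f' i) z)
    (P : MvPolynomial ι ℂ) :
    HasDerivAt (fun w => eval (fun i => f i w) P) (∑ i, f' i * eval (fun i => f i z) (pderiv i P)) z := by
  classical
  induction P using MvPolynomial.induction_on with
  | C a =>
    simp only [eval_C, pderiv_C, map_zero, mul_zero, Finset.sum_const_zero]
    exact hasDerivAt_const z a
  | add p q hp hq =>
    simp only [map_add, mul_add, Finset.sum_add_distrib]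
    exact hp.add hq
  | mul_X p i hp =>
    have h1 := hp.mul (hf i)
    simp only [map_mul, eval_X]
    refine h1.congr_deriv ?_
    simp only [Derivation.leibniz, smul_eq_mul, map_add, map_mul, eval_X, pderiv_X, mul_add, Finset.sum_add_distrib]
    rw [add_comm]
    congr 1
    · rw [Finset.sum_eq_single i]
      · simp [mul_comm]
      · intro j _ hj
        simp [hj]
      · simp
    · rw [Finset.sum_mul]
      exact Finset.sum_congr rfl fun j _ => by ring

/-- the chain rule -/
theorem hasDerivAt_ev (Q : MvPolynomial (Fin (N + 1)) ℂ) {F : ℂ → EN N} {F' : EN N} {z : ℂ} (hF : HasDerivAt F F' z) :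
    HasDerivAt (fun w => ev Q (F w)) (dt (fun i => F' i) (grad Q (F z))) z := by
  have h1 : ∀ i, HasDerivAt (fun w => F w i) (F' i) z := fun i =>
    ((EuclideanSpace.proj (𝕜 := ℂ) i : EN N →L[ℂ] ℂ).hasFDerivAt.comp_hasDerivAt z hF)
  exact hasDerivAt_eval h1 Q

end Pool.Agent.TC
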