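import Mathlib

/-!
# TC GKChain: a derivation of `ℂ` applied to the coefficients of a polynomial, chain rule
-/

set_option autoImplicit false

open Polynomial

namespace Pool.Agent.TC

/-- the derivation `D` of `ℂ` applied to the coefficients of a polynomial -/
noncomputable def cD (D : Derivation ℚ ℂ ℂ) (p : ℂ[X]) : ℂ[X] := ∑ i ∈ p.support, monomial i (D (p.coeff i))

theorem coeff_cD (D : Derivation ℚ ℂ ℂ) (p : ℂ[X]) (n : ℕ) : (cD D p).coeff n = D (p.coeff n) := by
  classical
  unfold cD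
  rw [finsetSum_coeff]
  simp only [coeff_monomial]
  rw [Finset.sum_ite_eq']
  split_ifs with h
  · rfl
  · rw [notMem_support_iff.1 h, map_zero]

theorem cD_add (D : Derivation ℚ ℂ ℂ) (p q : ℂ[X]) : cD D (p + q) = cD D p + cD D q := by
  ext n
  rw [coeff_add, coeff_cD, coeff_cD, coeff_cD, coeff_add, map_add]

theorem cD_mul (D : Derivation ℚ ℂ ℂ) (p q : ℂ[X]) : cD D (p * q) = p * cD D q + q * cD D p := by
  ext n
  rw [coeff_cD, coeff_add, coeff_mul, coeff_mul, mul_comm q, coeff_mul, map_sum, ← Finset.sum_add_distrib]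
  refine Finset.sum_congr rfl fun ij _ => ?_
  rw [coeff_cD, coeff_cD, Derivation.leibniz, smul_eq_mul, smul_eq_mul]
  ring

theorem cD_C (D : Derivation ℚ ℂ ℂ) (a : ℂ) : cD D (C a) = C (D a) := by
  ext n
  rw [coeff_cD, coeff_C, coeff_C]
  split_ifs
  · rfl
  · exact map_zero D

theorem cD_C_mul_X_pow (D : Derivation ℚ ℂ ℂ) (a : ℂ) (k : ℕ) : cD D (C a * X ^ k) = C (D a) * X ^ k := by
  ext n
  rw [coeff_cD, coeff_C_mul_X_pow, coeff_C_mul_X_pow]
  split_ifs
  · rfl
  · exact map_zero D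

theorem natDegree_cD_le (D : Derivation ℚ ℂ ℂ) (p : ℂ[X]) : (cD D p).natDegree ≤ p.natDegree := by
  rw [natDegree_le_iff_coeff_eq_zero]
  intro n hn
  rw [coeff_cD, coeff_eq_zero_of_natDegree_lt hn, map_zero]

theorem cD_sub_der (D D' : Derivation ℚ ℂ ℂ) (p : ℂ[X]) : cD (D - D') p = cD D p - cD D' p := by
  ext n
  rw [coeff_cD, coeff_sub, coeff_cD, coeff_cD, Derivation.sub_apply]

theorem cD_add_der (D D' : Derivation ℚ ℂ ℂ) (p : ℂ[X]) : cD (D + D') p = cD D p + cD D' p := by
  ext n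
  rw [coeff_cD, coeff_add, coeff_cD, coeff_cD, Derivation.add_apply]

theorem cD_smul_der (a : ℂ) (D : Derivation ℚ ℂ ℂ) (p : ℂ[X]) : cD (a • D) p = C a * cD D p := by
  ext n
  rw [coeff_cD, coeff_C_mul, coeff_cD, Derivation.smul_apply, smul_eq_mul]

/-- the derivation `D` of `ℂ` applied to the coefficients of a polynomial in several variables -/
noncomputable def mD {σ : Type} (D : Derivation ℚ ℂ ℂ) (F : MvPolynomial σ ℂ) : MvPolynomial σ ℂ :=
  ∑ β ∈ F.support, MvPolynomial.monomial β (D (MvPolynomial.coeff β F))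

theorem coeff_mD {σ : Type} (D : Derivation ℚ ℂ ℂ) (F : MvPolynomial σ ℂ) (β : σ →₀ ℕ) :
    MvPolynomial.coeff β (mD D F) = D (MvPolynomial.coeff β F) := by
  classical
  unfold mD
  rw [MvPolynomial.coeff_sum]
  simp only [MvPolynomial.coeff_monomial]
  rw [Finset.sum_ite_eq']
  split_ifs with h
  · rfl
  · rw [MvPolynomial.notMem_support_iff.1 h, map_zero]

theorem mD_add {σ : Type} (D : Derivation ℚ ℂ ℂ) (F G : MvPolynomial σ ℂ) : mD D (F + G) = mD D F + mD D G := by
  ext β
  rw [MvPolynomial.coeff_add, coeff_mD, coeff_mD, coeff_mD, MvPolynomial.coeff_add, map_add]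

theorem mD_C {σ : Type} (D : Derivation ℚ ℂ ℂ) (a : ℂ) : mD D (MvPolynomial.C a : MvPolynomial σ ℂ) = MvPolynomial.C (D a) := by
  classical
  ext β
  rw [coeff_mD, MvPolynomial.coeff_C, MvPolynomial.coeff_C]
  split_ifs
  · rfl
  · exact map_zero D

theorem mD_mul_X {σ : Type} (D : Derivation ℚ ℂ ℂ) (F : MvPolynomial σ ℂ) (i : σ) :
    mD D (F * MvPolynomial.X i) = mD D F * MvPolynomial.X i := by
  classical
  ext β
  rw [coeff_mD, MvPolynomial.coeff_mul_X', MvPolynomial.coeff_mul_X']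
  split_ifs
  · rw [coeff_mD]
  · exact map_zero D

/-- the chain rule -/
theorem der_aeval {A : Type} [CommRing A] [Algebra ℂ A] {n : ℕ} (D : Derivation ℚ ℂ ℂ) {δ : A → A} (hadd : ∀ a b, δ (a + b) = δ a + δ b)
    (hmul : ∀ a b, δ (a * b) = a * δ b + b * δ a) (hC : ∀ c : ℂ, δ (algebraMap ℂ A c) = algebraMap ℂ A (D c))
    (F : MvPolynomial (Fin n) ℂ) (x : Fin n → A) :
    δ (MvPolynomial.aeval x F) = MvPolynomial.aeval x (mD D F) + ∑ j, MvPolynomial.aeval x (MvPolynomial.pderiv j F) * δ (x j) := by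
  classical
  induction F using MvPolynomial.induction_on with
  | C a =>
    rw [mD_C, MvPolynomial.aeval_C, MvPolynomial.aeval_C, hC]
    simp
  | add p q hp hq =>
    rw [map_add, hadd, hp, hq, mD_add, map_add]
    simp only [map_add, add_mul, Finset.sum_add_distrib]
    ring
  | mul_X p i hp =>
    rw [map_mul, MvPolynomial.aeval_X, hmul, hp, mD_mul_X, map_mul, MvPolynomial.aeval_X]
    have h1 : ∀ j, MvPolynomial.aeval x (MvPolynomial.pderiv j (p * MvPolynomial.X i)) * δ (x j) =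
        x i * (MvPolynomial.aeval x (MvPolynomial.pderiv j p) * δ (x j)) + (if j = i then MvPolynomial.aeval x p * δ (x j) else 0) := by
      intro j
      rw [Derivation.leibniz, MvPolynomial.pderiv_X, smul_eq_mul, smul_eq_mul, map_add, map_mul, map_mul, MvPolynomial.aeval_X]
      by_cases hj : j = i
      · subst hj
        rw [if_pos rfl, Pi.single_eq_same, map_one]
        ring
      · rw [if_neg hj, Pi.single_eq_of_ne (Ne.symm hj), map_zero]
        ring
    rw [Finset.sum_congr rfl fun j _ => h1 j, Finset.sum_add_distrib, ← Finset.mul_sum, Finset.sum_ite_eq', if_pos (Finset.mem_univ _)]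
    ring

end Pool.Agent.TC
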