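import Pool.Agent.TC.GKDer
import Pool.Agent.TC.GKChain

/-!
# TC GKGen: pairs of forms whose coefficients are algebraically independent over `ℚ`
-/

set_option autoImplicit false

open MvPolynomial

namespace Pool.Agent.TC

/-- The coefficients of the two forms (of degrees `d 0`, `d 1`) are algebraically independent over `ℚ`. -/
def Generic (d : Fin 2 → ℕ) (F : Fin 2 → MvPolynomial (Fin 3) ℂ) : Prop :=
  AlgebraicIndependent ℚ fun i : Σ m : Fin 2, {β : Fin 3 →₀ ℕ // β.degree = d m} => coeff i.2.1 (F i.1)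

variable {d : Fin 2 → ℕ} {F : Fin 2 → MvPolynomial (Fin 3) ℂ}

/-- every pair of forms is the derivative of the pair for some derivation of `ℂ` -/
theorem Generic.exists_der (hF : Generic d F) (hom : ∀ m, (F m).IsHomogeneous (d m)) (H : Fin 2 → MvPolynomial (Fin 3) ℂ)
    (hH : ∀ m, (H m).IsHomogeneous (d m)) : ∃ D : Derivation ℚ ℂ ℂ, ∀ m, mD D (F m) = H m := by
  obtain ⟨D, hD⟩ := exists_derivation hF fun i => coeff i.2.1 (H i.1)
  refine ⟨D, fun m => ?_⟩
  ext β
  rw [coeff_mD]
  by_cases hβ : β.degree = d m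
  · exact hD ⟨m, β, hβ⟩
  · rw [(hom m).coeff_eq_zero hβ, (hH m).coeff_eq_zero hβ, map_zero]

/-- the curves are smooth and meet transversally -/
theorem Generic.nc (hF : Generic d F) (hom : ∀ m, (F m).IsHomogeneous (d m)) {p : Fin 3 → ℂ} (hp : p ≠ 0) {a : Fin 2 → ℂ}
    (h0 : ∀ m, a m = 0 ∨ eval p (F m) = 0) (ha : ∀ j, ∑ m, a m * eval p (pderiv j (F m)) = 0) : a = 0 := by
  classical
  obtain ⟨o, ho⟩ : ∃ o, p o ≠ 0 := by
    by_contra hcon
    push Not at hcon
    exact hp (funext hcon)
  funext m
  obtain ⟨D, hD⟩ := hF.exists_der hom (fun l => if l = m then X o ^ d l else 0) (fun l => by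
    split_ifs
    · have := (isHomogeneous_X ℂ o).pow (d l)
      rwa [one_mul] at this
    · exact isHomogeneous_zero _ _ _)
  have h1 : ∀ l, a l * (eval p (mD D (F l)) + ∑ j, eval p (pderiv j (F l)) * D (p j)) = 0 := by
    intro l
    rcases h0 l with h | h
    · rw [h, zero_mul]
    · have h2 := der_aeval D (δ := fun z => D z) (fun a b => map_add D a b) (fun a b => by
        rw [Derivation.leibniz, smul_eq_mul, smul_eq_mul]) (fun c => rfl) (F l) p
      simp only [MvPolynomial.aeval_eq_eval] at h2
      rw [← h2, h, map_zero, mul_zero]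
  have h2 : ∑ l, a l * eval p (mD D (F l)) = 0 := by
    have h3 : ∑ l, a l * ∑ j, eval p (pderiv j (F l)) * D (p j) = 0 := by
      simp only [Finset.mul_sum]
      rw [Finset.sum_comm]
      refine Finset.sum_eq_zero fun j _ => ?_
      have h4 := ha j
      calc ∑ l, a l * (eval p (pderiv j (F l)) * D (p j)) = (∑ l, a l * eval p (pderiv j (F l))) * D (p j) := by
            rw [Finset.sum_mul]
            refine Finset.sum_congr rfl fun l _ => ?_
            ring
        _ = 0 := by rw [h4, zero_mul]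
    have h4 : ∑ l, a l * (eval p (mD D (F l)) + ∑ j, eval p (pderiv j (F l)) * D (p j)) = 0 := Finset.sum_eq_zero fun l _ => h1 l
    simp only [mul_add, Finset.sum_add_distrib] at h4
    rwa [h3, add_zero] at h4
  rw [Finset.sum_eq_single m] at h2
  · rw [hD] at h2
    simp only [if_pos, map_pow, eval_X] at h2
    exact (mul_eq_zero.1 h2).resolve_right (pow_ne_zero _ ho)
  · intro l _ hl
    rw [hD]
    simp only [if_neg hl, map_zero, mul_zero]
  · intro h
    exact absurd (Finset.mem_univ _) h

end Pool.Agent.TC
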