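import Pool.Agent.TC.GKAlg

/-!
# TC GKEnd: no polynomial curve with at most two places on a very general pair of plane curves of total degree at least five
-/

set_option autoImplicit false

open Polynomial

namespace Pool.Agent.TC

theorem coeff_X_mul_derivative (p : ℂ[X]) (n : ℕ) : (X * derivative p).coeff n = n * p.coeff n := by
  cases n with
  | zero => simp
  | succ n =>
    rw [coeff_X_mul, coeff_derivative]
    push_cast
    ring

/-- if the logarithmic Wronskian vanishes the polynomials are proportional -/
theorem prop_of_cross {p q : ℂ[X]} (h : p * (X * derivative q) = q * (X * derivative p)) (hp : p ≠ 0) : ∃ a : ℂ, q = C a * p := by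
  have hl : p.coeff p.natDegree ≠ 0 := by
    rw [coeff_natDegree]
    exact leadingCoeff_ne_zero.2 hp
  have hnd : ∀ r : ℂ[X], (X * derivative r).natDegree ≤ r.natDegree := by
    intro r
    rw [natDegree_le_iff_coeff_eq_zero]
    intro n hn
    rw [coeff_X_mul_derivative, coeff_eq_zero_of_natDegree_lt hn, mul_zero]
  have key : ∀ r : ℂ[X], r ≠ 0 → p * (X * derivative r) = r * (X * derivative p) → r.natDegree = p.natDegree := by
    intro r hr h1
    have h2 := congrArg (fun s : ℂ[X] => s.coeff (p.natDegree + r.natDegree)) h1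
    rw [coeff_mul_add_eq_of_natDegree_le le_rfl (hnd r), add_comm p.natDegree, coeff_mul_add_eq_of_natDegree_le le_rfl (hnd p),
      coeff_X_mul_derivative, coeff_X_mul_derivative] at h2
    have hr' : r.coeff r.natDegree ≠ 0 := by
      rw [coeff_natDegree]
      exact leadingCoeff_ne_zero.2 hr
    have h3 : ((r.natDegree : ℂ) - p.natDegree) * (p.coeff p.natDegree * r.coeff r.natDegree) = 0 := by
      linear_combination h2
    have h4 := (mul_eq_zero.1 h3).resolve_right (mul_ne_zero hl hr')
    exact_mod_cast sub_eq_zero.1 h4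
  refine ⟨q.coeff p.natDegree / p.coeff p.natDegree, ?_⟩
  by_contra hne
  obtain ⟨r, hr⟩ : ∃ r : ℂ[X], r = q - C (q.coeff p.natDegree / p.coeff p.natDegree) * p := ⟨_, rfl⟩
  have hr0 : r ≠ 0 := by
    intro h0
    rw [h0] at hr
    exact hne (sub_eq_zero.1 hr.symm)
  have h1 : p * (X * derivative r) = r * (X * derivative p) := by
    rw [hr, derivative_sub, derivative_mul, derivative_C, zero_mul, zero_add]
    linear_combination h
  have h2 := key r hr0 h1
  have h3 : r.coeff r.natDegree ≠ 0 := by
    rw [coeff_natDegree]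
    exact leadingCoeff_ne_zero.2 hr0
  apply h3
  rw [h2, hr, coeff_sub, coeff_C_mul, div_mul_cancel₀ _ hl, sub_self]

variable {d k : Fin 2 → ℕ} {c : Fin 2 → ℂ} {F : Fin 2 → MvPolynomial (Fin 3) ℂ} {x : Fin 3 → ℂ[X]} {M : ℕ}

theorem Crv.prop (h : Crv d k c F x M) (h5 : 5 ≤ d 0 + d 1) (hM : 1 ≤ M) (hF : Generic d F) :
    ∃ (p : ℂ[X]) (v : Fin 3 → ℂ), ∀ i, x i = C (v i) * p := by
  have h0 := h.cross_zero h5 hM hF 0
  have h1 := h.cross_zero h5 hM hF 1
  have h2 := h.cross_zero h5 hM hF 2
  unfold det3 at h0 h1 h2
  rw [Pi.single_eq_same, Pi.single_eq_of_ne (by decide), Pi.single_eq_of_ne (by decide)] at h0 h1 h2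
  have e12 : x 1 * lx x 2 = x 2 * lx x 1 := by linear_combination h0
  have e02 : x 0 * lx x 2 = x 2 * lx x 0 := by linear_combination -h1
  have e01 : x 0 * lx x 1 = x 1 * lx x 0 := by linear_combination h2
  have key : ∀ i j : Fin 3, x i * (X * derivative (x j)) = x j * (X * derivative (x i)) := by
    intro i j
    fin_cases i <;> fin_cases j
    · rfl
    · exact e01
    · exact e02
    · exact e01.symm
    · rfl
    · exact e12
    · exact e02.symm
    · exact e12.symm
    · rfl
  obtain ⟨o, ho⟩ := h.low
  have hxo : x o ≠ 0 := by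
    intro h0
    rw [h0, coeff_zero] at ho
    exact ho rfl
  choose v hv using fun i => prop_of_cross (key o i) hxo
  exact ⟨x o, v, hv⟩

/-- **A very general pair of plane curves of total degree at least five: polynomial curves with at most two places on them are constant.** -/
theorem gk_alg (hF : Generic d F) (hom : ∀ m, (F m).IsHomogeneous (d m)) (pos : ∀ m, 1 ≤ d m) (h5 : 5 ≤ d 0 + d 1) :
    ∀ (x : Fin 3 → ℂ[X]) (k : Fin 2 → ℕ) (c : Fin 2 → ℂ), (∀ m, c m ≠ 0) →
      (∀ m, MvPolynomial.aeval x (F m) = C (c m) * X ^ k m) → ∃ (p : ℂ[X]) (v : Fin 3 → ℂ), ∀ i, x i = C (v i) * p := by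
  have hnc : ∀ p : Fin 3 → ℂ, p ≠ 0 → (MvPolynomial.eval p (F 0) = 0 ∨ MvPolynomial.eval p (F 1) = 0) →
      ∀ a : Fin 2 → ℂ, (∀ j, ∑ m, a m * MvPolynomial.eval p (MvPolynomial.pderiv j (F m)) = 0) → a = 0 := by
    intro p hp h0 a ha
    have he : ∀ m, ∑ j, p j * MvPolynomial.eval p (MvPolynomial.pderiv j (F m)) = d m * MvPolynomial.eval p (F m) := by
      intro m
      have h1 := congrArg (MvPolynomial.eval p) (hom m).sum_X_mul_pderiv
      rw [map_sum, map_nsmul, nsmul_eq_mul] at h1
      rw [← h1]
      refine Finset.sum_congr rfl fun j _ => ?_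
      rw [map_mul, MvPolynomial.eval_X]
    have h1 : ∑ m, a m * (d m * MvPolynomial.eval p (F m)) = 0 := by
      calc ∑ m, a m * (d m * MvPolynomial.eval p (F m)) = ∑ j, p j * ∑ m, a m * MvPolynomial.eval p (MvPolynomial.pderiv j (F m)) := by
            simp only [← he, Finset.mul_sum]
            rw [Finset.sum_comm]
            refine Finset.sum_congr rfl fun j _ => Finset.sum_congr rfl fun m _ => ?_
            ring
        _ = 0 := Finset.sum_eq_zero fun j _ => by rw [ha j, mul_zero]
    rw [Fin.sum_univ_two] at h1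
    have hd : ∀ m, (d m : ℂ) ≠ 0 := fun m => by
      have := pos m
      exact_mod_cast (by omega : d m ≠ 0)
    refine hF.nc hom hp (fun m => ?_) ha
    rcases h0 with h0 | h0
    · rw [h0, mul_zero, mul_zero, zero_add] at h1
      fin_cases m
      · exact Or.inr h0
      · rcases mul_eq_zero.1 h1 with h2 | h2
        · exact Or.inl h2
        · exact Or.inr ((mul_eq_zero.1 h2).resolve_left (hd 1))
    · rw [h0, mul_zero, mul_zero, add_zero] at h1
      fin_cases m
      · rcases mul_eq_zero.1 h1 with h2 | h2
        · exact Or.inl h2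
        · exact Or.inr ((mul_eq_zero.1 h2).resolve_left (hd 0))
      · exact Or.inr h0
  have key : ∀ (M : ℕ) (x : Fin 3 → ℂ[X]) (k : Fin 2 → ℕ) (c : Fin 2 → ℂ), (∀ i, (x i).natDegree ≤ M) → (∀ m, c m ≠ 0) →
      (∀ m, MvPolynomial.aeval x (F m) = C (c m) * X ^ k m) → ∃ (p : ℂ[X]) (v : Fin 3 → ℂ), ∀ i, x i = C (v i) * p := by
    intro M
    induction M with
    | zero =>
      intro x k c hx _ _
      refine ⟨1, fun i => (x i).coeff 0, fun i => ?_⟩
      rw [mul_one]
      exact eq_C_of_natDegree_le_zero (hx i)
    | succ M ih =>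
      intro x k c hx hc he
      by_cases hlow : ∃ i, (x i).coeff 0 ≠ 0
      · by_cases htop : ∃ i, (x i).coeff (M + 1) ≠ 0
        · exact Crv.prop (M := M + 1) ⟨hom, pos, he, hc, hx, hlow, htop, hnc⟩ h5 (by omega) hF
        · push Not at htop
          refine ih x k c (fun i => ?_) hc he
          rw [natDegree_le_iff_coeff_eq_zero]
          intro n hn
          rcases Nat.lt_or_ge (M + 1) n with h1 | h1
          · exact coeff_eq_zero_of_natDegree_lt (lt_of_le_of_lt (hx i) h1)
          · obtain rfl : n = M + 1 := by omega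
            exact htop i
      · push Not at hlow
        choose y hy using fun i => X_dvd_iff.2 (hlow i)
        have hy' : x = fun i => X * y i := funext hy
        -- the forms along `y`
        have h1 : ∀ m, X ^ d m * MvPolynomial.aeval y (F m) = C (c m) * X ^ k m := by
          intro m
          rw [← he m, hy']
          have h2 : ∀ {r : ℕ} {G : MvPolynomial (Fin 3) ℂ}, G.IsHomogeneous r →
              MvPolynomial.aeval (fun i => X * y i) G = X ^ r * MvPolynomial.aeval y G := by
            intro r G hG
            rw [MvPolynomial.aeval_def, MvPolynomial.aeval_def, MvPolynomial.eval₂_eq', MvPolynomial.eval₂_eq', Finset.mul_sum]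
            refine Finset.sum_congr rfl fun β hβ => ?_
            have h4 : ∑ i, β i = r := by
              have h5 : β.degree = r := by
                by_contra hne
                exact MvPolynomial.mem_support_iff.1 hβ (hG.coeff_eq_zero hne)
              rw [← h5]
              exact (Finsupp.degree_eq_sum β).symm
            simp only [mul_pow, Finset.prod_mul_distrib]
            rw [Finset.prod_pow_eq_pow_sum, h4]
            ring
          exact (h2 (hom m)).symm
        have h2 : ∀ m, d m ≤ k m := by
          intro m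
          have h3 : (X : ℂ[X]) ^ d m ∣ C (c m) * X ^ k m := ⟨_, (h1 m).symm⟩
          have h4 : (X : ℂ[X]) ^ d m ∣ X ^ k m := by
            rwa [mul_comm, IsUnit.dvd_mul_right (isUnit_C.2 (isUnit_iff_ne_zero.2 (hc m)))] at h3
          exact (pow_dvd_pow_iff X_ne_zero not_isUnit_X).1 h4
        have h3 : ∀ m, MvPolynomial.aeval y (F m) = C (c m) * X ^ (k m - d m) := by
          intro m
          have h4 : (X : ℂ[X]) ^ d m ≠ 0 := pow_ne_zero _ X_ne_zero
          refine mul_left_cancel₀ h4 ?_
          rw [h1 m]
          calc C (c m) * X ^ k m = C (c m) * X ^ (d m + (k m - d m)) := by rw [Nat.add_sub_cancel' (h2 m)]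
            _ = X ^ d m * (C (c m) * X ^ (k m - d m)) := by
              rw [pow_add]
              ring
        obtain ⟨p, v, hpv⟩ := ih y (fun m => k m - d m) c (fun i => by
          have h4 := hx i
          by_cases h5 : y i = 0
          · rw [h5, natDegree_zero]
            exact Nat.zero_le _
          · rw [hy i, natDegree_X_mul h5] at h4
            omega) hc h3
        refine ⟨X * p, v, fun i => ?_⟩
        rw [hy i, hpv i]
        ring
  intro x k c hc he
  exact key (Finset.univ.sup fun i => (x i).natDegree) x k c (fun i => Finset.le_sup (f := fun i => (x i).natDegree) (Finset.mem_univ i)) hc he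

end Pool.Agent.TC
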