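import Pool.Agent.TC.GKGen

/-!
# TC GKEx: very general pairs of forms exist
-/

set_option autoImplicit false

open MvPolynomial

namespace Pool.Agent.TC

theorem exists_algebraicIndependent (ι : Type) [Countable ι] : ∃ a : ι → ℂ, AlgebraicIndependent ℚ a := by
  obtain ⟨s, hs⟩ := exists_isTranscendenceBasis ℚ ℂ
  have hcard : Cardinal.mk ℂ = Cardinal.mk s := by
    have h1 := IsAlgClosed.cardinal_eq_cardinal_transcendence_basis_of_aleph0_lt _ hs Cardinal.mk_le_aleph0 (by
      rw [Cardinal.mk_complex]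
      exact Cardinal.aleph0_lt_continuum)
    rwa [Cardinal.lift_id, Cardinal.lift_id] at h1
  have hinf : Infinite s := by
    rw [Cardinal.infinite_iff, ← hcard, Cardinal.mk_complex]
    exact Cardinal.aleph0_le_continuum
  obtain ⟨f, hf⟩ := exists_injective_nat ι
  exact ⟨fun i => ((Infinite.natEmbedding s) (f i) : ℂ), hs.1.comp (fun i => Infinite.natEmbedding s (f i))
    fun i j h => hf ((Infinite.natEmbedding s).injective h)⟩

theorem exists_generic (d : Fin 2 → ℕ) : ∃ F : Fin 2 → MvPolynomial (Fin 3) ℂ, (∀ m, (F m).IsHomogeneous (d m)) ∧ Generic d F := by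
  classical
  obtain ⟨a, ha⟩ := exists_algebraicIndependent (Σ m : Fin 2, {β : Fin 3 →₀ ℕ // β.degree = d m})
  obtain ⟨c, hc⟩ : ∃ c : Fin 2 → (Fin 3 →₀ ℕ) → ℂ, ∀ m β, c m β = if h : β.degree = d m then a ⟨m, β, h⟩ else 0 := ⟨_, fun _ _ => rfl⟩
  have hfin : ∀ m, {β : Fin 3 →₀ ℕ | β.degree = d m}.Finite := by
    intro m
    refine Set.Finite.subset (Finset.finite_toSet (Finset.univ.finsuppAntidiag (d m))) ?_
    intro β hβ
    rw [Finset.mem_coe, Finset.mem_finsuppAntidiag]
    refine ⟨?_, Finset.subset_univ _⟩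
    rw [← Finsupp.degree_eq_sum]
    exact hβ
  have hcoef : ∀ m β, coeff β (∑ γ ∈ (hfin m).toFinset, monomial γ (c m γ)) = c m β := by
    intro m β
    rw [coeff_sum]
    simp only [coeff_monomial]
    rw [Finset.sum_ite_eq']
    split_ifs with h
    · rfl
    · rw [hc, dif_neg]
      rwa [Set.Finite.mem_toFinset] at h
  refine ⟨fun m => ∑ γ ∈ (hfin m).toFinset, monomial γ (c m γ), fun m => ?_, ?_⟩
  · refine IsHomogeneous.sum _ _ _ fun γ hγ => ?_
    rw [Set.Finite.mem_toFinset] at hγ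
    exact isHomogeneous_monomial _ hγ
  · unfold Generic
    have h1 : (fun i : Σ m : Fin 2, {β : Fin 3 →₀ ℕ // β.degree = d m} =>
        coeff i.2.1 (∑ γ ∈ (hfin i.1).toFinset, monomial γ (c i.1 γ))) = a := by
      funext i
      rw [hcoef, hc, dif_pos i.2.2]
    rw [h1]
    exact ha

end Pool.Agent.TC
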