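import Pool.Agent.H17LG.Point
import Pool.Agent.H17LG.Variety
import Pool.Agent.H62.FC.Defs

/-!
# TC Meet: a projective variety of positive dimension meets every hypersurface

Suppose that there is no such point `x`.  By the Nullstellensatz (`MvPolynomial.vanishingIdeal_zeroLocus_eq_radical` for the ideal `P ⊔ span {f}`, whose zero locus is contained in `{0}`) there is `M ≥ 1` with `X i ^ M ∈ P ⊔ span {f}` for all `i`; so every monomial of degree `≥ (N + 1) M` is in
`P ⊔ span {f}`, and by taking homogeneous components (`P` is homogeneous, `f` is a form of degree `d`): for every form `G` of degree `m ≥ (N + 1) M` there is a form `G'` of degree `m - d` (or `0` if `m < d`) with `G - f G' ∈ P`.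
Let `x : Fin (N + 1) → K`, `K = functionField P`, be the generic point of `exists_point_log` (`aeval x G = 0 ↔ G ∈ P` for forms; the quotients `x i / x j` generate `K`).  `f ∉ P` (otherwise all `X i ∈ P` up to powers, `x = 0`), so `aeval x f ≠ 0`.  Let `B ⊆ K` be the set of all `aeval x G / (aeval x f) ^ s`, `G` a form of
degree `d s`, `s ≥ 0`: a subalgebra over `ℂ`.  `B_s` = those with a fixed `s`: `B_s ⊆ B_(s+1)` (multiply by `f / f`), and `B_(s+1) ⊆ B_s` as soon as `d (s + 1) ≥ (N + 1) M` (`aeval x G = aeval x f * aeval x G'`).  So `B = B_s` for some `s`, which is finite dimensional over `ℂ` (`B_s` is the image of the finite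
dimensional space of the forms of degree `d s`).  So every element of `B` is algebraic over `ℂ`, hence in `ℂ` (`ℂ` is algebraically closed, `K` is a field).  Let `x j ≠ 0`: `x i * x j ^ (d - 1) / f x` and `x j ^ d / f x ≠ 0` are in `B`, so their quotient `x i / x j` is in `ℂ` for all `i`, so all `x i / x j` with `x j ≠ 0` are in `ℂ`, and
`K = ℂ`: contradiction to the existence of `k + 1 ≥ 1` algebraically independent elements.
-/

set_option autoImplicit false

open MvPolynomial
open Pool.Agent.H17LG.Variety (FunField)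
open Pool.Agent.H62.FC (Homog)

namespace Pool.Agent.TC

private lemma meet_alg {K : Type} [Field K] [Algebra ℂ K] {S : Set K} (h : IntermediateField.adjoin ℂ S = ⊤) :
    Algebra.IsAlgebraic (Algebra.adjoin ℂ S) K := by
  refine ⟨fun y => ?_⟩
  have hy : y ∈ IntermediateField.adjoin ℂ S := by rw [h]; trivial
  induction hy using IntermediateField.adjoin_induction with
  | mem y hy => exact isAlgebraic_algebraMap (⟨y, Algebra.subset_adjoin hy⟩ : Algebra.adjoin ℂ S)
  | algebraMap c => exact isAlgebraic_algebraMap (algebraMap ℂ (Algebra.adjoin ℂ S) c)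
  | add y y' _ _ h1 h2 => exact h1.add h2
  | inv y _ h1 => exact h1.inv
  | mul y y' _ _ h1 h2 => exact h1.mul h2

/-- a homogeneous component of a product with a form -/
private lemma meet_comp {N d : ℕ} {q f : MvPolynomial (Fin (N + 1)) ℂ} (hf : f.IsHomogeneous d) (m : ℕ) :
    homogeneousComponent (m + d) (q * f) = homogeneousComponent m q * f := by
  have h1 : ∀ i, homogeneousComponent (m + d) (homogeneousComponent i q * f) = if m = i then homogeneousComponent m q * f else 0 := by
    intro i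
    have h2 : homogeneousComponent i q * f ∈ homogeneousSubmodule (Fin (N + 1)) ℂ (i + d) :=
      (homogeneousComponent_isHomogeneous i q).mul hf
    rw [homogeneousComponent_of_mem h2]
    by_cases h : m = i
    · subst h
      simp
    · rw [if_neg h, if_neg (by omega)]
  conv_lhs => rw [← sum_homogeneousComponent q, Finset.sum_mul, map_sum]
  rw [Finset.sum_congr rfl fun i _ => h1 i, Finset.sum_ite_eq]
  split_ifs with h
  · rfl
  · rw [homogeneousComponent_eq_zero m q (by simpa using h), zero_mul]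

/-- forms of large degree are in the ideal -/
private lemma meet_mem {N : ℕ} {I : Ideal (MvPolynomial (Fin (N + 1)) ℂ)} {M : Fin (N + 1) → ℕ} (hM : ∀ i, X i ^ M i ∈ I)
    {m : ℕ} (hm : ∑ i, M i ≤ m) {G : MvPolynomial (Fin (N + 1)) ℂ} (hG : G.IsHomogeneous m) : G ∈ I := by
  rw [G.as_sum]
  refine Ideal.sum_mem _ fun s hs => ?_
  have h1 : ∑ i, s i = m := by
    have h2 := hG (mem_support_iff.1 hs)
    rw [Finsupp.weight_apply, Finsupp.sum_fintype] at h2
    · simpa using h2
    · simp
  obtain ⟨i, -, hi⟩ := Finset.exists_le_of_sum_le (s := Finset.univ) Finset.univ_nonempty (h1 ▸ hm)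
  have h3 : monomial s (coeff s G) = monomial (s - Finsupp.single i (M i)) (coeff s G) * X i ^ M i := by
    rw [X_pow_eq_monomial, monomial_mul, mul_one, tsub_add_cancel_of_le]
    rw [Finsupp.single_le_iff]
    exact hi
  rw [h3]
  exact Ideal.mul_mem_left _ _ (hM i)

private lemma meet_core {N : ℕ} (P : Ideal (MvPolynomial (Fin (N + 1)) ℂ)) [P.IsPrime] (hP : Homog P) {k : ℕ}
    (z : Fin (k + 1) → Pool.Agent.H17GT.functionField P) (hz : IsTranscendenceBasis ℂ z) {f : MvPolynomial (Fin (N + 1)) ℂ} {d : ℕ}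
    (hf : f.IsHomogeneous d) (hd : 1 ≤ d) :
    ∃ x : Fin (N + 1) → ℂ, x ≠ 0 ∧ (∀ R ∈ P, eval x R = 0) ∧ eval x f = 0 := by
  classical
  by_contra hcon
  push Not at hcon
  set I : Ideal (MvPolynomial (Fin (N + 1)) ℂ) := P ⊔ Ideal.span {f} with hI
  have hI1 : ∀ i, ∃ M : ℕ, (X i : MvPolynomial (Fin (N + 1)) ℂ) ^ M ∈ I := by
    intro i
    have h1 : (X i : MvPolynomial (Fin (N + 1)) ℂ) ∈ vanishingIdeal ℂ (zeroLocus ℂ I) := by
      rw [mem_vanishingIdeal_iff]
      intro y hy
      have hy0 : y = 0 := by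
        by_contra hne
        refine hcon y hne (fun R hR => ?_) ?_
        · have h2 := hy R (Ideal.mem_sup_left hR)
          rwa [aeval_eq_eval] at h2
        · have h2 := hy f (Ideal.mem_sup_right (Ideal.subset_span rfl))
          rwa [aeval_eq_eval] at h2
      rw [hy0, aeval_X]
      rfl
    rw [vanishingIdeal_zeroLocus_eq_radical] at h1
    exact h1
  choose M hM using hI1
  obtain ⟨x, hx, hgen, -, hFx, -, -⟩ := Pool.Agent.H17LG.exists_point_log P z hz
  obtain ⟨j, hj⟩ : ∃ j, x j ≠ 0 := by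
    by_contra h
    push Not at h
    exact hx (funext h)
  have hfx : aeval x f ≠ 0 := by
    intro h0
    have h1 : f ∈ P := (hFx d f hf).1 h0
    have h2 : I = P := by
      rw [hI, sup_eq_left, Ideal.span_le, Set.singleton_subset_iff]
      exact h1
    have h3 : (X j : MvPolynomial (Fin (N + 1)) ℂ) ∈ P := by
      have h4 := hM j
      rw [h2] at h4
      exact Ideal.IsPrime.mem_of_pow_mem ‹P.IsPrime› _ h4
    have h4 := (hFx 1 (X j) (isHomogeneous_X ℂ j)).2 h3
    rw [aeval_X] at h4
    exact hj h4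
  set m₀ : ℕ := ∑ i, M i with hm₀
  -- division by `f`
  have hdiv : ∀ G : MvPolynomial (Fin (N + 1)) ℂ, G.IsHomogeneous (m₀ + d) →
      ∃ G' : MvPolynomial (Fin (N + 1)) ℂ, G'.IsHomogeneous m₀ ∧ aeval x G = aeval x G' * aeval x f := by
    intro G hG
    have h1 : G ∈ I := meet_mem hM (by omega) hG
    obtain ⟨p, hp, g, hg, hpg⟩ := Submodule.mem_sup.1 h1
    obtain ⟨q, rfl⟩ := Ideal.mem_span_singleton'.1 hg
    refine ⟨homogeneousComponent m₀ q, homogeneousComponent_isHomogeneous m₀ q, ?_⟩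
    have h2 : G = homogeneousComponent (m₀ + d) p + homogeneousComponent m₀ q * f := by
      rw [← meet_comp hf, ← map_add, hpg, homogeneousComponent_eq_self hG]
    have h3 : aeval x (homogeneousComponent (m₀ + d) p) = 0 :=
      (hFx _ _ (homogeneousComponent_isHomogeneous _ p)).2 (hP p hp _)
    conv_lhs => rw [h2]
    rw [map_add, h3, zero_add, map_mul]
  set W : Submodule ℂ (Pool.Agent.H17GT.functionField P) :=
    (homogeneousSubmodule (Fin (N + 1)) ℂ m₀).map (aeval x : MvPolynomial (Fin (N + 1)) ℂ →ₐ[ℂ] _).toLinearMap with hW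
  have hWfg : W.FG := (homogeneousSubmodule_fg _ _ m₀).map _
  have hWne : W ≠ ⊥ := by
    intro h0
    have h1 : aeval x ((X j : MvPolynomial (Fin (N + 1)) ℂ) ^ m₀) ∈ W :=
      ⟨_, by simpa using (isHomogeneous_X ℂ j).pow m₀, rfl⟩
    rw [h0, Submodule.mem_bot, map_pow, aeval_X] at h1
    exact pow_ne_zero _ hj h1
  have hint : ∀ G : MvPolynomial (Fin (N + 1)) ℂ, G.IsHomogeneous d → IsAlgebraic ℂ (aeval x G / aeval x f) := by
    intro G hG
    have h1 : IsIntegral ℂ (aeval x G / aeval x f) := by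
      refine isIntegral_of_smul_mem_submodule W hWne hWfg _ ?_
      rintro _ ⟨H, hH, rfl⟩
      obtain ⟨G', hG', h2⟩ := hdiv (H * G) (IsHomogeneous.mul hH hG)
      refine ⟨G', hG', ?_⟩
      change aeval x G' = aeval x G / aeval x f * aeval x H
      rw [map_mul] at h2
      field_simp
      rw [← h2, mul_comm]
    exact h1.isAlgebraic
  have hratio : ∀ i l, IsAlgebraic ℂ (x i / x l) := by
    intro i l
    by_cases hl : x l = 0
    · rw [hl, div_zero]
      exact isAlgebraic_zero
    · obtain ⟨d', rfl⟩ : ∃ d', d = d' + 1 := ⟨d - 1, by omega⟩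
      have h1 := hint (X l ^ d' * X i) (by simpa using ((isHomogeneous_X ℂ l).pow d').mul (isHomogeneous_X ℂ i))
      have h2 := hint (X l ^ d' * X l) (by simpa using ((isHomogeneous_X ℂ l).pow d').mul (isHomogeneous_X ℂ l))
      have h3 : x i / x l = (aeval x (X l ^ d' * X i : MvPolynomial (Fin (N + 1)) ℂ) / aeval x f) *
          (aeval x (X l ^ d' * X l : MvPolynomial (Fin (N + 1)) ℂ) / aeval x f)⁻¹ := by
        simp only [map_mul, map_pow, aeval_X]
        field_simp
      rw [h3]
      exact h1.mul h2.inv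
  have htop : (⊤ : IntermediateField ℂ (Pool.Agent.H17GT.functionField P)) ≤
      algebraicClosure ℂ (Pool.Agent.H17GT.functionField P) := by
    rw [← hgen, IntermediateField.adjoin_le_iff]
    rintro y ⟨i, l, rfl⟩
    exact mem_algebraicClosure_iff.2 (hratio i l)
  exact hz.1.transcendental 0 (mem_algebraicClosure_iff.1 (htop (show z 0 ∈ (⊤ : IntermediateField ℂ _) from trivial)))

/-- a form in three variables is determined by its values on the plane `y 0 = 1` -/
private lemma meet_dehom {D : ℕ} {R : MvPolynomial (Fin 3) ℂ} (hR : R.IsHomogeneous D) (h0 : ∀ b c : ℂ, eval ![1, b, c] R = 0) : R = 0 := by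
  have h1 : X 0 * R = 0 := by
    apply MvPolynomial.funext
    intro a
    rw [map_mul, eval_X, map_zero]
    by_cases ha : a 0 = 0
    · rw [ha, zero_mul]
    · have h2 : eval a R = a 0 ^ D * eval ![1, a 1 / a 0, a 2 / a 0] R := by
        have h3 := Pool.Agent.H17GT.FormX.aeval_scale (K := ℂ) hR (a 0) ![1, a 1 / a 0, a 2 / a 0]
        rw [aeval_eq_eval, aeval_eq_eval] at h3
        rw [← h3]
        congr 2
        funext i
        fin_cases i
        · simp
        · simp; field_simp
        · simp; field_simp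
      rw [h2, h0, mul_zero, mul_zero]
  exact (mul_eq_zero.1 h1).resolve_left (X_ne_zero 0)

private lemma meet_triple {N : ℕ} (P : Ideal (MvPolynomial (Fin (N + 1)) ℂ)) [P.IsPrime]
    (z : Fin 2 → Pool.Agent.H17GT.functionField P) (hz : IsTranscendenceBasis ℂ z) :
    ∃ t : Fin 3 → Fin (N + 1), ∀ (D : ℕ) (R : MvPolynomial (Fin 3) ℂ), R.IsHomogeneous D → R ≠ 0 → rename t R ∉ P := by
  classical
  obtain ⟨x, hx, hgen, -, hFx, -, -⟩ := Pool.Agent.H17LG.exists_point_log (k := 1) P z hz
  obtain ⟨j, hj⟩ : ∃ j, x j ≠ 0 := by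
    by_contra h
    push Not at h
    exact hx (funext h)
  set S : Set (Pool.Agent.H17GT.functionField P) := Set.range fun i => x i / x j with hS
  have hStop : IntermediateField.adjoin ℂ S = ⊤ := by
    rw [eq_top_iff, ← hgen, IntermediateField.adjoin_le_iff]
    rintro y ⟨i, l, rfl⟩
    have h1 : x i / x l = (x i / x j) / (x l / x j) := by
      rw [div_div_div_cancel_right₀ hj]
    rw [h1]
    exact div_mem (IntermediateField.subset_adjoin _ _ ⟨i, rfl⟩) (IntermediateField.subset_adjoin _ _ ⟨l, rfl⟩)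
  haveI := meet_alg hStop
  obtain ⟨T, hTS, hT⟩ := exists_isTranscendenceBasis_subset (R := ℂ) S
  have hcard := hT.cardinalMk_eq hz
  obtain ⟨e⟩ := Cardinal.eq.1 hcard
  set v : Fin 2 → Pool.Agent.H17GT.functionField P := fun i => (e.symm i : Pool.Agent.H17GT.functionField P) with hv
  have hvind : AlgebraicIndependent ℂ v := hT.1.comp e.symm e.symm.injective
  have hva : ∀ i, ∃ a, x a / x j = v i := fun i => hTS (e.symm i).2
  choose a ha using hva
  refine ⟨![j, a 0, a 1], fun D R hR hR0 hmem => hR0 ?_⟩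
  have h1 : aeval x (rename ![j, a 0, a 1] R) = 0 := (hFx D _ hR.rename_isHomogeneous).2 hmem
  rw [aeval_rename] at h1
  have h2 : (x ∘ ![j, a 0, a 1]) = fun i => x j * (![1, v 0, v 1] : Fin 3 → _) i := by
    funext i
    fin_cases i
    · simp
    · simp [← ha 0]; field_simp
    · simp [← ha 1]; field_simp
  rw [h2, Pool.Agent.H17GT.FormX.aeval_scale hR] at h1
  have h3 : aeval (![1, v 0, v 1] : Fin 3 → Pool.Agent.H17GT.functionField P) R = 0 :=
    (mul_eq_zero.1 h1).resolve_left (pow_ne_zero _ hj)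
  set p : MvPolynomial (Fin 2) ℂ := aeval (![1, X 0, X 1] : Fin 3 → MvPolynomial (Fin 2) ℂ) R with hp
  have h4 : aeval v p = 0 := by
    have h5 : (aeval v).comp (aeval (![1, X 0, X 1] : Fin 3 → MvPolynomial (Fin 2) ℂ)) =
        (aeval (![1, v 0, v 1] : Fin 3 → Pool.Agent.H17GT.functionField P) : MvPolynomial (Fin 3) ℂ →ₐ[ℂ] _) := by
      apply MvPolynomial.algHom_ext
      intro i
      fin_cases i <;> simp
    have h6 := DFunLike.congr_fun h5 R
    rw [h3] at h6
    exact h6
  have h5 : p = 0 := hvind.eq_zero_of_aeval_eq_zero p h4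
  refine meet_dehom hR fun b c => ?_
  have h6 : (aeval (![b, c] : Fin 2 → ℂ)).comp (aeval (![1, X 0, X 1] : Fin 3 → MvPolynomial (Fin 2) ℂ)) =
      (aeval (![1, b, c] : Fin 3 → ℂ) : MvPolynomial (Fin 3) ℂ →ₐ[ℂ] ℂ) := by
    apply MvPolynomial.algHom_ext
    intro i
    fin_cases i <;> simp
  have h7 := DFunLike.congr_fun h6 R
  rw [aeval_eq_eval] at h7
  rw [← h7]
  change aeval (![b, c] : Fin 2 → ℂ) p = 0
  rw [h5, map_zero]

/-- the evaluation at the coordinate functions of the plane is injective -/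
private lemma meet_inj {H : MvPolynomial (Fin 3) ℂ} (h : aeval (Pool.Agent.H17GT.coordFun (⊥ : Ideal (MvPolynomial (Fin 3) ℂ))) H = 0) : H = 0 := by
  have h7 : aeval (Pool.Agent.H17GT.coordFun (⊥ : Ideal (MvPolynomial (Fin 3) ℂ))) H =
      algebraMap (MvPolynomial (Fin 3) ℂ ⧸ (⊥ : Ideal (MvPolynomial (Fin 3) ℂ)))
        (FractionRing (MvPolynomial (Fin 3) ℂ ⧸ (⊥ : Ideal (MvPolynomial (Fin 3) ℂ)))) (Ideal.Quotient.mk ⊥ H) := by
    have h8 : (aeval (Pool.Agent.H17GT.coordFun (⊥ : Ideal (MvPolynomial (Fin 3) ℂ))) : MvPolynomial (Fin 3) ℂ →ₐ[ℂ] _) =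
        (IsScalarTower.toAlgHom ℂ (MvPolynomial (Fin 3) ℂ ⧸ (⊥ : Ideal (MvPolynomial (Fin 3) ℂ)))
          (FractionRing (MvPolynomial (Fin 3) ℂ ⧸ (⊥ : Ideal (MvPolynomial (Fin 3) ℂ))))).comp (Ideal.Quotient.mkₐ ℂ ⊥) := by
      apply MvPolynomial.algHom_ext
      intro i
      rw [aeval_X]
      rfl
    rw [h8]
    rfl
  rw [h7] at h
  have h10 : Ideal.Quotient.mk (⊥ : Ideal (MvPolynomial (Fin 3) ℂ)) H = 0 :=
    (IsFractionRing.injective (MvPolynomial (Fin 3) ℂ ⧸ (⊥ : Ideal (MvPolynomial (Fin 3) ℂ)))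
      (FractionRing (MvPolynomial (Fin 3) ℂ ⧸ (⊥ : Ideal (MvPolynomial (Fin 3) ℂ))))) (by rw [h, map_zero])
  exact Ideal.Quotient.eq_zero_iff_mem.1 h10

private lemma meet_plane : ∃ z : Fin 2 → Pool.Agent.H17GT.functionField (⊥ : Ideal (MvPolynomial (Fin 3) ℂ)), IsTranscendenceBasis ℂ z := by
  classical
  set c := Pool.Agent.H17GT.coordFun (⊥ : Ideal (MvPolynomial (Fin 3) ℂ)) with hc
  have hc0 : c 0 ≠ 0 := by
    intro h0
    have h1 : (X 0 : MvPolynomial (Fin 3) ℂ) = 0 := meet_inj (by rw [aeval_X]; exact h0)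
    exact X_ne_zero 0 h1
  set v : Fin 2 → Pool.Agent.H17GT.functionField (⊥ : Ideal (MvPolynomial (Fin 3) ℂ)) :=
    fun i => Pool.Agent.H17LG.ratio ⊥ i.succ 0 with hv
  refine ⟨v, ?_⟩
  rw [isTranscendenceBasis_iff_algebraicIndependent_isAlgebraic]
  constructor
  · rw [algebraicIndependent_iff]
    intro p hp
    set D : ℕ := p.support.sup fun s => s 0 + s 1 with hD
    have hsD : ∀ s ∈ p.support, s 0 + s 1 ≤ D := fun s hs => Finset.le_sup (f := fun s : Fin 2 →₀ ℕ => s 0 + s 1) hs
    set H : MvPolynomial (Fin 3) ℂ := ∑ s ∈ p.support, C (coeff s p) * (X 0 ^ (D - (s 0 + s 1)) * (X 1 ^ s 0 * X 2 ^ s 1)) with hH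
    have h1 : aeval c H = 0 := by
      have h2 : aeval (fun i : Fin 2 => c i.succ / c 0) p = 0 := by
        have h3 := congrArg (Pool.Agent.H17GT.functionField (⊥ : Ideal (MvPolynomial (Fin 3) ℂ))).val hp
        rw [map_zero] at h3
        rw [← h3]
        have h4 : (Pool.Agent.H17GT.functionField (⊥ : Ideal (MvPolynomial (Fin 3) ℂ))).val (aeval v p) =
            aeval (fun i => (Pool.Agent.H17GT.functionField (⊥ : Ideal (MvPolynomial (Fin 3) ℂ))).val (v i)) p := by
          rw [← MvPolynomial.comp_aeval]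
          rfl
        rw [h4]
        rfl
      have h3 : aeval c H = c 0 ^ D * aeval (fun i : Fin 2 => c i.succ / c 0) p := by
        rw [hH, map_sum, aeval_def (p := p), eval₂_eq', Finset.mul_sum]
        refine Finset.sum_congr rfl fun s hs => ?_
        rw [map_mul, map_mul, map_mul, map_pow, map_pow, map_pow, aeval_X, aeval_X, aeval_X, aeval_C, Fin.prod_univ_two]
        have h5 : c 0 ^ D = c 0 ^ (D - (s 0 + s 1)) * (c 0 ^ s 0 * c 0 ^ s 1) := by
          rw [← pow_add, ← pow_add, Nat.sub_add_cancel (hsD s hs)]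
        change _ = c 0 ^ D * (_ * ((c 1 / c 0) ^ s 0 * (c 2 / c 0) ^ s 1))
        rw [h5, div_pow, div_pow]
        have h6 : c 0 ^ s 0 ≠ 0 := pow_ne_zero _ hc0
        have h7 : c 0 ^ s 1 ≠ 0 := pow_ne_zero _ hc0
        field_simp
      rw [h3, h2, mul_zero]
    have h2 : H = 0 := meet_inj h1
    have h3 : aeval (![1, X 0, X 1] : Fin 3 → MvPolynomial (Fin 2) ℂ) H = p := by
      rw [hH, map_sum]
      conv_rhs => rw [p.as_sum]
      refine Finset.sum_congr rfl fun s _ => ?_
      rw [map_mul, map_mul, map_mul, map_pow, map_pow, map_pow, aeval_X, aeval_X, aeval_X, aeval_C, monomial_eq,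
        Finsupp.prod_fintype _ _ (by simp), Fin.prod_univ_two]
      simp [MvPolynomial.algebraMap_eq]
    rw [← h3, h2, map_zero]
  · apply meet_alg
    have hgen : IntermediateField.adjoin ℂ {y : Pool.Agent.H17GT.functionField (⊥ : Ideal (MvPolynomial (Fin 3) ℂ)) |
        ∃ i j, y = Pool.Agent.H17LG.ratio ⊥ i j} = ⊤ := by
      rw [← IntermediateField.lift_inj, IntermediateField.lift_adjoin, IntermediateField.lift_top]
      conv_rhs => rw [Pool.Agent.H17GT.functionField]
      congr 1
      ext y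
      constructor
      · rintro ⟨y', ⟨i, j, rfl⟩, rfl⟩
        exact ⟨i, j, rfl⟩
      · rintro ⟨i, j, rfl⟩
        exact ⟨Pool.Agent.H17LG.ratio ⊥ i j, ⟨i, j, rfl⟩, rfl⟩
    rw [eq_top_iff, ← hgen, IntermediateField.adjoin_le_iff]
    rintro y ⟨i, j, rfl⟩
    have h0 : ∀ i, Pool.Agent.H17LG.ratio (⊥ : Ideal (MvPolynomial (Fin 3) ℂ)) i 0 ∈ IntermediateField.adjoin ℂ (Set.range v) := by
      intro i
      refine Fin.cases ?_ (fun i => ?_) i
      · have h1 : Pool.Agent.H17LG.ratio (⊥ : Ideal (MvPolynomial (Fin 3) ℂ)) 0 0 = 1 := by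
          apply Subtype.ext
          exact div_self hc0
        rw [h1]
        exact one_mem _
      · exact IntermediateField.subset_adjoin _ _ ⟨i, rfl⟩
    have h1 : Pool.Agent.H17LG.ratio (⊥ : Ideal (MvPolynomial (Fin 3) ℂ)) i j =
        Pool.Agent.H17LG.ratio ⊥ i 0 / Pool.Agent.H17LG.ratio ⊥ j 0 := by
      apply Subtype.ext
      change c i / c j = (c i / c 0) / (c j / c 0)
      rw [div_div_div_cancel_right₀ hc0]
    rw [h1]
    exact div_mem (h0 i) (h0 j)

theorem exists_meet {N : ℕ} (P : Ideal (MvPolynomial (Fin (N + 1)) ℂ)) [P.IsPrime] (hP : Homog P) {k : ℕ}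
    (hz : ∃ z : Fin (k + 1) → FunField P, IsTranscendenceBasis ℂ z) {f : MvPolynomial (Fin (N + 1)) ℂ} {d : ℕ} (hf : f.IsHomogeneous d) (hd : 1 ≤ d) :
    ∃ x : Fin (N + 1) → ℂ, x ≠ 0 ∧ (∀ R ∈ P, eval x R = 0) ∧ eval x f = 0 := by
  obtain ⟨z, hz⟩ := hz
  exact meet_core P hP (k := k) z hz hf hd

/-- three coordinates which are algebraically independent in the graded sense.  `K = FunField P` is generated by the ratios `x i / x j` for a fixed `j` with `coordFun P j ≠ 0` (`ratio P i j`), so two of them, `x a / x j` and `x b / x j`, form a transcendence basis (`exists_isTranscendenceBasis_subset` or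
similar, and the cardinality `2`).  `t = ![j, a, b]`.  If `R ≠ 0` is a form of degree `D` in three variables with `rename t R ∈ P`, then `0 = aeval (coordFun) ... = (x j) ^ D * R (1, x a / x j, x b / x j)`, and the dehomogenised polynomial `R (1, Y, Z)` is not zero: contradiction. -/
theorem exists_triple {N : ℕ} (P : Ideal (MvPolynomial (Fin (N + 1)) ℂ)) [P.IsPrime] (hP : Homog P)
    (hz : ∃ z : Fin 2 → FunField P, IsTranscendenceBasis ℂ z) :
    ∃ t : Fin 3 → Fin (N + 1), ∀ (D : ℕ) (R : MvPolynomial (Fin 3) ℂ), R.IsHomogeneous D → R ≠ 0 → rename t R ∉ P := by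
  obtain ⟨z, hz⟩ := hz
  exact meet_triple P z hz

/-- the projective plane -/
theorem plane_dim : ∃ z : Fin 2 → FunField (⊥ : Ideal (MvPolynomial (Fin 3) ℂ)), IsTranscendenceBasis ℂ z := by
  exact meet_plane

end Pool.Agent.TC
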