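import Mathlib

/-!
# TC Mean: entire functions whose real part has quadratic mean growth are polynomials of degree at most two

For `k ≥ 1`, `r > 0` let `a_k` be the `k`-th Taylor coefficient of `q` at `0`.  With `z = r exp (i θ)`: `a_k r^k = mean (q z exp (-i k θ))` (Cauchy's formula; e.g. `circleAverage` or `circleIntegral` form, see
`H62/EF/AffB.lean` = /team-store/ef_AffB.lean for the same kind of proof), and `0 = mean (conj (q z) exp (-i k θ))`, the conjugate of `mean (q z exp (i k θ)) = r^(-k) mean (q z z^k) = 0` (the mean of the holomorphic function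
`q z z^k` over the circle is its value at `0`).  The sum: `a_k r^k = 2 mean (Re (q z) exp (-i k θ))`, so `|a_k| r^k ≤ 2 mean |Re q| ≤ 2 A (1 + r²)`.  For `k ≥ 3` let `r → ∞`: `a_k = 0`.
-/

set_option autoImplicit false

open Topology Filter Metric

namespace Pool.Agent.TC

theorem quad_of_mean {q : ℂ → ℂ} (hq : Differentiable ℂ q) {A : ℝ}
    (hA : ∀ r : ℝ, 0 < r → Real.circleAverage (fun z => |(q z).re|) 0 r ≤ A * (1 + r ^ 2)) :
    ∃ a b c : ℂ, ∀ z, q z = a * z ^ 2 + b * z + c := by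
  have hp : HasFPowerSeriesOnBall q (cauchyPowerSeries q 0 ((1 : NNReal) : ℝ)) 0 ⊤ :=
    hq.hasFPowerSeriesOnBall (R := 1) 0 one_pos
  set p := cauchyPowerSeries q 0 ((1 : NNReal) : ℝ) with hpdef
  have hcont : Continuous q := hq.continuous
  -- Cauchy's formula for the coefficients
  have hcoef : ∀ (k : ℕ) (R : ℝ), 0 < R →
      p k (fun _ => 1) = Real.circleAverage (fun z => (z⁻¹) ^ k * q z) 0 R := by
    intro k R hR
    have hq' : HasFPowerSeriesOnBall q (cauchyPowerSeries q 0 ((⟨R, hR.le⟩ : NNReal) : ℝ)) 0 ⊤ :=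
      hq.hasFPowerSeriesOnBall (R := ⟨R, hR.le⟩) 0 hR
    have heq : p = cauchyPowerSeries q 0 R :=
      hp.hasFPowerSeriesAt.eq_formalMultilinearSeries hq'.hasFPowerSeriesAt
    rw [heq, cauchyPowerSeries_apply, Real.circleAverage_eq_circleIntegral hR.ne']
    congr 1
    apply circleIntegral.integral_congr hR.le
    intro z _
    simp only [sub_zero, one_div, smul_eq_mul]
    ring
  -- the conjugate part
  have hconj : ∀ (k : ℕ) (R : ℝ), 1 ≤ k → 0 < R →
      Real.circleAverage (fun z => (z⁻¹) ^ k * (starRingEnd ℂ) (q z)) 0 R = 0 := by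
    intro k R hk hR
    have h1 : Real.circleAverage (fun z => z ^ k * q z) 0 R = 0 := by
      have hd : Differentiable ℂ (fun z : ℂ => z ^ k * q z) := (differentiable_id.pow k).mul hq
      rw [hd.diffContOnCl.circleAverage, zero_pow (by omega), zero_mul]
    have h2 : Real.circleAverage ((Complex.conjCLE : ℂ →L[ℝ] ℂ) ∘ fun z => z ^ k * q z) 0 R = 0 := by
      rw [ContinuousLinearMap.circleAverage_comp_comm, h1, map_zero]
      exact (((continuous_id.pow k).mul hcont).continuousOn).circleIntegrable hR.le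
    have h3 : Real.circleAverage (fun z => ((R : ℂ) ^ 2) ^ k * ((z⁻¹) ^ k * (starRingEnd ℂ) (q z))) 0 R = 0 := by
      refine Eq.trans ?_ h2
      apply Real.circleAverage_congr_sphere
      intro z hz
      rw [mem_sphere_zero_iff_norm, abs_of_pos hR] at hz
      have hz0 : z ≠ 0 := by
        rw [← norm_pos_iff, hz]
        exact hR
      have h4 : (starRingEnd ℂ) z = (R : ℂ) ^ 2 * z⁻¹ := by
        rw [eq_mul_inv_iff_mul_eq₀ hz0, mul_comm, Complex.mul_conj, Complex.normSq_eq_norm_sq, hz]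
        push_cast
        rfl
      simp only [Function.comp_apply, ContinuousLinearEquiv.coe_coe, Complex.conjCLE_apply, map_mul, map_pow]
      rw [h4]
      ring
    have h5 : Real.circleAverage (fun z => ((R : ℂ) ^ 2) ^ k * ((z⁻¹) ^ k * (starRingEnd ℂ) (q z))) 0 R =
        ((R : ℂ) ^ 2) ^ k * Real.circleAverage (fun z => (z⁻¹) ^ k * (starRingEnd ℂ) (q z)) 0 R :=
      Real.circleAverage_fun_smul (a := ((R : ℂ) ^ 2) ^ k) (f := fun z => (z⁻¹) ^ k * (starRingEnd ℂ) (q z))
    rw [h5] at h3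
    have h6 : ((R : ℂ) ^ 2) ^ k ≠ 0 := pow_ne_zero _ (pow_ne_zero _ (by exact_mod_cast hR.ne'))
    exact (mul_eq_zero.mp h3).resolve_left h6
  -- the bound
  have hbd : ∀ (k : ℕ) (R : ℝ), 1 ≤ k → 0 < R → ‖p k (fun _ => 1)‖ ≤ 2 * (A * (1 + R ^ 2)) * (R⁻¹) ^ k := by
    intro k R hk hR
    have hco : ContinuousOn (fun z : ℂ => (z⁻¹) ^ k) (sphere 0 R) := by
      apply ContinuousOn.pow
      apply ContinuousOn.inv₀ continuousOn_id
      intro z hz
      rw [mem_sphere_zero_iff_norm] at hz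
      rw [id, ← norm_pos_iff, hz]
      exact hR
    have hi1 : CircleIntegrable (fun z => (z⁻¹) ^ k * q z) 0 R :=
      (hco.mul hcont.continuousOn).circleIntegrable hR.le
    have hi2 : CircleIntegrable (fun z => (z⁻¹) ^ k * (starRingEnd ℂ) (q z)) 0 R :=
      (hco.mul (Complex.continuous_conj.comp hcont).continuousOn).circleIntegrable hR.le
    have h1 : p k (fun _ => 1) = Real.circleAverage (fun z => (z⁻¹) ^ k * ((2 * (q z).re : ℝ) : ℂ)) 0 R := by
      have h2 : (fun z => (z⁻¹) ^ k * ((2 * (q z).re : ℝ) : ℂ)) =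
          fun z => (z⁻¹) ^ k * q z + (z⁻¹) ^ k * (starRingEnd ℂ) (q z) := by
        funext z
        rw [← Complex.add_conj, mul_add]
      rw [h2, Real.circleAverage_fun_add hi1 hi2, hconj k R hk hR, add_zero, hcoef k R hR]
    rw [h1, Real.circleAverage_def]
    have hpi : (0:ℝ) < (2 * Real.pi)⁻¹ := by positivity
    rw [norm_smul, Real.norm_of_nonneg hpi.le]
    have h3 : ‖∫ θ : ℝ in (0:ℝ)..2 * Real.pi, (circleMap 0 R θ)⁻¹ ^ k * ((2 * (q (circleMap 0 R θ)).re : ℝ) : ℂ)‖ ≤
        ∫ θ : ℝ in (0:ℝ)..2 * Real.pi, (2 * (R⁻¹) ^ k) * |(q (circleMap 0 R θ)).re| := by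
      refine (intervalIntegral.norm_integral_le_integral_norm (by positivity)).trans_eq ?_
      apply intervalIntegral.integral_congr
      intro θ _
      simp only
      rw [norm_mul, norm_pow, norm_inv, norm_circleMap_zero, abs_of_pos hR, Complex.norm_real, Real.norm_eq_abs, abs_mul,
        abs_of_pos (by norm_num : (0:ℝ) < 2)]
      ring
    rw [intervalIntegral.integral_const_mul] at h3
    have h4 := hA R hR
    rw [Real.circleAverage_def, smul_eq_mul] at h4
    calc (2 * Real.pi)⁻¹ * ‖∫ θ : ℝ in (0:ℝ)..2 * Real.pi, (circleMap 0 R θ)⁻¹ ^ k * ((2 * (q (circleMap 0 R θ)).re : ℝ) : ℂ)‖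
        ≤ (2 * Real.pi)⁻¹ * ((2 * (R⁻¹) ^ k) * ∫ θ : ℝ in (0:ℝ)..2 * Real.pi, |(q (circleMap 0 R θ)).re|) :=
          mul_le_mul_of_nonneg_left h3 hpi.le
      _ = (2 * (R⁻¹) ^ k) * ((2 * Real.pi)⁻¹ * ∫ θ : ℝ in (0:ℝ)..2 * Real.pi, |(q (circleMap 0 R θ)).re|) := by ring
      _ ≤ (2 * (R⁻¹) ^ k) * (A * (1 + R ^ 2)) := mul_le_mul_of_nonneg_left h4 (by positivity)
      _ = 2 * (A * (1 + R ^ 2)) * (R⁻¹) ^ k := by ring
  have hzero : ∀ k : ℕ, 3 ≤ k → p k (fun _ => 1) = 0 := by
    intro k hk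
    have hb2 : ∀ R : ℝ, 1 ≤ R → ‖p k (fun _ => 1)‖ ≤ (4 * |A|) / R := by
      intro R hR
      have hR0 : (0:ℝ) < R := by linarith
      refine (hbd k R (by omega) hR0).trans ?_
      have h2 : (R⁻¹) ^ k ≤ (R⁻¹) ^ 3 :=
        pow_le_pow_of_le_one (by positivity) (inv_le_one_of_one_le₀ hR) hk
      have h3 : 2 * (A * (1 + R ^ 2)) ≤ 4 * |A| * R ^ 2 := by
        have h4 : A * (1 + R ^ 2) ≤ |A| * (1 + R ^ 2) := mul_le_mul_of_nonneg_right (le_abs_self A) (by positivity)
        have h5 : |A| * (1 + R ^ 2) ≤ |A| * (2 * R ^ 2) := by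
          apply mul_le_mul_of_nonneg_left _ (abs_nonneg A)
          nlinarith
        linarith
      calc 2 * (A * (1 + R ^ 2)) * (R⁻¹) ^ k ≤ (4 * |A| * R ^ 2) * (R⁻¹) ^ k :=
            mul_le_mul_of_nonneg_right h3 (by positivity)
        _ ≤ (4 * |A| * R ^ 2) * (R⁻¹) ^ 3 := mul_le_mul_of_nonneg_left h2 (by positivity)
        _ = (4 * |A|) / R := by field_simp
    have h0 : ‖p k (fun _ => 1)‖ ≤ 0 := by
      have ht : Tendsto (fun R : ℝ => (4 * |A|) / R) atTop (𝓝 0) := tendsto_const_nhds.div_atTop tendsto_id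
      exact ge_of_tendsto ht ((eventually_ge_atTop 1).mono fun R hR => hb2 R hR)
    exact norm_le_zero_iff.mp h0
  have hmul : ∀ (k : ℕ) (z : ℂ), (p k fun _ => z) = z ^ k * p k (fun _ => 1) := by
    intro k z
    have := (p k).map_smul_univ (fun _ => z) (fun _ => (1:ℂ))
    simp only [smul_eq_mul, mul_one, Finset.prod_const, Finset.card_univ, Fintype.card_fin] at this
    exact this
  refine ⟨p 2 (fun _ => 1), p 1 (fun _ => 1), p 0 (fun _ => 1), fun z => ?_⟩
  have hs := hp.hasSum (y := z) (by simp)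
  rw [zero_add] at hs
  have hs2 : HasSum (fun n : ℕ => p n fun _ => z) (∑ n ∈ Finset.range 3, p n fun _ => z) := by
    apply hasSum_sum_of_ne_finset_zero
    intro n hn
    have : 3 ≤ n := by
      rw [Finset.mem_range, not_lt] at hn
      exact hn
    rw [hmul, hzero n this, mul_zero]
  rw [hs.unique hs2, Finset.sum_range_succ, Finset.sum_range_succ, Finset.sum_range_one, hmul 0, hmul 1, hmul 2]
  ring

end Pool.Agent.TC
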