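import Pool.Agent.TC.Eul
import Pool.Agent.TC.Mean
import Pool.Agent.H73.CR.B0

/-!
# TC Aff: normalised lifts of entire curves of order two

An entire function without zeros is `exp g` with `g` entire (`exists_log` of `Pool.Agent.H73.CR` for the convex open set `Set.univ`, or Mathlib).  `F₁ (F₀ z) F₂ (F₀ z) = exp (g₀ z)`; `u = g₀ / (e 0 + e 1)`, `F = exp (- u) • F₀`:
`F₁ (F z) F₂ (F z) = 1` (`ev_smul`), `OnV Q (F z)` (`OnV.smul`).  `F₁ (F z) = exp (q z)`, so `F₂ (F z) = exp (- q z)`.  There is `B ≥ 1` with `|F_i x| ≤ B ‖x‖ ^ e i` (compactness of the unit sphere, homogeneity), so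
`Re q ≤ log B + e 0 log ‖F z‖`, `- Re q ≤ log B + e 1 log ‖F z‖`; the sum: `log ‖F z‖ ≥ - 2 log B / (e 0 + e 1) ≥ - log B`; so `|Re (q z)| ≤ log B + (e 0 + e 1) (log ‖F z‖ + log B)`.  Mean values over the circle of radius `r` (everything
is continuous): `mean log ‖F‖ = mean log ‖F₀‖ - Re (u 0) ≤ A (1 + r²) + |u 0|` (the mean of the real part of a holomorphic function is its value at `0`).  `quad_of_mean`.
-/

set_option autoImplicit false

open Topology Filter Metric

namespace Pool.Agent.TC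

open Pool.Agent.H36.BP (EN fs wd Sub)

variable {n : ℕ} {Q : Fin (n + 2) → MvPolynomial (Fin (n + 3)) ℂ} {e : Fin (n + 2) → ℕ}

private theorem log_entire {g : ℂ → ℂ} (hg : Differentiable ℂ g) (h0 : ∀ z, g z ≠ 0) :
    ∃ s : ℂ → ℂ, Differentiable ℂ s ∧ ∀ z, Complex.exp (s z) = g z := by
  obtain ⟨s, hs, he, -⟩ := Pool.Agent.CR.exists_log (Ω := Set.univ) isOpen_univ convex_univ
    hg.differentiableOn (fun z _ => h0 z) (x0 := 0) (s0 := Complex.log (g 0)) (Set.mem_univ _)
    (Complex.exp_log (h0 0))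
  exact ⟨s, differentiableOn_univ.1 hs, fun z => he z (Set.mem_univ _)⟩

private theorem ev_bd {N d : ℕ} {P : MvPolynomial (Fin (N + 1)) ℂ} (hP : P.IsHomogeneous d) (hd : 1 ≤ d) :
    ∃ B : ℝ, 1 ≤ B ∧ ∀ x : EN N, ‖ev P x‖ ≤ B * ‖x‖ ^ d := by
  have hc : IsCompact (sphere (0 : EN N) 1) := isCompact_sphere _ _
  obtain ⟨B, hB⟩ := hc.exists_bound_of_continuousOn (continuous_ev P).continuousOn
  refine ⟨max B 1, le_max_right _ _, fun x => ?_⟩
  by_cases hx : x = 0
  · have h1 : ev P x = 0 := by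
      have h2 := ev_smul hP 0 x
      rw [zero_smul, zero_pow (by omega), zero_mul] at h2
      rw [hx, h2]
    rw [h1, norm_zero]
    positivity
  · have hx0 : ‖x‖ ≠ 0 := norm_ne_zero_iff.2 hx
    have hxC : (‖x‖ : ℂ) ≠ 0 := by exact_mod_cast hx0
    have hy : ‖((‖x‖ : ℂ)⁻¹) • x‖ = 1 := by
      rw [norm_smul, norm_inv, Complex.norm_real, norm_norm, inv_mul_cancel₀ hx0]
    have h1 : x = (‖x‖ : ℂ) • (((‖x‖ : ℂ)⁻¹) • x) := by
      rw [smul_smul, mul_inv_cancel₀ hxC, one_smul]
    have h2 := hB (((‖x‖ : ℂ)⁻¹) • x) (by rw [mem_sphere_zero_iff_norm]; exact hy)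
    have h3 : ‖ev P x‖ = ‖x‖ ^ d * ‖ev P (((‖x‖ : ℂ)⁻¹) • x)‖ := by
      conv_lhs => rw [h1]
      rw [ev_smul hP, norm_mul, norm_pow, Complex.norm_real, norm_norm]
    rw [h3, mul_comm]
    exact mul_le_mul_of_nonneg_right (h2.trans (le_max_left _ _)) (by positivity)

private theorem mean_re {u : ℂ → ℂ} (hu : Differentiable ℂ u) (r : ℝ) :
    Real.circleAverage (fun z => (u z).re) 0 r = (u 0).re := by
  have h1 : Real.circleAverage u 0 r = u 0 := (hu.diffContOnCl).circleAverage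
  have h2 := Complex.reCLM.circleAverage_comp_comm (f := u) (c := 0) (R := r)
    hu.continuous.continuousOn.circleIntegrable'
  rw [h1] at h2
  exact h2

theorem exists_lift (h : Pair Q e) {F₀ : ℂ → EN (n + 2)} (hF₀ : Differentiable ℂ F₀) (h0 : ∀ z, F₀ z ≠ 0) (hV : ∀ z, OnV Q (F₀ z))
    (h1 : ∀ z, ev (Q 0) (F₀ z) ≠ 0) (h2 : ∀ z, ev (Q 1) (F₀ z) ≠ 0) {A : ℝ}
    (hA : ∀ r : ℝ, 0 < r → Real.circleAverage (fun z => Real.log ‖F₀ z‖) 0 r ≤ A * (1 + r ^ 2)) :
    ∃ (F : ℂ → EN (n + 2)) (u : ℂ → ℂ) (a b c : ℂ), Differentiable ℂ F ∧ (∀ z, F₀ z = Complex.exp (u z) • F z) ∧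
      ∀ z, OnV Q (F z) ∧ ev (Q 0) (F z) = Complex.exp (a * z ^ 2 + b * z + c) ∧
        ev (Q 1) (F z) = Complex.exp (-(a * z ^ 2 + b * z + c)) := by
  classical
  have hQc : ∀ j, Continuous fun z => ev (Q j) (F₀ z) := fun j => (continuous_ev (Q j)).comp hF₀.continuous
  have hQd : ∀ j, Differentiable ℂ fun z => ev (Q j) (F₀ z) := fun j => (differentiable_ev (Q j)).comp hF₀
  obtain ⟨g₀, hg₀, hg₀e⟩ := log_entire (g := fun z => ev (Q 0) (F₀ z) * ev (Q 1) (F₀ z))
    ((hQd 0).mul (hQd 1)) (fun z => mul_ne_zero (h1 z) (h2 z))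
  have he0 := h.pos 0
  have he1 := h.pos 1
  set D : ℕ := e 0 + e 1 with hD
  have hD2 : 2 ≤ D := by omega
  have hDC : (D : ℂ) ≠ 0 := by
    have : D ≠ 0 := by omega
    exact_mod_cast this
  set u : ℂ → ℂ := fun z => g₀ z / D with hu_def
  have hu : Differentiable ℂ u := hg₀.div_const _
  set F : ℂ → EN (n + 2) := fun z => Complex.exp (- u z) • F₀ z with hF_def
  have hF : Differentiable ℂ F := (hu.neg.cexp).smul hF₀
  have hFF : ∀ z, F₀ z = Complex.exp (u z) • F z := by
    intro z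
    simp only [hF_def]
    rw [smul_smul, ← Complex.exp_add, add_neg_cancel, Complex.exp_zero, one_smul]
  have hev : ∀ j z, ev (Q j) (F z) = Complex.exp (- u z) ^ e j * ev (Q j) (F₀ z) := fun j z =>
    ev_smul (h.hom j) _ _
  have hprod : ∀ z, ev (Q 0) (F z) * ev (Q 1) (F z) = 1 := by
    intro z
    rw [hev, hev]
    have h3 : Complex.exp (- u z) ^ e 0 * ev (Q 0) (F₀ z) * (Complex.exp (- u z) ^ e 1 * ev (Q 1) (F₀ z)) =
        Complex.exp (- u z) ^ D * (ev (Q 0) (F₀ z) * ev (Q 1) (F₀ z)) := by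
      rw [hD, pow_add]
      ring
    have h4 := hg₀e z
    rw [h3, ← h4, ← Complex.exp_nat_mul, ← Complex.exp_add]
    have h5 : (D : ℂ) * - u z + g₀ z = 0 := by
      simp only [hu_def]
      field_simp
      ring
    rw [h5, Complex.exp_zero]
  have hne0 : ∀ z, ev (Q 0) (F z) ≠ 0 := fun z h0' => by
    have := hprod z
    rw [h0', zero_mul] at this
    exact zero_ne_one this
  obtain ⟨q, hq, hqe⟩ := log_entire (g := fun z => ev (Q 0) (F z)) ((differentiable_ev (Q 0)).comp hF) hne0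
  have hq0 : ∀ z, ev (Q 0) (F z) = Complex.exp (q z) := fun z => (hqe z).symm
  have hq1 : ∀ z, ev (Q 1) (F z) = Complex.exp (- q z) := by
    intro z
    have h3 := hprod z
    rw [hq0 z] at h3
    rw [Complex.exp_neg]
    exact eq_inv_of_mul_eq_one_right h3
  obtain ⟨B0, hB0, hB0'⟩ := ev_bd (h.hom 0) he0
  obtain ⟨B1, hB1, hB1'⟩ := ev_bd (h.hom 1) he1
  set b : ℝ := Real.log B0 + Real.log B1 with hb
  have hl0 : 0 ≤ Real.log B0 := Real.log_nonneg hB0
  have hl1 : 0 ≤ Real.log B1 := Real.log_nonneg hB1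
  have hFne : ∀ z, F z ≠ 0 := fun z => smul_ne_zero (Complex.exp_ne_zero _) (h0 z)
  have hFpos : ∀ z, 0 < ‖F z‖ := fun z => norm_pos_iff.2 (hFne z)
  have hr0 : ∀ z, (q z).re ≤ b + e 0 * Real.log ‖F z‖ := by
    intro z
    have h3 := hB0' (F z)
    rw [hq0 z, Complex.norm_exp] at h3
    have h4 := Real.log_le_log (Real.exp_pos _) h3
    rw [Real.log_exp, Real.log_mul (by positivity) (pow_pos (hFpos z) _).ne', Real.log_pow] at h4
    linarith
  have hr1 : ∀ z, - (q z).re ≤ b + e 1 * Real.log ‖F z‖ := by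
    intro z
    have h3 := hB1' (F z)
    rw [hq1 z, Complex.norm_exp] at h3
    have h4 := Real.log_le_log (Real.exp_pos _) h3
    rw [Real.log_exp, Real.log_mul (by positivity) (pow_pos (hFpos z) _).ne', Real.log_pow, Complex.neg_re] at h4
    linarith
  have hL : ∀ z, Real.log ‖F z‖ = - (u z).re + Real.log ‖F₀ z‖ := by
    intro z
    simp only [hF_def]
    rw [norm_smul, Real.log_mul (norm_ne_zero_iff.2 (Complex.exp_ne_zero _)) (norm_ne_zero_iff.2 (h0 z)),
      Complex.norm_exp, Real.log_exp, Complex.neg_re]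
  have hb0 : 0 ≤ b := by positivity
  have hDR : (D : ℝ) = e 0 + e 1 := by rw [hD]; push_cast; ring
  have hD2R : (2 : ℝ) ≤ D := by exact_mod_cast hD2
  have he0R : (1 : ℝ) ≤ e 0 := by exact_mod_cast he0
  have he1R : (1 : ℝ) ≤ e 1 := by exact_mod_cast he1
  have habs : ∀ z, |(q z).re| ≤ (b + D * b) + D * (- (u z).re + Real.log ‖F₀ z‖) := by
    intro z
    rw [← hL z]
    have h3 := hr0 z
    have h4 := hr1 z
    have h5 : 0 ≤ Real.log ‖F z‖ + b := by
      by_contra hneg
      push Not at hneg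
      have h6 : (D : ℝ) * Real.log ‖F z‖ < D * (- b) := mul_lt_mul_of_pos_left (by linarith) (by linarith)
      have h7 : (D : ℝ) * (- b) ≤ 2 * (- b) := by nlinarith
      rw [hDR] at h6 h7
      nlinarith
    rw [abs_le]
    constructor
    · have h6 : 0 ≤ (e 0 : ℝ) * (Real.log ‖F z‖ + b) := by positivity
      rw [hDR]
      nlinarith
    · have h6 : 0 ≤ (e 1 : ℝ) * (Real.log ‖F z‖ + b) := by positivity
      rw [hDR]
      nlinarith
  have hcu : Continuous fun z => (u z).re := Complex.continuous_re.comp hu.continuous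
  have hcl : Continuous fun z => Real.log ‖F₀ z‖ :=
    hF₀.continuous.norm.log fun z => norm_ne_zero_iff.2 (h0 z)
  have hcq : Continuous fun z => |(q z).re| := (Complex.continuous_re.comp hq.continuous).abs
  have hmean : ∀ r : ℝ, 0 < r → Real.circleAverage (fun z => |(q z).re|) 0 r ≤
      ((b + D * b) + D * |(u 0).re| + D * |A|) * (1 + r ^ 2) := by
    intro r hr
    have h3 : Real.circleAverage (fun z => |(q z).re|) 0 r ≤
        Real.circleAverage (fun z => (b + D * b) + D * (- (u z).re + Real.log ‖F₀ z‖)) 0 r :=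
      Real.circleAverage_mono hcq.continuousOn.circleIntegrable'
        (by fun_prop : Continuous fun z => (b + D * b) + D * (- (u z).re + Real.log ‖F₀ z‖)).continuousOn.circleIntegrable'
        (fun z _ => habs z)
    have h4 : Real.circleAverage (fun z => (b + D * b) + D * (- (u z).re + Real.log ‖F₀ z‖)) 0 r =
        (b + D * b) + D * (- (u 0).re + Real.circleAverage (fun z => Real.log ‖F₀ z‖) 0 r) := by
      rw [Real.circleAverage_fun_add continuous_const.continuousOn.circleIntegrable'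
        (by fun_prop : Continuous fun z => (D : ℝ) * (- (u z).re + Real.log ‖F₀ z‖)).continuousOn.circleIntegrable',
        Real.circleAverage_const]
      have h5 : Real.circleAverage (fun z => (D : ℝ) * (- (u z).re + Real.log ‖F₀ z‖)) 0 r =
          D * Real.circleAverage (fun z => - (u z).re + Real.log ‖F₀ z‖) 0 r := by
        have := Real.circleAverage_fun_smul (a := (D : ℝ)) (f := fun z => - (u z).re + Real.log ‖F₀ z‖) (c := 0) (R := r)
        simpa [smul_eq_mul] using this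
      rw [h5, Real.circleAverage_fun_add (f₁ := fun z => - (u z).re) (f₂ := fun z => Real.log ‖F₀ z‖) hcu.neg.continuousOn.circleIntegrable'
        hcl.continuousOn.circleIntegrable']
      have h6 : Real.circleAverage (fun z => - (u z).re) 0 r = - (u 0).re := by
        have := mean_re hu.neg r
        simpa using this
      rw [h6]
    have h7 := hA r hr
    have h8 : A * (1 + r ^ 2) ≤ |A| * (1 + r ^ 2) := mul_le_mul_of_nonneg_right (le_abs_self A) (by positivity)
    have h9 : - (u 0).re ≤ |(u 0).re| := neg_le_abs _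
    have h10 : (D : ℝ) * (- (u 0).re + Real.circleAverage (fun z => Real.log ‖F₀ z‖) 0 r) ≤
        D * (|(u 0).re| + |A| * (1 + r ^ 2)) := mul_le_mul_of_nonneg_left (by linarith) (by linarith)
    have h11 : 0 ≤ (b + D * b) * r ^ 2 := by positivity
    have h12 : 0 ≤ (D * |(u 0).re|) * r ^ 2 := by positivity
    rw [h4] at h3
    nlinarith
  obtain ⟨a, b', c, habc⟩ := quad_of_mean hq hmean
  refine ⟨F, u, a, b', c, hF, hFF, fun z => ⟨(hV z).smul h _, ?_, ?_⟩⟩
  · rw [hq0, habc]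
  · rw [hq1, habc]

end Pool.Agent.TC
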