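import Pool.Agent.TC.Strip

/-!
# TC ArmA: sections on a slit plane, near the end of the opposite half axis

`Slit b` is the complement of the closed half line `b - i [0, ∞)`.
* `slit_ball`: for `z.im > ‖b‖` the points `w` of `ball z (z.im - ‖b‖)` have `w.im > ‖b‖ ≥ b.im`.
* `slit_ball'`: `z ∈ HP 1 (3 ‖b‖)`.  If `|z.re| ≥ 2 ‖b‖` the points `w` of `ball z (|z.re| / 2)` have `|w.re| > |z.re| / 2 ≥ ‖b‖ ≥ |b.re|`; if `|z.re| < 2 ‖b‖` they have `w.im > 3 ‖b‖ - ‖b‖ ≥ b.im`.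
* `arm_fs`: `fs_bound` with `r = |z.re| / 2`: `fs ≤ L (2 / |x| + 1 / (1 + |x|)) ≤ 3 L / |x|`; for `z.re = 0` trivial.  `C₀ = 3 L`.
* `arm_lim`: `f` is a section on `Slit b`, `m k → ∞` integers (as reals): `F k z = f (z + 2 π m k I)` is a section on `ball 0 (2 π m k - ‖b‖)`: `lim_sec`.
* `arm_axis`: `K` from `no_exc` with `C₀` from `arm_fs`, `M` from `axis_bound`, `K' = max K M + 1`.  Suppose that for every `Y` there is `y ≥ Y` with `‖f (y I)‖ > K'`.  For `y > 3 ‖b‖` `no_exc` (`σ = 1`, `ρ = y`)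
  gives `y' > y` with `‖f (y' I)‖ < K ≤ K'`, so (intermediate value theorem) for every `k : ℕ` there is `y k ≥ k` with `‖f (y k I)‖ = K'`.  `m k` = the integer of `exists_shift` for `y k`, `y k - 2 π m k → y₀` along
  `𝒰 = hyperfilter ℕ`, `F k` as in `arm_lim`: `‖F k ((y k - 2 π m k) I)‖ = K'`, so the second alternative of `lim_sec` holds: `G ∈ Sec Q`, `‖G (y₀ I)‖ = K' > M`: contradiction to `axis_bound`.
* `arm_near`: otherwise there are `m k ≥ k` such that no `G ∈ Sec Q` is close to `f (· + 2 π m k I)` on `closedBall 0 R`.  `arm_lim`: the first alternative contradicts `arm_axis` (`‖f (2 π m k I)‖ ≤ M`), the second one gives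
  `G ∈ Sec Q` with uniform convergence on `closedBall 0 R` (`unif_of_tendsto`): contradiction.
-/

set_option autoImplicit false

open Topology Filter Metric

namespace Pool.Agent.TC

open Pool.Agent.H36.BP (EN fs wd Sub)

variable {n : ℕ} {Q : Fin (n + 2) → MvPolynomial (Fin (n + 3)) ℂ} {e : Fin (n + 2) → ℕ}

/-- the complement of the closed half line `b - i [0, ∞)` -/
def Slit (b : ℂ) : Set ℂ := {z | z.re ≠ b.re ∨ b.im < z.im}

theorem isOpen_slit (b : ℂ) : IsOpen (Slit b) := by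
  have h1 : IsOpen {z : ℂ | z.re ≠ b.re} := isOpen_ne_fun Complex.continuous_re continuous_const
  have h2 : IsOpen {z : ℂ | b.im < z.im} := isOpen_lt continuous_const Complex.continuous_im
  exact h1.union h2

theorem HP_subset_slit (b : ℂ) : HP 1 ‖b‖ ⊆ Slit b := by
  intro z hz
  right
  have h1 : ‖b‖ < 1 * z.im := hz
  have h2 := Complex.abs_im_le_norm b
  have h3 := le_abs_self b.im
  linarith

theorem slit_ball (b z : ℂ) : ball z (z.im - ‖b‖) ⊆ Slit b := by
  intro w hw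
  right
  rw [mem_ball, dist_eq_norm] at hw
  have h1 := Complex.abs_im_le_norm (w - z)
  have h2 := neg_abs_le (w - z).im
  rw [Complex.sub_im] at h1 h2
  have h3 := Complex.abs_im_le_norm b
  have h4 := le_abs_self b.im
  linarith

theorem slit_ball' {b z : ℂ} (hz : z ∈ HP 1 (3 * ‖b‖)) : ball z (|z.re| / 2) ⊆ Slit b := by
  intro w hw
  have hz' : 3 * ‖b‖ < 1 * z.im := hz
  rw [mem_ball, dist_eq_norm] at hw
  rcases le_or_gt (2 * ‖b‖) |z.re| with h | h
  · left
    intro heq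
    have h1 := (Complex.abs_re_le_norm (w - z)).trans_lt hw
    rw [Complex.sub_re, heq] at h1
    have h2 := Complex.abs_re_le_norm b
    have h3 := abs_sub b.re (b.re - z.re)
    rw [sub_sub_cancel] at h3
    linarith
  · right
    have h1 := Complex.abs_im_le_norm (w - z)
    have h2 := neg_abs_le (w - z).im
    rw [Complex.sub_im] at h1 h2
    have h3 := Complex.abs_im_le_norm b
    have h4 := le_abs_self b.im
    have h5 := norm_nonneg b
    linarith

theorem arm_fs (h : Pair Q e) : ∃ C₀ : ℝ, 0 < C₀ ∧ ∀ (b : ℂ) (f : ℂ → EN (n + 2)), IsSec Q f (Slit b) →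
    ∀ z ∈ HP 1 (3 * ‖b‖ + 1), |z.re| * fs (f z) (deriv f z) ≤ C₀ := by
  obtain ⟨L, hL, hfb⟩ := fs_bound h
  refine ⟨3 * L, by positivity, ?_⟩
  intro b f hf z hz
  have hz' : 3 * ‖b‖ + 1 < 1 * z.im := hz
  have hb0 := norm_nonneg b
  have hz3 : z ∈ HP 1 (3 * ‖b‖) := by
    show 3 * ‖b‖ < 1 * z.im
    linarith
  rcases lt_or_ge |z.re| 1 with h0 | h0
  · have h1 := hfb f z (z.im - ‖b‖) (by linarith) (hf.mono (slit_ball b z))
    have h2 : 1 / (z.im - ‖b‖) ≤ 1 := by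
      rw [div_le_one (by linarith)]
      linarith
    have h3 : 1 / (1 + |z.re|) ≤ 1 := by
      have h4 := abs_nonneg z.re
      rw [div_le_one (by linarith)]
      linarith
    have h4 : fs (f z) (deriv f z) ≤ 3 * L := by
      have h5 : L * (1 / (z.im - ‖b‖) + 1 / (1 + |z.re|)) ≤ L * 2 :=
        mul_le_mul_of_nonneg_left (by linarith) hL.le
      linarith
    calc |z.re| * fs (f z) (deriv f z) ≤ |z.re| * (3 * L) :=
          mul_le_mul_of_nonneg_left h4 (abs_nonneg _)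
      _ ≤ 1 * (3 * L) := mul_le_mul_of_nonneg_right h0.le (by positivity)
      _ = 3 * L := one_mul _
  · have hx : 0 < |z.re| := by linarith
    have h1 := hfb f z (|z.re| / 2) (by linarith) (hf.mono (slit_ball' hz3))
    have h2 : L * (1 / (|z.re| / 2) + 1 / (1 + |z.re|)) ≤ L * (3 / |z.re|) := by
      refine mul_le_mul_of_nonneg_left ?_ hL.le
      have h3 : 1 / (1 + |z.re|) ≤ 1 / |z.re| := one_div_le_one_div_of_le hx (by linarith)
      have h4 : 1 / (|z.re| / 2) = 2 / |z.re| := one_div_div _ _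
      rw [h4]
      have h5 : 3 / |z.re| = 2 / |z.re| + 1 / |z.re| := by ring
      linarith
    calc |z.re| * fs (f z) (deriv f z) ≤ |z.re| * (L * (3 / |z.re|)) :=
          mul_le_mul_of_nonneg_left (h1.trans h2) hx.le
      _ = 3 * L := by field_simp

private theorem ArmA_arg (m : ℤ) : (2 * Real.pi * m * Complex.I : ℂ) = ((2 * Real.pi * m : ℝ) : ℂ) * Complex.I := by
  push_cast
  ring

private theorem ArmA_im (t : ℝ) : ((t : ℂ) * Complex.I).im = t := by
  rw [Complex.mul_I_im, Complex.ofReal_re]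

theorem arm_lim (h : Pair Q e) {b : ℂ} {f : ℂ → EN (n + 2)} (hf : IsSec Q f (Slit b)) (𝒰 : Ultrafilter ℕ) {m : ℕ → ℤ}
    (hm : Tendsto (fun k => (m k : ℝ)) 𝒰 atTop) :
    (∀ (z : ℕ → ℂ) (z₀ : ℂ), Tendsto z 𝒰 (𝓝 z₀) → Tendsto (fun k => ‖f (z k + 2 * Real.pi * m k * Complex.I)‖) 𝒰 atTop) ∨
    ∃ G ∈ Sec Q, ∀ (z : ℕ → ℂ) (z₀ : ℂ), Tendsto z 𝒰 (𝓝 z₀) → Tendsto (fun k => f (z k + 2 * Real.pi * m k * Complex.I)) 𝒰 (𝓝 (G z₀)) := by
  have hρ : Tendsto (fun k => 2 * Real.pi * (m k : ℝ) - ‖b‖) 𝒰 atTop := by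
    have h1 : Tendsto (fun k => 2 * Real.pi * (m k : ℝ)) 𝒰 atTop := hm.const_mul_atTop (by positivity)
    exact tendsto_atTop_add_const_right _ _ h1
  have hF : ∀ᶠ k in (𝒰 : Filter ℕ), IsSec Q (fun z => f (z + 2 * Real.pi * m k * Complex.I))
      (ball 0 (2 * Real.pi * (m k : ℝ) - ‖b‖)) := by
    refine Eventually.of_forall fun k => ?_
    refine (hf.shift (m k)).mono ?_
    intro z hz
    show z + 2 * Real.pi * m k * Complex.I ∈ Slit b
    rw [ArmA_arg]
    apply slit_ball b (((2 * Real.pi * m k : ℝ) : ℂ) * Complex.I)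
    rw [mem_ball, dist_eq_norm, ArmA_im, add_sub_cancel_right]
    rwa [mem_ball, dist_zero_right] at hz
  rcases lim_sec h 𝒰 (fun k z => f (z + 2 * Real.pi * m k * Complex.I)) _ hρ hF with h1 | ⟨G, hG, h1⟩
  · exact Or.inl fun z z₀ hz => (h1 z z₀ hz).1
  · exact Or.inr ⟨G, hG, fun z z₀ hz => (h1 z z₀ hz).1⟩

theorem arm_axis (h : Pair Q e) {b : ℂ} {f : ℂ → EN (n + 2)} (hf : IsSec Q f (Slit b)) :
    ∃ M Y : ℝ, ∀ y : ℝ, Y ≤ y → ‖f (y * Complex.I)‖ ≤ M := by
  obtain ⟨C₀, hC₀, hfs⟩ := arm_fs h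
  obtain ⟨K, hK, hexc⟩ := no_exc h hC₀
  obtain ⟨M, hM, hax⟩ := axis_bound h
  obtain ⟨K', hK'⟩ : ∃ K' : ℝ, K' = max K M + 1 := ⟨_, rfl⟩
  have hKK' : K < K' := by rw [hK']; linarith [le_max_left K M]
  have hMK' : M < K' := by rw [hK']; linarith [le_max_right K M]
  by_contra hcon
  push Not at hcon
  have hb0 := norm_nonneg b
  have hy : ∀ k : ℕ, ∃ y : ℝ, (k : ℝ) ≤ y ∧ ‖f ((y : ℂ) * Complex.I)‖ = K' := by
    intro k
    obtain ⟨y₀, hy0, hy0'⟩ := hcon K' (max k (3 * ‖b‖ + 1))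
    have hk0 : (k : ℝ) ≤ y₀ := (le_max_left _ _).trans hy0
    have hb1 : 3 * ‖b‖ + 1 ≤ y₀ := (le_max_right _ _).trans hy0
    have hsub : ∀ ρ : ℝ, 3 * ‖b‖ ≤ ρ → HP 1 ρ ⊆ HP 1 (3 * ‖b‖) := by
      intro ρ hρ z hz
      have h1 : ρ < 1 * z.im := hz
      show 3 * ‖b‖ < 1 * z.im
      linarith
    have hsub1 : HP 1 y₀ ⊆ HP 1 (3 * ‖b‖ + 1) := by
      intro z hz
      have h1 : y₀ < 1 * z.im := hz
      show 3 * ‖b‖ + 1 < 1 * z.im
      linarith
    have hsub2 : HP 1 (3 * ‖b‖) ⊆ Slit b := by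
      intro z hz
      apply HP_subset_slit b
      have h1 : 3 * ‖b‖ < 1 * z.im := hz
      show ‖b‖ < 1 * z.im
      linarith
    obtain ⟨y₁, hy1, hy1'⟩ := hexc 1 y₀ f (Or.inl rfl) (hf.mono ((hsub y₀ (by linarith)).trans hsub2))
      (fun z hz => hfs b f hf z (hsub1 hz))
    rw [one_mul] at hy1
    have hcont : ContinuousOn (fun y : ℝ => ‖f ((y : ℂ) * Complex.I)‖) (Set.Icc y₀ y₁) := by
      refine ContinuousOn.norm ?_
      refine hf.1.continuousOn.comp (Complex.continuous_ofReal.mul continuous_const).continuousOn ?_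
      intro y hy
      apply hsub2
      show 3 * ‖b‖ < 1 * ((y : ℂ) * Complex.I).im
      rw [ArmA_im]
      have := hy.1
      linarith
    obtain ⟨y, hy, hyK⟩ := intermediate_value_Icc' hy1.le hcont ⟨(hy1'.trans hKK').le, hy0'.le⟩
    exact ⟨y, hk0.trans hy.1, hyK⟩
  choose y hyk hyK using hy
  choose m hm0 hm1 using fun k => exists_shift (y k)
  have h𝒰' : (hyperfilter ℕ : Filter ℕ) ≤ atTop := Nat.hyperfilter_le_atTop
  have hm : Tendsto (fun k => (m k : ℝ)) (hyperfilter ℕ : Ultrafilter ℕ) atTop := by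
    refine Tendsto.mono_left ?_ h𝒰'
    have h1 : Tendsto (fun k : ℕ => ((k : ℝ) - 2 * Real.pi) / (2 * Real.pi)) atTop atTop := by
      refine Tendsto.atTop_div_const (by positivity) ?_
      exact tendsto_atTop_add_const_right _ _ tendsto_natCast_atTop_atTop
    refine tendsto_atTop_mono (fun k => ?_) h1
    have h2 := hyk k
    have h3 := hm1 k
    rw [div_le_iff₀ (by positivity)]
    linarith
  have harg : ∀ k, ((y k - 2 * Real.pi * m k : ℝ) : ℂ) * Complex.I + 2 * Real.pi * m k * Complex.I =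
      (y k : ℂ) * Complex.I := by
    intro k
    push_cast
    ring
  obtain ⟨z₀, _, hz₀⟩ := exists_lim (hyperfilter ℕ) (z := fun k => ((y k - 2 * Real.pi * m k : ℝ) : ℂ) * Complex.I)
    (R := 2 * Real.pi) (Eventually.of_forall fun k => by
      rw [norm_mul, Complex.norm_I, mul_one, Complex.norm_real, Real.norm_eq_abs, abs_of_nonneg (hm0 k)]
      exact hm1 k)
  have hconst : (fun k => ‖f (((y k - 2 * Real.pi * m k : ℝ) : ℂ) * Complex.I + 2 * Real.pi * m k * Complex.I)‖) =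
      fun _ => K' := by
    funext k
    rw [harg, hyK]
  rcases arm_lim h hf (hyperfilter ℕ) hm with h1 | ⟨G, hG, h1⟩
  · have h2 := h1 _ _ hz₀
    rw [hconst] at h2
    exact not_tendsto_const_atTop K' _ h2
  · have h2 := (h1 _ _ hz₀).norm
    rw [hconst] at h2
    have h3 : ‖G z₀‖ = K' := tendsto_nhds_unique h2 tendsto_const_nhds
    have h4 : z₀.re = 0 := by
      have h5 := (Complex.continuous_re.tendsto z₀).comp hz₀
      have h6 : (Complex.re ∘ fun k => ((y k - 2 * Real.pi * m k : ℝ) : ℂ) * Complex.I) = fun _ => (0 : ℝ) := by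
        funext k
        rw [Function.comp_apply, Complex.mul_I_re, Complex.ofReal_im, neg_zero]
      rw [h6] at h5
      exact tendsto_nhds_unique h5 tendsto_const_nhds
    have h5 : z₀ = (z₀.im : ℂ) * Complex.I := by
      apply Complex.ext
      · rw [h4, Complex.mul_I_re, Complex.ofReal_im, neg_zero]
      · rw [ArmA_im]
    have h6 := hax G hG z₀.im
    rw [← h5, h3] at h6
    linarith

theorem arm_near (h : Pair Q e) {b : ℂ} {f : ℂ → EN (n + 2)} (hf : IsSec Q f (Slit b)) (R : ℝ) {δ : ℝ} (hδ : 0 < δ) :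
    ∃ m₀ : ℕ, ∀ m : ℕ, m₀ ≤ m → ∃ G ∈ Sec Q, ∀ z ∈ closedBall (0 : ℂ) R, ‖f (z + 2 * Real.pi * m * Complex.I) - G z‖ < δ := by
  by_contra hcon
  push Not at hcon
  choose m hmk hm using hcon
  have h𝒰' : (hyperfilter ℕ : Filter ℕ) ≤ atTop := Nat.hyperfilter_le_atTop
  have hmR : Tendsto (fun k => (((m k : ℕ) : ℤ) : ℝ)) (hyperfilter ℕ : Ultrafilter ℕ) atTop := by
    refine Tendsto.mono_left ?_ h𝒰'
    refine tendsto_atTop_mono (fun k => ?_) (tendsto_natCast_atTop_atTop (R := ℝ))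
    have h1 := hmk k
    rw [Int.cast_natCast]
    exact_mod_cast h1
  rcases arm_lim h hf (hyperfilter ℕ) (m := fun k => ((m k : ℕ) : ℤ)) hmR with h1 | ⟨G, hG, h1⟩
  · have h2 := h1 (fun _ => 0) 0 tendsto_const_nhds
    obtain ⟨M, Y, hMY⟩ := arm_axis h hf
    have h3 : Tendsto (fun k => 2 * Real.pi * (((m k : ℕ) : ℤ) : ℝ)) (hyperfilter ℕ : Ultrafilter ℕ) atTop :=
      hmR.const_mul_atTop (by positivity)
    obtain ⟨k, hk1, hk2⟩ := ((h2.eventually_gt_atTop M).and (h3.eventually_ge_atTop Y)).exists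
    have h4 := hMY _ hk2
    rw [zero_add, ArmA_arg] at hk1
    linarith
  · have h2 := unif_of_tendsto (hyperfilter ℕ) (Sec.differentiable hG).continuous
      (F := fun k z => f (z + 2 * Real.pi * ((m k : ℕ) : ℤ) * Complex.I)) h1 R hδ
    obtain ⟨k, hk⟩ := h2.exists
    obtain ⟨z, hz, hz2⟩ := hm k G hG
    have h3 := hk z hz
    simp only [Int.cast_natCast] at h3
    linarith

end Pool.Agent.TC
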