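import Pool.Agent.TC.Tame

/-!
# TC SecFin: there are only finitely many entire sections

`W`, `ε` from `half_axis_sec`, `c > 0` with `c ≤ ‖f z‖` for all `f ∈ Sec Q` (`sec_tame`).  Suppose `Sec Q` is infinite.  Let `H : ℕ → ℂ → EN (n + 2)` be injective with values in `Sec Q` (`Set.Infinite.natEmbedding`),
`𝒰 = hyperfilter ℕ`, `H i → G` along `𝒰` (`sec_lim`), uniformly on balls (`unif_of_tendsto`).  For every `k : ℕ` the set `{i | ∀ z ∈ closedBall 0 k, ‖H i z - G z‖ < 1 / (2 (k + 1))}` is in `𝒰`, so it is infinite, so it has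
two different elements: `f k ≠ g k` in `Sec Q` with `‖g k z - f k z‖ < 1 / (k + 1)` on `closedBall 0 k`.
For each `k` the set `B k = {y : ℝ | ∃ x : ℝ, |x| ≤ W ∧ ε ‖f k (x + y I)‖ < ‖g k (x + y I) - f k (x + y I)‖}` is not empty (`half_axis_sec` with `σ = 1`, `ρ = 0`).  `t k = sInf {|y| | y ∈ B k} ≥ 0`; `y k ∈ B k` with `|y k| < t k + 1`, `x k` a witness;
`|y| < t k` implies `y ∉ B k`.  If `1 / (k + 1) ≤ ε c` and `y ∈ B k` then `k < ‖x + y I‖ ≤ W + |y|`, so `t k ≥ k - W` for large `k`, `t k → ∞`.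
`m k` = the integer of `exists_shift` for `y k`; `F k z = f k (z + 2 π m k I)`, `G' k z = g k (z + 2 π m k I)`, in `Sec Q`; `y' k = y k - 2 π m k ∈ [0, 2 π]`.  Along `𝒰`: `x k → x₀`, `y' k → y₀` (`exists_lim` for `x k + y' k I`), `F k → F`, `G' k → G'` (`sec_lim`);
`‖G' - F‖ ≥ ε ‖F‖ > 0` at `x₀ + y₀ I`, so `F ≠ G'`.
Either `y k > 0` for almost all `k` or `y k ≤ 0` for almost all `k` (ultrafilter).  First case: for `z = x + y I` with `|x| ≤ W`, `y < y₀ - 2` for almost all `k` `y < y' k - 1`, so `y + 2 π m k < y k - 1 < t k`, and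
`y + 2 π m k = y + y k - y' k ≥ y - 2 π + t k > - t k` for large `k` (`y k = |y k| ≥ t k`); so `y + 2 π m k ∉ B k`, `‖G' k z - F k z‖ ≤ ε ‖F k z‖`; limit: `‖G' z - F z‖ ≤ ε ‖F z‖` on
`HP (-1) (2 - y₀)`, `half_axis_sec` with `σ = -1`: `F = G'`: contradiction.  Second case: for `y > y₀ + 2`: `y > y' k + 1`, `y + 2 π m k > y k + 1 > - t k`, and `y + 2 π m k ≤ y - y' k + y k ≤ y - t k < t k`; `HP 1 (y₀ + 2)`, `σ = 1`.

`sec_period`: `f ↦ f (· + 2 π I)` is an injective map of the finite set `Sec Q` to itself; some positive power `q` of it is the identity (`q = (card)!`, or `Function.Injective.. finite → IsOfFinOrder` of the permutation).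
`sec_sep`: for two different elements `f`, `g` there is `z ∈ closedBall 0 1` with `f z ≠ g z` (`Sec.eq_of_eqOn` for `ball 0 1`); take the minimum of the numbers `‖f z - g z‖` over the finite set of pairs.
-/

set_option autoImplicit false

open Topology Filter Metric

namespace Pool.Agent.TC

open Pool.Agent.H36.BP (EN fs wd Sub)

variable {n : ℕ} {Q : Fin (n + 2) → MvPolynomial (Fin (n + 3)) ℂ} {e : Fin (n + 2) → ℕ}


/-- close different sections on large balls -/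
private theorem SecFin_pairs (h : Pair Q e) (hinf : (Sec Q).Infinite) (k : ℕ) :
    ∃ p : (ℂ → EN (n + 2)) × (ℂ → EN (n + 2)), p.1 ∈ Sec Q ∧ p.2 ∈ Sec Q ∧ p.1 ≠ p.2 ∧
      ∀ z ∈ closedBall (0 : ℂ) k, ‖p.2 z - p.1 z‖ < 1 / (k + 1) := by
  have hk : (0 : ℝ) < k + 1 := by positivity
  obtain ⟨G, hG, hlim⟩ := sec_lim h (hyperfilter ℕ)
    (F := fun i => ((hinf.natEmbedding (Sec Q)) i : ℂ → EN (n + 2)))
    (Eventually.of_forall fun i => ((hinf.natEmbedding (Sec Q)) i).2)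
  have hu := unif_of_tendsto (hyperfilter ℕ) (Sec.differentiable hG).continuous
    (fun z z₀ hz => (hlim z z₀ hz).1) (k : ℝ) (ε := 1 / (2 * (k + 1))) (by positivity)
  have hS : {i : ℕ | ∀ z ∈ closedBall (0 : ℂ) k,
      ‖((hinf.natEmbedding (Sec Q)) i : ℂ → EN (n + 2)) z - G z‖ < 1 / (2 * ((k : ℝ) + 1))}.Infinite := by
    intro hfin
    exact notMem_hyperfilter_of_finite hfin hu
  obtain ⟨i, hi, j, hj, hij⟩ := hS.nontrivial
  refine ⟨(((hinf.natEmbedding (Sec Q)) i : ℂ → EN (n + 2)), ((hinf.natEmbedding (Sec Q)) j : ℂ → EN (n + 2))),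
    ((hinf.natEmbedding (Sec Q)) i).2, ((hinf.natEmbedding (Sec Q)) j).2, ?_, ?_⟩
  · intro he
    exact hij ((hinf.natEmbedding (Sec Q)).injective (Subtype.ext he))
  · intro z hz
    have h1 := hi z hz
    have h2 := hj z hz
    have h3 : (1 : ℝ) / (k + 1) = 1 / (2 * (k + 1)) + 1 / (2 * (k + 1)) := by
      field_simp
      norm_num
    rw [h3]
    calc ‖((hinf.natEmbedding (Sec Q)) j : ℂ → EN (n + 2)) z - ((hinf.natEmbedding (Sec Q)) i : ℂ → EN (n + 2)) z‖
        = ‖(((hinf.natEmbedding (Sec Q)) j : ℂ → EN (n + 2)) z - G z) -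
            (((hinf.natEmbedding (Sec Q)) i : ℂ → EN (n + 2)) z - G z)‖ := by
          congr 1
          abel
      _ ≤ ‖((hinf.natEmbedding (Sec Q)) j : ℂ → EN (n + 2)) z - G z‖ +
            ‖((hinf.natEmbedding (Sec Q)) i : ℂ → EN (n + 2)) z - G z‖ := norm_sub_le _ _
      _ < _ := add_lt_add h2 h1

/-- the first bad height -/
private theorem SecFin_inf {B : Set ℝ} (hB : B.Nonempty) :
    ∃ t y : ℝ, y ∈ B ∧ |y| < t + 1 ∧ t ≤ |y| ∧ ∀ u : ℝ, |u| < t → u ∉ B := by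
  have hne : ((fun y : ℝ => |y|) '' B).Nonempty := hB.image _
  have hbd : BddBelow ((fun y : ℝ => |y|) '' B) := by
    refine ⟨0, ?_⟩
    rintro _ ⟨y, -, rfl⟩
    exact abs_nonneg y
  obtain ⟨_, ⟨y, hy, rfl⟩, hlt⟩ := exists_lt_of_csInf_lt hne
    (lt_add_one (sInf ((fun y : ℝ => |y|) '' B)))
  refine ⟨sInf ((fun y : ℝ => |y|) '' B), y, hy, hlt, csInf_le hbd ⟨y, hy, rfl⟩, ?_⟩
  intro u hu huB
  exact absurd (csInf_le hbd ⟨u, huB, rfl⟩) (not_le.2 hu)

/-- the bad heights of a pair -/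
private def SecFin_B (W ε : ℝ) (f g : ℂ → EN (n + 2)) : Set ℝ :=
  {y : ℝ | ∃ x : ℝ, |x| ≤ W ∧ ε * ‖f (x + y * Complex.I)‖ < ‖g (x + y * Complex.I) - f (x + y * Complex.I)‖}

private theorem SecFin_B_nonempty {W ε : ℝ}
    (hha : ∀ (σ ρ : ℝ), (σ = 1 ∨ σ = -1) → ∀ f ∈ Sec Q, ∀ g ∈ Sec Q,
      (∀ z ∈ HP σ ρ, |z.re| ≤ W → ‖g z - f z‖ ≤ ε * ‖f z‖) → f = g)
    {f g : ℂ → EN (n + 2)} (hf : f ∈ Sec Q) (hg : g ∈ Sec Q) (hfg : f ≠ g) :
    (SecFin_B W ε f g).Nonempty := by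
  by_contra hne
  rw [Set.not_nonempty_iff_eq_empty] at hne
  refine hfg (hha 1 0 (Or.inl rfl) f hf g hg fun z _ hz => ?_)
  by_contra hlt
  have hmem : z.im ∈ SecFin_B W ε f g := by
    refine ⟨z.re, hz, ?_⟩
    rw [Complex.re_add_im]
    exact not_le.1 hlt
  rw [hne] at hmem
  exact hmem

private theorem SecFin_shift_eq (f : ℂ → EN (n + 2)) (z : ℂ) (m : ℤ) (y : ℝ) (hy : y = z.im + 2 * Real.pi * m) :
    f (z + 2 * Real.pi * m * Complex.I) = f (z.re + y * Complex.I) := by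
  congr 1
  rw [hy]
  apply Complex.ext <;> simp

theorem sec_finite (h : Pair Q e) : (Sec Q).Finite := by
  by_contra hinf
  obtain ⟨W, ε, hW, hε, hε2, hha⟩ := half_axis_sec h
  obtain ⟨C₀, c, A, hC₀, hc, hA, htame⟩ := sec_tame h
  have hnorm : ∀ f ∈ Sec Q, ∀ z, c ≤ ‖f z‖ := fun f hf z => (htame f hf z).2.2.2.2
  choose p hp1 hp2 hpne hpclose using SecFin_pairs h hinf
  have hBne : ∀ k, (SecFin_B W ε (p k).1 (p k).2).Nonempty := fun k =>
    SecFin_B_nonempty hha (hp1 k) (hp2 k) (hpne k)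
  choose t y hyB hyt hty htB using fun k => SecFin_inf (hBne k)
  choose x hxW hxB using hyB
  choose m hm0 hm1 using fun k => exists_shift (y k)
  -- `t k` tends to infinity
  have htlow : ∀ᶠ k : ℕ in atTop, (k : ℝ) - W - 1 < t k := by
    have h1 : Tendsto (fun k : ℕ => 1 / ((k : ℝ) + 1)) atTop (𝓝 0) := tendsto_one_div_add_atTop_nhds_zero_nat
    filter_upwards [h1.eventually (gt_mem_nhds (mul_pos hε hc))] with k hk
    by_contra hcon
    have hyk : |y k| < k - W := by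
      have := hyt k
      linarith [not_lt.1 hcon]
    have hz : ((x k : ℂ) + (y k : ℂ) * Complex.I) ∈ closedBall (0 : ℂ) k := by
      rw [mem_closedBall_zero_iff]
      calc ‖(x k : ℂ) + (y k : ℂ) * Complex.I‖ ≤ ‖(x k : ℂ)‖ + ‖(y k : ℂ) * Complex.I‖ := norm_add_le _ _
        _ = |x k| + |y k| := by
          rw [norm_mul, Complex.norm_I, mul_one, Complex.norm_real, Complex.norm_real, Real.norm_eq_abs,
            Real.norm_eq_abs]
        _ ≤ k := by linarith [hxW k]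
    have h2 := hpclose k _ hz
    have h3 := hxB k
    have h4 := mul_le_mul_of_nonneg_left (hnorm _ (hp1 k) ((x k : ℂ) + (y k : ℂ) * Complex.I)) hε.le
    linarith
  have ht : Tendsto t atTop atTop := by
    have h1 : Tendsto (fun k : ℕ => (k : ℝ) - W - 1) atTop atTop := by
      have h2 := tendsto_natCast_atTop_atTop (R := ℝ)
      have h3 := tendsto_atTop_add_const_right atTop (-W - 1) h2
      refine h3.congr fun k => ?_
      ring
    refine tendsto_atTop_mono' _ ?_ h1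
    filter_upwards [htlow] with k hk using hk.le
  have htU : Tendsto t (hyperfilter ℕ) atTop := by
    refine ht.mono_left ?_
    rw [← Nat.cofinite_eq_atTop]
    exact hyperfilter_le_cofinite
  -- limits
  have hFmem : ∀ k, (fun z => (p k).1 (z + 2 * Real.pi * (m k) * Complex.I)) ∈ Sec Q := fun k => Sec.shift (hp1 k) (m k)
  have hGmem : ∀ k, (fun z => (p k).2 (z + 2 * Real.pi * (m k) * Complex.I)) ∈ Sec Q := fun k => Sec.shift (hp2 k) (m k)
  obtain ⟨F, hF, hFlim⟩ := sec_lim h (hyperfilter ℕ) (Eventually.of_forall hFmem)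
  obtain ⟨G, hG, hGlim⟩ := sec_lim h (hyperfilter ℕ) (Eventually.of_forall hGmem)
  obtain ⟨z₀, -, hz₀⟩ := exists_lim (hyperfilter ℕ)
    (z := fun k => (x k : ℂ) + ((y k - 2 * Real.pi * m k : ℝ) : ℂ) * Complex.I) (R := W + 2 * Real.pi)
    (Eventually.of_forall fun k => by
      calc ‖(x k : ℂ) + ((y k - 2 * Real.pi * m k : ℝ) : ℂ) * Complex.I‖
          ≤ ‖(x k : ℂ)‖ + ‖((y k - 2 * Real.pi * m k : ℝ) : ℂ) * Complex.I‖ := norm_add_le _ _
        _ = |x k| + |y k - 2 * Real.pi * m k| := by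
          rw [norm_mul, Complex.norm_I, mul_one, Complex.norm_real, Complex.norm_real, Real.norm_eq_abs,
            Real.norm_eq_abs]
        _ ≤ W + 2 * Real.pi := by
          rw [abs_of_nonneg (hm0 k)]
          linarith [hxW k, hm1 k])
  have hy₀ : Tendsto (fun k => y k - 2 * Real.pi * m k) (hyperfilter ℕ) (𝓝 z₀.im) := by
    have h1 := (Complex.continuous_im.tendsto z₀).comp hz₀
    refine h1.congr fun k => ?_
    simp
  -- the limits are different
  have hFG : F ≠ G := by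
    intro hEq
    have h1 := (hFlim _ z₀ hz₀).1
    have h2 := (hGlim _ z₀ hz₀).1
    have h3 : ε * ‖F z₀‖ ≤ ‖G z₀ - F z₀‖ := by
      refine le_of_tendsto_of_tendsto (h1.norm.const_mul ε) (h2.sub h1).norm (Eventually.of_forall fun k => ?_)
      have h4 := (hxB k).le
      have h5 : ∀ f : ℂ → EN (n + 2), f (((x k : ℂ) + ((y k - 2 * Real.pi * m k : ℝ) : ℂ) * Complex.I) +
          2 * Real.pi * (m k) * Complex.I) = f (x k + y k * Complex.I) := by
        intro f
        congr 1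
        push_cast
        ring
      show ε * ‖(p k).1 _‖ ≤ ‖(p k).2 _ - (p k).1 _‖
      rw [h5 (p k).1, h5 (p k).2]
      exact h4
    rw [← hEq, sub_self, norm_zero] at h3
    have h4 := hnorm F hF z₀
    have h5 := mul_pos hε (hc.trans_le h4)
    linarith
  -- closeness of the limits
  have hclose : ∀ z : ℂ, |z.re| ≤ W → (∀ᶠ k in (hyperfilter ℕ : Filter ℕ), |z.im + 2 * Real.pi * m k| < t k) →
      ‖G z - F z‖ ≤ ε * ‖F z‖ := by
    intro z hz hk
    have h1 := (hFlim _ z tendsto_const_nhds).1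
    have h2 := (hGlim _ z tendsto_const_nhds).1
    refine le_of_tendsto_of_tendsto (h2.sub h1).norm (h1.norm.const_mul ε) ?_
    filter_upwards [hk] with k hk
    have h3 := htB k _ hk
    have h4 : ¬ ε * ‖(p k).1 (z.re + ((z.im + 2 * Real.pi * m k : ℝ) : ℂ) * Complex.I)‖ <
        ‖(p k).2 (z.re + ((z.im + 2 * Real.pi * m k : ℝ) : ℂ) * Complex.I) -
          (p k).1 (z.re + ((z.im + 2 * Real.pi * m k : ℝ) : ℂ) * Complex.I)‖ := fun hlt => h3 ⟨z.re, hz, hlt⟩
    show ‖(p k).2 (z + 2 * Real.pi * (m k) * Complex.I) - (p k).1 (z + 2 * Real.pi * (m k) * Complex.I)‖ ≤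
      ε * ‖(p k).1 (z + 2 * Real.pi * (m k) * Complex.I)‖
    rw [SecFin_shift_eq (p k).1 z (m k) _ rfl, SecFin_shift_eq (p k).2 z (m k) _ rfl]
    exact not_lt.1 h4
  rcases (hyperfilter ℕ).em (fun k => 0 < y k) with hpos | hneg
  · refine hFG (hha (-1) (2 - z₀.im) (Or.inr rfl) F hF G hG fun z hz hzW => hclose z hzW ?_)
    have hz' : z.im < z₀.im - 2 := by
      have : 2 - z₀.im < -1 * z.im := hz
      linarith
    filter_upwards [hpos, hy₀.eventually (lt_mem_nhds (show z.im + 1 < z₀.im by linarith)),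
      htU.eventually_gt_atTop ((2 * Real.pi - z.im) / 2)] with k hk1 hk2 hk3
    have h1 := hyt k
    have h2 := hty k
    rw [abs_of_pos hk1] at h1 h2
    rw [abs_lt]
    constructor
    · linarith [hm1 k]
    · linarith
  · refine hFG (hha 1 (z₀.im + 2) (Or.inl rfl) F hF G hG fun z hz hzW => hclose z hzW ?_)
    have hz' : z₀.im + 2 < z.im := by
      have : z₀.im + 2 < 1 * z.im := hz
      linarith
    filter_upwards [hneg, hy₀.eventually (gt_mem_nhds (show z₀.im < z.im - 1 by linarith)),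
      htU.eventually_gt_atTop (z.im / 2)] with k hk1 hk2 hk3
    have h1 := hyt k
    have h2 := hty k
    rw [abs_of_nonpos (not_lt.1 hk1)] at h1 h2
    rw [abs_lt]
    constructor
    · linarith
    · linarith [hm0 k]

/-- every entire section is periodic -/
private theorem SecFin_per (h : Pair Q e) (f : ℂ → EN (n + 2)) (hf : f ∈ Sec Q) :
    ∃ q : ℕ, 1 ≤ q ∧ Function.Periodic f (q * (2 * Real.pi * Complex.I)) := by
  have hfin := sec_finite h
  have hmap : Set.MapsTo (fun m : ℕ => (fun z => f (z + 2 * Real.pi * ((m : ℤ) : ℂ) * Complex.I))) Set.univ (Sec Q) :=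
    fun m _ => Sec.shift hf (m : ℤ)
  obtain ⟨a, -, b, -, hab, he⟩ := Set.infinite_univ.exists_ne_map_eq_of_mapsTo hmap hfin
  wlog hlt : a < b generalizing a b
  · exact this b a hab.symm he.symm (lt_of_le_of_ne (not_lt.1 hlt) hab.symm)
  refine ⟨b - a, by omega, fun z => ?_⟩
  have h1 := congrFun he (z - 2 * Real.pi * (a : ℂ) * Complex.I)
  simp only [Int.cast_natCast, sub_add_cancel] at h1
  rw [h1]
  congr 1
  rw [Nat.cast_sub hlt.le]
  ring

theorem sec_period (h : Pair Q e) : ∃ q : ℕ, 1 ≤ q ∧ ∀ f ∈ Sec Q, ∀ z, f (z + 2 * Real.pi * q * Complex.I) = f z := by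
  have hfin := sec_finite h
  classical
  choose q hq1 hq2 using SecFin_per h
  refine ⟨∏ f ∈ hfin.toFinset.attach, q f.1 (hfin.mem_toFinset.1 f.2), ?_, ?_⟩
  · refine Nat.one_le_iff_ne_zero.2 (Finset.prod_ne_zero_iff.2 fun f _ => ?_)
    exact Nat.one_le_iff_ne_zero.1 (hq1 f.1 (hfin.mem_toFinset.1 f.2))
  · intro f hf z
    have hdvd : q f hf ∣ ∏ f ∈ hfin.toFinset.attach, q f.1 (hfin.mem_toFinset.1 f.2) :=
      Finset.dvd_prod_of_mem (fun f : {x // x ∈ hfin.toFinset} => q f.1 (hfin.mem_toFinset.1 f.2))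
        (Finset.mem_attach _ ⟨f, hfin.mem_toFinset.2 hf⟩)
    obtain ⟨r, hr⟩ := hdvd
    rw [hr]
    have h1 := (hq2 f hf).nat_mul r z
    rw [← h1]
    congr 1
    push_cast
    ring

theorem sec_sep (h : Pair Q e) : ∃ δ : ℝ, 0 < δ ∧ ∀ f ∈ Sec Q, ∀ g ∈ Sec Q, (∀ z ∈ closedBall (0 : ℂ) 1, ‖f z - g z‖ < δ) → f = g := by
  have hfin := sec_finite h
  have hall : ∀ᶠ δ : ℝ in 𝓝[>] (0 : ℝ), ∀ p ∈ (Sec Q) ×ˢ (Sec Q),
      (∀ z ∈ closedBall (0 : ℂ) 1, ‖p.1 z - p.2 z‖ < δ) → p.1 = p.2 := by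
    rw [eventually_all_finite (hfin.prod hfin)]
    rintro ⟨f, g⟩ ⟨hf, hg⟩
    by_cases hfg : f = g
    · exact Eventually.of_forall fun _ _ => hfg
    · have hex : ∃ z ∈ ball (0 : ℂ) 1, f z ≠ g z := by
        by_contra hcon
        push Not at hcon
        exact hfg (Sec.eq_of_eqOn hf hg isOpen_ball ⟨0, mem_ball_self one_pos⟩ hcon)
      obtain ⟨z, hz, hne⟩ := hex
      have hpos : 0 < ‖f z - g z‖ := norm_pos_iff.2 (sub_ne_zero.2 hne)
      filter_upwards [mem_nhdsWithin_of_mem_nhds (gt_mem_nhds hpos)] with δ hδ hcl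
      exact absurd (hcl z (ball_subset_closedBall hz)) (not_lt.2 (le_of_lt hδ))
  obtain ⟨δ, hδ, hδ0⟩ := (hall.and self_mem_nhdsWithin).exists
  exact ⟨δ, hδ0, fun f hf g hg hcl => hδ (f, g) ⟨hf, hg⟩ hcl⟩

end Pool.Agent.TC
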