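import Pool.Agent.TC.SubX
import Pool.Agent.H36.BP.MaxP

/-!
# TC Barrier: a Carleman / Phragmén-Lindelöf lemma on the half plane `{σ y > ρ}`

`v = exp u ≥ 0` is continuous and bounded by `exp C₃` on the half plane, and (where `v > 0`) `u` has Laplacian `≥ g₀` for `|x| ≤ 1`, `≥ - 4 C₂ / W²` for
`1 < |x| < W / 2` and `≥ - C₂ / x²` for `|x| ≥ W / 2`.  Then `v = 0` on the axis.

Let `ζ = (σ y - ρ) + i x` (`= ξ + i η`; `ζ = - i σ z̄ - ρ`-like; with `z = x + i y` take `ζ = (σ z.im - ρ) + z.re I`; a function `|h ζ|` with `h` holomorphic is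
`|holomorphic function of z|`: for `σ = -1`, `ζ = i z - ρ`; for `σ = 1`, `ζ = i z̄ - ρ = conj (- i z - ρ)`, replace `h` by `conj (h (conj ζ))`; for the function below, which is
symmetric under conjugation of `ζ`, simply use `ζ' = - i z - ρ`, i.e. in both cases `ζ' = - σ i z - ρ`: `ζ'.re = σ y - ρ`, `ζ'.im = - σ x`).  For `R > 0` let
`H_R ζ = - (2 / π) Re (ζ log (ζ / R)) = (2 / π) (ξ log (R / |ζ|) + η arg ζ)`, harmonic for `ξ > 0`, continuous on `ξ ≥ 0` (`ζ log ζ → 0`), even in `η`;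
`H_R = |η|` for `ξ = 0`; `H_R = (2 / π) η arg ζ ≤ |η|` for `|ζ| = R`; `H_R (ξ) = (2 / π) ξ log (R / ξ) → ∞` as `R → ∞`.
`B = C₃ + 1 + (g₀ / 4) (sm η - H_R ζ) + 18 C₂ log (W + sm η)`: `B ≥ C₃ + 1` on the boundary of `{ξ > 0, |ζ| < R}` (`sm η ≥ |η|`, `W ≥ 1`).
`exp (- B)` has the exponent (`Sub`) `≥ - g₀ / 8` for `|η| ≤ 1`, `≥ 4 C₂ / (W + |η|)²` for `|η| > 1`:
with `ψ t = (g₀ / 4) sm t + 18 C₂ log (W + sm t)`: for `|t₀| ≤ 1` `ψ t ≤ ψ t₀ + ((g₀ / 4) + 18 C₂ / (W + sm t₀)) (sm t - sm t₀)` (concavity of `log`) and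
`sm t - sm t₀ ≤ t₀ (t - t₀) + (t - t₀)² / 2`, `18 C₂ / W ≤ g₀ / 4`: second derivative `≤ g₀ / 2`; for `|t₀| > 1` near `t₀`, with `q = (|t| - |t₀|) / (W + |t₀|)`:
`log (1 + q) ≤ q - (8 / 9) q² / 2`, second derivative `≤ - 16 C₂ / (W + |t₀|)²` (`sub_of_re` for `- ψ`).
So `v exp (- B)` has a positive exponent: `g₀ / 4 - g₀ / 8`; `- C₂ / W² + 4 C₂ / (W + |η|)²` with `W + |η| < 3 W / 2`: `4 · 4 / 9 > 1`; `- C₂ / (4 η²) + 4 C₂ / (3 |η|)²`,
`4 / 9 > 1 / 4`.  Maximum principle (`H36.BP.max_principle`) on `S = {ξ ≥ 0, |ζ| ≤ R}`, `U = {ξ > 0, |ζ| < R}` for the upper semicontinuous function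
`w = v exp (- B)` on `ξ > 0`, `w = exp (C₃ - B)` on `ξ ≤ 0`: `w ≤ exp (-1)`.  At a fixed point of the axis `B → - ∞` as `R → ∞`, so `v ≤ exp (B - 1) → 0`.
-/

set_option autoImplicit false

open Topology Filter Metric

namespace Pool.Agent.TC

open Pool.Agent.H36.BP (EN fs wd Sub)

/-- the coordinate `ζ` of the half plane -/
private noncomputable def BarrierZ (σ ρ : ℝ) (z : ℂ) : ℂ := -(σ : ℂ) * Complex.I * z - ρ

private theorem BarrierZ_re (σ ρ : ℝ) (z : ℂ) : (BarrierZ σ ρ z).re = σ * z.im - ρ := by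
  simp [BarrierZ]

private theorem BarrierZ_im (σ ρ : ℝ) (z : ℂ) : (BarrierZ σ ρ z).im = -(σ * z.re) := by
  simp [BarrierZ]

private theorem BarrierZ_cont (σ ρ : ℝ) : Continuous (BarrierZ σ ρ) := by
  unfold BarrierZ
  fun_prop

/-- the function `H_R` -/
private noncomputable def BarrierH (R : ℝ) (ζ : ℂ) : ℝ := -(2 / Real.pi) * (ζ * Complex.log (ζ / (R : ℂ))).re

private theorem BarrierH_eq {R : ℝ} (hR : 0 < R) (ζ : ℂ) :
    BarrierH R ζ = -(2 / Real.pi) * (ζ.re * Real.log (‖ζ‖ / R) - ζ.im * (ζ / (R : ℂ)).arg) := by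
  unfold BarrierH
  rw [Complex.mul_re, Complex.log_re, Complex.log_im, norm_div, Complex.norm_real, Real.norm_of_nonneg hR.le]

private theorem BarrierH_arg {R : ℝ} (hR : 0 < R) {ζ : ℂ} (h0 : 0 ≤ ζ.re) : |(ζ / (R : ℂ)).arg| ≤ Real.pi / 2 := by
  rw [Complex.abs_arg_le_pi_div_two_iff]
  have h1 : (ζ / (R : ℂ)).re = ζ.re / R := Complex.div_ofReal_re ζ R
  rw [h1]
  positivity

/-- the bound on the boundary of the half disc -/
private theorem BarrierH_le {R : ℝ} (hR : 0 < R) {ζ : ℂ} (h0 : 0 ≤ ζ.re) (h1 : ζ.re = 0 ∨ ‖ζ‖ = R) : BarrierH R ζ ≤ |ζ.im| := by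
  have hπ := Real.pi_pos
  have h2 : ζ.re * Real.log (‖ζ‖ / R) = 0 := by
    rcases h1 with h1 | h1
    · rw [h1, zero_mul]
    · rw [h1, div_self hR.ne', Real.log_one, mul_zero]
  rw [BarrierH_eq hR, h2, zero_sub]
  have h3 : ζ.im * (ζ / (R : ℂ)).arg ≤ |ζ.im| * (Real.pi / 2) := by
    refine (le_abs_self _).trans ?_
    rw [abs_mul]
    exact mul_le_mul_of_nonneg_left (BarrierH_arg hR h0) (abs_nonneg _)
  calc -(2 / Real.pi) * -(ζ.im * (ζ / (R : ℂ)).arg) = 2 / Real.pi * (ζ.im * (ζ / (R : ℂ)).arg) := by ring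
    _ ≤ 2 / Real.pi * (|ζ.im| * (Real.pi / 2)) := mul_le_mul_of_nonneg_left h3 (by positivity)
    _ = |ζ.im| := by field_simp

private theorem BarrierH_cont {R : ℝ} (hR : 0 < R) : ContinuousOn (BarrierH R) {ζ | 0 ≤ ζ.re} := by
  intro ζ hζ
  have hζ' : 0 ≤ ζ.re := hζ
  by_cases h0 : ζ = 0
  · subst h0
    have h1 : Tendsto (fun ζ : ℂ => 2 / Real.pi * (R * |(‖ζ‖ / R) * Real.log (‖ζ‖ / R)| + ‖ζ‖ * Real.pi)) (𝓝 0) (𝓝 0) := by
      have h2 : Continuous (fun ζ : ℂ => 2 / Real.pi * (R * |(‖ζ‖ / R) * Real.log (‖ζ‖ / R)| + ‖ζ‖ * Real.pi)) := by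
        have h3 : Continuous (fun ζ : ℂ => (‖ζ‖ / R) * Real.log (‖ζ‖ / R)) :=
          Real.continuous_mul_log.comp (continuous_norm.div_const R)
        exact continuous_const.mul ((continuous_const.mul h3.abs).add (continuous_norm.mul continuous_const))
      have h4 := h2.tendsto 0
      simpa using h4
    have h5 : BarrierH R 0 = 0 := by simp [BarrierH]
    have h6 : Tendsto (BarrierH R) (𝓝 0) (𝓝 0) := by
      refine squeeze_zero_norm (fun ζ => ?_) h1
      rw [BarrierH_eq hR, norm_mul, norm_neg, Real.norm_of_nonneg (by have := Real.pi_pos; positivity)]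
      refine mul_le_mul_of_nonneg_left ?_ (by have := Real.pi_pos; positivity)
      refine (norm_sub_le _ _).trans (add_le_add ?_ ?_)
      · rw [norm_mul, Real.norm_eq_abs, Real.norm_eq_abs]
        have h7 : R * |(‖ζ‖ / R) * Real.log (‖ζ‖ / R)| = ‖ζ‖ * |Real.log (‖ζ‖ / R)| := by
          rw [abs_mul, abs_of_nonneg (by positivity : (0 : ℝ) ≤ ‖ζ‖ / R)]
          field_simp
        rw [h7]
        exact mul_le_mul_of_nonneg_right (Complex.abs_re_le_norm ζ) (abs_nonneg _)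
      · rw [norm_mul, Real.norm_eq_abs, Real.norm_eq_abs]
        exact mul_le_mul (Complex.abs_im_le_norm ζ) (Complex.abs_arg_le_pi _) (abs_nonneg _) (norm_nonneg _)
    have h7 : ContinuousAt (BarrierH R) 0 := by
      show Tendsto (BarrierH R) (𝓝 0) (𝓝 (BarrierH R 0))
      rw [h5]
      exact h6
    exact h7.continuousWithinAt
  · have h1 : ζ / (R : ℂ) ∈ Complex.slitPlane := by
      rw [Complex.mem_slitPlane_iff, Complex.div_ofReal_re, Complex.div_ofReal_im]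
      rcases hζ'.eq_or_lt with h2 | h2
      · right
        intro h3
        apply h0
        have h4 : ζ.im = 0 := by
          rcases div_eq_zero_iff.1 h3 with h5 | h5
          · exact h5
          · exact absurd h5 hR.ne'
        exact Complex.ext h2.symm h4
      · left
        positivity
    have h2 : ContinuousAt (fun ζ : ℂ => ζ * Complex.log (ζ / (R : ℂ))) ζ :=
      continuousAt_id.mul ((continuousAt_id.div_const (R : ℂ)).clog h1)
    have h3 : ContinuousAt (fun ζ : ℂ => -(2 / Real.pi) * (ζ * Complex.log (ζ / (R : ℂ))).re) ζ :=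
      continuousAt_const.mul (Complex.continuous_re.continuousAt.comp h2)
    exact h3.continuousWithinAt

/-- the harmonic part has exponent `0` -/
private theorem BarrierH_sub {R : ℝ} (hR : 0 < R) {σ ρ : ℝ} {z : ℂ} (hz : 0 < (BarrierZ σ ρ z).re) (κ : ℝ) :
    Sub (fun z => Real.exp (κ * BarrierH R (BarrierZ σ ρ z))) z 0 := by
  have hZ : AnalyticAt ℂ (BarrierZ σ ρ) z := by
    unfold BarrierZ
    fun_prop
  have h1 : BarrierZ σ ρ z / (R : ℂ) ∈ Complex.slitPlane := by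
    rw [Complex.mem_slitPlane_iff, Complex.div_ofReal_re]
    left
    positivity
  have h2 : AnalyticAt ℂ (fun z => Complex.log (BarrierZ σ ρ z / (R : ℂ))) z :=
    (hZ.div_const (c := (R : ℂ))).clog h1
  have h3 : AnalyticAt ℂ (fun z => Complex.exp (((κ * -(2 / Real.pi) : ℝ) : ℂ) * (BarrierZ σ ρ z * Complex.log (BarrierZ σ ρ z / (R : ℂ))))) z :=
    (analyticAt_const.mul (hZ.mul h2)).cexp
  have h4 := Sub.of_holo h3 (Complex.exp_ne_zero _)
  refine h4.congr (Eventually.of_forall fun w => ?_)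
  rw [Complex.norm_exp, Complex.re_ofReal_mul]
  unfold BarrierH
  congr 1
  ring

/-- the second order estimate of the logarithm -/
private theorem Barrier_log {q : ℝ} (hq : |q| ≤ 1 / 20) : Real.log (1 + q) ≤ q - 4 / 9 * q ^ 2 := by
  have h1 := Real.abs_log_sub_add_sum_range_le (x := -q) (by rw [abs_neg]; linarith) 2
  rw [Finset.sum_range_succ, Finset.sum_range_one, abs_neg, sub_neg_eq_add] at h1
  have h2 : |q| ^ 3 / (1 - |q|) ≤ q ^ 2 / 19 := by
    have h3 : 0 < 1 - |q| := by linarith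
    rw [div_le_div_iff₀ h3 (by norm_num)]
    have h4 : |q| ^ 3 = q ^ 2 * |q| := by rw [pow_succ, sq_abs]
    rw [h4]
    have h5 : 0 ≤ q ^ 2 := sq_nonneg q
    nlinarith
  have h6 := (le_abs_self _).trans (h1.trans h2)
  have h7 : 0 ≤ q ^ 2 := sq_nonneg q
  norm_num at h6
  nlinarith

private theorem Barrier_psi₁ {g₀ C₂ W : ℝ} (hg₀ : 0 < g₀) (hC₂ : 0 < C₂) (hW : 2 ≤ W) (hW' : 72 * C₂ ≤ g₀ * W) {t₀ : ℝ} (ht₀ : |t₀| ≤ 1) :
    ∃ a : ℝ, ∀ t : ℝ, -(g₀ / 4 * sm t₀ + 18 * C₂ * Real.log (W + sm t₀)) + a * (t - t₀) + (-(g₀ / 2)) / 2 * (t - t₀) ^ 2 ≤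
      -(g₀ / 4 * sm t + 18 * C₂ * Real.log (W + sm t)) := by
  have hs0 : ∀ t, 0 ≤ sm t := fun t => (abs_nonneg t).trans (abs_le_sm t)
  have hp : ∀ t, 0 < W + sm t := fun t => by linarith [hs0 t]
  set k : ℝ := g₀ / 4 + 18 * C₂ / (W + sm t₀) with hk
  have hk2 : k ≤ g₀ / 2 := by
    have h1 : 18 * C₂ / (W + sm t₀) ≤ g₀ / 4 := by
      rw [div_le_iff₀ (hp t₀)]
      have h2 : g₀ * W ≤ g₀ * (W + sm t₀) := mul_le_mul_of_nonneg_left (by linarith [hs0 t₀]) hg₀.le
      linarith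
    linarith
  have hk0 : 0 < k := by have := hp t₀; positivity
  refine ⟨-(k * t₀), fun t => ?_⟩
  have h1 : sm t - sm t₀ ≤ t₀ * (t - t₀) + (t - t₀) ^ 2 / 2 := by
    have h2 := sm_le t
    rw [sm_of_le ht₀]
    nlinarith
  have h3 : Real.log (W + sm t) - Real.log (W + sm t₀) ≤ (sm t - sm t₀) / (W + sm t₀) := by
    rw [← Real.log_div (hp t).ne' (hp t₀).ne']
    refine (Real.log_le_sub_one_of_pos (div_pos (hp t) (hp t₀))).trans (le_of_eq ?_)
    rw [div_sub_one (hp t₀).ne']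
    congr 1
    ring
  have h4 : 18 * C₂ * (Real.log (W + sm t) - Real.log (W + sm t₀)) ≤ 18 * C₂ * ((sm t - sm t₀) / (W + sm t₀)) :=
    mul_le_mul_of_nonneg_left h3 (by positivity)
  have h5 : g₀ / 4 * (sm t - sm t₀) + 18 * C₂ * ((sm t - sm t₀) / (W + sm t₀)) = k * (sm t - sm t₀) := by
    rw [hk]; ring
  have h6 : k * (sm t - sm t₀) ≤ k * (t₀ * (t - t₀) + (t - t₀) ^ 2 / 2) := mul_le_mul_of_nonneg_left h1 hk0.le
  have h7 : k * (t - t₀) ^ 2 ≤ g₀ / 2 * (t - t₀) ^ 2 := mul_le_mul_of_nonneg_right hk2 (sq_nonneg _)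
  nlinarith

private theorem Barrier_psi₂ {g₀ C₂ W : ℝ} (hC₂ : 0 < C₂) (hW : 2 ≤ W) {t₀ : ℝ} (ht₀ : 1 < |t₀|) :
    ∃ a : ℝ, ∀ᶠ t in 𝓝 t₀, -(g₀ / 4 * sm t₀ + 18 * C₂ * Real.log (W + sm t₀)) + a * (t - t₀) + (16 * C₂ / (W + |t₀|) ^ 2) / 2 * (t - t₀) ^ 2 ≤
      -(g₀ / 4 * sm t + 18 * C₂ * Real.log (W + sm t)) := by
  obtain ⟨s, hs2, hs0⟩ : ∃ s : ℝ, s ^ 2 = 1 ∧ |t₀| = s * t₀ := by
    rcases le_total 0 t₀ with h | h
    · exact ⟨1, by norm_num, by rw [abs_of_nonneg h, one_mul]⟩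
    · exact ⟨-1, by norm_num, by rw [abs_of_nonpos h]; ring⟩
  have hs1 : |s| = 1 := by
    have h1 : |s| ^ 2 = 1 := by rw [sq_abs]; exact hs2
    nlinarith [abs_nonneg s]
  have hD : 0 < W + |t₀| := by linarith
  refine ⟨-(s * (g₀ / 4 + 18 * C₂ / (W + |t₀|))), ?_⟩
  have e1 : ∀ᶠ t in 𝓝 t₀, 1 < s * t := by
    have h1 : ContinuousAt (fun t : ℝ => s * t) t₀ := by fun_prop
    exact h1.eventually_const_lt (by show 1 < s * t₀; rw [← hs0]; exact ht₀)
  have e2 : ∀ᶠ t in 𝓝 t₀, |s * (t - t₀) / (W + |t₀|)| < 1 / 20 := by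
    have h1 : ContinuousAt (fun t : ℝ => |s * (t - t₀) / (W + |t₀|)|) t₀ := by fun_prop
    exact h1.eventually_lt_const (by show |s * (t₀ - t₀) / (W + |t₀|)| < 1 / 20; rw [sub_self, mul_zero, zero_div, abs_zero]; norm_num)
  filter_upwards [e1, e2] with t h1 h2
  have ht : |t| = s * t := by
    have h3 : |s * t| = |t| := by rw [abs_mul, hs1, one_mul]
    rw [← h3, abs_of_pos (by linarith)]
  rw [sm_of_ge ht₀.le, sm_of_ge (by rw [ht]; exact h1.le)]
  set q : ℝ := s * (t - t₀) / (W + |t₀|) with hq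
  have h3 : W + |t| = (W + |t₀|) * (1 + q) := by
    rw [ht, hq, mul_add, mul_one, mul_div_cancel₀ _ hD.ne', hs0]
    ring
  have hq1 : 0 < 1 + q := by
    have := (abs_lt.1 h2).1
    linarith
  have h4 : Real.log (W + |t|) = Real.log (W + |t₀|) + Real.log (1 + q) := by
    rw [h3, Real.log_mul hD.ne' hq1.ne']
  have h5 := Barrier_log h2.le
  have h6 : 18 * C₂ * Real.log (1 + q) ≤ 18 * C₂ * (q - 4 / 9 * q ^ 2) := mul_le_mul_of_nonneg_left h5 (by positivity)
  have h7 : q ^ 2 = (t - t₀) ^ 2 / (W + |t₀|) ^ 2 := by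
    rw [hq, div_pow, mul_pow, hs2, one_mul]
  have h8 : |t| - |t₀| = s * (t - t₀) := by rw [ht, hs0]; ring
  have h9 : 16 * C₂ / (W + |t₀|) ^ 2 / 2 * (t - t₀) ^ 2 = 8 * C₂ * q ^ 2 := by rw [h7]; ring
  have h10 : s * (g₀ / 4 + 18 * C₂ / (W + |t₀|)) * (t - t₀) = g₀ / 4 * (|t| - |t₀|) + 18 * C₂ * q := by rw [h8, hq]; ring
  rw [h9, h4]
  linarith

theorem barrier {g₀ C₂ C₃ W σ ρ : ℝ} (hg₀ : 0 < g₀) (hC₂ : 0 < C₂) (hW : 2 ≤ W) (hW' : 72 * C₂ ≤ g₀ * W) (hσ : σ = 1 ∨ σ = -1) {v : ℂ → ℝ}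
    (hv : ContinuousOn v (HP σ ρ)) (hv0 : ∀ z ∈ HP σ ρ, 0 ≤ v z) (hvC : ∀ z ∈ HP σ ρ, v z ≤ Real.exp C₃)
    (h1 : ∀ z ∈ HP σ ρ, 0 < v z → |z.re| ≤ 1 → Sub v z (g₀ / 4))
    (h2 : ∀ z ∈ HP σ ρ, 0 < v z → 1 < |z.re| → |z.re| < W / 2 → Sub v z (-(C₂ / W ^ 2)))
    (h3 : ∀ z ∈ HP σ ρ, 0 < v z → W / 2 ≤ |z.re| → Sub v z (-(C₂ / (4 * z.re ^ 2)))) :
    ∀ y : ℝ, ρ < σ * y → v (y * Complex.I) = 0 := by
  have hs0 : ∀ t, 0 ≤ sm t := fun t => (abs_nonneg t).trans (abs_le_sm t)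
  have hσ1 : |σ| = 1 := by rcases hσ with h | h <;> simp [h]
  have hmem : ∀ z : ℂ, z ∈ HP σ ρ ↔ 0 < (BarrierZ σ ρ z).re := by
    intro z
    rw [BarrierZ_re]
    show ρ < σ * z.im ↔ _
    constructor <;> intro h <;> linarith
  have him : ∀ z : ℂ, |(BarrierZ σ ρ z).im| = |z.re| := by
    intro z
    rw [BarrierZ_im, abs_neg, abs_mul, hσ1, one_mul]
  have hZc := BarrierZ_cont σ ρ
  -- the barrier
  set B : ℝ → ℂ → ℝ := fun R z => C₃ + 1 + (g₀ / 4 * (sm z.re - BarrierH R (BarrierZ σ ρ z)) + 18 * C₂ * Real.log (W + sm z.re)) with hB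
  have hlog : ∀ t, 0 ≤ Real.log (W + sm t) := fun t => Real.log_nonneg (by linarith [hs0 t])
  have hBbd : ∀ R : ℝ, 0 < R → ∀ z : ℂ, 0 ≤ (BarrierZ σ ρ z).re → ((BarrierZ σ ρ z).re = 0 ∨ ‖BarrierZ σ ρ z‖ = R) → C₃ + 1 ≤ B R z := by
    intro R hR z h0 h1'
    have h2' := BarrierH_le hR h0 h1'
    rw [him z] at h2'
    have h3' := abs_le_sm z.re
    have h4 : 0 ≤ g₀ / 4 * (sm z.re - BarrierH R (BarrierZ σ ρ z)) := mul_nonneg (by positivity) (by linarith)
    have h5 : 0 ≤ 18 * C₂ * Real.log (W + sm z.re) := mul_nonneg (by positivity) (hlog _)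
    show C₃ + 1 ≤ C₃ + 1 + (g₀ / 4 * (sm z.re - BarrierH R (BarrierZ σ ρ z)) + 18 * C₂ * Real.log (W + sm z.re))
    linarith
  have hBcont : ∀ R : ℝ, 0 < R → ContinuousOn (B R) {z | 0 ≤ (BarrierZ σ ρ z).re} := by
    intro R hR
    have c1 : Continuous (fun z : ℂ => sm z.re) := continuous_sm.comp Complex.continuous_re
    have c2 : Continuous (fun z : ℂ => Real.log (W + sm z.re)) :=
      (continuous_const.add c1).log fun z => (show (0 : ℝ) < W + sm z.re by linarith [hs0 z.re]).ne'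
    have c3 : ContinuousOn (fun z : ℂ => BarrierH R (BarrierZ σ ρ z)) {z | 0 ≤ (BarrierZ σ ρ z).re} :=
      (BarrierH_cont hR).comp hZc.continuousOn fun z hz => hz
    exact continuousOn_const.add ((continuousOn_const.mul (c1.continuousOn.sub c3)).add (continuousOn_const.mul c2.continuousOn))
  -- the exponent of `v * exp (-B)`
  have hsub : ∀ R : ℝ, 0 < R → ∀ z ∈ HP σ ρ, 0 < v z → ∃ c, 0 < c ∧ Sub (fun z => v z * Real.exp (-B R z)) z c := by
    intro R hR z hz hvz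
    have hzre := (hmem z).1 hz
    have hprod : ∀ {c₁ b : ℝ}, Sub v z c₁ → (∃ a : ℝ, ∀ᶠ t in 𝓝 z.re, -(g₀ / 4 * sm z.re + 18 * C₂ * Real.log (W + sm z.re)) + a * (t - z.re) +
        b / 2 * (t - z.re) ^ 2 ≤ -(g₀ / 4 * sm t + 18 * C₂ * Real.log (W + sm t))) → Sub (fun z => v z * Real.exp (-B R z)) z (c₁ + b / 4) := by
      rintro c₁ b hc₁ ⟨a, ha⟩
      have s1 := sub_of_re (φ := fun t => -(g₀ / 4 * sm t + 18 * C₂ * Real.log (W + sm t))) (z₀ := z) ha
      have s2 := BarrierH_sub hR hzre (g₀ / 4)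
      have s3 := (hc₁.mul (s1.mul s2)).const_mul (Real.exp_pos (-(C₃ + 1)))
      rw [add_zero] at s3
      refine s3.congr (Eventually.of_forall fun w => ?_)
      have e1 : -B R w = -(C₃ + 1) + (-(g₀ / 4 * sm w.re + 18 * C₂ * Real.log (W + sm w.re)) + g₀ / 4 * BarrierH R (BarrierZ σ ρ w)) := by
        simp only [hB]
        ring
      rw [e1, Real.exp_add, Real.exp_add]
      ring
    rcases le_or_gt |z.re| 1 with h4 | h4
    · obtain ⟨a, ha⟩ := Barrier_psi₁ hg₀ hC₂ hW hW' h4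
      exact ⟨_, by linarith, hprod (h1 z hz hvz h4) ⟨a, Eventually.of_forall ha⟩⟩
    · obtain ⟨a, ha⟩ := Barrier_psi₂ (g₀ := g₀) hC₂ hW h4
      have hx : 0 < |z.re| := by linarith
      have hD : 0 < W + |z.re| := by linarith
      rcases lt_or_ge |z.re| (W / 2) with h5 | h5
      · refine ⟨_, ?_, hprod (h2 z hz hvz h4 h5) ⟨a, ha⟩⟩
        have h6 : C₂ / W ^ 2 < 16 * C₂ / (W + |z.re|) ^ 2 / 4 := by
          rw [div_div, div_lt_div_iff₀ (by positivity) (by positivity)]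
          have h7 : (W + |z.re|) ^ 2 < (3 / 2 * W) ^ 2 := pow_lt_pow_left₀ (by linarith) hD.le (by norm_num)
          nlinarith
        linarith
      · refine ⟨_, ?_, hprod (h3 z hz hvz h5) ⟨a, ha⟩⟩
        have h6 : C₂ / (4 * z.re ^ 2) < 16 * C₂ / (W + |z.re|) ^ 2 / 4 := by
          rw [← sq_abs z.re, div_div, div_lt_div_iff₀ (by positivity) (by positivity)]
          have h7 : (W + |z.re|) ^ 2 ≤ (3 * |z.re|) ^ 2 := pow_le_pow_left₀ hD.le (by linarith) 2
          have h8 : 0 < |z.re| ^ 2 := by positivity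
          nlinarith
        linarith
  -- the maximum principle
  have hmain : ∀ R : ℝ, 0 < R → ∀ z ∈ HP σ ρ, ‖BarrierZ σ ρ z‖ ≤ R → v z ≤ Real.exp (B R z - 1) := by
    intro R hR z hz hzR
    set S : Set ℂ := {z | 0 ≤ (BarrierZ σ ρ z).re ∧ ‖BarrierZ σ ρ z‖ ≤ R} with hS
    set U : Set ℂ := {z | 0 < (BarrierZ σ ρ z).re ∧ ‖BarrierZ σ ρ z‖ < R} with hU
    have hUo : IsOpen U := (isOpen_lt continuous_const (Complex.continuous_re.comp hZc)).inter (isOpen_lt hZc.norm continuous_const)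
    have hSc : IsCompact S := by
      refine Metric.isCompact_of_isClosed_isBounded
        ((isClosed_le continuous_const (Complex.continuous_re.comp hZc)).inter (isClosed_le hZc.norm continuous_const)) ?_
      refine (Metric.isBounded_closedBall (x := (0 : ℂ)) (r := R + |ρ|)).subset fun w hw => ?_
      rw [mem_closedBall_zero_iff]
      have h4 : ‖w‖ = ‖BarrierZ σ ρ w + (ρ : ℂ)‖ := by
        unfold BarrierZ
        rw [sub_add_cancel, norm_mul, norm_mul, norm_neg, Complex.norm_real, Real.norm_eq_abs, hσ1, Complex.norm_I, one_mul, one_mul]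
      rw [h4]
      refine (norm_add_le _ _).trans (add_le_add hw.2 ?_)
      rw [Complex.norm_real, Real.norm_eq_abs]
    set u : ℂ → ℝ := fun z => if 0 < (BarrierZ σ ρ z).re then v z * Real.exp (-B R z) else Real.exp (C₃ - B R z) with hu
    have hupos : ∀ w, 0 < (BarrierZ σ ρ w).re → u w = v w * Real.exp (-B R w) := fun w hw => if_pos hw
    have hule : ∀ w, u w ≤ Real.exp (C₃ - B R w) := by
      intro w
      by_cases hw : 0 < (BarrierZ σ ρ w).re
      · rw [hupos w hw, sub_eq_add_neg, Real.exp_add]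
        exact mul_le_mul_of_nonneg_right (hvC w ((hmem w).2 hw)) (Real.exp_pos _).le
      · show (if 0 < (BarrierZ σ ρ w).re then v w * Real.exp (-B R w) else Real.exp (C₃ - B R w)) ≤ _
        rw [if_neg hw]
    have hgc : ContinuousOn (fun z => Real.exp (C₃ - B R z)) {z | 0 ≤ (BarrierZ σ ρ z).re} :=
      (continuousOn_const.sub (hBcont R hR)).rexp
    have hopen : IsOpen {z | 0 < (BarrierZ σ ρ z).re} := isOpen_lt continuous_const (Complex.continuous_re.comp hZc)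
    have husc : UpperSemicontinuousOn u S := by
      intro w hw
      rcases hw.1.eq_or_lt with h0 | h0
      · have h4 : u w = Real.exp (C₃ - B R w) := by
          show (if 0 < (BarrierZ σ ρ w).re then v w * Real.exp (-B R w) else Real.exp (C₃ - B R w)) = _
          rw [if_neg (by rw [← h0]; exact lt_irrefl _)]
        intro a ha
        rw [h4] at ha
        have h5 : ContinuousWithinAt (fun z => Real.exp (C₃ - B R z)) S w := (hgc w hw.1).mono fun x hx => hx.1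
        filter_upwards [h5.eventually_lt_const ha] with x hx
        exact (hule x).trans_lt hx
      · have h4 : ContinuousAt (fun z => v z * Real.exp (-B R z)) w := by
          have c1 : ContinuousAt v w := by
            have h5 : HP σ ρ ∈ 𝓝 w := by
              have h6 : HP σ ρ = {z | 0 < (BarrierZ σ ρ z).re} := by
                ext x
                exact hmem x
              rw [h6]
              exact hopen.mem_nhds h0
            exact hv.continuousAt h5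
          have c2 : ContinuousAt (B R) w :=
            (hBcont R hR).continuousAt (Filter.mem_of_superset (hopen.mem_nhds h0) fun x hx => le_of_lt (show 0 < (BarrierZ σ ρ x).re from hx))
          exact c1.mul c2.neg.rexp
        have h5 : u =ᶠ[𝓝 w] fun z => v z * Real.exp (-B R z) := by
          filter_upwards [hopen.mem_nhds h0] with x hx
          exact hupos x hx
        exact ((h4.congr h5.symm).upperSemicontinuousAt).upperSemicontinuousWithinAt S
    have hfin := Pool.Agent.H36.BP.max_principle hSc hUo (fun w hw => ⟨hw.1.le, hw.2.le⟩) husc (A := Real.exp (-1)) (by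
      intro w hw huw
      have hw' : w ∈ HP σ ρ := (hmem w).2 hw.1
      have hvw : 0 < v w := by
        rw [hupos w hw.1] at huw
        exact pos_of_mul_pos_left huw (Real.exp_pos _).le
      obtain ⟨c, hc, hcs⟩ := hsub R hR w hw' hvw
      refine ⟨c, hc, hcs.congr ?_⟩
      filter_upwards [hopen.mem_nhds hw.1] with x hx
      exact (hupos x hx).symm) (Real.exp_pos _).le (by
      rintro w ⟨hwS, hwU⟩
      refine (hule w).trans (Real.exp_le_exp.2 ?_)
      have h4 : (BarrierZ σ ρ w).re = 0 ∨ ‖BarrierZ σ ρ w‖ = R := by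
        by_contra hcon
        push Not at hcon
        exact hwU ⟨lt_of_le_of_ne hwS.1 (Ne.symm hcon.1), lt_of_le_of_ne hwS.2 hcon.2⟩
      have h5 := hBbd R hR w hwS.1 h4
      linarith) z ⟨((hmem z).1 hz).le, hzR⟩
    rw [hupos z ((hmem z).1 hz)] at hfin
    have h4 : v z = v z * Real.exp (-B R z) * Real.exp (B R z) := by
      rw [mul_assoc, ← Real.exp_add, neg_add_cancel, Real.exp_zero, mul_one]
    rw [h4]
    calc v z * Real.exp (-B R z) * Real.exp (B R z) ≤ Real.exp (-1) * Real.exp (B R z) :=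
          mul_le_mul_of_nonneg_right hfin (Real.exp_pos _).le
      _ = Real.exp (B R z - 1) := by rw [← Real.exp_add]; congr 1; ring
  -- the limit
  intro y hy
  have hz : ((y : ℂ) * Complex.I) ∈ HP σ ρ := by
    show ρ < σ * ((y : ℂ) * Complex.I).im
    simpa using hy
  set z : ℂ := (y : ℂ) * Complex.I with hzdef
  have hzre : z.re = 0 := by simp [hzdef]
  have hξ : 0 < (BarrierZ σ ρ z).re := (hmem z).1 hz
  set ξ : ℝ := (BarrierZ σ ρ z).re with hξdef
  have hZim : (BarrierZ σ ρ z).im = 0 := by rw [BarrierZ_im, hzre]; ring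
  have hZn : ‖BarrierZ σ ρ z‖ = ξ := by
    have h4 : BarrierZ σ ρ z = (ξ : ℂ) := Complex.ext rfl (by rw [hZim]; simp)
    rw [h4, Complex.norm_real, Real.norm_of_nonneg hξ.le]
  have hBlim : Tendsto (fun R : ℝ => Real.exp (B R z - 1)) atTop (𝓝 0) := by
    have h4 : ∀ᶠ R : ℝ in atTop, Real.exp (B R z - 1) =
        Real.exp (-(g₀ / 4 * (2 / Real.pi * (ξ * Real.log (R / ξ))) - (C₃ + (g₀ / 4 * sm 0 + 18 * C₂ * Real.log (W + sm 0))))) := by
      filter_upwards [eventually_gt_atTop (0 : ℝ)] with R hR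
      congr 1
      simp only [hB]
      rw [BarrierH_eq hR, hZim, hZn, hzre, ← hξdef]
      have h5 : Real.log (ξ / R) = -Real.log (R / ξ) := by rw [← Real.log_inv, inv_div]
      rw [h5]
      ring
    have h5 : Tendsto (fun R : ℝ => g₀ / 4 * (2 / Real.pi * (ξ * Real.log (R / ξ))) - (C₃ + (g₀ / 4 * sm 0 + 18 * C₂ * Real.log (W + sm 0)))) atTop atTop := by
      have hπ := Real.pi_pos
      have h6 : Tendsto (fun R : ℝ => Real.log (R / ξ)) atTop atTop := Real.tendsto_log_atTop.comp (tendsto_id.atTop_div_const hξ)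
      have h7 := ((h6.const_mul_atTop hξ).const_mul_atTop (show (0 : ℝ) < 2 / Real.pi by positivity)).const_mul_atTop (show (0 : ℝ) < g₀ / 4 by positivity)
      exact tendsto_atTop_add_const_right atTop _ h7
    have h8 := Real.tendsto_exp_neg_atTop_nhds_zero.comp h5
    exact h8.congr' (h4.mono fun R hR => hR.symm)
  have hle : v z ≤ 0 := ge_of_tendsto hBlim (by
    filter_upwards [eventually_ge_atTop ξ, eventually_gt_atTop (0 : ℝ)] with R hR hR0
    exact hmain R hR0 z hz (by rw [hZn]; exact hR))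
  exact le_antisymm hle (hv0 z hz)

end Pool.Agent.TC
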