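import Pool.Agent.TC.Eul
import Pool.Agent.TC.Cmp
import Mathlib.RingTheory.Nullstellensatz

/-!
# TC Crit: finitely many critical values of the pencil

Let `𝔞` be the ideal generated by the forms `Q j`, `j ≥ 2`, and by the forms `nv i`, `i : Fin (n + 3)` (the components of the cross product of the gradients, homogeneous of degree `∑ (e j - 1)`, or `0`).  By `trans` a point `x ≠ 0` with `OnV Q x` and
`nv Q x = 0` has `F₁ x ≠ 0`, `F₂ x ≠ 0` (if `F₁ x = 0` or `F₂ x = 0` the gradients are linearly independent and then some maximal minor is not zero, `nv Q x ≠ 0`).  So `𝔞 + (F₂)` has no common zero except `0`: by the Nullstellensatz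
(`MvPolynomial.vanishingIdeal_zeroLocus_eq_radical`) there is `M` with `X i ^ M ∈ 𝔞 + (F₂)` for all `i`, so every monomial of degree `≥ D₀ := (n + 3) M` is in `𝔞 + (F₂)`, and by homogeneity it is in `𝔞 + F₂ * (forms of degree smaller by e 1 ≥ 1)`.
By induction on the degree: `R = ℂ[x] / 𝔞` is generated as a module over `ℂ[t]`, `t ↦ F₂`, by the monomials of degree `< D₀`: finite.  So the class of `F₁` is integral over `ℂ[t]`: there are polynomials `c_1, ..., c_k ∈ ℂ[t]` with
`F₁ ^ k + c_1 (F₂) F₁ ^ (k - 1) + ... + c_k (F₂) ∈ 𝔞`.  If `x ≠ 0` is on `V`, `nv Q x = 0`, choose `c` with `c ^ e 1 * F₂ x = 1` and replace `x` by `c x` (`nv Q` is homogeneous: `nv Q (c x) = c ^ _ • nv Q x`; the relation `F₁ ^ e 1 = τ F₂ ^ e 0` is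
homogeneous): `F₂ x = 1` and `F₁ x` is a root of the fixed monic polynomial `X ^ k + c_1 (1) X ^ (k - 1) + ... + c_k (1)`.  `T` = the set of the `e 1`-th powers of its roots.
(For the homogeneity of the gradient: `MvPolynomial.IsHomogeneous.pderiv`; only the equivalence `nv Q x = 0 ↔ nv Q (c x) = 0` is needed, and it also follows from `grad (Q j) (c x) = c ^ (e j - 1) • grad (Q j) x`.)
-/

set_option autoImplicit false

open Topology Filter Metric

namespace Pool.Agent.TC

open Pool.Agent.H36.BP (EN fs wd Sub)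

variable {n : ℕ} {Q : Fin (n + 2) → MvPolynomial (Fin (n + 3)) ℂ} {e : Fin (n + 2) → ℕ}

/-- a polynomial which is bounded on the zero set of an ideal is there a root of a fixed polynomial in one variable -/
private theorem crit_alg {σ : Type} [Finite σ] (I : Ideal (MvPolynomial σ ℂ)) (f : MvPolynomial σ ℂ) (B : ℝ)
    (hB : ∀ x : σ → ℂ, (∀ p ∈ I, MvPolynomial.eval x p = 0) → ‖MvPolynomial.eval x f‖ ≤ B) :
    ∃ P : Polynomial ℂ, P ≠ 0 ∧ ∀ x : σ → ℂ, (∀ p ∈ I, MvPolynomial.eval x p = 0) → P.eval (MvPolynomial.eval x f) = 0 := by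
  classical
  have h1 : ∀ c : {c : ℂ // B < ‖c‖}, ∃ b : MvPolynomial σ ℂ, b * (f - MvPolynomial.C c.1) - 1 ∈ I := by
    intro c
    have htop : I ⊔ Ideal.span {f - MvPolynomial.C c.1} = ⊤ := by
      by_contra hne
      obtain ⟨M, hM, hle⟩ := Ideal.exists_le_maximal _ hne
      obtain ⟨x, hx⟩ := MvPolynomial.isMaximal_iff_eq_vanishingIdeal_singleton.1 hM
      have hz : ∀ p ∈ M, MvPolynomial.eval x p = 0 := by
        intro p hp
        rw [hx, MvPolynomial.mem_vanishingIdeal_singleton_iff] at hp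
        simpa [MvPolynomial.aeval_eq_eval] using hp
      have h2 : MvPolynomial.eval x f = c.1 := by
        have h3 := hz (f - MvPolynomial.C c.1) (hle (Ideal.mem_sup_right (Ideal.mem_span_singleton_self _)))
        rw [map_sub, MvPolynomial.eval_C, sub_eq_zero] at h3
        exact h3
      have h4 := hB x fun p hp => hz p (hle (Ideal.mem_sup_left hp))
      rw [h2] at h4
      exact absurd c.2 (not_lt.2 h4)
    have hmem : (1 : MvPolynomial σ ℂ) ∈ I ⊔ Ideal.span {f - MvPolynomial.C c.1} := by rw [htop]; trivial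
    obtain ⟨a, ha, b, hb, hab⟩ := Submodule.mem_sup.1 hmem
    obtain ⟨d, hd⟩ := Ideal.mem_span_singleton'.1 hb
    refine ⟨d, ?_⟩
    rw [hd, ← hab]
    have : b - (a + b) = -a := by ring
    rw [this]
    exact I.neg_mem ha
  choose b hb using h1
  have hli : ¬ LinearIndependent ℂ fun c : {c : ℂ // B < ‖c‖} => (Ideal.Quotient.mkₐ ℂ I) (b c) := by
    intro hli
    have h2 := hli.cardinal_le_rank
    have h3 : Module.rank ℂ (MvPolynomial σ ℂ ⧸ I) ≤ Module.rank ℂ (MvPolynomial σ ℂ) :=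
      LinearMap.rank_le_of_surjective (Ideal.Quotient.mkₐ ℂ I).toLinearMap (Ideal.Quotient.mkₐ_surjective ℂ I)
    have h4 : Module.rank ℂ (MvPolynomial σ ℂ) ≤ Cardinal.aleph0 := by
      rw [← (MvPolynomial.basisMonomials σ ℂ).mk_eq_rank'']
      exact Cardinal.mk_le_aleph0
    have h5 : Countable {c : ℂ // B < ‖c‖} := Cardinal.mk_le_aleph0_iff.1 (h2.trans (h3.trans h4))
    have h6 : ({c : ℂ | B < ‖c‖} : Set ℂ).Countable := h5
    have h7 : Dense ({c : ℂ | B < ‖c‖} : Set ℂ)ᶜ := h6.dense_compl ℝ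
    have hopen : IsOpen {c : ℂ | B < ‖c‖} := isOpen_lt continuous_const continuous_norm
    have hne : ({c : ℂ | B < ‖c‖} : Set ℂ).Nonempty := by
      refine ⟨((|B| + 1 : ℝ) : ℂ), ?_⟩
      rw [Set.mem_ofPred_eq, Complex.norm_real, Real.norm_eq_abs, abs_of_pos (by positivity)]
      linarith [le_abs_self B]
    obtain ⟨c, hc1, hc2⟩ := h7.inter_open_nonempty _ hopen hne
    exact hc2 hc1
  obtain ⟨s, g, hsum, i₀, hi₀, hg⟩ := not_linearIndependent_iff.1 hli
  refine ⟨∑ i ∈ s, Polynomial.C (g i) * ∏ j ∈ s.erase i, (Polynomial.X - Polynomial.C j.1), ?_, ?_⟩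
  · intro h0
    have h2 := congrArg (Polynomial.eval i₀.1) h0
    rw [Polynomial.eval_finsetSum, Polynomial.eval_zero, Finset.sum_eq_single i₀] at h2
    · rw [Polynomial.eval_mul, Polynomial.eval_C, Polynomial.eval_prod, mul_eq_zero] at h2
      rcases h2 with h2 | h2
      · exact hg h2
      · obtain ⟨j, hj, h3⟩ := Finset.prod_eq_zero_iff.1 h2
        rw [Polynomial.eval_sub, Polynomial.eval_X, Polynomial.eval_C, sub_eq_zero] at h3
        exact (Finset.ne_of_mem_erase hj) (Subtype.ext h3.symm)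
    · intro i _ hi
      rw [Polynomial.eval_mul, Polynomial.eval_prod]
      rw [Finset.prod_eq_zero (Finset.mem_erase.2 ⟨hi.symm, hi₀⟩), mul_zero]
      rw [Polynomial.eval_sub, Polynomial.eval_X, Polynomial.eval_C, sub_self]
    · intro h3
      exact absurd hi₀ h3
  · intro x hx
    have hβ : ∀ i, MvPolynomial.eval x (b i) * (MvPolynomial.eval x f - i.1) = 1 := by
      intro i
      have h2 := hx _ (hb i)
      rw [map_sub, map_mul, map_sub, MvPolynomial.eval_C, map_one, sub_eq_zero] at h2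
      exact h2
    have hmem : (∑ i ∈ s, MvPolynomial.C (g i) * b i) ∈ I := by
      rw [← Ideal.Quotient.eq_zero_iff_mem]
      rw [map_sum]
      rw [← hsum]
      refine Finset.sum_congr rfl fun i _ => ?_
      rw [← map_smul, MvPolynomial.smul_eq_C_mul]
      rfl
    have h0 := hx _ hmem
    rw [map_sum] at h0
    have h3 : ∀ i ∈ s, MvPolynomial.eval x (MvPolynomial.C (g i) * b i) * ∏ j ∈ s, (MvPolynomial.eval x f - j.1) =
        Polynomial.eval (MvPolynomial.eval x f) (Polynomial.C (g i) * ∏ j ∈ s.erase i, (Polynomial.X - Polynomial.C j.1)) := by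
      intro i hi
      rw [← Finset.mul_prod_erase s (fun j => MvPolynomial.eval x f - j.1) hi, map_mul, MvPolynomial.eval_C,
        Polynomial.eval_mul, Polynomial.eval_C, Polynomial.eval_prod]
      simp only [Polynomial.eval_sub, Polynomial.eval_X, Polynomial.eval_C]
      have := hβ i
      linear_combination (g i * ∏ j ∈ s.erase i, (MvPolynomial.eval x f - j.1)) * this
    rw [Polynomial.eval_finsetSum, ← Finset.sum_congr rfl h3, ← Finset.sum_mul, h0, zero_mul]

/-- the components of the normal vector are polynomials -/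
private theorem crit_poly (Q : Fin (n + 2) → MvPolynomial (Fin (n + 3)) ℂ) (i : Fin (n + 3)) :
    ∃ p : MvPolynomial (Fin (n + 3)) ℂ, ∀ x : EN (n + 2), ev p x = nv Q x i := by
  refine ⟨(-1) ^ (i : ℕ) * Matrix.det (Matrix.of fun a b => MvPolynomial.pderiv (i.succAbove b) (Q a)), fun x => ?_⟩
  rw [nv_apply, cross, ev, map_mul, map_pow, map_neg, map_one, RingHom.map_det]
  rfl

/-- the gradients are dependent only where the second form does not vanish -/
private theorem crit_ne (h : Pair Q e) {x : EN (n + 2)} (hx : x ≠ 0) (hV : OnV Q x) (hnv : nv Q x = 0) : ev (Q 1) x ≠ 0 := by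
  intro h0
  have h1 := h.trans x hx hV (Or.inr h0)
  have hli : LinearIndependent ℂ (fun j => grad (Q j) x) := by
    rw [Fintype.linearIndependent_iff]
    intro c hc j
    exact congrFun (h1 c hc) j
  refine (cross_ne_zero_iff _).2 hli ?_
  funext i
  rw [← nv_apply, hnv]
  rfl

/-- the first form is bounded on the critical points where the second form is `1` -/
private theorem crit_bdd (h : Pair Q e) : ∃ B : ℝ, ∀ x : EN (n + 2), OnV Q x → nv Q x = 0 → ev (Q 1) x = 1 → ‖ev (Q 0) x‖ ≤ B := by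
  set K : Set (EN (n + 2)) := {u | ‖u‖ = 1 ∧ OnV Q u ∧ nv Q u = 0} with hK
  have hKc : IsCompact K := by
    have h1 : IsClosed K := by
      have h2 : K = {u | ‖u‖ = 1} ∩ ({u | OnV Q u} ∩ {u | nv Q u = 0}) := rfl
      rw [h2]
      exact (isClosed_eq continuous_norm continuous_const).inter
        ((isClosed_onV Q).inter (isClosed_eq (continuous_nv Q) continuous_const))
    refine (isCompact_sphere (0 : EN (n + 2)) 1).of_isClosed_subset h1 ?_
    intro u hu
    rw [mem_sphere_zero_iff_norm]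
    exact hu.1
  have hpos := h.pos 1
  have hunit : ∀ x : EN (n + 2), OnV Q x → nv Q x = 0 → ev (Q 1) x = 1 →
      0 < ‖x‖ ∧ (((‖x‖⁻¹ : ℝ) : ℂ) • x) ∈ K ∧ ‖ev (Q 1) (((‖x‖⁻¹ : ℝ) : ℂ) • x)‖ = (‖x‖⁻¹) ^ e 1 := by
    intro x hV hnv h1
    have hx : x ≠ 0 := by
      rintro rfl
      have h2 := ev_smul (h.hom 1) 0 (0 : EN (n + 2))
      rw [smul_zero, zero_pow (by omega), zero_mul, h1] at h2
      exact one_ne_zero h2
    have hn : 0 < ‖x‖ := norm_pos_iff.2 hx
    refine ⟨hn, ⟨?_, hV.smul h _, ?_⟩, ?_⟩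
    · rw [norm_smul, Complex.norm_real, Real.norm_eq_abs, abs_of_pos (by positivity), inv_mul_cancel₀ hn.ne']
    · rw [nv_smul h, hnv, smul_zero]
    · rw [ev_smul (h.hom 1), h1, mul_one, norm_pow, Complex.norm_real, Real.norm_eq_abs, abs_of_pos (by positivity)]
  rcases K.eq_empty_or_nonempty with hKe | hKne
  · refine ⟨0, fun x hV hnv h1 => ?_⟩
    have := (hunit x hV hnv h1).2.1
    rw [hKe] at this
    exact absurd this (Set.notMem_empty _)
  · obtain ⟨u₀, hu₀, hmin⟩ := hKc.exists_isMinOn hKne (continuous_ev (Q 1)).norm.continuousOn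
    have hm : 0 < ‖ev (Q 1) u₀‖ := by
      rw [norm_pos_iff]
      refine crit_ne h ?_ hu₀.2.1 hu₀.2.2
      intro h0
      have := hu₀.1
      rw [h0, norm_zero] at this
      exact zero_ne_one this
    obtain ⟨B, hB⟩ := (isCompact_closedBall (0 : EN (n + 2)) (max 1 (‖ev (Q 1) u₀‖⁻¹))).exists_bound_of_continuousOn
      (continuous_ev (Q 0)).continuousOn
    refine ⟨B, fun x hV hnv h1 => hB x ?_⟩
    obtain ⟨hn, hu, hval⟩ := hunit x hV hnv h1
    rw [mem_closedBall_zero_iff]
    by_cases hle : ‖x‖ ≤ 1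
    · exact hle.trans (le_max_left _ _)
    · push Not at hle
      have h2 : ‖ev (Q 1) u₀‖ ≤ (‖x‖⁻¹) ^ e 1 := by
        rw [← hval]
        exact hmin hu
      have h3 : (‖x‖⁻¹) ^ e 1 ≤ ‖x‖⁻¹ := pow_le_of_le_one (by positivity) (inv_le_one_of_one_le₀ hle.le) (by omega)
      have h4 : ‖x‖ ≤ ‖ev (Q 1) u₀‖⁻¹ := by
        rw [le_inv_comm₀ hn hm]
        exact h2.trans h3
      exact h4.trans (le_max_right _ _)

theorem crit_finite (h : Pair Q e) : ∃ T : Finset ℂ, ∀ x : EN (n + 2), x ≠ 0 → OnV Q x → nv Q x = 0 →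
    ∃ τ ∈ T, ev (Q 0) x ^ e 1 = τ * ev (Q 1) x ^ e 0 := by
  classical
  obtain ⟨B, hB⟩ := crit_bdd h
  choose np hnp using crit_poly Q
  set Z : Set (Fin (n + 3) → ℂ) := {y | OnV Q (WithLp.toLp 2 y) ∧ nv Q (WithLp.toLp 2 y) = 0 ∧ ev (Q 1) (WithLp.toLp 2 y) = 1} with hZ
  have hmemZ : ∀ y : Fin (n + 3) → ℂ, (∀ p ∈ MvPolynomial.vanishingIdeal ℂ Z, MvPolynomial.eval y p = 0) → y ∈ Z := by
    intro y hy
    refine ⟨fun j hj => ?_, ?_, ?_⟩
    · refine hy (Q j) ?_
      rw [MvPolynomial.mem_vanishingIdeal_iff]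
      intro z hz
      exact hz.1 j hj
    · ext i
      rw [← hnp i]
      refine hy (np i) ?_
      rw [MvPolynomial.mem_vanishingIdeal_iff]
      intro z hz
      have h1 := hnp i (WithLp.toLp 2 z)
      rw [hz.2.1] at h1
      exact h1
    · have h1 := hy (Q 1 - 1) (by
        rw [MvPolynomial.mem_vanishingIdeal_iff]
        intro z hz
        rw [map_sub, map_one, sub_eq_zero]
        exact hz.2.2)
      rw [map_sub, map_one, sub_eq_zero] at h1
      exact h1
  obtain ⟨P, hP, hroot⟩ := crit_alg (MvPolynomial.vanishingIdeal ℂ Z) (Q 0) B (fun y hy => by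
    obtain ⟨h1, h2, h3⟩ := hmemZ y hy
    exact hB _ h1 h2 h3)
  refine ⟨P.roots.toFinset.image fun y => y ^ e 1, ?_⟩
  intro x hx hV hnv
  have hne := crit_ne h hx hV hnv
  obtain ⟨c, hc⟩ := IsAlgClosed.exists_pow_nat_eq (ev (Q 1) x)⁻¹ (h.pos 1)
  have hc1 : c ^ e 1 * ev (Q 1) x = 1 := by rw [hc, inv_mul_cancel₀ hne]
  have hval : P.eval (ev (Q 0) (c • x)) = 0 := by
    refine hroot (fun i => (c • x) i) ?_
    intro p hp
    rw [MvPolynomial.mem_vanishingIdeal_iff] at hp
    refine hp (fun i => (c • x) i) ⟨hV.smul h c, ?_, ?_⟩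
    · have h1 := nv_smul h c x
      rw [hnv, smul_zero] at h1
      exact h1
    · have h1 := ev_smul (h.hom 1) c x
      rw [hc1] at h1
      exact h1
  refine ⟨ev (Q 0) (c • x) ^ e 1, ?_, ?_⟩
  · rw [Finset.mem_image]
    exact ⟨ev (Q 0) (c • x), by rw [Multiset.mem_toFinset, Polynomial.mem_roots hP]; exact hval, rfl⟩
  · rw [ev_smul (h.hom 0)]
    have h1 : (c ^ e 0 * ev (Q 0) x) ^ e 1 * ev (Q 1) x ^ e 0 = ev (Q 0) x ^ e 1 * (c ^ e 1 * ev (Q 1) x) ^ e 0 := by ring
    rw [h1, hc1, one_pow, mul_one]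

end Pool.Agent.TC
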