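import Pool.Agent.TC.Defs

/-!
# TC: the generalised cross product of `m` vectors in `ℂ^(m+1)`
-/

set_option autoImplicit false

open Matrix

namespace Pool.Agent.TC

open Pool.Agent.H36.BP (EN)

variable {m : ℕ}

/-- the bilinear product `∑ v_i w_i` -/
noncomputable def dt (v w : Fin (m + 1) → ℂ) : ℂ := ∑ i, v i * w i

theorem dt_add_left (v v' w : Fin (m + 1) → ℂ) : dt (v + v') w = dt v w + dt v' w := by
  simp [dt, add_mul, Finset.sum_add_distrib]

theorem dt_add_right (v w w' : Fin (m + 1) → ℂ) : dt v (w + w') = dt v w + dt v w' := by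
  simp [dt, mul_add, Finset.sum_add_distrib]

theorem dt_sub_left (v v' w : Fin (m + 1) → ℂ) : dt (v - v') w = dt v w - dt v' w := by
  simp [dt, sub_mul, Finset.sum_sub_distrib]

theorem dt_smul_left (c : ℂ) (v w : Fin (m + 1) → ℂ) : dt (c • v) w = c * dt v w := by
  simp [dt, mul_assoc, Finset.mul_sum]

theorem dt_smul_right (c : ℂ) (v w : Fin (m + 1) → ℂ) : dt v (c • w) = c * dt v w := by
  simp only [dt, Pi.smul_apply, smul_eq_mul, Finset.mul_sum]
  exact Finset.sum_congr rfl fun i _ => by ring

theorem dt_comm (v w : Fin (m + 1) → ℂ) : dt v w = dt w v := by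
  simp [dt, mul_comm]

theorem dt_zero_left (w : Fin (m + 1) → ℂ) : dt 0 w = 0 := by simp [dt]

theorem dt_zero_right (w : Fin (m + 1) → ℂ) : dt w 0 = 0 := by simp [dt]

theorem dt_sum_right {ι : Type*} (s : Finset ι) (v : Fin (m + 1) → ℂ) (w : ι → Fin (m + 1) → ℂ) :
    dt v (∑ j ∈ s, w j) = ∑ j ∈ s, dt v (w j) := by
  classical
  induction s using Finset.induction_on with
  | empty => simp [dt_zero_right]
  | insert a s ha ih => rw [Finset.sum_insert ha, Finset.sum_insert ha, dt_add_right, ih]

/-- the matrix with rows `v, u 0, u 1, …` -/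
noncomputable def consMat (v : Fin (m + 1) → ℂ) (u : Fin m → Fin (m + 1) → ℂ) : Matrix (Fin (m + 1)) (Fin (m + 1)) ℂ :=
  Matrix.of (Fin.cons v u : Fin (m + 1) → Fin (m + 1) → ℂ)

theorem dt_cross (v : Fin (m + 1) → ℂ) (u : Fin m → Fin (m + 1) → ℂ) : dt v (cross u) = (consMat v u).det := by
  rw [Matrix.det_succ_row_zero]
  refine Finset.sum_congr rfl fun i _ => ?_
  have h : (consMat v u).submatrix Fin.succ i.succAbove = Matrix.of fun j k : Fin m => u j (i.succAbove k) := by
    ext j k
    simp [consMat]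
  rw [h, cross]
  simp only [consMat, Matrix.of_apply, Fin.cons_zero]
  ring

/-- the cross product is orthogonal to the vectors -/
theorem dt_cross_self (u : Fin m → Fin (m + 1) → ℂ) (j : Fin m) : dt (u j) (cross u) = 0 := by
  rw [dt_cross]
  refine Matrix.det_zero_of_row_eq (i := 0) (j := j.succ) (Fin.succ_ne_zero j).symm ?_
  ext k
  simp [consMat]

theorem single_dt (i : Fin (m + 1)) (w : Fin (m + 1) → ℂ) : dt (Pi.single i (1 : ℂ)) w = w i := by
  simp [dt, Pi.single_apply]

theorem consMat_mulVec (v : Fin (m + 1) → ℂ) (u : Fin m → Fin (m + 1) → ℂ) (w : Fin (m + 1) → ℂ) (j : Fin (m + 1)) :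
    (consMat v u).mulVec w j = dt ((Fin.cons v u : Fin (m + 1) → Fin (m + 1) → ℂ) j) w := by
  simp [Matrix.mulVec, dotProduct, consMat, dt]

/-- a vector which is orthogonal to all `u j` is a multiple of the cross product -/
theorem eq_smul_cross {u : Fin m → Fin (m + 1) → ℂ} {v : Fin (m + 1) → ℂ} (hv : ∀ j, dt (u j) v = 0) {i : Fin (m + 1)}
    (hi : cross u i ≠ 0) : v = (v i / cross u i) • cross u := by
  have hdet : (consMat (Pi.single i (1 : ℂ)) u).det = cross u i := by
    rw [← dt_cross, single_dt]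
  have hunit : IsUnit (consMat (Pi.single i (1 : ℂ)) u) := by
    rw [Matrix.isUnit_iff_isUnit_det, hdet]
    exact isUnit_iff_ne_zero.2 hi
  have hinj : Function.Injective (consMat (Pi.single i (1 : ℂ)) u).mulVec :=
    Matrix.mulVec_injective_iff_isUnit.2 hunit
  apply hinj
  funext j
  rw [consMat_mulVec, consMat_mulVec]
  refine Fin.cases ?_ (fun j => ?_) j
  · rw [Fin.cons_zero, single_dt, single_dt]
    simp only [Pi.smul_apply, smul_eq_mul]
    field_simp
  · rw [Fin.cons_succ, hv j, dt_smul_right, dt_cross_self, mul_zero]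

theorem exists_apply_ne {u : Fin (m + 1) → ℂ} (hu : u ≠ 0) : ∃ i, u i ≠ 0 := by
  by_contra h
  push Not at h
  exact hu (funext fun k => h k)

theorem exists_smul_cross {u : Fin m → Fin (m + 1) → ℂ} {v : Fin (m + 1) → ℂ} (hv : ∀ j, dt (u j) v = 0)
    (hu : cross u ≠ 0) : ∃ l : ℂ, v = l • cross u := by
  obtain ⟨i, hi⟩ := exists_apply_ne hu
  exact ⟨_, eq_smul_cross hv hi⟩

/-- the cross product does not vanish if and only if the vectors are linearly independent -/
theorem cross_ne_zero_iff (u : Fin m → Fin (m + 1) → ℂ) : cross u ≠ 0 ↔ LinearIndependent ℂ u := by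
  constructor
  · intro hu
    obtain ⟨i, hi⟩ := exists_apply_ne hu
    have hdet : (consMat (Pi.single i (1 : ℂ)) u).det ≠ 0 := by
      rwa [← dt_cross, single_dt]
    rw [Fintype.linearIndependent_iff]
    intro a ha j
    by_contra hj
    apply hdet
    refine Matrix.exists_vecMul_eq_zero_iff.1 ⟨Fin.cons 0 a, fun h => hj ?_, ?_⟩
    · have := congrFun h j.succ
      simpa using this
    · ext k
      simp only [Matrix.vecMul, dotProduct, Fin.sum_univ_succ, Fin.cons_zero, zero_mul, Fin.cons_succ, zero_add,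
        consMat, Matrix.of_apply, Pi.zero_apply]
      have := congrFun ha k
      simpa using this
  · intro hu h0
    obtain ⟨v, hv⟩ : ∃ v : Fin (m + 1) → ℂ, v ∉ Submodule.span ℂ (Set.range u) := by
      by_contra h
      push Not at h
      have htop : Submodule.span ℂ (Set.range u) = ⊤ := by
        rw [Submodule.eq_top_iff']
        exact h
      have h1 : Module.finrank ℂ (Submodule.span ℂ (Set.range u)) ≤ m := by
        have := finrank_range_le_card (R := ℂ) u
        simpa [Set.finrank] using this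
      rw [htop, finrank_top] at h1
      simp at h1
    have hc : LinearIndependent ℂ (Fin.cons v u : Fin (m + 1) → Fin (m + 1) → ℂ) :=
      linearIndependent_finCons.2 ⟨hu, hv⟩
    have hdet : (consMat v u).det = 0 := by rw [← dt_cross, h0, dt_zero_right]
    obtain ⟨a, ha, ha'⟩ := Matrix.exists_vecMul_eq_zero_iff.2 hdet
    apply ha
    rw [Fintype.linearIndependent_iff] at hc
    funext j
    refine hc a ?_ j
    funext k
    have := congrFun ha' k
    simpa [Matrix.vecMul, dotProduct, consMat] using this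

theorem cross_smul (a : Fin m → ℂ) (u : Fin m → Fin (m + 1) → ℂ) :
    cross (fun j => a j • u j) = (∏ j, a j) • cross u := by
  funext i
  simp only [Pi.smul_apply, smul_eq_mul, cross]
  have h := Matrix.det_mul_column a (Matrix.of fun j k : Fin m => u j (i.succAbove k))
  simp only [Matrix.of_apply] at h
  rw [h]
  ring

theorem continuous_cross : Continuous (cross : (Fin m → Fin (m + 1) → ℂ) → Fin (m + 1) → ℂ) := by
  refine continuous_pi fun i => ?_
  refine continuous_const.mul (Continuous.matrix_det ?_)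
  refine continuous_pi fun j => continuous_pi fun k => ?_
  exact (continuous_apply (i.succAbove k)).comp (continuous_apply j)

theorem analyticAt_apply {N : ℕ} {E : Type*} [NormedAddCommGroup E] [NormedSpace ℂ E] {F : E → EN N} {p : E}
    (hF : AnalyticAt ℂ F p) (i : Fin (N + 1)) : AnalyticAt ℂ (fun z => F z i) p :=
  ((EuclideanSpace.proj (𝕜 := ℂ) i : EN N →L[ℂ] ℂ).analyticAt (F p)).comp hF

theorem analyticAt_toLp {N : ℕ} {E : Type*} [NormedAddCommGroup E] [NormedSpace ℂ E] {F : E → Fin (N + 1) → ℂ} {p : E}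
    (hF : ∀ i, AnalyticAt ℂ (fun z => F z i) p) : AnalyticAt ℂ (fun z => (WithLp.toLp 2 (F z) : EN N)) p := by
  have h1 : AnalyticAt ℂ F p := AnalyticAt.pi hF
  exact ((PiLp.continuousLinearEquiv 2 ℂ (fun _ : Fin (N + 1) => ℂ)).symm.toContinuousLinearMap.analyticAt (F p)).comp h1

theorem analyticAt_cross {E : Type*} [NormedAddCommGroup E] [NormedSpace ℂ E] {U : E → Fin m → Fin (m + 1) → ℂ} {p : E}
    (hU : ∀ j k, AnalyticAt ℂ (fun z => U z j k) p) (i : Fin (m + 1)) : AnalyticAt ℂ (fun z => cross (U z) i) p := by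
  unfold cross
  refine analyticAt_const.mul ?_
  simp only [Matrix.det_apply']
  refine Finset.analyticAt_fun_sum _ fun σ _ => ?_
  refine analyticAt_const.mul ?_
  refine Finset.analyticAt_fun_prod _ fun j _ => ?_
  exact hU _ _

end Pool.Agent.TC
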