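import Pool.Agent.H36.BP.Defs
import Pool.Agent.H36.BP.WdA

/-!
# TC Defs: surfaces minus two hypersurface sections

The forms `Q 0 = F₁`, `Q 1 = F₂`, `Q 2, ..., Q (n + 1)` in `n + 3` variables, of degrees `e j`.  The surface is
`V = {Q j = 0, j ≥ 2} ⊆ ℙ^(n+2)` (for `n = 0` the projective plane) and `U = V ∖ {F₁ F₂ = 0}`.
A section over `U ⊆ ℂ` is a holomorphic map `f : U → ℂ^(n+3)` with `F₁ (f z) = exp z`, `F₂ (f z) = exp (-z)`, `Q j (f z) = 0` for `j ≥ 2`.
-/

set_option autoImplicit false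

open Topology Filter Metric

namespace Pool.Agent.TC

open Pool.Agent.H36.BP (EN fs wd Sub)

/-- the value of a polynomial at a point -/
noncomputable def ev {N : ℕ} (P : MvPolynomial (Fin (N + 1)) ℂ) (x : EN N) : ℂ := MvPolynomial.eval (fun i => x i) P

/-- the gradient of a polynomial at a point -/
noncomputable def grad {N : ℕ} (P : MvPolynomial (Fin (N + 1)) ℂ) (x : EN N) : Fin (N + 1) → ℂ :=
  fun i => ev (MvPolynomial.pderiv i P) x

variable {n : ℕ}

/-- the cone of the surface (with the point `0`) -/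
def OnV (Q : Fin (n + 2) → MvPolynomial (Fin (n + 3)) ℂ) (x : EN (n + 2)) : Prop := ∀ j : Fin (n + 2), 2 ≤ (j : ℕ) → ev (Q j) x = 0

/-- `f` is a section over the set `U` -/
def IsSec (Q : Fin (n + 2) → MvPolynomial (Fin (n + 3)) ℂ) (f : ℂ → EN (n + 2)) (U : Set ℂ) : Prop :=
  DifferentiableOn ℂ f U ∧ ∀ z ∈ U, ev (Q 0) (f z) = Complex.exp z ∧ ev (Q 1) (f z) = Complex.exp (-z) ∧ OnV Q (f z)

/-- the set of the entire sections -/
def Sec (Q : Fin (n + 2) → MvPolynomial (Fin (n + 3)) ℂ) : Set (ℂ → EN (n + 2)) := {f | IsSec Q f Set.univ}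

/-- The hypotheses.  `smooth`: `V` is a smooth complete intersection; `trans`: the curves `{F₁ = 0}` and `{F₂ = 0}` in `V` are smooth and meet transversally;
`deg`: `K_V + C₁ + C₂` is ample. -/
structure Pair (Q : Fin (n + 2) → MvPolynomial (Fin (n + 3)) ℂ) (e : Fin (n + 2) → ℕ) : Prop where
  hom : ∀ j, (Q j).IsHomogeneous (e j)
  pos : ∀ j, 1 ≤ e j
  deg : n + 4 ≤ ∑ j, e j
  smooth : ∀ x : EN (n + 2), x ≠ 0 → OnV Q x → ∀ c : Fin (n + 2) → ℂ, c 0 = 0 → c 1 = 0 → ∑ j, c j • grad (Q j) x = 0 → c = 0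
  trans : ∀ x : EN (n + 2), x ≠ 0 → OnV Q x → (ev (Q 0) x = 0 ∨ ev (Q 1) x = 0) → ∀ c : Fin (n + 2) → ℂ, ∑ j, c j • grad (Q j) x = 0 → c = 0

/-- the generalised cross product: the vector of the maximal minors of a matrix with `m` rows and `m + 1` columns -/
noncomputable def cross {m : ℕ} (u : Fin m → Fin (m + 1) → ℂ) : Fin (m + 1) → ℂ :=
  fun i => (-1) ^ (i : ℕ) * Matrix.det (Matrix.of fun a b => u a (i.succAbove b))

/-- the normal vector: the cross product of all gradients, a form of degree `∑ (e j - 1)` -/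
noncomputable def nv (Q : Fin (n + 2) → MvPolynomial (Fin (n + 3)) ℂ) (x : EN (n + 2)) : EN (n + 2) :=
  WithLp.toLp 2 (cross fun j => grad (Q j) x)

/-- the open half plane `{σ y > ρ}` (`σ = 1` or `σ = -1`) -/
def HP (σ ρ : ℝ) : Set ℂ := {z | ρ < σ * z.im}

/-- a convex function of class `C^1` which is `|t|` for `|t| ≥ 1`, with second derivative `1` for `|t| < 1` -/
noncomputable def sm (t : ℝ) : ℝ := if |t| ≤ 1 then (1 + t ^ 2) / 2 else |t|

end Pool.Agent.TC
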