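import Pool.Agent.TC.EndA

/-!
# TC EndB: a section can not run along a line through a base point (core)

See `EndA` for the idea.
-/

set_option autoImplicit false

open Topology Filter Metric

namespace Pool.Agent.TC

open Pool.Agent.H36.BP (EN)

variable {n : ℕ} {Q : Fin (n + 2) → MvPolynomial (Fin (n + 3)) ℂ} {e : Fin (n + 2) → ℕ}

/-- the line is tangent to all level sets -/
theorem EndB_tan {p w₁ : EN (n + 2)} {z₁ : ℂ} (hline : ∀ (Λ : ℂ) (j : Fin (n + 2)), ev (Q j) (Λ • p + w₁) = vl j z₁) (Λ : ℂ)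
    (j : Fin (n + 2)) : dt (fun i => p i) (grad (Q j) (Λ • p + w₁)) = 0 := by
  have h1 : HasDerivAt (fun Λ' : ℂ => Λ' • p + w₁) ((1 : ℂ) • p) Λ := ((hasDerivAt_id Λ).smul_const p).add_const w₁
  rw [one_smul] at h1
  have h2 := hasDerivAt_ev (Q j) h1
  have h3 : (fun Λ' : ℂ => ev (Q j) (Λ' • p + w₁)) = fun _ => vl j z₁ := funext fun Λ' => hline Λ' j
  rw [h3] at h2
  exact h2.unique (hasDerivAt_const Λ _)

theorem continuous_cross_rws (Q : Fin (n + 2) → MvPolynomial (Fin (n + 3)) ℂ) (p w₁ : EN (n + 2)) (z₁ : ℂ) :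
    Continuous fun q : ℂ × (EN (n + 2) × ℂ) =>
      cross (rws Q p (bq z₁ q.2.2) (q.1 • p + w₁) (q.1 • p + q.2.1)) := by
  refine continuous_cross.comp (continuous_pi fun a => ?_)
  refine Fin.cases ?_ (fun j => ?_) a
  · exact continuous_const
  · refine continuous_pi fun i => ?_
    refine Fin.cases ?_ (fun i => ?_) i
    · exact (differentiable_bq z₁ j).continuous.comp (continuous_snd.comp continuous_snd)
    · have h1 : Continuous fun q : ℂ × (EN (n + 2) × ℂ) => ((q.1 • p + w₁, q.1 • p + q.2.1) : EN (n + 2) × EN (n + 2)) := by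
        fun_prop
      exact (continuous_apply i).comp ((continuous_dq (Q j)).comp h1)

/-- near the line the rows are linearly independent -/
theorem EndB_tube (h : Pair Q e) {p w₁ : EN (n + 2)} {z₁ : ℂ} (hp : ‖p‖ = 1)
    (hline : ∀ (Λ : ℂ) (j : Fin (n + 2)), ev (Q j) (Λ • p + w₁) = vl j z₁) (R : ℝ) :
    ∃ ε : ℝ, 0 < ε ∧ ∀ (Λ : ℂ) (w : EN (n + 2)) (z : ℂ), ‖Λ‖ ≤ R → ‖w - w₁‖ ≤ ε → ‖z - z₁‖ ≤ ε →
      cross (rws Q p (bq z₁ z) (Λ • p + w₁) (Λ • p + w)) ≠ 0 := by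
  have hopen : IsOpen {q : ℂ × (EN (n + 2) × ℂ) |
      cross (rws Q p (bq z₁ q.2.2) (q.1 • p + w₁) (q.1 • p + q.2.1)) ≠ 0} :=
    isOpen_ne_fun (continuous_cross_rws Q p w₁ z₁) continuous_const
  have hsub : (closedBall (0 : ℂ) R) ×ˢ ({(w₁, z₁)} : Set (EN (n + 2) × ℂ)) ⊆
      {q : ℂ × (EN (n + 2) × ℂ) | cross (rws Q p (bq z₁ q.2.2) (q.1 • p + w₁) (q.1 • p + q.2.1)) ≠ 0} := by
    rintro ⟨Λ, w, z⟩ ⟨-, h2⟩
    simp only [Set.mem_singleton_iff, Prod.mk.injEq] at h2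
    obtain ⟨rfl, rfl⟩ := h2
    exact cross_rws_ne_zero h hp (EndB_tan hline Λ) (hline Λ)
  obtain ⟨u, v, hu, hv, hKu, hwv, huv⟩ := generalized_tube_lemma (isCompact_closedBall (0 : ℂ) R) isCompact_singleton hopen hsub
  obtain ⟨ε, hε, hball⟩ := Metric.isOpen_iff.1 hv (w₁, z₁) (hwv rfl)
  refine ⟨ε / 2, by positivity, fun Λ w z hΛ hw hz => ?_⟩
  have h3 : (Λ, (w, z)) ∈ u ×ˢ v := by
    refine ⟨hKu (by simpa using hΛ), hball ?_⟩
    rw [mem_ball, Prod.dist_eq, max_lt_iff, dist_eq_norm, dist_eq_norm]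
    exact ⟨by simp only; linarith, by simp only; linarith⟩
  exact huv h3

/-- far from the origin the first component is comparable with `lam ^ K` -/
theorem EndB_far (h : Pair Q e) {p w₁ : EN (n + 2)} (hp : ‖p‖ = 1) (hV : OnV Q p) (h0 : ev (Q 0) p = 0)
    (h1 : ev (Q 1) p = 0) {C : ℝ} (hC : ‖w₁‖ ≤ C) :
    ∃ R : ℝ, 0 < R ∧ ∀ (Λ : ℂ) (w : EN (n + 2)), R ≤ ‖Λ‖ → ‖w‖ ≤ C → ∃ μ : ℂ,
      inner ℂ p (gq Q (Λ • p + w₁) (Λ • p + w)) = Λ ^ (∑ j, (e j - 1)) * μ ∧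
        ‖μ - inner ℂ p (nv Q p)‖ ≤ ‖(inner ℂ p (nv Q p) : ℂ)‖ / 8 := by
  have hc := inner_nv_ne_zero h hp hV h0 h1
  have hcont : Continuous fun q : EN (n + 2) × EN (n + 2) => (inner ℂ p (gq Q q.1 q.2) : ℂ) :=
    continuous_const.inner (continuous_gq Q)
  have h2 := Metric.continuous_iff.1 hcont (p, p) (‖(inner ℂ p (nv Q p) : ℂ)‖ / 8) (by
    have := norm_pos_iff.2 hc
    positivity)
  obtain ⟨δ, hδ, h3⟩ := h2
  have hC0 : 0 ≤ C := (norm_nonneg _).trans hC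
  refine ⟨2 * (C + 1) / δ, by positivity, fun Λ w hΛ hw => ?_⟩
  have hR : 0 < 2 * (C + 1) / δ := by positivity
  have hΛ0 : 0 < ‖Λ‖ := hR.trans_le hΛ
  have hΛne : Λ ≠ 0 := norm_pos_iff.1 hΛ0
  have h4 : ∀ v : EN (n + 2), ‖v‖ ≤ C → ‖Λ⁻¹ • v‖ < δ := by
    intro v hv
    rw [norm_smul, norm_inv]
    have h5 : ‖Λ‖⁻¹ ≤ (2 * (C + 1) / δ)⁻¹ := by
      gcongr
    calc ‖Λ‖⁻¹ * ‖v‖ ≤ (2 * (C + 1) / δ)⁻¹ * C := by gcongr
      _ = δ * (C / (2 * (C + 1))) := by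
        field_simp
      _ < δ * 1 := by
        refine mul_lt_mul_of_pos_left ?_ hδ
        rw [div_lt_one (by positivity)]
        linarith
      _ = δ := mul_one _
  have h6 : ∀ v : EN (n + 2), Λ • p + v = Λ • (p + Λ⁻¹ • v) := by
    intro v
    rw [smul_add, smul_inv_smul₀ hΛne]
  refine ⟨inner ℂ p (gq Q (p + Λ⁻¹ • w₁) (p + Λ⁻¹ • w)), ?_, ?_⟩
  · rw [h6 w₁, h6 w, gq_smul h, inner_smul_right]
  · have h7 := h3 (p + Λ⁻¹ • w₁, p + Λ⁻¹ • w) (by
      rw [Prod.dist_eq, max_lt_iff, dist_eq_norm, dist_eq_norm]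
      simp only [add_sub_cancel_left]
      exact ⟨h4 _ hC, h4 _ hw⟩)
    rw [dist_eq_norm] at h7
    simp only [gq_self h] at h7
    exact h7.le

theorem end_core (h : Pair Q e) {p w₁ : EN (n + 2)} {z₁ : ℂ} (hp : ‖p‖ = 1) (hV : OnV Q p) (h0 : ev (Q 0) p = 0)
    (h1 : ev (Q 1) p = 0) (hw1 : inner ℂ p w₁ = (0 : ℂ))
    (hline : ∀ (Λ : ℂ) (j : Fin (n + 2)), ev (Q j) (Λ • p + w₁) = vl j z₁)
    {ρ C : ℝ} (hρ : 0 < ρ) (hC : ‖w₁‖ ≤ C) :
    ∃ R : ℝ, 0 < R ∧ ∃ ε : ℝ, 0 < ε ∧ ∀ (f : ℂ → EN (n + 2)) (z' : ℂ), IsSec Q f (ball z₁ (2 * ρ)) →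
      (∀ z ∈ ball z₁ (2 * ρ), ‖f z - (inner ℂ p (f z) : ℂ) • p‖ ≤ C) →
      (∀ z ∈ sphere z₁ ρ, R ≤ ‖(inner ℂ p (f z) : ℂ)‖) →
      (∀ z ∈ ball z₁ (2 * ρ), ‖(inner ℂ p (f z) : ℂ)‖ ≤ R →
        ‖f z - (inner ℂ p (f z) : ℂ) • p - w₁‖ ≤ ε ∧ ‖z - z₁‖ ≤ ε) →
      z' ∈ closedBall z₁ (ρ / 2) → (inner ℂ p (f z') : ℂ) ≠ 0 := by
  obtain ⟨R, hR, hfar⟩ := EndB_far h hp hV h0 h1 hC
  obtain ⟨ε, hε, htube⟩ := EndB_tube h hp hline R
  refine ⟨R, hR, ε, hε, fun f z' hf hwC hsph hclose hz' hz0 => ?_⟩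
  set c₀ : ℂ := inner ℂ p (nv Q p) with hc₀
  have hc : c₀ ≠ 0 := inner_nv_ne_zero h hp hV h0 h1
  have hcpos : 0 < ‖c₀‖ := norm_pos_iff.2 hc
  set K : ℕ := ∑ j, (e j - 1) with hK
  have hK2 : 2 ≤ K := two_le_sum h
  set lam : ℂ → ℂ := fun z => inner ℂ p (f z) with hlam
  set B : Set ℂ := ball z₁ (2 * ρ) with hB
  have hBo : IsOpen B := isOpen_ball
  have hpp : (inner ℂ p p : ℂ) = 1 := by
    rw [inner_self_eq_norm_sq_to_K, hp]
    norm_num
  have hfan : ∀ z ∈ B, AnalyticAt ℂ f z := fun z hz => hf.1.analyticAt (hBo.mem_nhds hz)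
  have hlan : ∀ z ∈ B, AnalyticAt ℂ lam z := fun z hz =>
    ((innerSL ℂ p).analyticAt (f z)).comp (hfan z hz)
  set L : ℂ → EN (n + 2) := fun z => lam z • p + w₁ with hL
  have hLan : ∀ z ∈ B, AnalyticAt ℂ L z := fun z hz => ((hlan z hz).smul analyticAt_const).add analyticAt_const
  set X : ℂ → Fin (n + 4) → ℂ := fun z => cross (rws Q p (bq z₁ z) (L z) (f z)) with hX
  set Y : ℂ → Fin (n + 4) → ℂ := fun z => Fin.cons (-(z - z₁)) fun i => (f z - L z) i with hY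
  -- the vector `Y` is orthogonal to the rows
  have hortho : ∀ z ∈ B, ∀ a, dt (rws Q p (bq z₁ z) (L z) (f z) a) (Y z) = 0 := by
    intro z hz
    refine dt_rws ?_ fun j => ?_
    · simp only [hL, inner_sub_right, inner_add_right, inner_smul_right, hpp, hw1, hlam]
      ring
    · rw [← ev_sub_ev (h.pos j) (h.hom j), sec_eq_vl hf hz j, hline, sub_mul_bq]
  have hX0 : ∀ z, X z 0 = inner ℂ p (gq Q (L z) (f z)) := fun z => cross_rws_zero p _ _ _
  have hfw : ∀ z, lam z • p + (f z - lam z • p) = f z := fun z => by abel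
  have hfarz : ∀ z ∈ B, R ≤ ‖lam z‖ → ∃ μ : ℂ, X z 0 = lam z ^ K * μ ∧ ‖μ - c₀‖ ≤ ‖c₀‖ / 8 := by
    intro z hz hRz
    obtain ⟨μ, hμ1, hμ2⟩ := hfar (lam z) (f z - lam z • p) hRz (hwC z hz)
    refine ⟨μ, ?_, hμ2⟩
    rw [hX0, ← hμ1, hfw]
  have hμne : ∀ μ : ℂ, ‖μ - c₀‖ ≤ ‖c₀‖ / 8 → 7 / 8 * ‖c₀‖ ≤ ‖μ‖ := by
    intro μ hμ
    have h2 : ‖c₀‖ ≤ ‖μ‖ + ‖μ - c₀‖ := by
      calc ‖c₀‖ = ‖μ - (μ - c₀)‖ := by rw [sub_sub_cancel]
        _ ≤ ‖μ‖ + ‖μ - c₀‖ := norm_sub_le _ _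
    linarith
  have hXne : ∀ z ∈ B, X z ≠ 0 := by
    intro z hz
    rcases le_total ‖lam z‖ R with hle | hle
    · obtain ⟨h2, h3⟩ := hclose z hz hle
      have h4 := htube (lam z) (f z - lam z • p) z hle h2 h3
      rwa [hfw] at h4
    · obtain ⟨μ, hμ1, hμ2⟩ := hfarz z hz hle
      intro hcon
      have h2 : X z 0 = 0 := by rw [hcon]; rfl
      rw [hμ1] at h2
      have h3 : lam z ≠ 0 := norm_pos_iff.1 (hR.trans_le hle)
      have h4 : μ ≠ 0 := by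
        have := hμne μ hμ2
        exact norm_pos_iff.1 (by nlinarith)
      exact (mul_ne_zero (pow_ne_zero _ h3) h4) h2
  have hex : ∀ z ∈ B, ∃ t : ℂ, Y z = t • X z := fun z hz => exists_smul_cross (hortho z hz) (hXne z hz)
  choose! t ht using hex
  -- analyticity
  have hXan : ∀ z ∈ B, ∀ i, AnalyticAt ℂ (fun w => X w i) z := by
    intro z hz i
    refine analyticAt_cross (fun a k => ?_) i
    refine Fin.cases ?_ (fun j => ?_) a
    · exact analyticAt_const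
    · refine Fin.cases ?_ (fun k => ?_) k
      · exact (differentiable_bq z₁ j).analyticAt z
      · exact analyticAt_dq (Q j) (hLan z hz) (hfan z hz) k
  have hYan : ∀ z ∈ B, ∀ i, AnalyticAt ℂ (fun w => Y w i) z := by
    intro z hz i
    refine Fin.cases ?_ (fun i => ?_) i
    · exact (analyticAt_id.sub analyticAt_const).neg
    · exact analyticAt_apply ((hfan z hz).sub (hLan z hz)) i
  have htd : ∀ z ∈ B, DifferentiableAt ℂ t z := by
    intro z hz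
    obtain ⟨i, hi⟩ := exists_apply_ne (hXne z hz)
    have h2 : AnalyticAt ℂ (fun w => Y w i / X w i) z := (hYan z hz i).div (hXan z hz i) hi
    refine h2.differentiableAt.congr_of_eventuallyEq ?_
    filter_upwards [hBo.mem_nhds hz, (hXan z hz i).continuousAt.eventually_ne hi] with w hw hwi
    have h3 := congrFun (ht w hw) i
    simp only [Pi.smul_apply, smul_eq_mul] at h3
    rw [h3, mul_div_cancel_right₀ _ hwi]
  have hld : ∀ z ∈ B, DifferentiableAt ℂ lam z := fun z hz => (hlan z hz).differentiableAt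
  set E : ℂ → ℂ := fun z => c₀ * (-(t z * lam z ^ K)) - (z - z₁) with hE
  have hEd : ∀ z ∈ B, DifferentiableAt ℂ E z := by
    intro z hz
    exact (((htd z hz).mul ((hld z hz).pow K)).neg.const_mul c₀).sub
      (differentiableAt_id.sub_const z₁)
  have hcb : closedBall z₁ ρ ⊆ B := closedBall_subset_ball (by linarith)
  have hEs : ∀ z ∈ sphere z₁ ρ, ‖E z‖ ≤ ρ / 7 := by
    intro z hz
    have hzB : z ∈ B := hcb (sphere_subset_closedBall hz)
    obtain ⟨μ, hμ1, hμ2⟩ := hfarz z hzB (hsph z hz)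
    have h2 := congrFun (ht z hzB) 0
    have h3 : -(z - z₁) = t z * (lam z ^ K * μ) := by
      rw [← hμ1]
      exact h2
    have h4 : E z = -(t z * lam z ^ K) * (c₀ - μ) := by
      simp only [hE]
      linear_combination h3
    have h5 : ‖z - z₁‖ = ρ := by simpa [dist_eq_norm] using hz
    have h6 : ‖t z * lam z ^ K‖ * ‖μ‖ = ρ := by
      rw [← norm_mul, mul_assoc, ← h3, norm_neg, h5]
    have h7 := hμne μ hμ2
    have h8 : ‖t z * lam z ^ K‖ * (7 / 8 * ‖c₀‖) ≤ ρ := by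
      rw [← h6]
      exact mul_le_mul_of_nonneg_left h7 (norm_nonneg _)
    rw [h4, norm_mul, norm_neg, norm_sub_rev]
    calc ‖t z * lam z ^ K‖ * ‖μ - c₀‖ ≤ ‖t z * lam z ^ K‖ * (‖c₀‖ / 8) := by gcongr
      _ ≤ ρ / 7 := by linarith
  have hEdc : ∀ (c : ℂ) (r : ℝ), closedBall c r ⊆ B → DiffContOnCl ℂ E (ball c r) := by
    intro c r hcr
    refine DifferentiableOn.diffContOnCl fun z hz => ?_
    exact (hEd z (hcr (closure_ball_subset_closedBall hz))).differentiableWithinAt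
  have hEin : ∀ z ∈ closedBall z₁ ρ, ‖E z‖ ≤ ρ / 7 := by
    intro z hz
    refine Complex.norm_le_of_forall_mem_frontier_norm_le isBounded_ball (hEdc z₁ ρ hcb) (fun w hw => ?_) ?_
    · rw [frontier_ball _ hρ.ne'] at hw
      exact hEs w hw
    · rw [closure_ball _ hρ.ne']
      exact hz
  have hz'B : z' ∈ B := hcb (closedBall_subset_closedBall (by linarith) hz')
  have hsub' : closedBall z' (ρ / 2) ⊆ closedBall z₁ ρ := by
    intro w hw
    rw [mem_closedBall] at hw hz' ⊢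
    calc dist w z₁ ≤ dist w z' + dist z' z₁ := dist_triangle _ _ _
      _ ≤ ρ / 2 + ρ / 2 := add_le_add hw hz'
      _ = ρ := by ring
  have hder := Complex.norm_deriv_le_of_forall_mem_sphere_norm_le (c := z') (R := ρ / 2) (C := ρ / 7) (f := E)
    (by positivity) (hEdc z' (ρ / 2) (hsub'.trans hcb)) fun z hz => hEin z (hsub' (sphere_subset_closedBall hz))
  have hd2 : HasDerivAt E (-1) z' := by
    have e1 : HasDerivAt t (deriv t z') z' := (htd z' hz'B).hasDerivAt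
    have e2 : HasDerivAt lam (deriv lam z') z' := (hld z' hz'B).hasDerivAt
    have e3 := e2.pow K
    have e4 := ((e1.mul e3).neg.const_mul c₀).sub ((hasDerivAt_id z').sub_const z₁)
    refine e4.congr_deriv ?_
    have hl0 : lam z' = 0 := hz0
    have e5 : lam z' ^ K = 0 := by rw [hl0, zero_pow (by omega)]
    have e6 : lam z' ^ (K - 1) = 0 := by rw [hl0, zero_pow (by omega)]
    simp only [Pi.pow_apply, e5, e6]
    ring
  rw [hd2.deriv] at hder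
  have h9 : ρ / 7 / (ρ / 2) = 2 / 7 := by
    field_simp
  rw [h9, norm_neg, norm_one] at hder
  norm_num at hder

end Pool.Agent.TC
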