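import Pool.Agent.TC.EndB

/-!
# TC EndC: sections which tend to a base point on a punctured disc tend to it on the disc
-/

set_option autoImplicit false

open Topology Filter Metric

namespace Pool.Agent.TC

open Pool.Agent.H36.BP (EN)

variable {n : ℕ} {Q : Fin (n + 2) → MvPolynomial (Fin (n + 3)) ℂ} {e : Fin (n + 2) → ℕ}

theorem endc_ult {X : Type*} [TopologicalSpace X] {U : Ultrafilter ℕ} {K : Set X} (hK : IsCompact K) {z : ℕ → X} (hz : ∀ᶠ k in (U : Filter ℕ), z k ∈ K) :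
    ∃ z₀ ∈ K, Tendsto z U (𝓝 z₀) := by
  obtain ⟨z₀, h1, h2⟩ := hK.ultrafilter_le_nhds (U.map z) (by
    rw [le_principal_iff]
    exact hz)
  exact ⟨z₀, h1, h2⟩

attribute [local irreducible] dq grad ev nv

/-- near a base point the vector `x - ⟨p, x⟩ p` is controlled by the values of the forms -/
theorem endc_bound (h : Pair Q e) {p : EN (n + 2)} (hp : ‖p‖ = 1) (hV : OnV Q p) (h0 : ev (Q 0) p = 0) (h1 : ev (Q 1) p = 0) :
    ∃ C : ℝ, 0 < C ∧ ∀ᶠ y in 𝓝 p, inner ℂ p y = (1 : ℂ) → ‖y - p‖ ≤ C * ∑ j, ‖ev (Q j) y‖ := by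
  have hp0 : p ≠ 0 := by
    rintro rfl
    simp at hp
  have hev : ∀ j, ev (Q j) p = 0 := by
    intro j
    rcases fin_cases2 j with rfl | rfl | hj
    · exact h0
    · exact h1
    · exact hV j hj
  set G : EN (n + 2) → EN (n + 2) → ℝ := fun y v => ‖inner ℂ p v‖ + ∑ j, ‖dt (fun i => v i) (dq (Q j) p y)‖ with hG
  have hGc : Continuous fun q : EN (n + 2) × EN (n + 2) => G q.1 q.2 := by
    have h1 : Continuous fun q : EN (n + 2) × EN (n + 2) => ‖inner ℂ p q.2‖ := (continuous_const.inner continuous_snd).norm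
    refine h1.add (continuous_finsetSum _ fun j _ => Continuous.norm ?_)
    have h2 : Continuous fun q : EN (n + 2) × EN (n + 2) => dq (Q j) p q.1 :=
      Continuous.comp (g := fun q : EN (n + 2) × EN (n + 2) => dq (Q j) q.1 q.2) (f := fun q : EN (n + 2) × EN (n + 2) => (p, q.1))
        (continuous_dq (Q j)) (continuous_const.prodMk continuous_fst)
    unfold dt
    refine continuous_finsetSum _ fun i _ => ?_
    have h3 : Continuous fun q : EN (n + 2) × EN (n + 2) => q.2 i := (EuclideanSpace.proj i : EN (n + 2) →L[ℂ] ℂ).continuous.comp continuous_snd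
    exact h3.mul ((continuous_apply i).comp h2)
  have hGpos : ∀ v ∈ sphere (0 : EN (n + 2)) 1, 0 < G p v := by
    intro v hv
    rw [mem_sphere_zero_iff_norm] at hv
    by_contra hle
    have h2 : 0 ≤ ∑ j, ‖dt (fun i => v i) (dq (Q j) p p)‖ := Finset.sum_nonneg fun _ _ => norm_nonneg _
    have h3 := norm_nonneg (inner ℂ p v)
    have hle' : G p v ≤ 0 := not_lt.mp hle
    simp only [hG] at hle'
    have h4 : ‖inner ℂ p v‖ = 0 := by linarith
    have h5 : ∑ j, ‖dt (fun i => v i) (dq (Q j) p p)‖ = 0 := by linarith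
    rw [Finset.sum_eq_zero_iff_of_nonneg fun _ _ => norm_nonneg _] at h5
    have hcr : cross (fun j => grad (Q j) p) ≠ 0 := by
      rw [cross_ne_zero_iff, Fintype.linearIndependent_iff]
      intro c hc j
      exact congrFun (h.trans p hp0 hV (Or.inl h0) c hc) j
    obtain ⟨t, ht⟩ := exists_smul_cross (u := fun j => grad (Q j) p) (v := fun i => p i) (fun j => by
      rw [dt_comm, dt_self_grad (h.hom j), hev j, mul_zero]) hcr
    obtain ⟨s, hs⟩ := exists_smul_cross (u := fun j => grad (Q j) p) (v := fun i => v i) (fun j => by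
      have h6 := h5 j (Finset.mem_univ j)
      rw [dq_self (h.pos _) (h.hom _)] at h6
      rw [dt_comm]
      exact norm_eq_zero.mp h6) hcr
    have ht0 : t ≠ 0 := by
      rintro rfl
      apply hp0
      refine PiLp.ext fun i => ?_
      have := congrFun ht i
      simpa using this
    have hvp : v = (s / t) • p := by
      refine PiLp.ext fun i => ?_
      have e1 := congrFun ht i
      have e2 := congrFun hs i
      simp only [Pi.smul_apply, smul_eq_mul] at e1 e2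
      rw [PiLp.smul_apply, smul_eq_mul, e2, e1]
      field_simp
    have h7 : inner ℂ p v = s / t := by
      rw [hvp, inner_smul_right, inner_self_eq_norm_sq_to_K, hp]
      simp
    rw [h7] at h4
    rw [hvp, norm_eq_zero.mp h4] at hv
    simp at hv
  obtain ⟨v₀, hv₀, hmin⟩ := (isCompact_sphere (0 : EN (n + 2)) 1).exists_isMinOn
    ⟨p, by rw [mem_sphere_zero_iff_norm]; exact hp⟩ ((hGc.comp (continuous_const.prodMk continuous_id)).continuousOn (s := sphere 0 1) :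
      ContinuousOn (fun v => G p v) _)
  set c := G p v₀ / 2 with hc
  have hc0 : 0 < c := by have := hGpos v₀ hv₀; positivity
  have hev1 : ∀ᶠ y in 𝓝 p, ∀ v ∈ sphere (0 : EN (n + 2)) 1, c ≤ G y v := by
    apply (isCompact_sphere (0 : EN (n + 2)) 1).eventually_forall_of_forall_eventually
    intro v hv
    have h2 : c < G p v := by
      have h3 := hGpos v₀ hv₀
      have h4 : G p v₀ ≤ G p v := hmin hv
      rw [hc]; linarith
    have h3 := hGc.continuousAt (x := (p, v))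
    exact (h3.eventually (lt_mem_nhds h2)).mono fun q hq => hq.le
  refine ⟨1 / c, by positivity, ?_⟩
  filter_upwards [hev1] with y hy hyp
  by_cases hyp0 : y - p = 0
  · rw [hyp0, norm_zero]
    exact mul_nonneg (by positivity) (Finset.sum_nonneg fun _ _ => norm_nonneg _)
  · have hn : 0 < ‖y - p‖ := norm_pos_iff.mpr hyp0
    have h2 := hy (((‖y - p‖⁻¹ : ℝ) : ℂ) • (y - p)) (by
      rw [mem_sphere_zero_iff_norm, norm_smul, Complex.norm_real, norm_inv, norm_norm, inv_mul_cancel₀ hn.ne'])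
    have h3 : inner ℂ p (y - p) = (0 : ℂ) := by
      rw [inner_sub_right, hyp, inner_self_eq_norm_sq_to_K, hp]
      simp
    have h4 : ∀ j, dt (fun i => (((‖y - p‖⁻¹ : ℝ) : ℂ) • (y - p)) i) (dq (Q j) p y) = ((‖y - p‖⁻¹ : ℝ) : ℂ) * ev (Q j) y := by
      intro j
      have h5 := ev_sub_ev (h.pos j) (h.hom j) p y
      rw [hev j, sub_zero] at h5
      rw [h5]
      have : (fun i => (((‖y - p‖⁻¹ : ℝ) : ℂ) • (y - p)) i) = ((‖y - p‖⁻¹ : ℝ) : ℂ) • fun i => (y - p) i := rfl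
      rw [this, dt_smul_left]
    simp only [hG] at h2
    rw [inner_smul_right, h3, mul_zero, norm_zero, zero_add] at h2
    simp only [h4, norm_mul, Complex.norm_real, norm_inv, norm_norm] at h2
    rw [← Finset.mul_sum] at h2
    rw [div_mul_eq_mul_div, one_mul, le_div_iff₀ hc0]
    have h6 : ‖y - p‖ * c ≤ ‖y - p‖ * (‖y - p‖⁻¹ * ∑ j, ‖ev (Q j) y‖) := mul_le_mul_of_nonneg_left h2 hn.le
    rwa [← mul_assoc, mul_inv_cancel₀ hn.ne', one_mul] at h6

/-- uniformity on compact sets from the limits along the ultrafilter -/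
theorem endc_unif {U : Ultrafilter ℕ} {z₁ : ℂ} {r : ℝ} {K : Set ℂ} (hK : IsCompact K) (hKr : K ⊆ ball z₁ r) (hK1 : z₁ ∉ K)
    {P : ℕ → ℂ → Prop}
    (hlim : ∀ (z : ℕ → ℂ) (z₀ : ℂ), z₀ ∈ ball z₁ r → z₀ ≠ z₁ → Tendsto z U (𝓝 z₀) → ∀ᶠ k in (U : Filter ℕ), P k (z k)) :
    ∀ᶠ k in (U : Filter ℕ), ∀ z ∈ K, P k z := by
  classical
  by_contra hne
  rw [Ultrafilter.eventually_not.symm] at hne
  have hex : ∃ z : ℕ → ℂ, ∀ᶠ k in (U : Filter ℕ), z k ∈ K ∧ ¬ P k (z k) := by
    refine ⟨fun k => if h : ∃ z ∈ K, ¬ P k z then h.choose else 0, ?_⟩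
    filter_upwards [hne] with k hk
    push Not at hk
    rw [dif_pos hk]
    exact hk.choose_spec
  obtain ⟨z, hz⟩ := hex
  obtain ⟨z₀, hz₀, ht⟩ := endc_ult hK (hz.mono fun k hk => hk.1)
  have h1 := hlim z z₀ (hKr hz₀) (fun h => hK1 (h ▸ hz₀)) ht
  obtain ⟨k, hk1, hk2⟩ := (hz.and h1).exists
  exact hk1.2 hk2

/-- points where `l ∘ F k` is bounded tend to the centre -/
theorem endc_centre {U : Ultrafilter ℕ} {z₁ : ℂ} {r ρ B : ℝ} (hρ : ρ < r) {l : ℕ → ℂ → ℂ}
    (hlim : ∀ (z : ℕ → ℂ) (z₀ : ℂ), z₀ ∈ ball z₁ r → z₀ ≠ z₁ → Tendsto z U (𝓝 z₀) → Tendsto (fun k => ‖l k (z k)‖) U atTop)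
    {z : ℕ → ℂ} (hz : ∀ᶠ k in (U : Filter ℕ), z k ∈ closedBall z₁ ρ ∧ ‖l k (z k)‖ ≤ B) : Tendsto z U (𝓝 z₁) := by
  obtain ⟨z₀, hz₀, ht⟩ := endc_ult (isCompact_closedBall z₁ ρ) (hz.mono fun k hk => hk.1)
  by_cases h1 : z₀ = z₁
  · rwa [h1] at ht
  · exfalso
    have h2 := hlim z z₀ (closedBall_subset_ball hρ hz₀) h1 ht
    obtain ⟨k, hk1, hk2⟩ := (hz.and (h2.eventually (eventually_gt_atTop B))).exists
    linarith [hk1.2]

theorem endc_vl (j : Fin (n + 2)) (z : ℂ) : ‖vl j z‖ ≤ Real.exp ‖z‖ := by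
  have h1 : |z.re| ≤ ‖z‖ := Complex.abs_re_le_norm z
  rcases fin_cases2 j with rfl | rfl | hj
  · rw [vl_zero, Complex.norm_exp]
    exact Real.exp_le_exp.mpr ((le_abs_self _).trans h1)
  · rw [vl_one, Complex.norm_exp, Complex.neg_re]
    exact Real.exp_le_exp.mpr ((neg_le_abs _).trans h1)
  · rw [vl_two hj, norm_zero]
    exact (Real.exp_pos _).le

theorem endc_inner (p : EN (n + 2)) (hp : ‖p‖ = 1) (x : EN (n + 2)) : inner ℂ p (x - inner ℂ p x • p) = (0 : ℂ) := by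
  rw [inner_sub_right, inner_smul_right, inner_self_eq_norm_sq_to_K, hp]
  simp

/-- the bound of `w` at points where `l` is large and `l⁻¹ F` is near `p` -/
theorem endc_w (h : Pair Q e) {p : EN (n + 2)} (hp : ‖p‖ = 1) (hV : OnV Q p) (h0 : ev (Q 0) p = 0) (h1 : ev (Q 1) p = 0) :
    ∃ C : ℝ, 0 < C ∧ ∀ᶠ y in 𝓝 p, ∀ (x : EN (n + 2)) (z : ℂ), (∀ j, ev (Q j) x = vl j z) → 1 ≤ ‖(inner ℂ p x : ℂ)‖ →
      (inner ℂ p x : ℂ)⁻¹ • x = y → ‖x - (inner ℂ p x : ℂ) • p‖ ≤ C * Real.exp ‖z‖ := by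
  obtain ⟨C, hC, hb⟩ := endc_bound h hp hV h0 h1
  refine ⟨C * (n + 2), by positivity, ?_⟩
  filter_upwards [hb] with y hy x z hx hl hxy
  have hl0 : (inner ℂ p x : ℂ) ≠ 0 := by
    intro h
    rw [h, norm_zero] at hl
    linarith
  have h2 : inner ℂ p y = (1 : ℂ) := by
    rw [← hxy, inner_smul_right, inv_mul_cancel₀ hl0]
  have h3 := hy h2
  have h4 : ∀ j, ‖ev (Q j) y‖ ≤ ‖(inner ℂ p x : ℂ)‖⁻¹ * Real.exp ‖z‖ := by
    intro j
    rw [← hxy, ev_smul (h.hom j), hx j, norm_mul, norm_pow, norm_inv]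
    refine mul_le_mul ?_ (endc_vl j z) (norm_nonneg _) (by positivity)
    have h5 : ‖(inner ℂ p x : ℂ)‖⁻¹ ≤ 1 := inv_le_one_of_one_le₀ hl
    exact pow_le_of_le_one (by positivity) h5 (by have := h.pos j; omega)
  have h5 : x - (inner ℂ p x : ℂ) • p = (inner ℂ p x : ℂ) • (y - p) := by
    rw [smul_sub, ← hxy, smul_smul, mul_inv_cancel₀ hl0, one_smul]
  rw [h5, norm_smul]
  have h6 : ∑ j : Fin (n + 2), ‖ev (Q j) y‖ ≤ (n + 2) * (‖(inner ℂ p x : ℂ)‖⁻¹ * Real.exp ‖z‖) := by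
    refine (Finset.sum_le_sum fun j _ => h4 j).trans (le_of_eq ?_)
    rw [Finset.sum_const, Finset.card_univ, Fintype.card_fin, nsmul_eq_mul]
    push_cast
    ring
  calc ‖(inner ℂ p x : ℂ)‖ * ‖y - p‖ ≤ ‖(inner ℂ p x : ℂ)‖ * (C * ((n + 2) * (‖(inner ℂ p x : ℂ)‖⁻¹ * Real.exp ‖z‖))) :=
        mul_le_mul_of_nonneg_left (h3.trans (mul_le_mul_of_nonneg_left h6 hC.le)) (norm_nonneg _)
    _ = (‖(inner ℂ p x : ℂ)‖ * ‖(inner ℂ p x : ℂ)‖⁻¹) * (C * (n + 2) * Real.exp ‖z‖) := by ring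
    _ = C * (n + 2) * Real.exp ‖z‖ := by rw [mul_inv_cancel₀ (norm_ne_zero_iff.mpr hl0), one_mul]

theorem endc_val {l : ℂ → ℂ} {z₁ z' L : ℂ} {ρ r : ℝ} (hr : ρ < r) (hl : DifferentiableOn ℂ l (ball z₁ r))
    (hs : ∀ z ∈ sphere z₁ ρ, 2 * ‖L‖ + 1 ≤ ‖l z‖) (hz : z' ∈ ball z₁ ρ) (hl0 : l z' = 0) : ∃ z ∈ closedBall z₁ ρ, l z = L := by
  by_contra hne
  push Not at hne
  have hL : L ≠ 0 := fun h => hne z' (ball_subset_closedBall hz) (by rw [hl0, h])
  have hρ : 0 < ρ := by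
    by_contra hle
    rw [ball_eq_empty.mpr (not_lt.mp hle)] at hz
    exact hz
  have hd : DiffContOnCl ℂ (fun z => (l z - L)⁻¹) (ball z₁ ρ) := by
    apply DifferentiableOn.diffContOnCl
    rw [closure_ball z₁ hρ.ne']
    exact ((hl.mono (closedBall_subset_ball hr)).sub_const L).inv fun z hz => sub_ne_zero.mpr (hne z hz)
  have h1 := Complex.norm_le_of_forall_mem_frontier_norm_le isBounded_ball hd (C := (‖L‖ + 1)⁻¹) (by
    intro z hz
    rw [frontier_ball z₁ hρ.ne'] at hz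
    rw [norm_inv]
    refine inv_anti₀ (by positivity) ?_
    have := norm_sub_norm_le (l z) L
    linarith [hs z hz]) (subset_closure hz)
  rw [hl0, zero_sub, norm_inv, norm_neg] at h1
  have h2 : 0 < ‖L‖ := norm_pos_iff.mpr hL
  have h3 := (inv_le_inv₀ h2 (by positivity)).mp h1
  linarith

/-- **the end point theorem** -/
theorem end_point (h : Pair Q e) (U : Ultrafilter ℕ) {F : ℕ → ℂ → EN (n + 2)} {z₁ : ℂ} {r : ℝ} (hr : 0 < r) {p : EN (n + 2)}
    (hp : ‖p‖ = 1) (hV : OnV Q p) (h0 : ev (Q 0) p = 0) (h1 : ev (Q 1) p = 0)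
    (hF : ∀ᶠ k in (U : Filter ℕ), IsSec Q (F k) (ball z₁ r))
    (hlim : ∀ (z : ℕ → ℂ) (z₀ : ℂ), z₀ ∈ ball z₁ r → z₀ ≠ z₁ → Tendsto z U (𝓝 z₀) →
      Tendsto (fun k => ‖(inner ℂ p (F k (z k)) : ℂ)‖) U atTop ∧
        Tendsto (fun k => (inner ℂ p (F k (z k)) : ℂ)⁻¹ • F k (z k)) U (𝓝 p)) :
    ∀ (z : ℕ → ℂ) (z₀ : ℂ), z₀ ∈ ball z₁ r → Tendsto z U (𝓝 z₀) →
      Tendsto (fun k => ‖(inner ℂ p (F k (z k)) : ℂ)‖) U atTop ∧
        Tendsto (fun k => (inner ℂ p (F k (z k)) : ℂ)⁻¹ • F k (z k)) U (𝓝 p) := by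
  classical
  set ρ := r / 4 with hρ
  have hρ0 : 0 < ρ := by positivity
  have hcen := fun (B : ℝ) (z : ℕ → ℂ) => endc_centre (U := U) (z₁ := z₁) (r := r) (ρ := 2 * ρ) (B := B) (by linarith)
    (l := fun k z => (inner ℂ p (F k z) : ℂ)) (fun z z₀ hz hz1 ht => (hlim z z₀ hz hz1 ht).1) (z := z)
  -- the functions `l` and `w` are holomorphic
  have hld : ∀ k, IsSec Q (F k) (ball z₁ r) → DifferentiableOn ℂ (fun z => (inner ℂ p (F k z) : ℂ)) (ball z₁ r) := fun k hk =>
    (innerSL ℂ p).differentiable.comp_differentiableOn hk.1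
  have hwd : ∀ k, IsSec Q (F k) (ball z₁ r) → DifferentiableOn ℂ (fun z => F k z - (inner ℂ p (F k z) : ℂ) • p) (ball z₁ r) :=
    fun k hk => hk.1.sub ((hld k hk).smul_const p)
  -- the bound of `w`
  obtain ⟨C₀, hC₀, hw⟩ := endc_w h hp hV h0 h1
  set C := C₀ * Real.exp (‖z₁‖ + r) with hC
  have hC0 : 0 < C := by positivity
  have hsph : ∀ᶠ k in (U : Filter ℕ), ∀ z ∈ sphere z₁ (3 * ρ), ‖F k z - (inner ℂ p (F k z) : ℂ) • p‖ ≤ C := by
    refine endc_unif (z₁ := z₁) (r := r) (isCompact_sphere z₁ (3 * ρ)) (fun z hz => ?_) (fun hz => ?_) ?_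
    · rw [mem_sphere] at hz
      rw [mem_ball]
      linarith
    · rw [mem_sphere, dist_self] at hz
      linarith
    · intro z z₀ hz₀ hz1 ht
      obtain ⟨k1, k2⟩ := hlim z z₀ hz₀ hz1 ht
      filter_upwards [k2.eventually hw, k1.eventually (eventually_ge_atTop 1), hF, ht.eventually (isOpen_ball.mem_nhds hz₀)]
        with k e1 e2 e3 e4
      refine (e1 (F k (z k)) (z k) (fun j => sec_eq_vl e3 e4 j) e2 rfl).trans ?_
      rw [hC]
      refine mul_le_mul_of_nonneg_left (Real.exp_le_exp.mpr ?_) hC₀.le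
      rw [dist_eq_norm] at e4
      have : ‖z k‖ ≤ ‖z₁‖ + ‖z k - z₁‖ := by
        have := norm_add_le z₁ (z k - z₁)
        simpa using this
      linarith
  have hwb : ∀ᶠ k in (U : Filter ℕ), ∀ z ∈ closedBall z₁ (3 * ρ), ‖F k z - (inner ℂ p (F k z) : ℂ) • p‖ ≤ C := by
    filter_upwards [hsph, hF] with k e1 e2 z hz
    have h3ρ : (3 * ρ) ≠ 0 := by positivity
    refine Complex.norm_le_of_forall_mem_frontier_norm_le (f := fun z => F k z - (inner ℂ p (F k z) : ℂ) • p)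
      (isBounded_ball (x := z₁) (r := 3 * ρ)) (DifferentiableOn.diffContOnCl ?_) (fun z hz => ?_) (by rwa [closure_ball z₁ h3ρ])
    · rw [closure_ball z₁ h3ρ]
      exact (hwd k e2).mono (closedBall_subset_ball (by linarith))
    · rw [frontier_ball z₁ h3ρ] at hz
      exact e1 z hz
  -- the sphere of radius `ρ`
  have hlow : ∀ M : ℝ, ∀ᶠ k in (U : Filter ℕ), ∀ z ∈ sphere z₁ ρ, M ≤ ‖(inner ℂ p (F k z) : ℂ)‖ := by
    intro M
    refine endc_unif (z₁ := z₁) (r := r) (isCompact_sphere z₁ ρ) (fun z hz => ?_) (fun hz => ?_) ?_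
    · rw [mem_sphere] at hz
      rw [mem_ball]
      linarith
    · rw [mem_sphere, dist_self] at hz
      linarith
    · intro z z₀ hz₀ hz1 ht
      exact (hlim z z₀ hz₀ hz1 ht).1.eventually (eventually_ge_atTop M)
  have hnear : ∀ ε : ℝ, 0 < ε → ∀ᶠ k in (U : Filter ℕ), ∀ z ∈ sphere z₁ ρ, ‖(inner ℂ p (F k z) : ℂ)⁻¹ • F k z - p‖ ≤ ε := by
    intro ε hε
    refine endc_unif (z₁ := z₁) (r := r) (isCompact_sphere z₁ ρ) (fun z hz => ?_) (fun hz => ?_) ?_
    · rw [mem_sphere] at hz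
      rw [mem_ball]
      linarith
    · rw [mem_sphere, dist_self] at hz
      linarith
    · intro z z₀ hz₀ hz1 ht
      have := (hlim z z₀ hz₀ hz1 ht).2.eventually (closedBall_mem_nhds p hε)
      filter_upwards [this] with k hk
      rwa [dist_eq_norm] at hk
  -- `l` has no zeros
  have hnz : ∀ᶠ k in (U : Filter ℕ), ∀ z ∈ closedBall z₁ ρ, (inner ℂ p (F k z) : ℂ) ≠ 0 := by
    by_contra hne
    rw [Ultrafilter.eventually_not.symm] at hne
    have hex : ∃ z' : ℕ → ℂ, ∀ᶠ k in (U : Filter ℕ), z' k ∈ closedBall z₁ ρ ∧ (inner ℂ p (F k (z' k)) : ℂ) = 0 := by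
      refine ⟨fun k => if h : ∃ z ∈ closedBall z₁ ρ, (inner ℂ p (F k z) : ℂ) = 0 then h.choose else 0, ?_⟩
      filter_upwards [hne] with k hk
      push Not at hk
      rw [dif_pos hk]
      exact hk.choose_spec
    obtain ⟨z', hz'⟩ := hex
    have hz'1 : Tendsto z' U (𝓝 z₁) := by
      refine hcen 0 z' ?_
      filter_upwards [hz'] with k hk
      refine ⟨closedBall_subset_closedBall (by linarith) hk.1, ?_⟩
      rw [hk.2, norm_zero]
    -- the limit of `w`
    obtain ⟨w₁, hw₁, hw₁t⟩ := endc_ult (U := U) (isCompact_closedBall (0 : EN (n + 2)) C)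
      (z := fun k => F k z₁ - (inner ℂ p (F k z₁) : ℂ) • p) (by
        filter_upwards [hwb] with k hk
        rw [mem_closedBall_zero_iff]
        exact hk z₁ (mem_closedBall_self (by positivity)))
    rw [mem_closedBall_zero_iff] at hw₁
    have hwlim : ∀ z : ℕ → ℂ, Tendsto z U (𝓝 z₁) → Tendsto (fun k => F k (z k) - (inner ℂ p (F k (z k)) : ℂ) • p) U (𝓝 w₁) := by
      intro z hz
      have hdist : Tendsto (fun k => dist (F k (z k) - (inner ℂ p (F k (z k)) : ℂ) • p) (F k z₁ - (inner ℂ p (F k z₁) : ℂ) • p)) U (𝓝 0) := by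
        have hb : ∀ᶠ k in (U : Filter ℕ), dist (F k (z k) - (inner ℂ p (F k (z k)) : ℂ) • p)
            (F k z₁ - (inner ℂ p (F k z₁) : ℂ) • p) ≤ (2 * C + 1) / (3 * ρ) * dist (z k) z₁ := by
          filter_upwards [hwb, hF, hz.eventually (ball_mem_nhds z₁ (show 0 < 3 * ρ by positivity))] with k e1 e2 e3
          refine Complex.dist_le_div_mul_dist_of_mapsTo_ball (f := fun z => F k z - (inner ℂ p (F k z) : ℂ) • p)
            ((hwd k e2).mono (ball_subset_ball (by linarith))) ?_ e3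
          intro y hy
          rw [mem_closedBall, dist_eq_norm]
          have f1 := e1 y (ball_subset_closedBall hy)
          have f2 := e1 z₁ (mem_closedBall_self (by positivity))
          refine (norm_sub_le _ _).trans ?_
          linarith
        have h2 : Tendsto (fun k => (2 * C + 1) / (3 * ρ) * dist (z k) z₁) U (𝓝 0) := by
          have := (tendsto_iff_dist_tendsto_zero.mp hz).const_mul ((2 * C + 1) / (3 * ρ))
          simpa using this
        exact squeeze_zero' (Eventually.of_forall fun k => dist_nonneg) hb h2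
      rw [tendsto_iff_dist_tendsto_zero] at hw₁t ⊢
      refine squeeze_zero (fun k => dist_nonneg) (fun k => dist_triangle _ (F k z₁ - (inner ℂ p (F k z₁) : ℂ) • p) _) ?_
      simpa using hdist.add hw₁t
    have hpw₁ : inner ℂ p w₁ = (0 : ℂ) := by
      have h2 : Tendsto (fun k => (inner ℂ p (F k z₁ - (inner ℂ p (F k z₁) : ℂ) • p) : ℂ)) U (𝓝 (inner ℂ p w₁)) :=
        tendsto_const_nhds.inner hw₁t
      simp only [endc_inner p hp] at h2
      exact tendsto_nhds_unique h2 tendsto_const_nhds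
    have hline : ∀ (L : ℂ) (j : Fin (n + 2)), ev (Q j) (L • p + w₁) = vl j z₁ := by
      intro L j
      have hex : ∃ z : ℕ → ℂ, ∀ᶠ k in (U : Filter ℕ), z k ∈ closedBall z₁ ρ ∧ (inner ℂ p (F k (z k)) : ℂ) = L := by
        refine ⟨fun k => if h : ∃ z ∈ closedBall z₁ ρ, (inner ℂ p (F k z) : ℂ) = L then h.choose else 0, ?_⟩
        filter_upwards [hlow (2 * ‖L‖ + 1), hF, hz'1.eventually (ball_mem_nhds z₁ hρ0), hz'] with k e1 e2 e3 e4
        have hk := endc_val (show ρ < r by linarith) (hld k e2) e1 e3 e4.2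
        rw [dif_pos hk]
        exact hk.choose_spec
      obtain ⟨z, hz⟩ := hex
      have hz1 : Tendsto z U (𝓝 z₁) := by
        refine hcen ‖L‖ z ?_
        filter_upwards [hz] with k hk
        refine ⟨closedBall_subset_closedBall (by linarith) hk.1, ?_⟩
        rw [hk.2]
      have h2 : Tendsto (fun k => F k (z k)) U (𝓝 (L • p + w₁)) := by
        have h3 := (tendsto_const_nhds (x := L • p)).add (hwlim z hz1)
        refine h3.congr' ?_
        filter_upwards [hz] with k hk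
        rw [hk.2]
        simp
      have h3 : Tendsto (fun k => ev (Q j) (F k (z k))) U (𝓝 (ev (Q j) (L • p + w₁))) :=
        ((continuous_ev (Q j)).tendsto _).comp h2
      have h4 : Tendsto (fun k => ev (Q j) (F k (z k))) U (𝓝 (vl j z₁)) := by
        have h5 : Tendsto (fun k => vl j (z k)) U (𝓝 (vl j z₁)) := ((differentiable_vl j).continuous.tendsto z₁).comp hz1
        refine h5.congr' ?_
        filter_upwards [hF, hz1.eventually (ball_mem_nhds z₁ hr)] with k e1 e2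
        exact (sec_eq_vl e1 e2 j).symm
      exact tendsto_nhds_unique h3 h4
    obtain ⟨R, hR, ε, hε, hcore⟩ := end_core h hp hV h0 h1 hpw₁ hline hρ0 hw₁
    have hclose : ∀ᶠ k in (U : Filter ℕ), ∀ z ∈ ball z₁ (2 * ρ), ‖(inner ℂ p (F k z) : ℂ)‖ ≤ R →
        ‖F k z - (inner ℂ p (F k z) : ℂ) • p - w₁‖ ≤ ε ∧ ‖z - z₁‖ ≤ ε := by
      by_contra hne2
      rw [Ultrafilter.eventually_not.symm] at hne2
      have hex : ∃ z : ℕ → ℂ, ∀ᶠ k in (U : Filter ℕ), z k ∈ ball z₁ (2 * ρ) ∧ ‖(inner ℂ p (F k (z k)) : ℂ)‖ ≤ R ∧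
          ¬ (‖F k (z k) - (inner ℂ p (F k (z k)) : ℂ) • p - w₁‖ ≤ ε ∧ ‖z k - z₁‖ ≤ ε) := by
        refine ⟨fun k => if h : ∃ z ∈ ball z₁ (2 * ρ), ‖(inner ℂ p (F k z) : ℂ)‖ ≤ R ∧
          ¬ (‖F k z - (inner ℂ p (F k z) : ℂ) • p - w₁‖ ≤ ε ∧ ‖z - z₁‖ ≤ ε) then h.choose else 0, ?_⟩
        filter_upwards [hne2] with k hk
        have hk' : ∃ z ∈ ball z₁ (2 * ρ), ‖(inner ℂ p (F k z) : ℂ)‖ ≤ R ∧
          ¬ (‖F k z - (inner ℂ p (F k z) : ℂ) • p - w₁‖ ≤ ε ∧ ‖z - z₁‖ ≤ ε) := by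
          by_contra hcon
          apply hk
          intro z hz hzR
          by_contra hcon2
          exact hcon ⟨z, hz, hzR, hcon2⟩
        rw [dif_pos hk']
        exact hk'.choose_spec
      obtain ⟨z, hz⟩ := hex
      have hz1 : Tendsto z U (𝓝 z₁) := by
        refine hcen R z ?_
        filter_upwards [hz] with k hk
        exact ⟨ball_subset_closedBall hk.1, hk.2.1⟩
      have h2 := (hwlim z hz1).eventually (closedBall_mem_nhds w₁ hε)
      have h3 := hz1.eventually (closedBall_mem_nhds z₁ hε)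
      obtain ⟨k, ⟨hk1, hk2⟩, hk3⟩ := ((hz.and h2).and h3).exists
      rw [dist_eq_norm] at hk2 hk3
      exact hk1.2.2 ⟨hk2, hk3⟩
    obtain ⟨k, hk⟩ := (hF.and (hwb.and ((hlow R).and (hclose.and (hz'.and (hz'1.eventually (closedBall_mem_nhds z₁ (half_pos hρ0)))))))).exists
    obtain ⟨k1, k2, k3, k4, k5, k6⟩ := hk
    exact hcore (F k) (z' k) ⟨k1.1.mono (ball_subset_ball (by linarith)), fun z hz => k1.2 z (ball_subset_ball (by linarith) hz)⟩
      (fun z hz => k2 z (ball_subset_closedBall (ball_subset_ball (by linarith) hz))) k3 k4 k6 k5.2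
  -- the conclusion at `z₁`
  intro z z₀ hz₀ ht
  by_cases hz1 : z₀ = z₁
  · rw [hz1] at ht
    constructor
    · rw [Filter.tendsto_atTop]
      intro M
      filter_upwards [hlow (max M 1), hnz, hF, ht.eventually (ball_mem_nhds z₁ hρ0)] with k e1 e2 e3 e4
      have hd : DiffContOnCl ℂ (fun z => (inner ℂ p (F k z) : ℂ)⁻¹) (ball z₁ ρ) := by
        apply DifferentiableOn.diffContOnCl
        rw [closure_ball z₁ hρ0.ne']
        exact ((hld k e3).mono (closedBall_subset_ball (by linarith))).inv e2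
      have h2 := Complex.norm_le_of_forall_mem_frontier_norm_le isBounded_ball hd (C := (max M 1)⁻¹) (by
        intro y hy
        rw [frontier_ball z₁ hρ0.ne'] at hy
        rw [norm_inv]
        exact inv_anti₀ (by positivity) (e1 y hy)) (subset_closure e4)
      rw [norm_inv] at h2
      have h3 := (inv_le_inv₀ (norm_pos_iff.mpr (e2 _ (ball_subset_closedBall e4))) (by positivity)).mp h2
      exact (le_max_left M 1).trans h3
    · rw [Metric.tendsto_nhds]
      intro ε hε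
      filter_upwards [hnear (ε / 2) (half_pos hε), hnz, hF, ht.eventually (ball_mem_nhds z₁ hρ0)] with k e1 e2 e3 e4
      have hd : DiffContOnCl ℂ (fun z => (inner ℂ p (F k z) : ℂ)⁻¹ • F k z - p) (ball z₁ ρ) := by
        apply DifferentiableOn.diffContOnCl
        rw [closure_ball z₁ hρ0.ne']
        exact ((((hld k e3).mono (closedBall_subset_ball (by linarith))).inv e2).smul
          (e3.1.mono (closedBall_subset_ball (by linarith)))).sub_const p
      have h2 := Complex.norm_le_of_forall_mem_frontier_norm_le isBounded_ball hd (C := ε / 2) (by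
        intro y hy
        rw [frontier_ball z₁ hρ0.ne'] at hy
        exact e1 y hy) (subset_closure e4)
      rw [dist_eq_norm]
      linarith
  · exact hlim z z₀ hz₀ hz1 ht

end Pool.Agent.TC
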