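import Pool.Agent.TC.GoodFib

/-!
# TC FibGood: entire curves in smooth fibres of `(F₁, F₂)` are constant
-/

set_option autoImplicit false

open MvPolynomial Topology Filter

namespace Pool.Agent.TC

open Pool.Agent.H36.BP (EN)

variable {n : ℕ} {Q : Fin (n + 2) → MvPolynomial (Fin (n + 3)) ℂ} {e : Fin (n + 2) → ℕ}

theorem Pre.fib_good (h : Pre Q e) {a b : ℂ} (_ha : a ≠ 0) (_hb : b ≠ 0)
    (hab : ∀ x : EN (n + 2), OnV Q x → ev (Q 0) x = a → ev (Q 1) x = b → nv Q x ≠ 0) {G : ℂ → EN (n + 2)} (hG : Differentiable ℂ G)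
    (h0 : ∀ z, ev (Q 0) (G z) = a) (h1 : ∀ z, ev (Q 1) (G z) = b) (hV : ∀ z, OnV Q (G z)) (z w : ℂ) : G z = G w :=
  h.fib_good_all hab hG h0 h1 hV z w

theorem Pair.pre (h : Pair Q e) : Pre Q e := ⟨h.hom, h.pos, h.deg, h.smooth, h.trans⟩

end Pool.Agent.TC
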