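import Pool.Agent.TC.LgtB
import Pool.Agent.TC.Meet
import Pool.Agent.TC.Cmp

/-!
# TC Pencil: the members of the pencil do not contain the surface

`K = functionField P`, `x : Fin (n + 3) → K` the generic point of `exists_point_log` (`aeval x R = 0 ↔ R ∈ P` for forms).

`notMem`: let `i = 0` or `1`.  If `Q i ∈ P` then `lgt_gen` with `c = n + 1` (the forms `Q j`, `j ≥ 2`, and `Q i`), `b = 0`, `n = 0`, `N = n + 2 = 0 + 1 + (n + 1)` (`SmoothPair` from `trans`) gives `k ≤ 0` for the transcendence basis with `2 = k + 1` elements: contradiction.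

`pencil_notMem`.  Suppose `Φ = Q 0 ^ e 1 - C τ * Q 1 ^ e 0 ∈ P`.  Let `ν i : MvPolynomial` be the polynomial `(-1) ^ i * det (pderiv (i.succAbove b) (Q a))` (a form of degree `∑ (e j - 1)`), so `eval y (ν i) = nv Q y i`.
(1) Not all `ν i` are in `P`: `exists_meet` with `f = Q 1` gives `y ≠ 0` on `V (P)` with `F₂ y = 0`; `trans`: the gradients are linearly independent at `y` (`OnV Q y` since `Q j ∈ P`), so some `nv Q y i ≠ 0` (`cross_ne_zero_iff`).
(2) So some `aeval x (ν i) ≠ 0`: the `n + 2` vectors `g j = (aeval x (pderiv l (Q j)))_l ∈ K^(n+3)` are linearly independent over `K` (a maximal minor is not zero).  Let `D₁`, `D₂` be derivations of `K` over `ℂ` such that `x`, `D₁ x`, `D₂ x ∈ K^(n+3)` are linearly independent over `K` (`free_exists_der`, `free_linearIndependent` of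
`H17LG/ModLFREE.lean`, private there: copy them under new names; `k + 1 = 2` derivations).  For `v ∈ {D₁ x, D₂ x}`: `∑ v l * g j l = D (aeval x (Q j)) = 0` for `j ≥ 2`, and from `0 = D (aeval x Φ) = e 1 * F₁ ^ (e 1 - 1) * (v · g 0) - τ * e 0 * F₂ ^ (e 0 - 1) * (v · g 1)`, where `F_i = aeval x (Q i) ≠ 0` (`notMem`), and
`F₁ ^ e 1 = τ F₂ ^ e 0` (`≠ 0`): after multiplication with `F₁ F₂ / F₁ ^ e 1`: `e 1 * F₂ * (v · g 0) - e 0 * F₁ * (v · g 1) = 0`.  For `v = x`: Euler: `x · g j = e j * aeval x (Q j)`, which is `0` for `j ≥ 2`, and `e 1 F₂ e 0 F₁ - e 0 F₁ e 1 F₂ = 0`.  So the three linearly independent vectors `x`, `D₁ x`, `D₂ x` are annihilated by the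
`n + 1` linearly independent vectors `g j` (`j ≥ 2`) and `e 1 F₂ g 0 - e 0 F₁ g 1` (`e 1 F₂ ≠ 0`) of `K^(n+3)`: impossible, the annihilator has dimension `n + 3 - (n + 1) = 2`.
-/

set_option autoImplicit false

open MvPolynomial Topology Filter
open Pool.Agent.H17LG.Variety (FunField)
open Pool.Agent.H62.FC (Homog)

namespace Pool.Agent.TC

open Pool.Agent.H36.BP (EN)

variable {n : ℕ} {Q : Fin (n + 2) → MvPolynomial (Fin (n + 3)) ℂ} {e : Fin (n + 2) → ℕ}

/-! ### Derivations (copied from `H17LG/ModLFREE.lean`) -/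

section Der

variable {K : Type} [Field K] [Algebra ℂ K]

private theorem pencil_sum_apply {ι : Type*} (s : Finset ι) (F : ι → Derivation ℂ K K) (f : K) :
    (∑ i ∈ s, F i) f = ∑ i ∈ s, F i f := by
  classical
  induction s using Finset.induction_on with
  | empty => rfl
  | insert a s ha ih =>
    rw [Finset.sum_insert ha, Finset.sum_insert ha, Derivation.add_apply, ih]

private theorem pencil_exists_der {k : ℕ} {z : Fin (k + 1) → K} (hz : IsTranscendenceBasis ℂ z) :
    ∃ δ : Fin (k + 1) → Derivation ℂ K K, ∀ b : Fin (k + 1) → K,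
      ∑ j, b j • δ j = 0 → b = 0 := by
  obtain ⟨B, hB⟩ := Pool.Agent.H23.exists_basis_kaehler hz
  refine ⟨fun i => Pool.Agent.H23.dualDer B i, fun b hb => ?_⟩
  funext j
  have h1 : (∑ i, b i • Pool.Agent.H23.dualDer B i) (z j) = 0 := by
    rw [hb]
    rfl
  have h2 : (∑ i, b i • Pool.Agent.H23.dualDer B i) (z j) = ∑ i, b i * Pool.Agent.H23.dualDer B i (z j) := by
    rw [pencil_sum_apply]
    rfl
  rw [h2, Finset.sum_eq_single j] at h1
  · rw [Pool.Agent.H23.dualDer_coord B hB, if_pos rfl, mul_one] at h1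
    exact h1
  · intro i _ hij
    rw [Pool.Agent.H23.dualDer_coord B hB, if_neg hij, mul_zero]
  · intro h
    exact absurd (Finset.mem_univ j) h

private theorem pencil_aeval_pderiv {N : ℕ} (D : Derivation ℂ K K) (x : Fin (N + 1) → K)
    (G : MvPolynomial (Fin (N + 1)) ℂ) :
    ∑ i, aeval x (pderiv i G) * D (x i) = D (aeval x G) := by
  induction G using MvPolynomial.induction_on with
  | C a =>
    rw [aeval_C, D.map_algebraMap]
    refine Finset.sum_eq_zero fun i _ => ?_
    rw [pderiv_C, map_zero, zero_mul]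
  | add p q hp hq =>
    rw [map_add, map_add, ← hp, ← hq, ← Finset.sum_add_distrib]
    refine Finset.sum_congr rfl fun i _ => ?_
    rw [map_add, map_add, add_mul]
  | mul_X p j hp =>
    rw [map_mul, aeval_X, D.leibniz, ← hp, smul_eq_mul, smul_eq_mul, Finset.mul_sum]
    have h1 : ∀ i, aeval x (pderiv i (p * X j)) * D (x i) =
        (if i = j then aeval x p * D (x j) else 0) + x j * (aeval x (pderiv i p) * D (x i)) := by
      intro i
      rw [Derivation.leibniz, map_add, smul_eq_mul, smul_eq_mul, map_mul, map_mul, aeval_X,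
        pderiv_X]
      by_cases hij : i = j
      · subst hij
        simp
        ring
      · rw [if_neg hij, Pi.single_eq_of_ne (fun h => hij h.symm)]
        simp
        ring
    rw [Finset.sum_congr rfl fun i _ => h1 i, Finset.sum_add_distrib, Finset.sum_ite_eq',
      if_pos (Finset.mem_univ j)]

private theorem pencil_linearIndependent {N k : ℕ} {x : Fin (N + 1) → K} (hx : x ≠ 0)
    (hgen : IntermediateField.adjoin ℂ {y | ∃ i j, y = x i / x j} = ⊤)
    {δ : Fin (k + 1) → Derivation ℂ K K}
    (hδ : ∀ b : Fin (k + 1) → K, ∑ j, b j • δ j = 0 → b = 0) :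
    LinearIndependent K (Sum.elim (fun _ : Unit => x) fun i j => δ i (x j)) := by
  rw [Fintype.linearIndependent_iff]
  intro g hg
  rw [Fintype.sum_sum_type] at hg
  simp only [Finset.univ_unique, Finset.sum_singleton, Sum.elim_inl, Sum.elim_inr] at hg
  set a : K := g (Sum.inl default) with ha
  set b : Fin (k + 1) → K := fun i => g (Sum.inr i) with hb
  set D : Derivation ℂ K K := ∑ j, b j • δ j with hD
  have hDapp : ∀ f, D f = ∑ j, b j * δ j f := by
    intro f
    rw [hD, pencil_sum_apply]
    rfl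
  have hDx : ∀ i, D (x i) = -a * x i := by
    intro i
    have h1 := congrFun hg i
    rw [Pi.add_apply, Finset.sum_apply] at h1
    simp only [Pi.smul_apply, smul_eq_mul, Pi.zero_apply] at h1
    rw [hDapp]
    linear_combination h1
  have hD0 : D = 0 := by
    ext f
    have hf : f ∈ IntermediateField.adjoin ℂ {y | ∃ i j, y = x i / x j} := by
      rw [hgen]
      exact IntermediateField.mem_top
    induction hf using IntermediateField.adjoin_induction with
    | mem y hy =>
      obtain ⟨i, j, rfl⟩ := hy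
      rw [D.leibniz_div, hDx, hDx]
      simp only [smul_eq_mul, Derivation.coe_zero, Pi.zero_apply]
      ring
    | algebraMap c =>
      rw [D.map_algebraMap]
      rfl
    | add y y' _ _ h1 h2 =>
      rw [map_add, h1, h2]
      simp
    | inv y _ h1 =>
      rw [D.leibniz_inv, h1]
      simp
    | mul y y' _ _ h1 h2 =>
      rw [D.leibniz, h1, h2]
      simp
  have hb0 : b = 0 := hδ b hD0
  have ha0 : a = 0 := by
    by_contra hne
    apply hx
    funext i
    have h1 := hDx i
    rw [hD0, Derivation.coe_zero, Pi.zero_apply] at h1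
    have h2 : a * x i = 0 := by linear_combination h1
    exact (mul_eq_zero.1 h2).resolve_left hne
  rintro (u | i)
  · exact ha0
  · exact congrFun hb0 i

end Der

/-! ### Linear algebra -/

private theorem pencil_lin {K : Type*} [Field K] {m : ℕ} {ι κ : Type*} [Fintype ι] [Fintype κ]
    (w : ι → Fin m → K) (u : κ → Fin m → K) (hw : LinearIndependent K w)
    (hu : LinearIndependent K u) (h : ∀ i j, ∑ l, w i l * u j l = 0) :
    Fintype.card ι + Fintype.card κ ≤ m := by
  classical
  have h1 : (Matrix.of w).rank = Fintype.card ι := LinearIndependent.rank_matrix hw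
  have h2 : (Matrix.of u).rank = Fintype.card κ := LinearIndependent.rank_matrix hu
  have h3 : Matrix.of w * (Matrix.of u).transpose = 0 := by
    ext i j
    rw [Matrix.mul_apply]
    exact h i j
  have h4 := Matrix.rank_add_rank_le_card_of_mul_eq_zero h3
  rw [Matrix.rank_transpose, h1, h2, Fintype.card_fin] at h4
  exact h4

/-- A matrix with a maximal minor different from zero has linearly independent rows. -/
private theorem pencil_rows {K : Type*} [Field K] {m : ℕ} (g : Fin m → Fin (m + 1) → K)
    (i : Fin (m + 1)) (h : (Matrix.of fun a b => g a (i.succAbove b)).det ≠ 0) :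
    LinearIndependent K g := by
  rw [Fintype.linearIndependent_iff]
  intro c hc
  have h1 : Matrix.vecMul c (Matrix.of fun a b => g a (i.succAbove b)) = 0 := by
    funext b
    have h2 := congrFun hc (i.succAbove b)
    rw [Finset.sum_apply] at h2
    rw [Matrix.vecMul, dotProduct]
    exact h2
  have h2 := Matrix.eq_zero_of_vecMul_eq_zero h h1
  exact fun j => congrFun h2 j

/-- The maximal minors are forms. -/
private theorem pencil_minor {m : ℕ} {Q : Fin m → MvPolynomial (Fin (m + 1)) ℂ} {e : Fin m → ℕ}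
    (h : ∀ j, (Q j).IsHomogeneous (e j)) (i : Fin (m + 1)) :
    (Matrix.det (Matrix.of fun a b : Fin m => pderiv (i.succAbove b) (Q a))).IsHomogeneous
      (∑ a, (e a - 1)) := by
  rw [Matrix.det_apply]
  refine IsHomogeneous.sum _ _ _ fun σ _ => ?_
  have h1 : (∏ b, Matrix.of (fun a b : Fin m => pderiv (i.succAbove b) (Q a)) (σ b) b).IsHomogeneous
      (∑ a, (e a - 1)) := by
    have h2 := IsHomogeneous.prod Finset.univ
      (fun b => Matrix.of (fun a b : Fin m => pderiv (i.succAbove b) (Q a)) (σ b) b)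
      (fun b => e (σ b) - 1) (fun b _ => (h (σ b)).pderiv)
    rwa [Equiv.sum_comp σ (fun a => e a - 1)] at h2
  rcases Int.units_eq_one_or (Equiv.Perm.sign σ) with h2 | h2
  · rw [h2, one_smul]
    exact h1
  · rw [h2, Units.neg_smul, one_smul]
    exact h1.neg

/-- The contradiction at the generic point. -/
private theorem pencil_core {K : Type} [Field K] [Algebra ℂ K] {n : ℕ} {Q : Fin (n + 2) → MvPolynomial (Fin (n + 3)) ℂ}
    {e : Fin (n + 2) → ℕ} (hom : ∀ j, (Q j).IsHomogeneous (e j)) (pos : ∀ j, 1 ≤ e j) {x : Fin (n + 3) → K} (hx : x ≠ 0)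
    (hgen : IntermediateField.adjoin ℂ {y | ∃ i j, y = x i / x j} = ⊤)
    (hg : LinearIndependent K fun (j : Fin (n + 2)) (l : Fin (n + 3)) => aeval x (pderiv l (Q j)))
    (hF0 : aeval x (Q 0) ≠ 0) (hF1 : aeval x (Q 1) ≠ 0) (hFj : ∀ l : Fin n, aeval x (Q l.succ.succ) = 0) {τ : ℂ}
    (hrel : aeval x (Q 0) ^ e 1 = algebraMap ℂ _ τ * aeval x (Q 1) ^ e 0) {z : Fin 2 → K}
    (hz : IsTranscendenceBasis ℂ z) : False := by
  have hpos0 := pos 0
  have hpos1 := pos 1
  -- the covectors
  set w : Fin (n + 1) → Fin (n + 3) → K :=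
    Fin.cons (fun l => (e 1 : K) * aeval x (Q 1) * aeval x (pderiv l (Q 0)) -
      (e 0 : K) * aeval x (Q 0) * aeval x (pderiv l (Q 1)))
      fun (j : Fin n) l => aeval x (pderiv l (Q j.succ.succ)) with hw
  have hw0 : ∀ l, w 0 l = (e 1 : K) * aeval x (Q 1) * aeval x (pderiv l (Q 0)) -
      (e 0 : K) * aeval x (Q 0) * aeval x (pderiv l (Q 1)) := fun l => rfl
  have hws : ∀ (j : Fin n) l, w j.succ l = aeval x (pderiv l (Q j.succ.succ)) := fun j l => rfl
  have hchar : CharZero K := charZero_of_injective_algebraMap (algebraMap ℂ K).injective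
  have he1 : (e 1 : K) ≠ 0 := Nat.cast_ne_zero.2 (by omega)
  have hwli : LinearIndependent (K) w := by
    rw [Fintype.linearIndependent_iff] at hg ⊢
    intro c hc
    have h1 := hg (Fin.cons (c 0 * ((e 1 : K) * aeval x (Q 1)))
      (Fin.cons (-(c 0 * ((e 0 : K) * aeval x (Q 0)))) fun l => c l.succ)) (by
      funext l
      have h2 := congrFun hc l
      rw [Fin.sum_univ_succ] at h2
      rw [Fin.sum_univ_succ, Fin.sum_univ_succ]
      simp only [Fin.cons_zero, Fin.cons_succ, Pi.add_apply, Pi.smul_apply,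
        Finset.sum_apply, smul_eq_mul, Pi.zero_apply, hw0, hws] at h2 ⊢
      rw [Fin.succ_zero_eq_one]
      linear_combination h2)
    intro j
    refine Fin.cases ?_ (fun l => ?_) j
    · have h2 := h1 0
      rw [Fin.cons_zero] at h2
      exact (mul_eq_zero.1 h2).resolve_right (mul_ne_zero he1 hF1)
    · exact h1 l.succ.succ
  -- the vectors
  obtain ⟨δ, hδ⟩ := pencil_exists_der (k := 1) hz
  have huli := pencil_linearIndependent hx hgen hδ
  have h4 := pencil_lin w _ hwli huli (by
    intro j s
    rcases s with s | s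
    · simp only [Sum.elim_inl]
      have heul : ∀ a, ∑ l, aeval x (pderiv l (Q a)) * x l =
          (e a : K) * aeval x (Q a) := by
        intro a
        have h1 := congrArg (aeval x) (hom a).sum_X_mul_pderiv
        rw [map_sum, map_nsmul, nsmul_eq_mul] at h1
        rw [← h1]
        refine Finset.sum_congr rfl fun l _ => ?_
        rw [map_mul, aeval_X, mul_comm]
      refine Fin.cases ?_ (fun j => ?_) j
      · simp only [hw0, sub_mul, Finset.sum_sub_distrib, mul_assoc, ← Finset.mul_sum, heul]
        ring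
      · simp only [hws, heul, hFj, mul_zero]
    · simp only [Sum.elim_inr]
      refine Fin.cases ?_ (fun j => ?_) j
      · simp only [hw0, sub_mul, Finset.sum_sub_distrib, mul_assoc, ← Finset.mul_sum,
          pencil_aeval_pderiv]
        have h1 := congrArg (δ s) hrel
        rw [Derivation.leibniz_pow, Derivation.leibniz, Derivation.leibniz_pow,
          Derivation.map_algebraMap] at h1
        simp only [smul_eq_mul, nsmul_eq_mul, mul_zero, add_zero] at h1
        have h2 : aeval x (Q 0) * aeval x (Q 0) ^ (e 1 - 1) = aeval x (Q 0) ^ e 1 :=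
          mul_pow_sub_one (by omega) _
        have h3 : aeval x (Q 1) * aeval x (Q 1) ^ (e 0 - 1) = aeval x (Q 1) ^ e 0 :=
          mul_pow_sub_one (by omega) _
        have h5 : aeval x (Q 0) ^ e 1 * ((e 1 : K) *
            (aeval x (Q 1) * δ s (aeval x (Q 0))) -
            (e 0 : K) * (aeval x (Q 0) * δ s (aeval x (Q 1)))) = 0 := by
          rw [mul_sub]
          nth_rewrite 1 [← h2]
          rw [hrel, ← h3]
          linear_combination aeval x (Q 0) * aeval x (Q 1) * h1
        exact (mul_eq_zero.1 h5).resolve_left (pow_ne_zero _ hF0)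
      · simp only [hws, pencil_aeval_pderiv, hFj, map_zero])
  rw [Fintype.card_fin, Fintype.card_sum, Fintype.card_unit, Fintype.card_fin] at h4
  omega

theorem Pre.notMem (h : Pre Q e) (P : Ideal (MvPolynomial (Fin (n + 3)) ℂ)) [P.IsPrime] (hP : Homog P)
    (hQ : ∀ j : Fin (n + 2), 2 ≤ (j : ℕ) → Q j ∈ P) (hdim : ∃ z : Fin 2 → FunField P, IsTranscendenceBasis ℂ z) : Q 0 ∉ P ∧ Q 1 ∉ P := by
  have key : ∀ i : Fin (n + 2), i = 0 ∨ i = 1 → Q i ∉ P := by
    intro i hi hmem
    have hk := (lgt_gen (N := n + 2) (n := 0) (c := n + 1) (b := 0) (by omega)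
      (d := Fin.cons (e i) fun l : Fin n => e l.succ.succ) (δ := fun l => l.elim0)
      (fun l => by
        refine Fin.cases ?_ (fun l => ?_) l
        · exact h.pos i
        · exact h.pos _)
      (G := Fin.cons (Q i) fun l : Fin n => Q l.succ.succ) (H := fun l => l.elim0)
      (fun l => by
        refine Fin.cases ?_ (fun l => ?_) l
        · exact h.hom i
        · exact h.hom _)
      (fun l => l.elim0) ?_ P (fun l => by
        refine Fin.cases ?_ (fun l => ?_) l
        · exact hmem
        · exact hQ _ (by simp)) (fun l => l.elim0) (k := 1) hdim).1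
    · omega
    · intro x hx hG α β _ hsum
      refine ⟨?_, funext fun l => l.elim0⟩
      have hV : OnV Q (WithLp.toLp 2 x) := by
        intro j hj
        obtain ⟨l, rfl⟩ : ∃ l : Fin n, j = l.succ.succ := by
          refine ⟨⟨(j : ℕ) - 2, by omega⟩, ?_⟩
          apply Fin.ext
          simp only [Fin.val_succ]
          omega
        exact hG l.succ
      have hi0 : ev (Q i) (WithLp.toLp 2 x) = 0 := hG 0
      have h01 : ev (Q 0) (WithLp.toLp 2 x) = 0 ∨ ev (Q 1) (WithLp.toLp 2 x) = 0 := by
        rcases hi with rfl | rfl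
        · exact Or.inl hi0
        · exact Or.inr hi0
      have hx' : (WithLp.toLp 2 x : EN (n + 2)) ≠ 0 := by
        intro h0
        apply hx
        funext l
        exact congrArg (fun w : EN (n + 2) => w l) h0
      have hlin : ∀ l : Fin (n + 3), α 0 * grad (Q i) (WithLp.toLp 2 x) l +
          ∑ j : Fin n, α j.succ * grad (Q j.succ.succ) (WithLp.toLp 2 x) l = 0 := by
        intro l
        have h1 := hsum l
        rw [Fin.sum_univ_succ, Fin.sum_univ_zero, add_zero] at h1
        exact h1
      rcases hi with rfl | rfl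
      · have h2 := h.trans _ hx' hV h01 (Fin.cons (α 0) (Fin.cons 0 fun l => α l.succ)) (by
          funext l
          rw [Fin.sum_univ_succ, Fin.sum_univ_succ]
          simp only [Fin.cons_zero, Fin.cons_succ, zero_smul, zero_add, Pi.add_apply, Pi.smul_apply,
            Finset.sum_apply, smul_eq_mul, Pi.zero_apply]
          exact hlin l)
        funext l
        refine Fin.cases ?_ (fun l => ?_) l
        · exact congrFun h2 0
        · exact congrFun h2 l.succ.succ
      · have h2 := h.trans _ hx' hV h01 (Fin.cons 0 (Fin.cons (α 0) fun l => α l.succ)) (by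
          funext l
          rw [Fin.sum_univ_succ, Fin.sum_univ_succ]
          simp only [Fin.cons_zero, Fin.cons_succ, zero_smul, zero_add, Pi.add_apply, Pi.smul_apply,
            Finset.sum_apply, smul_eq_mul, Pi.zero_apply]
          exact hlin l)
        funext l
        refine Fin.cases ?_ (fun l => ?_) l
        · exact congrFun h2 1
        · exact congrFun h2 l.succ.succ
  exact ⟨key 0 (Or.inl rfl), key 1 (Or.inr rfl)⟩

theorem Pre.pencil_notMem (h : Pre Q e) (P : Ideal (MvPolynomial (Fin (n + 3)) ℂ)) [P.IsPrime] (hP : Homog P)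
    (hQ : ∀ j : Fin (n + 2), 2 ≤ (j : ℕ) → Q j ∈ P) (hdim : ∃ z : Fin 2 → FunField P, IsTranscendenceBasis ℂ z) (τ : ℂ) :
    Q 0 ^ e 1 - C τ * Q 1 ^ e 0 ∉ P := by
  intro hΦ
  obtain ⟨hn0, hn1⟩ := h.notMem P hP hQ hdim
  obtain ⟨z, hz⟩ := id hdim
  obtain ⟨x, hx, hgen, -, hmem, -, -⟩ := Pool.Agent.H17LG.exists_point_log P z hz
  -- the minor
  obtain ⟨y, hy, hyP, hyQ⟩ := exists_meet P hP (k := 1) hdim (h.hom 1) (h.pos 1)
  have hy' : (WithLp.toLp 2 y : EN (n + 2)) ≠ 0 := by
    intro h0
    apply hy
    funext l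
    exact congrArg (fun w : EN (n + 2) => w l) h0
  have hli : LinearIndependent ℂ fun j => grad (Q j) (WithLp.toLp 2 y : EN (n + 2)) := by
    rw [Fintype.linearIndependent_iff]
    intro c hc j
    exact congrFun (h.trans _ hy' (fun j hj => hyP _ (hQ j hj)) (Or.inr hyQ) c hc) j
  have hcross := (cross_ne_zero_iff _).2 hli
  obtain ⟨i, hi⟩ := Function.ne_iff.1 hcross
  have hdet : (Matrix.of fun a b => grad (Q a) (WithLp.toLp 2 y : EN (n + 2)) (i.succAbove b)).det ≠ 0 :=
    right_ne_zero_of_mul hi
  set M : MvPolynomial (Fin (n + 3)) ℂ :=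
    Matrix.det (Matrix.of fun a b : Fin (n + 2) => pderiv (i.succAbove b) (Q a)) with hM
  have hMy : eval y M ≠ 0 := by
    rw [hM, RingHom.map_det]
    exact hdet
  have hMP : M ∉ P := fun hc => hMy (hyP M hc)
  have hMx : aeval x M ≠ 0 := fun h0 => hMP ((hmem _ M (pencil_minor h.hom i)).1 h0)
  have hg : LinearIndependent (Pool.Agent.H17GT.functionField P) fun (j : Fin (n + 2)) (l : Fin (n + 3)) =>
      aeval x (pderiv l (Q j)) := by
    refine pencil_rows _ i ?_
    rw [hM, AlgHom.map_det] at hMx
    exact hMx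
  -- the values
  have hF0 : aeval x (Q 0) ≠ 0 := fun h0 => hn0 ((hmem _ _ (h.hom 0)).1 h0)
  have hF1 : aeval x (Q 1) ≠ 0 := fun h0 => hn1 ((hmem _ _ (h.hom 1)).1 h0)
  have hFj : ∀ l : Fin n, aeval x (Q l.succ.succ) = 0 := fun l =>
    (hmem _ _ (h.hom _)).2 (hQ _ (by simp))
  have hrel : aeval x (Q 0) ^ e 1 = algebraMap ℂ _ τ * aeval x (Q 1) ^ e 0 := by
    have h1 : (Q 0 ^ e 1 - C τ * Q 1 ^ e 0).IsHomogeneous (e 0 * e 1) := by
      refine ((h.hom 0).pow (e 1)).sub ?_
      have h2 := (isHomogeneous_C (Fin (n + 3)) τ).mul ((h.hom 1).pow (e 0))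
      rwa [zero_add, mul_comm (e 1) (e 0)] at h2
    have h2 := (hmem _ _ h1).2 hΦ
    rw [map_sub, map_mul, map_pow, map_pow, aeval_C] at h2
    exact sub_eq_zero.1 h2
  exact pencil_core h.hom h.pos hx hgen hg hF0 hF1 hFj hrel hz

end Pool.Agent.TC
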