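import Mathlib

/-!
# TC Per: periodic functions of exponential growth

`per_poly`.  Let `E z = exp (z / q)`.  `h w = g (q * Complex.log w)` for `w ≠ 0`; because `g` has the period `2 π i q`, `h (E z) = g z` for all `z` (`q * log (exp (z / q)) - z ∈ 2 π i q ℤ`; first extend the period to all integer multiples), and
`h` is differentiable at every `w ≠ 0` (near `w₀ = E z₀` there is a holomorphic branch `l` of the logarithm, `h w = g (q * l w)`; e.g. `l w = log (w / w₀) + log w₀`).  `‖h w‖ ≤ B max (‖w‖, 1 / ‖w‖) ^ (A q)` (`Re z = q log ‖w‖`).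
`k w = w ^ m * h w` (`m > A q`) tends to `0` as `w → 0`, so with `k 0 = 0` it is entire (removable singularity), and `‖k w‖ ≤ B ‖w‖ ^ (2 m)` for `‖w‖ ≥ 1`: a polynomial of degree at most `2 m` (Cauchy's estimates for the Taylor
coefficients).  `g z = h (E z) = E z ^ (- m) * k (E z)`.

`alg_dep`.  Take `m` with `A q < m` (`m ≥ 1`), `f i z = exp (- m z / q) * p_i (exp (z / q))`, `deg p_i ≤ 2 m`.  `D = 4 m + 1`.  The linear map `R ↦ R (p 0, p 1, p 2)` from the space of homogeneous polynomials of degree `D` in three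
variables (dimension `(D + 1) (D + 2) / 2 = (2 m + 1) (4 m + 3)`; the monomials `X 0 ^ i * X 1 ^ j * X 2 ^ (D - i - j)` are linearly independent) to the polynomials in one variable of degree at most `2 m D` (dimension `2 m D + 1`, smaller) has a nonzero kernel;
`R (f 0 z, f 1 z, f 2 z) = exp (- m D z / q) * R (p 0, p 1, p 2) (exp (z / q)) = 0`.
-/

set_option autoImplicit false

open Topology Filter Metric

namespace Pool.Agent.TC

/-- An entire function with polynomial growth is a polynomial. -/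
private theorem Per_growth {k : ℂ → ℂ} (hk : Differentiable ℂ k) {C : ℝ} {N : ℕ}
    (hb : ∀ w, 1 ≤ ‖w‖ → ‖k w‖ ≤ C * ‖w‖ ^ N) :
    ∃ p : Polynomial ℂ, p.natDegree ≤ N ∧ ∀ w, k w = p.eval w := by
  have hC : 0 ≤ C := by
    have h1 := hb 1 (by simp)
    rw [norm_one, one_pow, mul_one] at h1
    exact (norm_nonneg _).trans h1
  have hder : ∀ n, N < n → iteratedDeriv n k 0 = 0 := by
    intro n hn
    have h1 : ∀ R : ℝ, 1 ≤ R → ‖iteratedDeriv n k 0‖ ≤ n.factorial * C * R⁻¹ := by
      intro R hR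
      have hR0 : 0 < R := by linarith
      have h2 := Complex.norm_iteratedDeriv_le_of_forall_mem_sphere_norm_le (f := k) (c := 0)
        (C := C * R ^ N) n hR0 hk.diffContOnCl (fun z hz => by
          have hz' : ‖z‖ = R := by simpa using hz
          have h3 := hb z (by rw [hz']; exact hR)
          rwa [hz'] at h3)
      refine h2.trans ?_
      obtain ⟨d, rfl⟩ : ∃ d, n = N + 1 + d := ⟨n - (N + 1), by omega⟩
      have h4 : (1 : ℝ) ≤ R ^ d := one_le_pow₀ hR
      rw [div_le_iff₀ (by positivity)]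
      have h5 : R⁻¹ * R ^ (N + 1 + d) = R ^ N * R ^ d := by
        rw [pow_add, pow_succ]
        field_simp
      calc ((N + 1 + d).factorial : ℝ) * (C * R ^ N)
          = ((N + 1 + d).factorial : ℝ) * C * (R ^ N * 1) := by ring
        _ ≤ ((N + 1 + d).factorial : ℝ) * C * (R ^ N * R ^ d) := by gcongr
        _ = ((N + 1 + d).factorial : ℝ) * C * R⁻¹ * R ^ (N + 1 + d) := by
            rw [← h5]
            ring
    have h2 : Tendsto (fun R : ℝ => (n.factorial : ℝ) * C * R⁻¹) atTop (𝓝 0) := by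
      have h3 := (tendsto_inv_atTop_zero (𝕜 := ℝ)).const_mul ((n.factorial : ℝ) * C)
      rwa [mul_zero] at h3
    have h3 : ‖iteratedDeriv n k 0‖ ≤ 0 :=
      ge_of_tendsto h2 ((eventually_ge_atTop 1).mono h1)
    exact norm_le_zero_iff.1 h3
  refine ⟨∑ n ∈ Finset.range (N + 1),
    Polynomial.C ((n.factorial : ℂ)⁻¹ * iteratedDeriv n k 0) * Polynomial.X ^ n, ?_, fun w => ?_⟩
  · refine Polynomial.natDegree_sum_le_of_forall_le _ _ fun n hn => ?_
    refine (Polynomial.natDegree_C_mul_X_pow_le _ _).trans ?_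
    have h1 := Finset.mem_range.1 hn
    omega
  · have h1 := Complex.hasSum_taylorSeries_of_entire hk 0 w
    have h2 : HasSum (fun n : ℕ => (n.factorial : ℂ)⁻¹ • (w - 0) ^ n • iteratedDeriv n k 0)
        (∑ n ∈ Finset.range (N + 1), (n.factorial : ℂ)⁻¹ • (w - 0) ^ n • iteratedDeriv n k 0) := by
      refine hasSum_sum_of_ne_finset_zero fun n hn => ?_
      have h3 : N < n := by
        by_contra h4
        exact hn (Finset.mem_range.2 (by omega))
      rw [hder n h3, smul_zero, smul_zero]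
    rw [h1.unique h2, Polynomial.eval_finsetSum]
    refine Finset.sum_congr rfl fun n _ => ?_
    rw [Polynomial.eval_mul, Polynomial.eval_C, Polynomial.eval_pow, Polynomial.eval_X,
      smul_eq_mul, smul_eq_mul, sub_zero]
    ring

theorem per_poly {g : ℂ → ℂ} (hg : Differentiable ℂ g) {q : ℕ} (hq : 0 < q) (hper : ∀ z, g (z + 2 * (Real.pi : ℂ) * Complex.I * q) = g z) {A B : ℝ}
    (hA : 0 ≤ A) (hb : ∀ z, ‖g z‖ ≤ B * Real.exp (A * |z.re|)) {m : ℕ} (hm : A * q < m) :
    ∃ p : Polynomial ℂ, p.natDegree ≤ 2 * m ∧ ∀ z, g z = Complex.exp (-((m : ℂ) * z / q)) * p.eval (Complex.exp (z / q)) := by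
  have hq' : (0 : ℝ) < q := by exact_mod_cast hq
  have hqc : (q : ℂ) ≠ 0 := by exact_mod_cast hq.ne'
  have hm0 : 0 < m := by
    have h1 : (0 : ℝ) < m := lt_of_le_of_lt (by positivity) hm
    exact_mod_cast h1
  have hB : 0 ≤ B := by
    have h1 := hb 0
    rw [Complex.zero_re, abs_zero, mul_zero, Real.exp_zero, mul_one] at h1
    exact (norm_nonneg _).trans h1
  have h2pi : (2 * (Real.pi : ℂ) * Complex.I) ≠ 0 := Complex.two_pi_I_ne_zero
  set G : ℂ → ℂ := fun w => g (2 * (Real.pi : ℂ) * Complex.I * q * w) with hG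
  have hGd : Differentiable ℂ G := hg.comp (differentiable_id.const_mul _)
  have hGp : Function.Periodic G ((1 : ℝ) : ℂ) := by
    intro w
    simp only [hG]
    rw [← hper (2 * (Real.pi : ℂ) * Complex.I * q * w), Complex.ofReal_one]
    congr 1
    ring
  set F : ℂ → ℂ := Function.Periodic.cuspFunction 1 G with hF
  have hFne : ∀ w, w ≠ 0 → F w = g (q * Complex.log w) := by
    intro w hw
    rw [hF, Function.Periodic.cuspFunction_eq_of_nonzero 1 G hw]
    simp only [hG, Function.Periodic.invQParam]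
    congr 1
    rw [Complex.ofReal_one]
    field_simp
  have hFexp : ∀ z, F (Complex.exp (z / q)) = g z := by
    intro z
    have h1 := Function.Periodic.eq_cuspFunction one_ne_zero hGp
      (z / (2 * (Real.pi : ℂ) * Complex.I * q))
    have h2 : Function.Periodic.qParam 1 (z / (2 * (Real.pi : ℂ) * Complex.I * q)) =
        Complex.exp (z / q) := by
      rw [Function.Periodic.qParam, Complex.ofReal_one]
      congr 1
      field_simp
    have h3 : G (z / (2 * (Real.pi : ℂ) * Complex.I * q)) = g z := by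
      simp only [hG]
      congr 1
      field_simp
    rw [h2, h3] at h1
    exact h1
  have hFd : ∀ w, w ≠ 0 → DifferentiableAt ℂ F w := by
    intro w hw
    have h1 := Function.Periodic.differentiableAt_cuspFunction one_ne_zero hGp
      (hGd (Function.Periodic.invQParam 1 w))
    rwa [Function.Periodic.qParam_right_inv one_ne_zero hw] at h1
  have hFb : ∀ w, w ≠ 0 → ‖F w‖ ≤ B * Real.exp (A * q * |Real.log ‖w‖|) := by
    intro w hw
    rw [hFne w hw]
    refine (hb _).trans (le_of_eq ?_)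
    have h1 : ((q : ℂ) * Complex.log w).re = q * Real.log ‖w‖ := by
      rw [← Complex.ofReal_natCast, Complex.re_ofReal_mul, Complex.log_re]
    rw [h1, abs_mul, abs_of_pos hq', mul_assoc]
  set k : ℂ → ℂ := fun w => w ^ m * F w with hk
  have hk0 : ∀ w, w ≠ 0 → ‖w‖ ≤ 1 → ‖k w‖ ≤ B * ‖w‖ ^ ((m : ℝ) - A * q) := by
    intro w hw hw1
    have hwp : 0 < ‖w‖ := norm_pos_iff.2 hw
    have hlog : Real.log ‖w‖ ≤ 0 := Real.log_nonpos hwp.le hw1
    have h1 := hFb w hw
    rw [abs_of_nonpos hlog] at h1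
    simp only [hk]
    rw [norm_mul, norm_pow]
    calc ‖w‖ ^ m * ‖F w‖ ≤ ‖w‖ ^ m * (B * Real.exp (A * q * -Real.log ‖w‖)) := by gcongr
      _ = B * (‖w‖ ^ ((m : ℝ) - A * q)) := by
          rw [Real.rpow_sub hwp, Real.rpow_natCast, Real.rpow_def_of_pos hwp (A * q)]
          rw [show A * (q : ℝ) * -Real.log ‖w‖ = -(Real.log ‖w‖ * (A * q)) by ring, Real.exp_neg]
          field_simp
  have hk1 : ∀ w, 1 ≤ ‖w‖ → ‖k w‖ ≤ B * ‖w‖ ^ (2 * m) := by
    intro w hw1
    have hwp : 0 < ‖w‖ := by linarith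
    have hw : w ≠ 0 := norm_pos_iff.1 hwp
    have hlog : 0 ≤ Real.log ‖w‖ := Real.log_nonneg hw1
    have h1 := hFb w hw
    rw [abs_of_nonneg hlog] at h1
    have h2 : Real.exp (A * q * Real.log ‖w‖) ≤ ‖w‖ ^ m := by
      rw [← Real.rpow_natCast, Real.rpow_def_of_pos hwp]
      refine Real.exp_le_exp.2 ?_
      nlinarith
    simp only [hk]
    rw [norm_mul, norm_pow]
    calc ‖w‖ ^ m * ‖F w‖ ≤ ‖w‖ ^ m * (B * ‖w‖ ^ m) := by
          gcongr
          exact h1.trans (mul_le_mul_of_nonneg_left h2 hB)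
      _ = B * ‖w‖ ^ (2 * m) := by ring
  have hkd' : ∀ w, w ≠ 0 → DifferentiableAt ℂ k w := fun w hw =>
    ((differentiableAt_id).pow m).mul (hFd w hw)
  have hk00 : k 0 = 0 := by
    simp only [hk]
    rw [zero_pow hm0.ne', zero_mul]
  have hkc : ContinuousAt k 0 := by
    rw [ContinuousAt, hk00, tendsto_zero_iff_norm_tendsto_zero]
    have hs : 0 < (m : ℝ) - A * q := by linarith
    have h1 : Tendsto (fun w : ℂ => B * ‖w‖ ^ ((m : ℝ) - A * q)) (𝓝 0) (𝓝 0) := by
      have h2 : Tendsto (fun w : ℂ => ‖w‖ ^ ((m : ℝ) - A * q)) (𝓝 0) (𝓝 0) := by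
        have h3 := (continuous_norm.tendsto (0 : ℂ)).rpow_const (p := (m : ℝ) - A * q)
          (Or.inr hs.le)
        rwa [norm_zero, Real.zero_rpow hs.ne'] at h3
      have h4 := h2.const_mul B
      rwa [mul_zero] at h4
    refine tendsto_of_tendsto_of_tendsto_of_le_of_le' tendsto_const_nhds h1
      (Eventually.of_forall fun w => norm_nonneg _) ?_
    filter_upwards [Metric.ball_mem_nhds (0 : ℂ) one_pos] with w hw
    by_cases h0 : w = 0
    · rw [h0, hk00, norm_zero]
      exact mul_nonneg hB (Real.rpow_nonneg le_rfl _)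
    · exact hk0 w h0 (by
        have h5 : ‖w‖ < 1 := by simpa using hw
        exact h5.le)
  have hkd : Differentiable ℂ k := by
    intro w
    by_cases hw : w = 0
    · subst hw
      refine (Complex.analyticAt_of_differentiable_on_punctured_nhds_of_continuousAt ?_
        hkc).differentiableAt
      filter_upwards [self_mem_nhdsWithin] with w hw
      exact hkd' w hw
    · exact hkd' w hw
  obtain ⟨p, hp, hpk⟩ := Per_growth hkd hk1
  refine ⟨p, hp, fun z => ?_⟩
  rw [← hpk]
  simp only [hk]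
  rw [hFexp, ← Complex.exp_nat_mul, ← mul_assoc, ← Complex.exp_add]
  have h1 : -((m : ℂ) * z / q) + (m : ℂ) * (z / q) = 0 := by ring
  rw [h1, Complex.exp_zero, one_mul]

theorem alg_dep {f : Fin 3 → ℂ → ℂ} (hf : ∀ i, Differentiable ℂ (f i)) {q : ℕ} (hq : 0 < q)
    (hper : ∀ i z, f i (z + 2 * (Real.pi : ℂ) * Complex.I * q) = f i z) {A B : ℝ} (hb : ∀ i z, ‖f i z‖ ≤ B * Real.exp (A * |z.re|)) :
    ∃ (D : ℕ) (R : MvPolynomial (Fin 3) ℂ), R.IsHomogeneous D ∧ R ≠ 0 ∧ ∀ z, MvPolynomial.eval (fun i => f i z) R = 0 := by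
  set A' : ℝ := max A 0 with hA'
  have hA0 : 0 ≤ A' := le_max_right _ _
  have hB : 0 ≤ B := by
    have h1 := hb 0 0
    rw [Complex.zero_re, abs_zero, mul_zero, Real.exp_zero, mul_one] at h1
    exact (norm_nonneg _).trans h1
  have hb' : ∀ i z, ‖f i z‖ ≤ B * Real.exp (A' * |z.re|) := by
    intro i z
    refine (hb i z).trans (mul_le_mul_of_nonneg_left (Real.exp_le_exp.2 ?_) hB)
    exact mul_le_mul_of_nonneg_right (le_max_left _ _) (abs_nonneg _)
  obtain ⟨m, hm⟩ := exists_nat_gt (A' * q)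
  choose p hpd hp using fun i => per_poly (hf i) hq (hper i) hA0 (hb' i) hm
  -- the degree and the number of monomials
  set D : ℕ := 8 * m + 2 with hD
  set T : Type := Fin (4 * m + 2) × Fin (4 * m + 2) with hT
  set mono : T → Polynomial ℂ := fun t => p 0 ^ (t.1 : ℕ) * p 1 ^ (t.2 : ℕ) *
    p 2 ^ (D - t.1 - t.2) with hmono
  have hsum : ∀ t : T, (t.1 : ℕ) + t.2 + (D - t.1 - t.2) = D := by
    intro t
    have h1 := t.1.isLt
    have h2 := t.2.isLt
    omega
  have hdeg : ∀ t, (mono t).natDegree ≤ 2 * m * D := by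
    intro t
    have h3 : ∀ (i : Fin 3) (l : ℕ), (p i ^ l).natDegree ≤ l * (2 * m) := fun i l =>
      Polynomial.natDegree_pow_le.trans (Nat.mul_le_mul_left l (hpd i))
    have h4 : (mono t).natDegree ≤ (t.1 : ℕ) * (2 * m) + (t.2 : ℕ) * (2 * m) +
        (D - t.1 - t.2) * (2 * m) := by
      simp only [hmono]
      refine Polynomial.natDegree_mul_le.trans (Nat.add_le_add ?_ (h3 2 _))
      exact Polynomial.natDegree_mul_le.trans (Nat.add_le_add (h3 0 _) (h3 1 _))
    refine h4.trans (le_of_eq ?_)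
    rw [← Nat.add_mul, ← Nat.add_mul, hsum t, Nat.mul_comm]
  let Λ : (T → ℂ) →ₗ[ℂ] (Fin (2 * m * D + 1) → ℂ) :=
    { toFun := fun c l => ∑ t, c t * (mono t).coeff l
      map_add' := fun c d => by
        funext l
        simp only [Pi.add_apply, add_mul, Finset.sum_add_distrib]
      map_smul' := fun a c => by
        funext l
        simp only [Pi.smul_apply, smul_eq_mul, RingHom.id_apply, Finset.mul_sum, mul_assoc] }
  have hker : LinearMap.ker Λ ≠ ⊥ := by
    refine LinearMap.ker_ne_bot_of_finrank_lt ?_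
    rw [Module.finrank_fintype_fun_eq_card, Module.finrank_fintype_fun_eq_card, Fintype.card_fin,
      Fintype.card_prod, Fintype.card_fin, hD]
    nlinarith
  obtain ⟨c, hc, hc0⟩ := Submodule.exists_mem_ne_zero_of_ne_bot hker
  have hcΛ : ∀ l : Fin (2 * m * D + 1), ∑ t, c t * (mono t).coeff l = 0 := fun l =>
    congrFun (LinearMap.mem_ker.1 hc) l
  have hP : ∑ t, Polynomial.C (c t) * mono t = 0 := by
    ext l
    rw [Polynomial.finsetSum_coeff, Polynomial.coeff_zero]
    by_cases hl : l < 2 * m * D + 1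
    · have h1 := hcΛ ⟨l, hl⟩
      simpa only [Polynomial.coeff_C_mul] using h1
    · refine Finset.sum_eq_zero fun t _ => ?_
      rw [Polynomial.coeff_C_mul, Polynomial.coeff_eq_zero_of_natDegree_lt, mul_zero]
      have h1 := hdeg t
      omega
  set ex : T → (Fin 3 →₀ ℕ) := fun t =>
    Finsupp.equivFunOnFinite.symm ![(t.1 : ℕ), (t.2 : ℕ), D - t.1 - t.2] with hex
  have hex0 : ∀ t, ex t 0 = t.1 := fun t => by simp [hex]
  have hex1 : ∀ t, ex t 1 = t.2 := fun t => by simp [hex]
  have hex2 : ∀ t, ex t 2 = D - t.1 - t.2 := fun t => by simp [hex]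
  have hinj : Function.Injective ex := by
    intro t u htu
    have h0 : ex t 0 = ex u 0 := by rw [htu]
    have h1 : ex t 1 = ex u 1 := by rw [htu]
    rw [hex0, hex0] at h0
    rw [hex1, hex1] at h1
    exact Prod.ext (Fin.ext h0) (Fin.ext h1)
  refine ⟨D, ∑ t, MvPolynomial.monomial (ex t) (c t), ?_, ?_, fun z => ?_⟩
  · refine MvPolynomial.IsHomogeneous.sum _ _ _ fun t _ => ?_
    refine MvPolynomial.isHomogeneous_monomial _ ?_
    rw [Finsupp.degree_eq_sum, Fin.sum_univ_three, hex0, hex1, hex2]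
    exact hsum t
  · intro h0
    obtain ⟨t, ht⟩ := Function.ne_iff.1 hc0
    apply ht
    have h1 := congrArg (MvPolynomial.coeff (ex t)) h0
    rw [MvPolynomial.coeff_sum, MvPolynomial.coeff_zero] at h1
    rw [Finset.sum_eq_single t] at h1
    · rwa [MvPolynomial.coeff_monomial, if_pos rfl] at h1
    · intro u _ hu
      rw [MvPolynomial.coeff_monomial, if_neg]
      exact fun h => hu (hinj h)
    · intro h
      exact absurd (Finset.mem_univ t) h
  · rw [map_sum]
    have hterm : ∀ t : T, MvPolynomial.eval (fun i => f i z)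
        (MvPolynomial.monomial (ex t) (c t)) =
        Complex.exp (-((m : ℂ) * z / q)) ^ D *
          (Polynomial.C (c t) * mono t).eval (Complex.exp (z / q)) := by
      intro t
      rw [MvPolynomial.eval_monomial, Finsupp.prod_fintype _ _ (fun i => pow_zero _),
        Fin.prod_univ_three, hex0, hex1, hex2, hp 0 z, hp 1 z, hp 2 z, Polynomial.eval_mul,
        Polynomial.eval_C]
      simp only [hmono]
      rw [Polynomial.eval_mul, Polynomial.eval_mul, Polynomial.eval_pow, Polynomial.eval_pow,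
        Polynomial.eval_pow, mul_pow, mul_pow, mul_pow]
      conv_rhs => rw [← hsum t, pow_add, pow_add]
      rw [hsum t]
      ring
    rw [Finset.sum_congr rfl fun t _ => hterm t, ← Finset.mul_sum, ← Polynomial.eval_finsetSum,
      hP, Polynomial.eval_zero, mul_zero]

end Pool.Agent.TC
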