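import Pool.Agent.TC.SecFin
import Pool.Agent.TC.Ord2
import Pool.Agent.TC.Aff
import Pool.Agent.TC.Per
import Pool.Agent.TC.Crit
import Pool.Agent.TC.FibGood
import Pool.Agent.TC.Pencil
import Pool.Agent.TC.Meet

/-!
# TC FinA: the entire curves of order two lie in a fixed hypersurface
-/

set_option autoImplicit false

open MvPolynomial Topology Filter Metric
open Pool.Agent.H17LG.Variety (FunField)
open Pool.Agent.H62.FC (Homog)

namespace Pool.Agent.TC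

open Pool.Agent.H36.BP (EN fs wd)

variable {n : ℕ} {Q : Fin (n + 2) → MvPolynomial (Fin (n + 3)) ℂ} {e : Fin (n + 2) → ℕ}

/-- every section satisfies an algebraic equation which does not hold on the surface -/
theorem sec_form (h : Pair Q e) (P : Ideal (MvPolynomial (Fin (n + 3)) ℂ)) [P.IsPrime] (hP : Homog P)
    (hdim : ∃ z : Fin 2 → FunField P, IsTranscendenceBasis ℂ z) {F : ℂ → EN (n + 2)} (hF : F ∈ Sec Q) :
    ∃ (D : ℕ) (R : MvPolynomial (Fin (n + 3)) ℂ), R.IsHomogeneous D ∧ R ∉ P ∧ ∀ z, ev R (F z) = 0 := by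
  obtain ⟨t, ht⟩ := exists_triple P hP hdim
  obtain ⟨q, hq, hper⟩ := sec_period h
  obtain ⟨C₀, c, A, hC₀, hc, hA, htame⟩ := sec_tame h
  have hFd : Differentiable ℂ F := fun z => (hF.1 z (Set.mem_univ z)).differentiableAt Filter.univ_mem
  have hcd : ∀ i, Differentiable ℂ (fun z => F z i) := fun i =>
    (EuclideanSpace.proj (𝕜 := ℂ) i : EN (n + 2) →L[ℂ] ℂ).differentiable.comp hFd
  have hF0 : ∀ z, 0 < ‖F z‖ := fun z => lt_of_lt_of_le hc (htame F hF z).2.2.2.2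
  obtain ⟨D, R, hR, hR0, hRF⟩ := alg_dep (f := fun i z => F z (t i)) (fun i => hcd (t i)) (q := q) (by omega) (fun i z => by
    have h1 := hper F hF z
    have h2 : z + 2 * (Real.pi : ℂ) * Complex.I * q = z + 2 * Real.pi * q * Complex.I := by ring
    simp only
    rw [h2, h1]) (A := A) (B := Real.exp A) (fun i z => by
    have h1 := (htame F hF z).2.2.2.1
    have h2 : ‖F z (t i)‖ ≤ ‖F z‖ := PiLp.norm_apply_le _ _
    have h3 : ‖F z‖ ≤ Real.exp (A * (1 + |z.re|)) := by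
      rw [← Real.log_le_iff_le_exp (hF0 z)]
      exact h1
    refine h2.trans (h3.trans (le_of_eq ?_))
    rw [← Real.exp_add]
    congr 1
    ring)
  refine ⟨D, rename t R, hR.rename_isHomogeneous, ht D R hR hR0, fun z => ?_⟩
  unfold ev
  rw [eval_rename]
  exact hRF z

/-- a product of forms -/
private theorem prod_form {ι : Type*} (s : Finset ι) (P : Ideal (MvPolynomial (Fin (n + 3)) ℂ)) [P.IsPrime]
    (R : ι → MvPolynomial (Fin (n + 3)) ℂ) (hR : ∀ i ∈ s, (∃ D, (R i).IsHomogeneous D) ∧ R i ∉ P) :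
    (∃ D, (∏ i ∈ s, R i).IsHomogeneous D) ∧ ∏ i ∈ s, R i ∉ P := by
  classical
  induction s using Finset.induction_on with
  | empty =>
    rw [Finset.prod_empty]
    exact ⟨⟨0, isHomogeneous_one _ _⟩, fun h1 => (inferInstance : P.IsPrime).ne_top ((Ideal.eq_top_iff_one P).2 h1)⟩
  | insert a s ha ih =>
    obtain ⟨⟨D, hD⟩, h2⟩ := ih fun i hi => hR i (Finset.mem_insert_of_mem hi)
    obtain ⟨⟨D', hD'⟩, h2'⟩ := hR a (Finset.mem_insert_self a s)
    rw [Finset.prod_insert ha]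
    exact ⟨⟨D' + D, hD'.mul hD⟩, fun h3 => ((inferInstance : P.IsPrime).mem_or_mem h3).elim h2' h2⟩

private theorem ev_prod {ι : Type*} (s : Finset ι) (R : ι → MvPolynomial (Fin (n + 3)) ℂ) (x : EN (n + 2)) :
    ev (∏ i ∈ s, R i) x = ∏ i ∈ s, ev (R i) x := by
  unfold ev
  rw [map_prod]

/-- the entire curves of order two: they lie in one of finitely many members of the pencil, or are reparametrised entire sections -/
theorem classify (h : Pair Q e) : ∃ T : Finset ℂ, ∀ F₀ : ℂ → EN (n + 2), Differentiable ℂ F₀ →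
      (∀ z, F₀ z ≠ 0) → (∀ z, OnV Q (F₀ z)) → (∀ z, ev (Q 0) (F₀ z) ≠ 0) → (∀ z, ev (Q 1) (F₀ z) ≠ 0) →
      (∃ A : ℝ, ∀ r : ℝ, 0 < r → Real.circleAverage (fun z => Real.log ‖F₀ z‖) 0 r ≤ A * (1 + r ^ 2)) →
      (∃ z w, ∀ c : ℂ, F₀ z ≠ c • F₀ w) →
      (∃ τ ∈ T, ∀ z, ev (Q 0) (F₀ z) ^ e 1 = τ * ev (Q 1) (F₀ z) ^ e 0) ∨
      ∃ G ∈ Sec Q, ∃ (u : ℂ → ℂ) (a b c : ℂ), ∀ z, F₀ z = Complex.exp (u z) • G (a * z ^ 2 + b * z + c) := by
  classical
  obtain ⟨T, hT⟩ := crit_finite h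
  refine ⟨T, ?_⟩
  rintro F₀ hF₀ h0 hV h1 h2 ⟨A, hA⟩ ⟨z₁, w₁, hne⟩
  obtain ⟨F, u, a, b, c, hF, huF, hFs⟩ := exists_lift h hF₀ h0 hV h1 h2 hA
  by_cases ha : a = 0
  · by_cases hb : b = 0
    · -- vertical curves
      subst ha hb
      have e0 : ∀ z, ev (Q 0) (F z) = Complex.exp c := fun z => by
        rw [(hFs z).2.1]
        congr 1
        ring
      have e1 : ∀ z, ev (Q 1) (F z) = Complex.exp (-c) := fun z => by
        rw [(hFs z).2.2]
        congr 1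
        ring
      have hex : ∃ x : EN (n + 2), OnV Q x ∧ ev (Q 0) x = Complex.exp c ∧ ev (Q 1) x = Complex.exp (-c) ∧ nv Q x = 0 := by
        by_contra hcon
        push Not at hcon
        have h3 := h.pre.fib_good (Complex.exp_ne_zero c) (Complex.exp_ne_zero (-c)) hcon hF e0 e1 (fun z => (hFs z).1) z₁ w₁
        apply hne (Complex.exp (u z₁) * (Complex.exp (u w₁))⁻¹)
        rw [huF w₁, smul_smul, mul_assoc, inv_mul_cancel₀ (Complex.exp_ne_zero _), mul_one, ← h3]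
        exact huF z₁
      obtain ⟨x, hx1, hx2, hx3, hx4⟩ := hex
      have hx0 : x ≠ 0 := by
        rintro rfl
        have h3 := ev_smul (h.hom 0) (0 : ℂ) (0 : EN (n + 2))
        rw [smul_zero, zero_pow (by have := h.pos 0; omega), zero_mul] at h3
        exact Complex.exp_ne_zero c (hx2.symm.trans h3)
      obtain ⟨τ, hτ, hτx⟩ := hT x hx0 hx1 hx4
      rw [hx2, hx3] at hτx
      refine Or.inl ⟨τ, hτ, fun z => ?_⟩
      rw [huF z, ev_smul (h.hom 0), ev_smul (h.hom 1), e0, e1, mul_pow, mul_pow, hτx, ← pow_mul, ← pow_mul, mul_comm (e 1) (e 0)]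
      ring
    · -- linear exponent
      subst ha
      have hG : (fun w => F ((w - c) / b)) ∈ Sec Q := by
        refine ⟨(hF.comp (by fun_prop)).differentiableOn, fun w _ => ?_⟩
        have h3 : 0 * ((w - c) / b) ^ 2 + b * ((w - c) / b) + c = w := by
          field_simp
          ring
        obtain ⟨h4, h5, h6⟩ := hFs ((w - c) / b)
        rw [h3] at h5 h6
        exact ⟨h5, h6, h4⟩
      refine Or.inr ⟨_, hG, u, 0, b, c, fun z => ?_⟩
      have h3 : (0 * z ^ 2 + b * z + c - c) / b = z := by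
        field_simp
        ring
      rw [h3]
      exact huF z
  · -- quadratic exponent
    obtain ⟨s, hs⟩ : ∃ s : ℂ, s ^ 2 = a := ⟨a ^ (2⁻¹ : ℂ), Complex.cpow_nat_inv_pow a (n := 2) two_ne_zero⟩
    have hs0 : s ≠ 0 := by
      rintro rfl
      apply ha
      rw [← hs]
      ring
    obtain ⟨t, ht⟩ : ∃ t : ℂ, 2 * s * t = b := ⟨b / (2 * s), by field_simp⟩
    obtain ⟨G, hG, hFG⟩ := ord_two h (f := fun w => F ((w - t) / s)) (b := c - t ^ 2) (hF.comp (by fun_prop)) (fun w => by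
      have h3 : a * ((w - t) / s) ^ 2 + b * ((w - t) / s) + c = w ^ 2 + (c - t ^ 2) := by
        rw [← hs, ← ht]
        field_simp
        ring
      rw [← h3]
      exact (hFs _).2.1) (fun w => by
      have h3 : a * ((w - t) / s) ^ 2 + b * ((w - t) / s) + c = w ^ 2 + (c - t ^ 2) := by
        rw [← hs, ← ht]
        field_simp
        ring
      rw [← h3]
      exact (hFs _).2.2) (fun w => (hFs _).1)
    refine Or.inr ⟨G, hG, u, a, b, c, fun z => ?_⟩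
    have h3 := hFG (s * z + t)
    have h4 : (s * z + t - t) / s = z := by
      field_simp
      ring
    have h5 : (s * z + t) ^ 2 + (c - t ^ 2) = a * z ^ 2 + b * z + c := by
      rw [← hs, ← ht]
      ring
    try simp only at h3
    rw [h4, h5] at h3
    rw [huF z, h3]

theorem final_form (h : Pair Q e) (P : Ideal (MvPolynomial (Fin (n + 3)) ℂ)) [P.IsPrime] (hP : Homog P)
    (hQ : ∀ j : Fin (n + 2), 2 ≤ (j : ℕ) → Q j ∈ P) (hdim : ∃ z : Fin 2 → FunField P, IsTranscendenceBasis ℂ z) :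
    ∃ (D : ℕ) (R : MvPolynomial (Fin (n + 3)) ℂ), R.IsHomogeneous D ∧ R ∉ P ∧ ∀ F₀ : ℂ → EN (n + 2), Differentiable ℂ F₀ →
      (∀ z, F₀ z ≠ 0) → (∀ z, OnV Q (F₀ z)) → (∀ z, ev (Q 0) (F₀ z) ≠ 0) → (∀ z, ev (Q 1) (F₀ z) ≠ 0) →
      (∃ A : ℝ, ∀ r : ℝ, 0 < r → Real.circleAverage (fun z => Real.log ‖F₀ z‖) 0 r ≤ A * (1 + r ^ 2)) →
      (∃ z w, ∀ c : ℂ, F₀ z ≠ c • F₀ w) → ∀ z, ev R (F₀ z) = 0 := by
  classical
  obtain ⟨T, hT⟩ := classify h
  have hfin := sec_finite h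
  choose! D R hR hRP hRF using fun (F : ℂ → EN (n + 2)) (hF : F ∈ Sec Q) => sec_form h P hP hdim hF
  obtain ⟨⟨D₁, hD₁⟩, hR₁⟩ := prod_form T P (fun τ => Q 0 ^ e 1 - C τ * Q 1 ^ e 0) (fun τ _ => ⟨⟨e 0 * e 1, by
    have h1 := (h.hom 0).pow (e 1)
    have h2 := ((isHomogeneous_C (Fin (n + 3)) τ).mul ((h.hom 1).pow (e 0)))
    rw [zero_add, mul_comm (e 1) (e 0)] at h2
    exact h1.sub h2⟩, h.pre.pencil_notMem P hP hQ hdim τ⟩)
  obtain ⟨⟨D₂, hD₂⟩, hR₂⟩ := prod_form hfin.toFinset P R (fun F hF =>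
    ⟨⟨D F, hR F (hfin.mem_toFinset.1 hF)⟩, hRP F (hfin.mem_toFinset.1 hF)⟩)
  set R₁ := ∏ τ ∈ T, (Q 0 ^ e 1 - C τ * Q 1 ^ e 0) with hR₁def
  set R₂ := ∏ F ∈ hfin.toFinset, R F with hR₂def
  have hR₂F : ∀ G ∈ Sec Q, ∀ z, ev R₂ (G z) = 0 := by
    intro G hG z
    rw [hR₂def, ev_prod]
    exact Finset.prod_eq_zero (hfin.mem_toFinset.2 hG) (hRF G hG z)
  refine ⟨D₁ + D₂, R₁ * R₂, hD₁.mul hD₂, fun h3 => ((inferInstance : P.IsPrime).mem_or_mem h3).elim hR₁ hR₂, ?_⟩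
  intro F₀ hF₀ h0 hV h1 h2 hA hne z
  rw [show ev (R₁ * R₂) (F₀ z) = ev R₁ (F₀ z) * ev R₂ (F₀ z) by unfold ev; rw [map_mul]]
  rcases hT F₀ hF₀ h0 hV h1 h2 hA hne with ⟨τ, hτ, hτz⟩ | ⟨G, hG, u, a, b, c, hu⟩
  · have h3 : ev R₁ (F₀ z) = 0 := by
      rw [hR₁def, ev_prod]
      refine Finset.prod_eq_zero hτ ?_
      have h4 : ev (Q 0 ^ e 1 - C τ * Q 1 ^ e 0) (F₀ z) = ev (Q 0) (F₀ z) ^ e 1 - τ * ev (Q 1) (F₀ z) ^ e 0 := by
        unfold ev
        simp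
      rw [h4, hτz z, sub_self]
    rw [h3, zero_mul]
  · rw [hu z, ev_smul hD₂, hR₂F G hG, mul_zero, mul_zero]

end Pool.Agent.TC
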