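import Pool.Agent.TC.FinB
import Pool.Agent.H17R.Defs

/-!
# TC FinC: the main theorem in terms of the forms
-/

set_option autoImplicit false

open MvPolynomial Topology Filter Metric
open Pool.Agent.H17 (PN VanishesAt ZariskiClosedIn HolomorphicInto vanishesAt_mk_iff)
open Pool.Agent.H17R (openVar GGLWith)
open Pool.Agent.H17LG.Variety (FunField IsLogGeneralType OnBoundary)
open Pool.Agent.H62.FC (Homog)
open Pool.Agent.H62.SA (locVar OnBd IsProperMap)
open Pool.Agent.Results.MP_64ff02_ag.SmoothSurfaces (FourProperties)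

namespace Pool.Agent.TC

open Pool.Agent.H36.BP (EN fs wd)

private theorem finC_ord {K : Type} [Field K] [Algebra ℂ K] {k : ℕ} (E : Pool.Agent.H23.Fano.PrimeDivisorOver K k) {σ : Type}
    {y : σ → K} (hy : ∀ i, 0 ≤ E.ord (y i)) (F : MvPolynomial σ ℂ) : 0 ≤ E.ord (aeval y F) := by
  induction F using MvPolynomial.induction_on with
  | C a =>
    rw [aeval_C]
    exact E.ord_const a
  | add p q hp hq =>
    rw [map_add]
    exact (le_min hp hq).trans (E.ord.map_add _ _)
  | mul_X p i hp =>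
    rw [map_mul, aeval_X, E.ord.map_mul]
    exact add_nonneg hp (hy i)

theorem onBd_eq {N : ℕ} (P : Ideal (MvPolynomial (Fin (N + 1)) ℂ)) [P.IsPrime] (G : Fin 2 → MvPolynomial (Fin (N + 1)) ℂ) {k : ℕ} :
    OnBoundary P G (k := k) = OnBd P (fun _ : Fin 1 => G 0 * G 1) := by
  funext E
  refine propext ?_
  have key : ∀ j, (∀ i, 0 ≤ E.ord (Pool.Agent.H17LG.Variety.ratio P i j)) →
      ((∃ m : Fin 2, 0 < E.ord (aeval (fun i => Pool.Agent.H17LG.Variety.ratio P i j) (G m))) ↔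
        ∀ _ : Fin 1, 0 < E.ord (aeval (fun i => Pool.Agent.H17LG.Variety.ratio P i j) (G 0 * G 1))) := by
    intro j hj
    have e0 := finC_ord E hj (G 0)
    have e1 := finC_ord E hj (G 1)
    rw [map_mul, E.ord.map_mul]
    constructor
    · rintro ⟨m, hm⟩ _
      fin_cases m
      · exact lt_of_lt_of_le hm (le_add_of_nonneg_right e1)
      · exact lt_of_lt_of_le hm (le_add_of_nonneg_left e0)
    · intro hm
      have hm := hm 0
      by_contra hcon
      push Not at hcon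
      have h2 := le_antisymm (hcon 0) e0
      have h3 := le_antisymm (hcon 1) e1
      rw [h2, h3, add_zero] at hm
      exact lt_irrefl _ hm
  constructor
  · rintro ⟨j, hj, hj', hm⟩
    exact ⟨j, hj, hj', (key j hj').1 hm⟩
  · rintro ⟨j, hj, hj', hm⟩
    exact ⟨j, hj, hj', (key j hj').2 hm⟩

theorem openVar_eq {N : ℕ} (P : Ideal (MvPolynomial (Fin (N + 1)) ℂ)) (G : Fin 2 → MvPolynomial (Fin (N + 1)) ℂ) :
    openVar P G = locVar P (fun _ : Fin 1 => G 0 * G 1) := by
  ext x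
  constructor
  · rintro ⟨h1, h2⟩
    refine ⟨h1, 0, fun h3 => ?_⟩
    unfold VanishesAt at h3
    rw [map_mul] at h3
    rcases mul_eq_zero.1 h3 with h4 | h4
    · exact h2 0 h4
    · exact h2 1 h4
  · rintro ⟨h1, m, h2⟩
    refine ⟨h1, fun l h3 => h2 ?_⟩
    unfold VanishesAt at h3 ⊢
    rw [map_mul]
    fin_cases l
    · change eval x.rep (G 0) = 0 at h3
      rw [h3, zero_mul]
    · change eval x.rep (G 1) = 0 at h3
      rw [h3, mul_zero]

theorem ggl_of_four {N : ℕ} {P : Ideal (MvPolynomial (Fin (N + 1)) ℂ)} [P.IsPrime] {G : Fin 2 → MvPolynomial (Fin (N + 1)) ℂ} {Ξ : Set (PN N)}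
    (h : FourProperties P (fun _ : Fin 1 => G 0 * G 1) Ξ) : GGLWith P G Ξ where
  closed := by
    rw [openVar_eq]
    exact h.properClosed.1
  ne := by
    rw [openVar_eq]
    exact h.properClosed.2
  logGeneralType w hw hz := by
    rw [onBd_eq]
    exact h.logGeneralType w hw hz
  picard f hf hU hne := by
    rw [openVar_eq] at hU
    exact h.picard f hf hU hne
  brody f hf hU hne := by
    rw [openVar_eq] at hU
    exact h.brody f hf hU hne
  strongly Q hQp hQ hPQ _ hsub w hw hz := by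
    rw [openVar_eq] at hsub
    rw [onBd_eq]
    exact h.strongly Q hQ hPQ hsub w hw hz

/-- the hypotheses in terms of the equations `F j` of the surface and of the forms `G 0`, `G 1` -/
theorem pair_of_nc {n : ℕ} {a : Fin n → ℕ} {d : Fin 2 → ℕ} {F : Fin n → MvPolynomial (Fin (n + 3)) ℂ} {G : Fin 2 → MvPolynomial (Fin (n + 3)) ℂ}
    (ha : ∀ j, 1 ≤ a j) (hd : ∀ m, 1 ≤ d m) (hdeg : n + 4 ≤ ∑ j, a j + d 0 + d 1) (hF : ∀ j, (F j).IsHomogeneous (a j))
    (hG : ∀ m, (G m).IsHomogeneous (d m))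
    (hNC : ∀ x : Fin (n + 3) → ℂ, x ≠ 0 → (∀ j, eval x (F j) = 0) →
      LinearIndependent ℂ fun i : {i : Fin n ⊕ Fin 2 // eval x (Sum.elim F G i) = 0} => fun k => eval x (pderiv k (Sum.elim F G i.1))) :
    Pair (Fin.cons (G 0) (Fin.cons (G 1) F) : Fin (n + 2) → MvPolynomial (Fin (n + 3)) ℂ) (Fin.cons (d 0) (Fin.cons (d 1) a)) := by
  classical
  set Q : Fin (n + 2) → MvPolynomial (Fin (n + 3)) ℂ := Fin.cons (G 0) (Fin.cons (G 1) F) with hQ
  set e : Fin (n + 2) → ℕ := Fin.cons (d 0) (Fin.cons (d 1) a) with he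
  have hQ0 : Q 0 = G 0 := rfl
  have hQ1 : Q 1 = G 1 := rfl
  have hQs : ∀ l : Fin n, Q l.succ.succ = F l := fun l => rfl
  have he0 : e 0 = d 0 := rfl
  have he1 : e 1 = d 1 := rfl
  have hes : ∀ l : Fin n, e l.succ.succ = a l := fun l => rfl
  have hind : ∀ {p : Fin (n + 2) → Prop}, p 0 → p 1 → (∀ l : Fin n, p l.succ.succ) → ∀ j, p j := fun {p} h0 h1 h2 j =>
    Fin.cases h0 (fun j => Fin.cases h1 h2 j) j
  have hsum : ∀ {M : Type} [AddCommMonoid M] (f : Fin (n + 2) → M), ∑ j, f j = f 0 + (f 1 + ∑ l : Fin n, f l.succ.succ) := by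
    intro M _ f
    rw [Fin.sum_univ_succ, Fin.sum_univ_succ]
    rfl
  have hom : ∀ j, (Q j).IsHomogeneous (e j) := hind (hG 0) (hG 1) hF
  have pos : ∀ j, 1 ≤ e j := hind (hd 0) (hd 1) ha
  -- the main point
  have key : ∀ x : EN (n + 2), x ≠ 0 → OnV Q x → ∀ c : Fin (n + 2) → ℂ, (c 0 * ev (Q 0) x = 0 ∨ c 1 * ev (Q 1) x = 0) →
      ∑ j, c j • grad (Q j) x = 0 → c = 0 := by
    intro x hx hV c h01 hc
    have hFx : ∀ l : Fin n, ev (Q l.succ.succ) x = 0 := fun l => hV _ (by simp only [Fin.val_succ]; omega)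
    -- Euler
    have h1 : ∑ i, x i * (∑ j, c j • grad (Q j) x) i = 0 := by
      rw [hc]
      simp
    have h2 : ∑ i, x i * (∑ j, c j • grad (Q j) x) i = ∑ j, c j * (e j * ev (Q j) x) := by
      simp only [Finset.sum_apply, Pi.smul_apply, smul_eq_mul, Finset.mul_sum]
      rw [Finset.sum_comm]
      refine Finset.sum_congr rfl fun j _ => ?_
      rw [← euler (hom j) x, Finset.mul_sum]
      refine Finset.sum_congr rfl fun i _ => ?_
      ring
    rw [h2, hsum] at h1
    have h3 : ∑ l : Fin n, c l.succ.succ * (e l.succ.succ * ev (Q l.succ.succ) x) = 0 :=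
      Finset.sum_eq_zero fun l _ => by rw [hFx l, mul_zero, mul_zero]
    rw [h3, add_zero] at h1
    have hd0 : (e 0 : ℂ) ≠ 0 := by
      have := pos 0
      exact_mod_cast (by omega : e 0 ≠ 0)
    have hd1 : (e 1 : ℂ) ≠ 0 := by
      have := pos 1
      exact_mod_cast (by omega : e 1 ≠ 0)
    have h4 : c 0 * ev (Q 0) x = 0 ∧ c 1 * ev (Q 1) x = 0 := by
      rcases h01 with h5 | h5
      · refine ⟨h5, ?_⟩
        have h6 : (e 1 : ℂ) * (c 1 * ev (Q 1) x) = 0 := by
          linear_combination h1 - (e 0 : ℂ) * h5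
        exact (mul_eq_zero.1 h6).resolve_left hd1
      · refine ⟨?_, h5⟩
        have h6 : (e 0 : ℂ) * (c 0 * ev (Q 0) x) = 0 := by
          linear_combination h1 - (e 1 : ℂ) * h5
        exact (mul_eq_zero.1 h6).resolve_left hd0
    -- linear independence
    set y : Fin (n + 3) → ℂ := fun i => x i with hy
    have hy0 : y ≠ 0 := by
      intro h5
      apply hx
      ext i
      exact congrFun h5 i
    have hli := hNC y hy0 (fun l => hFx l)
    rw [Fintype.linearIndependent_iff] at hli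
    set w : Fin n ⊕ Fin 2 → ℂ := Sum.elim (fun l => c l.succ.succ) ![c 0, c 1] with hw
    have hw0 : ∀ i, eval y (Sum.elim F G i) ≠ 0 → w i = 0 := by
      rintro (l | m) hi
      · exact absurd (hFx l) hi
      · fin_cases m
        · exact (mul_eq_zero.1 h4.1).resolve_right hi
        · exact (mul_eq_zero.1 h4.2).resolve_right hi
    have h6 : ∑ i : {i : Fin n ⊕ Fin 2 // eval y (Sum.elim F G i) = 0}, w i.1 • (fun k => eval y (pderiv k (Sum.elim F G i.1))) = 0 := by
      have h7 : ∑ i : {i : Fin n ⊕ Fin 2 // eval y (Sum.elim F G i) = 0}, w i.1 • (fun k => eval y (pderiv k (Sum.elim F G i.1))) =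
          ∑ i : Fin n ⊕ Fin 2, w i • (fun k => eval y (pderiv k (Sum.elim F G i))) := by
        rw [← Finset.sum_subtype (Finset.univ.filter fun i : Fin n ⊕ Fin 2 => eval y (Sum.elim F G i) = 0) (by simp)
          (fun i => w i • (fun k => eval y (pderiv k (Sum.elim F G i))))]
        rw [Finset.sum_filter]
        refine Finset.sum_congr rfl fun i _ => ?_
        split_ifs with h8
        · rfl
        · rw [hw0 i h8, zero_smul]
      rw [h7, Fintype.sum_sum_type, Fin.sum_univ_two]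
      rw [hsum] at hc
      have h8 : ∀ A B C : Fin (n + 3) → ℂ, B + (C + A) = 0 → A + (B + C) = 0 := fun A B C h => by
        rw [← h]
        abel
      exact h8 _ _ _ hc
    have h7 := hli (fun i => w i.1) h6
    have h8 : ∀ i, w i = 0 := fun i => by
      by_cases hi : eval y (Sum.elim F G i) = 0
      · exact h7 ⟨i, hi⟩
      · exact hw0 i hi
    funext j
    exact hind (p := fun j => c j = 0) (h8 (Sum.inr 0)) (h8 (Sum.inr 1)) (fun l => h8 (Sum.inl l)) j
  refine ⟨hom, pos, ?_, ?_, ?_⟩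
  · rw [hsum, he0, he1]
    simp only [hes]
    omega
  · intro x hx hV c h0 h1 hc
    exact key x hx hV c (Or.inl (by rw [h0, zero_mul])) hc
  · intro x hx hV h01 c hc
    exact key x hx hV c (h01.imp (fun h => by rw [h, mul_zero]) (fun h => by rw [h, mul_zero])) hc

theorem main_nc {n : ℕ} {a : Fin n → ℕ} {d : Fin 2 → ℕ} {F : Fin n → MvPolynomial (Fin (n + 3)) ℂ} {G : Fin 2 → MvPolynomial (Fin (n + 3)) ℂ}
    (ha : ∀ j, 1 ≤ a j) (hd : ∀ m, 1 ≤ d m) (hdeg : n + 4 ≤ ∑ j, a j + d 0 + d 1) (hF : ∀ j, (F j).IsHomogeneous (a j))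
    (hG : ∀ m, (G m).IsHomogeneous (d m))
    (hNC : ∀ x : Fin (n + 3) → ℂ, x ≠ 0 → (∀ j, eval x (F j) = 0) →
      LinearIndependent ℂ fun i : {i : Fin n ⊕ Fin 2 // eval x (Sum.elim F G i) = 0} => fun k => eval x (pderiv k (Sum.elim F G i.1)))
    (P : Ideal (MvPolynomial (Fin (n + 3)) ℂ)) [P.IsPrime] (hP : Homog P) (hFP : ∀ j, F j ∈ P)
    (hdim : ∃ z : Fin 2 → FunField P, IsTranscendenceBasis ℂ z) : ∃ Ξ : Set (PN (n + 2)), GGLWith P G Ξ := by
  obtain ⟨Ξ, hΞ⟩ := (pair_of_nc ha hd hdeg hF hG hNC).exists_four P hP (fun j hj => by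
    obtain ⟨l, rfl⟩ : ∃ l : Fin n, j = l.succ.succ := by
      refine ⟨⟨(j : ℕ) - 2, by have := j.2; omega⟩, ?_⟩
      ext
      simp only [Fin.val_succ]
      omega
    exact hFP l) hdim
  exact ⟨Ξ, ggl_of_four hΞ⟩

end Pool.Agent.TC
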