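import Pool.Agent.H13.CV.Tri
import Pool.Agent.H13.CV.FunF
import Pool.Agent.H62.SA.Defs

/-!
# TC GKCur: closed curves in the complement of two plane curves are of log general type

`K = FunField Q`, `hK = curveField_funField Q hz`, `B = OnBd Q (fun _ : Fin 1 => F 0 * F 1)`; `j` with `coordFun Q j ≠ 0` (otherwise all `X i ∈ Q` and `F m ∈ Q`), `r i = ratio Q i j`, `r j = 1`; a form `P` is in `Q`
iff `aeval r P = 0`; `K = ℂ(r)`, so some `r i` is transcendental (`hz`).

(★) There is `E` with `B E`: `u i = r i ^ d 0 / F 0 (r)` (`F 0 (r) ≠ 0`); some `u i` is not a constant (if all are constants then `u j = 1 / F 0 (r)` is a constant, so all `r i ^ d 0` are constants, so the `r i` are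
algebraic over `ℂ`).  Place `E` with `ord (u i) < 0` (`exists_place_inf`).  Let `l` be an index with minimal `oz E (r l)` among the `r l ≠ 0`; `s a = ratio Q a l = r a / r l`: `ord (s a) ≥ 0`,
`F 0 (s) = F 0 (r) / r l ^ d 0`, `oz E (F 0 (r)) > d 0 * oz E (r i) ≥ d 0 * oz E (r l)`: `ord (F 0 (s)) > 0`, `ord (F 1 (s)) ≥ 0`.

`trichotomy hK B`.  First case: done.  Third case: excluded by (★).  Second case: `K = ℂ(t)`, `t` transcendental, `B E → oz E t ≠ 0`.  `r i = P i (t) / q (t)` with a common denominator (`mem_L_iff` for `L = ⊤`), `r j = 1`, so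
`P j = q`; divide the `P i` by their greatest common divisor `g`: `P i = g * x i`, `∑ b i * x i = 1` (Bezout).  `F m (x) ∈ ℂ[X]`, `F m (x) (t) = (q / g) (t) ^ d m * F m (r) ≠ 0`.  If `F m (x)` has a root `t₀ ≠ 0`: place `E`
with `0 < ord (t - t₀)` (`exists_place_over`); `ord (x i (t)) ≥ 0`, and some `ord (x l (t)) = 0` (Bezout); `s a = x a (t) / x l (t)`, `ord (F m (s)) > 0`, the other one `≥ 0`: `B E`, but `ord t = 0` (`t = t₀ + (t - t₀)`):
contradiction.  So `F m (x) = C c * X ^ k` (all roots are `0`, `IsAlgClosed`).  `halg`: `x i = C (v i) * p`, so the `r i = v i / v j` are constants: contradiction.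
-/

set_option autoImplicit false

open MvPolynomial
open Pool.Agent.H17LG.Variety (FunField IsLogGeneralType)
open Pool.Agent.H62.FC (Homog)
open Pool.Agent.H62.SA (OnBd)

namespace Pool.Agent.TC

open Pool.Agent.H13.CV (Place CurveField Gen oz)

/-- the boundary condition for the point `r` -/
private def GKCur_B {K : Type} [Field K] [Algebra ℂ K] (F : Fin 2 → MvPolynomial (Fin 3) ℂ) (r : Fin 3 → K) (E : Place K) : Prop :=
  ∃ l, r l ≠ 0 ∧ (∀ i, 0 ≤ E.ord (r i / r l)) ∧ 0 < E.ord (aeval (fun i => r i / r l) (F 0 * F 1))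

private theorem GKCur_scale {K : Type} [Field K] [Algebra ℂ K] {G : MvPolynomial (Fin 3) ℂ} {n : ℕ} (hG : G.IsHomogeneous n) (x : Fin 3 → K) (l : Fin 3) :
    aeval (fun i => x i / x l) G = aeval x G / x l ^ n := by
  have h := Pool.Agent.H92.GT.Proj.aeval_scale hG ((x l)⁻¹) x
  have h2 : (fun i => x i / x l) = fun i => (x l)⁻¹ * x i := by
    funext i
    rw [div_eq_mul_inv, mul_comm]
  rw [h2, h, inv_pow, div_eq_mul_inv, mul_comm]

private theorem GKCur_nonneg {K : Type} [Field K] [Algebra ℂ K] {E : Place K} {s : Fin 3 → K} (hs : ∀ i, 0 ≤ E.ord (s i)) (P : MvPolynomial (Fin 3) ℂ) :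
    0 ≤ E.ord (aeval s P) := by
  induction P using MvPolynomial.induction_on with
  | C a =>
    rw [MvPolynomial.algHom_C]
    exact Pool.Agent.H13.CV.const_nonneg E a
  | add p q hp hq =>
    rw [map_add]
    exact Pool.Agent.H13.CV.nonneg_add hp hq
  | mul_X p i hp =>
    rw [map_mul, aeval_X]
    exact Pool.Agent.H13.CV.nonneg_mul hp (hs i)

/-- not all quotients are constants -/
private theorem GKCur_const {K : Type} [Field K] [Algebra ℂ K] (hK : CurveField K) (r : Fin 3 → K)
    (hgen : IntermediateField.adjoin ℂ {y | ∃ i j, y = r i / r j} = ⊤) (h : ∀ i, ∃ c : ℂ, r i = algebraMap ℂ K c) : False := by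
  obtain ⟨x, hx⟩ := hK.exists_tr
  have h1 : IntermediateField.adjoin ℂ {y | ∃ i j, y = r i / r j} = ⊥ := by
    rw [IntermediateField.adjoin_eq_bot_iff]
    rintro y ⟨i, j, rfl⟩
    obtain ⟨a, ha⟩ := h i
    obtain ⟨b, hb⟩ := h j
    show r i / r j ∈ (⊥ : IntermediateField ℂ K)
    rw [IntermediateField.mem_bot]
    exact ⟨a / b, by rw [map_div₀, ha, hb]⟩
  have h2 : x ∈ (⊥ : IntermediateField ℂ K) := by
    rw [← h1, hgen]
    exact IntermediateField.mem_top
  rw [IntermediateField.mem_bot] at h2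
  obtain ⟨c, hc⟩ := h2
  exact hx (hc ▸ isAlgebraic_algebraMap c)

/-- the boundary is not empty -/
private theorem GKCur_star {K : Type} [Field K] [Algebra ℂ K] (hK : CurveField K) {d : Fin 2 → ℕ} {F : Fin 2 → MvPolynomial (Fin 3) ℂ}
    (hom : ∀ m, (F m).IsHomogeneous (d m)) (pos : ∀ m, 1 ≤ d m) (r : Fin 3 → K) {j : Fin 3} (hj : r j = 1)
    (hgen : IntermediateField.adjoin ℂ {y | ∃ i j, y = r i / r j} = ⊤) (hF : ∀ m, aeval r (F m) ≠ 0) : ∃ E : Place K, GKCur_B F r E := by
  classical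
  have h1 : ∃ i, ∀ c : ℂ, r i ^ d 0 / aeval r (F 0) ≠ algebraMap ℂ K c := by
    by_contra hcon
    push Not at hcon
    apply GKCur_const hK r hgen
    intro i
    by_contra hi
    push Not at hi
    have htr := Pool.Agent.H13.CV.transcendental_of_not_const hi
    obtain ⟨a, ha⟩ := hcon i
    obtain ⟨b, hb⟩ := hcon j
    rw [hj, one_pow] at hb
    have hb0 : algebraMap ℂ K b ≠ 0 := by
      rw [← hb]
      exact one_div_ne_zero (hF 0)
    have h2 : r i ^ d 0 = algebraMap ℂ K (a / b) := by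
      rw [map_div₀, ← ha, ← hb]
      field_simp [hF 0]
    apply htr
    have h3 : IsAlgebraic ℂ (r i ^ d 0) := by
      rw [h2]
      exact isAlgebraic_algebraMap _
    exact h3.of_pow (pos 0)
  obtain ⟨i, hi⟩ := h1
  obtain ⟨E, hE⟩ := Pool.Agent.H13.CV.exists_place_inf hK (Pool.Agent.H13.CV.transcendental_of_not_const hi)
  rw [Pool.Agent.H13.CV.neg_iff] at hE
  have hri : r i ≠ 0 := by
    intro h0
    rw [h0, zero_pow (by have := pos 0; omega), zero_div, Pool.Agent.H13.CV.oz_zero] at hE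
    exact lt_irrefl _ hE
  rw [Pool.Agent.H13.CV.oz_div E (pow_ne_zero _ hri) (hF 0), Pool.Agent.H13.CV.oz_pow] at hE
  obtain ⟨l, hl, hmin⟩ := Finset.exists_min_image (Finset.univ.filter fun l => r l ≠ 0) (fun l => oz E (r l)) ⟨i, by simp [hri]⟩
  have hrl : r l ≠ 0 := by simpa using hl
  have hs : ∀ a, 0 ≤ E.ord (r a / r l) := by
    intro a
    rw [Pool.Agent.H13.CV.nonneg_iff]
    by_cases ha : r a = 0
    · left
      rw [ha, zero_div]
    · right
      rw [Pool.Agent.H13.CV.oz_div E ha hrl]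
      have := hmin a (by simp [ha])
      linarith
  refine ⟨E, l, hrl, hs, ?_⟩
  rw [map_mul]
  refine Pool.Agent.H13.CV.pos_mul ?_ (GKCur_nonneg hs _)
  rw [GKCur_scale (hom 0) r l, Pool.Agent.H13.CV.pos_iff]
  right
  rw [Pool.Agent.H13.CV.oz_div E (hF 0) (pow_ne_zero _ hrl), Pool.Agent.H13.CV.oz_pow]
  have h2 := hmin i (by simp [hri])
  have h3 : (d 0 : ℤ) * oz E (r l) ≤ (d 0 : ℤ) * oz E (r i) := mul_le_mul_of_nonneg_left h2 (by positivity)
  linarith

private theorem GKCur_poly {p : Polynomial ℂ} (hp : p ≠ 0) (h : ∀ a, p.eval a = 0 → a = 0) : ∃ (k : ℕ) (c : ℂ), c ≠ 0 ∧ p = Polynomial.C c * Polynomial.X ^ k := by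
  have h1 : p.roots = Multiset.replicate (Multiset.card p.roots) 0 := by
    rw [Multiset.eq_replicate]
    refine ⟨rfl, fun a ha => ?_⟩
    exact h a (by simpa using (Polynomial.mem_roots hp).1 ha)
  have h2 := (IsAlgClosed.splits p).eq_prod_roots
  refine ⟨Multiset.card p.roots, p.leadingCoeff, Polynomial.leadingCoeff_ne_zero.2 hp, ?_⟩
  conv_lhs => rw [h2, h1]
  simp

/-- a primitive vector of polynomials -/
private theorem GKCur_prim {K : Type} [Field K] [Algebra ℂ K] {t : K} (hL : Gen (⊤ : IntermediateField ℂ K) t) (r : Fin 3 → K) {j : Fin 3} (hj : r j = 1) :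
    ∃ (y b : Fin 3 → Polynomial ℂ) (lam : K), lam ≠ 0 ∧ (∀ i, Polynomial.aeval t (y i) = lam * r i) ∧ ∑ i, b i * y i = 1 := by
  classical
  have hinj : ∀ p : Polynomial ℂ, Polynomial.aeval t p = 0 → p = 0 := fun p hp => (transcendental_iff.1 hL.tr) p hp
  have h1 : ∀ i, ∃ p q : Polynomial ℂ, q ≠ 0 ∧ r i = Polynomial.aeval t p / Polynomial.aeval t q := fun i =>
    (Pool.Agent.H13.CV.mem_L_iff hL).1 IntermediateField.mem_top
  choose p q hq hr using h1
  set D : Polynomial ℂ := ∏ i, q i with hD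
  have hD0 : D ≠ 0 := Finset.prod_ne_zero_iff.2 fun i _ => hq i
  set P : Fin 3 → Polynomial ℂ := fun i => p i * ∏ a ∈ Finset.univ.erase i, q a with hP
  have hPr : ∀ i, Polynomial.aeval t (P i) = Polynomial.aeval t D * r i := by
    intro i
    have h2 : D = q i * ∏ a ∈ Finset.univ.erase i, q a := (Finset.mul_prod_erase _ _ (Finset.mem_univ i)).symm
    have h3 : Polynomial.aeval t (q i) ≠ 0 := fun h => hq i (hinj _ h)
    rw [h2, hP, hr i]
    simp only [map_mul]
    field_simp
  have hDt : Polynomial.aeval t D ≠ 0 := fun h => hD0 (hinj _ h)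
  have hPj : P j ≠ 0 := by
    intro h0
    have := hPr j
    rw [h0, map_zero, hj, mul_one] at this
    exact hDt this.symm
  set I : Ideal (Polynomial ℂ) := Ideal.span (Set.range P) with hI
  set g := Submodule.IsPrincipal.generator I with hg
  have hgI : g ∈ I := Submodule.IsPrincipal.generator_mem I
  have hdvd : ∀ i, ∃ y, P i = g * y := by
    intro i
    have h2 : P i ∈ I := Ideal.subset_span ⟨i, rfl⟩
    exact (Submodule.IsPrincipal.mem_iff_generator_dvd I).1 h2
  choose y hy using hdvd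
  have hg0 : g ≠ 0 := by
    intro h0
    apply hPj
    rw [hy j, h0, zero_mul]
  obtain ⟨b, hb⟩ := (Ideal.mem_span_range_iff_exists_fun).1 hgI
  have hgt : Polynomial.aeval t g ≠ 0 := fun h => hg0 (hinj _ h)
  refine ⟨y, b, Polynomial.aeval t D / Polynomial.aeval t g, div_ne_zero hDt hgt, fun i => ?_, ?_⟩
  · have h2 := hPr i
    rw [hy i, map_mul] at h2
    field_simp
    rw [mul_comm]
    rw [h2]
  · have h2 : g * ∑ i, b i * y i = g * 1 := by
      rw [mul_one, Finset.mul_sum]
      conv_rhs => rw [← hb]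
      refine Finset.sum_congr rfl fun i _ => ?_
      rw [hy i]
      ring
    exact mul_left_cancel₀ hg0 h2

private theorem GKCur_abs {K : Type} [Field K] [Algebra ℂ K] (hK : CurveField K) {d : Fin 2 → ℕ} {F : Fin 2 → MvPolynomial (Fin 3) ℂ}
    (hom : ∀ m, (F m).IsHomogeneous (d m)) (pos : ∀ m, 1 ≤ d m)
    (halg : ∀ (x : Fin 3 → Polynomial ℂ) (k : Fin 2 → ℕ) (c : Fin 2 → ℂ), (∀ m, c m ≠ 0) →
      (∀ m, aeval x (F m) = Polynomial.C (c m) * Polynomial.X ^ k m) → ∃ (p : Polynomial ℂ) (v : Fin 3 → ℂ), ∀ i, x i = Polynomial.C (v i) * p)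
    (r : Fin 3 → K) {j : Fin 3} (hj : r j = 1)
    (hgen : IntermediateField.adjoin ℂ {y | ∃ i j, y = r i / r j} = ⊤) (hF : ∀ m, aeval r (F m) ≠ 0) : IsLogGeneralType (GKCur_B F r) := by
  classical
  obtain ⟨E₀, hE₀⟩ := GKCur_star hK hom pos r hj hgen hF
  rcases Pool.Agent.H13.CV.trichotomy hK (GKCur_B F r) with h | h | h
  · exact h
  swap
  · exact absurd hE₀ (h.1 E₀)
  exfalso
  obtain ⟨t, ht, htB⟩ := h
  have htr : Transcendental ℂ t := Pool.Agent.H13.CV.tr_of_oz_ne (htB E₀ hE₀)
  have hL : Gen (⊤ : IntermediateField ℂ K) t := ⟨htr, ht.symm⟩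
  obtain ⟨y, b, lam, hlam, hy, hb⟩ := GKCur_prim hL r hj
  have hquot : ∀ a l, Polynomial.aeval t (y a) / Polynomial.aeval t (y l) = r a / r l := by
    intro a l
    rw [hy, hy, mul_div_mul_left _ _ hlam]
  have hFy : ∀ m, Polynomial.aeval t (aeval y (F m)) = aeval (fun i => Polynomial.aeval t (y i)) (F m) := by
    intro m
    have h1 : ((Polynomial.aeval t : Polynomial ℂ →ₐ[ℂ] K).comp (aeval y : MvPolynomial (Fin 3) ℂ →ₐ[ℂ] Polynomial ℂ)) =
        (aeval (fun i => Polynomial.aeval t (y i)) : MvPolynomial (Fin 3) ℂ →ₐ[ℂ] K) := by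
      apply MvPolynomial.algHom_ext
      intro i
      simp
    exact congrArg (fun φ : MvPolynomial (Fin 3) ℂ →ₐ[ℂ] K => φ (F m)) h1
  have hFy0 : ∀ m, Polynomial.aeval t (aeval y (F m)) ≠ 0 := by
    intro m
    rw [hFy m]
    have h1 : (fun i => Polynomial.aeval t (y i)) = fun i => lam * r i := funext hy
    rw [h1, Pool.Agent.H92.GT.Proj.aeval_scale (hom m) lam r]
    exact mul_ne_zero (pow_ne_zero _ hlam) (hF m)
  have hroot : ∀ m a, (aeval y (F m) : Polynomial ℂ).eval a = 0 → a = 0 := by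
    intro m a ha
    by_contra ha0
    have hgen' := hL.sub_const a
    obtain ⟨E, hE⟩ := Pool.Agent.H13.CV.exists_place_over hK hgen'.tr
    have hne : t - algebraMap ℂ K a ≠ 0 := hgen'.ne_zero
    have hE' : 0 < oz E (t - algebraMap ℂ K a) := by
      rcases (Pool.Agent.H13.CV.pos_iff).1 hE with h | h
      · exact absurd h hne
      · exact h
    have hozt : oz E t = 0 := by
      have h1 : algebraMap ℂ K a ≠ 0 := by
        rwa [Ne, map_eq_zero]
      have h2 := (Pool.Agent.H13.CV.oz_add_of_lt E h1 hne (by rw [Pool.Agent.H13.CV.oz_const]; exact hE')).2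
      rw [add_sub_cancel, Pool.Agent.H13.CV.oz_const] at h2
      exact h2
    have htn : 0 ≤ E.ord t := by
      rw [Pool.Agent.H13.CV.nonneg_iff]
      right
      rw [hozt]
    have hYn : ∀ i, 0 ≤ E.ord (Polynomial.aeval t (y i)) := fun i => Pool.Agent.H13.CV.nonneg_aeval htn _
    have hl : ∃ l, ¬ 0 < E.ord (Polynomial.aeval t (y l)) := by
      by_contra hcon
      push Not at hcon
      have h1 : 0 < E.ord (∑ i, Polynomial.aeval t (y i) * Polynomial.aeval t (b i)) :=
        Pool.Agent.H13.CV.pos_sum fun i _ => Pool.Agent.H13.CV.pos_mul (hcon i) (Pool.Agent.H13.CV.nonneg_aeval htn _)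
      have h2 : ∑ i, Polynomial.aeval t (y i) * Polynomial.aeval t (b i) = 1 := by
        have h3 := congrArg (Polynomial.aeval t) hb
        rw [map_sum, map_one] at h3
        rw [← h3]
        refine Finset.sum_congr rfl fun i _ => ?_
        rw [map_mul, mul_comm]
      rw [h2, E.ord.map_one] at h1
      exact lt_irrefl _ h1
    obtain ⟨l, hl⟩ := hl
    have hYl : Polynomial.aeval t (y l) ≠ 0 := by
      intro h0
      apply hl
      rw [Pool.Agent.H13.CV.pos_iff]
      exact Or.inl h0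
    have hozl : oz E (Polynomial.aeval t (y l)) = 0 := by
      rw [Pool.Agent.H13.CV.pos_iff, not_or, not_lt] at hl
      rcases (Pool.Agent.H13.CV.nonneg_iff).1 (hYn l) with h | h
      · exact absurd h hYl
      · exact le_antisymm hl.2 h
    have hrl : r l ≠ 0 := by
      intro h0
      apply hYl
      rw [hy, h0, mul_zero]
    have hs : ∀ i, 0 ≤ E.ord (r i / r l) := by
      intro i
      rw [← hquot i l]
      rcases (Pool.Agent.H13.CV.nonneg_iff).1 (hYn i) with h | h
      · rw [h, zero_div, Pool.Agent.H13.CV.nonneg_iff]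
        exact Or.inl rfl
      · by_cases h0 : Polynomial.aeval t (y i) = 0
        · rw [h0, zero_div, Pool.Agent.H13.CV.nonneg_iff]
          exact Or.inl rfl
        · rw [Pool.Agent.H13.CV.nonneg_iff, Pool.Agent.H13.CV.oz_div E h0 hYl, hozl, sub_zero]
          exact Or.inr h
    have hFm : 0 < E.ord (aeval (fun i => r i / r l) (F m)) := by
      have h1 : (fun i => r i / r l) = fun i => Polynomial.aeval t (y i) / Polynomial.aeval t (y l) := by
        funext i
        rw [hquot]
      have h2 := GKCur_scale (hom m) (fun i => Polynomial.aeval t (y i)) l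
      rw [h1]
      rw [h2, ← hFy m, Pool.Agent.H13.CV.pos_iff]
      right
      rw [Pool.Agent.H13.CV.oz_div E (hFy0 m) (pow_ne_zero _ hYl), Pool.Agent.H13.CV.oz_pow, hozl, mul_zero, sub_zero]
      obtain ⟨w, hw⟩ := Polynomial.dvd_iff_isRoot.2 (show (aeval y (F m) : Polynomial ℂ).IsRoot a from ha)
      have h3 : 0 < E.ord (Polynomial.aeval t (aeval y (F m))) := by
        rw [hw, map_mul, map_sub, Polynomial.aeval_X, Polynomial.aeval_C]
        exact Pool.Agent.H13.CV.pos_mul hE (Pool.Agent.H13.CV.nonneg_aeval htn _)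
      rcases (Pool.Agent.H13.CV.pos_iff).1 h3 with h | h
      · exact absurd h (hFy0 m)
      · exact h
    refine htB E ⟨l, hrl, hs, ?_⟩ hozt
    rw [map_mul]
    fin_cases m
    · exact Pool.Agent.H13.CV.pos_mul hFm (GKCur_nonneg hs _)
    · rw [mul_comm]
      exact Pool.Agent.H13.CV.pos_mul hFm (GKCur_nonneg hs _)
  have hpoly : ∀ m, ∃ (k : ℕ) (c : ℂ), c ≠ 0 ∧ (aeval y (F m) : Polynomial ℂ) = Polynomial.C c * Polynomial.X ^ k := by
    intro m
    refine GKCur_poly ?_ (hroot m)
    intro h0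
    apply hFy0 m
    rw [h0, map_zero]
  choose k c hc hk using hpoly
  obtain ⟨p, v, hpv⟩ := halg y k c hc hk
  apply GKCur_const hK r hgen
  intro i
  have hpt : Polynomial.aeval t p ≠ 0 := by
    intro h0
    have h1 := hy j
    rw [hpv j, map_mul, h0, mul_zero, hj, mul_one] at h1
    exact hlam h1.symm
  refine ⟨v i / v j, ?_⟩
  have h1 := hquot i j
  rw [hj, div_one, hpv i, hpv j, map_mul, map_mul, mul_div_mul_right _ _ hpt, Polynomial.aeval_C, Polynomial.aeval_C, ← map_div₀] at h1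
  exact h1.symm

theorem curve_lgt {d : Fin 2 → ℕ} {F : Fin 2 → MvPolynomial (Fin 3) ℂ} (hom : ∀ m, (F m).IsHomogeneous (d m)) (pos : ∀ m, 1 ≤ d m)
    (halg : ∀ (x : Fin 3 → Polynomial ℂ) (k : Fin 2 → ℕ) (c : Fin 2 → ℂ), (∀ m, c m ≠ 0) →
      (∀ m, aeval x (F m) = Polynomial.C (c m) * Polynomial.X ^ k m) → ∃ (p : Polynomial ℂ) (v : Fin 3 → ℂ), ∀ i, x i = Polynomial.C (v i) * p)
    (Q : Ideal (MvPolynomial (Fin 3) ℂ)) [Q.IsPrime] (hQ : Homog Q) (hFQ : ∀ m, F m ∉ Q) (hz : ∃ z : Fin 1 → FunField Q, IsTranscendenceBasis ℂ z) :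
    IsLogGeneralType (OnBd Q (fun _ : Fin 1 => F 0 * F 1) (k := 1)) := by
  obtain ⟨z, hz'⟩ := hz
  have hK : CurveField (FunField Q) := Pool.Agent.H13.CV.curveField_funField Q ⟨z, hz'⟩
  obtain ⟨x, hx0, hxgen, -, hker, hxc, hxr⟩ := Pool.Agent.H17LG.exists_point_log Q (k := 0) z hz'
  obtain ⟨j, hj⟩ : ∃ j, x j ≠ 0 := by
    by_contra hcon
    push Not at hcon
    exact hx0 (funext hcon)
  have hq : ∀ a l, (x a / x j) / (x l / x j) = x a / x l := fun a l => div_div_div_cancel_right₀ hj _ _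
  have hF : ∀ m, aeval (fun i => x i / x j) (F m) ≠ 0 := by
    intro m
    have h1 := GKCur_scale (K := FunField Q) (hom m) x j
    intro h0
    have h2 : aeval x (F m) / x j ^ d m = 0 := h1.symm.trans h0
    rcases div_eq_zero_iff.1 h2 with h3 | h3
    · exact hFQ m ((hker _ _ (hom m)).1 h3)
    · exact pow_ne_zero _ hj h3
  have hgen : IntermediateField.adjoin ℂ {y : FunField Q | ∃ a l, y = (x a / x j) / (x l / x j)} = ⊤ := by
    have h1 : {y : FunField Q | ∃ a l, y = (x a / x j) / (x l / x j)} = {y : FunField Q | ∃ a l, y = x a / x l} := by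
      ext y
      simp only [Set.mem_ofPred_eq, hq]
    rw [h1]
    exact hxgen
  have hmain := GKCur_abs (K := FunField Q) hK hom pos halg (fun i => x i / x j) (j := j) (div_self hj) hgen hF
  have hB : GKCur_B F (fun i => x i / x j : Fin 3 → FunField Q) = OnBd Q (fun _ : Fin 1 => F 0 * F 1) (k := 1) := by
    funext E
    apply propext
    constructor
    · rintro ⟨l, hl, h1, h2⟩
      have hxl : x l ≠ 0 := by
        intro h0
        apply hl
        show x l / x j = 0
        rw [h0, zero_div]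
      refine ⟨l, fun h0 => hxl ((hxc l).2 h0), fun i => ?_, fun _ => ?_⟩
      · have h3 := h1 i
        rw [hq i l, hxr i l] at h3
        exact h3
      · have h3 : (fun i => (x i / x j) / (x l / x j)) = fun i => Pool.Agent.H17LG.Variety.ratio Q i l := by
          funext i
          rw [hq i l, hxr i l]
          rfl
        have h4 := h2
        rw [h3] at h4
        exact h4
    · rintro ⟨l, hl, h1, h2⟩
      have hxl : x l ≠ 0 := fun h0 => hl ((hxc l).1 h0)
      refine ⟨l, div_ne_zero hxl hj, fun i => ?_, ?_⟩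
      · have h3 := h1 i
        rw [hq i l, hxr i l]
        exact h3
      · have h3 : (fun i => (x i / x j) / (x l / x j)) = fun i => Pool.Agent.H17LG.Variety.ratio Q i l := by
          funext i
          rw [hq i l, hxr i l]
          rfl
        have h4 := h2 0
        show 0 < E.ord (aeval (fun i => (x i / x j) / (x l / x j)) (F 0 * F 1))
        rw [h3]
        exact h4
  exact Eq.mp (congrArg (fun B => IsLogGeneralType (K := FunField Q) (k := 1) B) hB) hmain

end Pool.Agent.TC
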