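import Mathlib

/-!
# TC GKDer: derivations of `ℂ` with prescribed values on an algebraically independent family
-/

set_option autoImplicit false

namespace Pool.Agent.TC

open TensorProduct

theorem exists_derivation {ι : Type} {a : ι → ℂ} (ha : AlgebraicIndependent ℚ a) (v : ι → ℂ) :
    ∃ D : Derivation ℚ ℂ ℂ, ∀ i, D (a i) = v i := by
  classical
  obtain ⟨s, hs, hB⟩ := exists_isTranscendenceBasis_superset (R := ℚ) (A := ℂ) (s := Set.range a)
    ((algebraicIndependent_subtype_range ha.injective).2 ha)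
  let φ : MvPolynomial s ℚ →ₐ[ℚ] ℂ := MvPolynomial.aeval ((↑) : s → ℂ)
  let : Algebra (MvPolynomial s ℚ) ℂ := φ.toRingHom.toAlgebra
  have hφ : ∀ p : MvPolynomial s ℚ, algebraMap (MvPolynomial s ℚ) ℂ p = φ p := fun p => rfl
  have : IsScalarTower ℚ (MvPolynomial s ℚ) ℂ := IsScalarTower.of_algebraMap_eq fun q => by
    rw [hφ, AlgHom.commutes]
  have hinj : Function.Injective (algebraMap (MvPolynomial s ℚ) ℂ) := hB.1
  have : FaithfulSMul (MvPolynomial s ℚ) ℂ := (faithfulSMul_iff_algebraMap_injective _ _).2 hinj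
  let : Algebra (FractionRing (MvPolynomial s ℚ)) ℂ := FractionRing.liftAlgebra (MvPolynomial s ℚ) ℂ
  have : IsScalarTower (MvPolynomial s ℚ) (FractionRing (MvPolynomial s ℚ)) ℂ :=
    FractionRing.isScalarTower_liftAlgebra (MvPolynomial s ℚ) ℂ
  have : Algebra.IsAlgebraic (MvPolynomial s ℚ) ℂ := by
    have h1 := hB.isAlgebraic
    refine ⟨fun z => ?_⟩
    have h2 := h1.isAlgebraic z
    refine h2.of_ringHom_of_comp_eq (hB.1.aevalEquiv : MvPolynomial s ℚ →+* _) (RingHom.id ℂ) ?_ ?_ ?_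
    · exact hB.1.aevalEquiv.surjective
    · exact Function.injective_id
    · ext p <;> simp [hφ, φ]
  have : Algebra.IsAlgebraic (FractionRing (MvPolynomial s ℚ)) ℂ :=
    (IsFractionRing.comap_isAlgebraic_iff (A := MvPolynomial s ℚ) (K := FractionRing (MvPolynomial s ℚ)) (C := ℂ)).1 inferInstance
  have : CharZero (FractionRing (MvPolynomial s ℚ)) :=
    charZero_of_injective_algebraMap (algebraMap ℚ (FractionRing (MvPolynomial s ℚ))).injective
  have : Algebra.FormallyEtale (FractionRing (MvPolynomial s ℚ)) ℂ := Algebra.FormallyEtale.of_isSeparable _ _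
  have : Algebra.FormallyEtale (MvPolynomial s ℚ) (FractionRing (MvPolynomial s ℚ)) :=
    Algebra.FormallyEtale.of_isLocalization (nonZeroDivisors (MvPolynomial s ℚ))
  have : Algebra.FormallyEtale (MvPolynomial s ℚ) ℂ := Algebra.FormallyEtale.comp _ (FractionRing (MvPolynomial s ℚ)) _
  -- the derivation of the polynomials with values in `ℂ`
  let w : s → ℂ := fun b => if h : ∃ i, a i = b then v h.choose else 0
  let δ : Derivation ℚ (MvPolynomial s ℚ) ℂ := MvPolynomial.mkDerivation ℚ w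
  let l : Ω[MvPolynomial s ℚ⁄ℚ] →ₗ[MvPolynomial s ℚ] ℂ := δ.liftKaehlerDifferential
  let e := KaehlerDifferential.tensorKaehlerEquivOfFormallyEtale ℚ (MvPolynomial s ℚ) ℂ
  let l' : Ω[ℂ⁄ℚ] →ₗ[ℂ] ℂ := (l.liftBaseChange ℂ).comp e.symm.toLinearMap
  refine ⟨l'.compDer (KaehlerDifferential.D ℚ ℂ), fun i => ?_⟩
  have hi : a i = algebraMap (MvPolynomial s ℚ) ℂ (MvPolynomial.X ⟨a i, hs ⟨i, rfl⟩⟩) := by
    rw [hφ]
    simp [φ]
  rw [hi]
  change l.liftBaseChange ℂ (e.symm (KaehlerDifferential.D ℚ ℂ (algebraMap (MvPolynomial s ℚ) ℂ (MvPolynomial.X ⟨a i, hs ⟨i, rfl⟩⟩)))) = _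
  rw [KaehlerDifferential.tensorKaehlerEquivOfFormallyEtale_symm_D_algebraMap, LinearMap.liftBaseChange_tmul, one_smul]
  change δ.liftKaehlerDifferential (KaehlerDifferential.D ℚ (MvPolynomial s ℚ) (MvPolynomial.X ⟨a i, hs ⟨i, rfl⟩⟩)) = _
  rw [Derivation.liftKaehlerDifferential_comp_D, MvPolynomial.mkDerivation_X]
  have h1 : ∃ j, a j = a i := ⟨i, rfl⟩
  show w ⟨a i, _⟩ = v i
  simp only [w]
  rw [dif_pos h1]
  exact congrArg v (ha.injective h1.choose_spec)

end Pool.Agent.TC
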