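import Pool.Agent.TC.GKEnd
import Pool.Agent.TC.GKCur
import Pool.Agent.TC.FinC

/-!
# TC GKFin: the complement of two very general plane curves of total degree at least five

The exceptional set is empty.
-/

set_option autoImplicit false

open MvPolynomial
open Pool.Agent.H17 (PN VanishesAt ZariskiClosedIn HolomorphicInto vanishesAt_mk_iff)
open Pool.Agent.H17R (openVar GGLWith)
open Pool.Agent.H17LG.Variety (FunField IsLogGeneralType)
open Pool.Agent.H62.FC (Homog)
open Pool.Agent.H62.SA (locVar OnBd IsProperMap)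
open Pool.Agent.Results.MP_64ff02_ag.SmoothSurfaces (FourProperties IsProperClosed StronglyModulo DegenerateOrderTwo degenerate_of_mem)

namespace Pool.Agent.TC

variable {d : Fin 2 → ℕ} {G : Fin 2 → MvPolynomial (Fin 3) ℂ}

theorem homog_bot {N : ℕ} : Homog (⊥ : Ideal (MvPolynomial (Fin (N + 1)) ℂ)) := by
  intro p hp n
  rw [Ideal.mem_bot] at hp ⊢
  rw [hp, map_zero]

/-- a very general pair has normal crossings -/
theorem Generic.normalCrossings (hF : Generic d G) (hom : ∀ m, (G m).IsHomogeneous (d m)) (x : Fin 3 → ℂ) (hx : x ≠ 0) :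
    LinearIndependent ℂ fun i : {i : Fin 0 ⊕ Fin 2 // eval x (Sum.elim ![] G i) = 0} =>
      fun k => eval x (pderiv k (Sum.elim ![] G i.1)) := by
  classical
  rw [Fintype.linearIndependent_iff]
  intro g hg
  obtain ⟨a, ha⟩ : ∃ a : Fin 2 → ℂ, ∀ m, a m = if h : eval x (G m) = 0 then g ⟨Sum.inr m, h⟩ else 0 := ⟨_, fun m => rfl⟩
  have h1 : a = 0 := by
    refine hF.nc hom hx (fun m => ?_) fun j => ?_
    · by_cases h : eval x (G m) = 0
      · exact Or.inr h
      · left
        rw [ha, dif_neg h]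
    · have h2 := congrFun hg j
      rw [Finset.sum_apply, Pi.zero_apply] at h2
      rw [← h2]
      have h3 : ∀ i : {i : Fin 0 ⊕ Fin 2 // eval x (Sum.elim ![] G i) = 0},
          (g i • fun k => eval x (pderiv k (Sum.elim ![] G i.1))) j =
            (fun i : Fin 0 ⊕ Fin 2 => (Sum.elim (fun _ => (0 : ℂ)) a i) * eval x (pderiv j (Sum.elim ![] G i))) i.1 := by
        rintro ⟨l | m, hi⟩
        · exact l.elim0
        · have hi' : eval x (G m) = 0 := hi
          simp only [Pi.smul_apply, smul_eq_mul, Sum.elim_inr]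
          rw [ha, dif_pos hi']
      rw [Finset.sum_congr rfl fun i _ => h3 i]
      rw [← Finset.sum_subtype (Finset.univ.filter fun i : Fin 0 ⊕ Fin 2 => eval x (Sum.elim ![] G i) = 0) (by simp)
        (fun i : Fin 0 ⊕ Fin 2 => (Sum.elim (fun _ => (0 : ℂ)) a i) * eval x (pderiv j (Sum.elim ![] G i)))]
      rw [Finset.sum_filter, Fintype.sum_sum_type]
      simp only [Finset.univ_eq_empty, Finset.sum_empty, zero_add, Sum.elim_inr]
      refine Finset.sum_congr rfl fun m _ => ?_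
      split_ifs with h
      · rfl
      · rw [ha, dif_neg h, zero_mul]
  rintro ⟨l | m, hi⟩
  · exact l.elim0
  · have hi' : eval x (G m) = 0 := hi
    have h2 := congrFun h1 m
    rw [ha, dif_pos hi'] at h2
    exact h2

theorem zariskiClosedIn_empty {N : ℕ} (U : Set (PN N)) : ZariskiClosedIn U (∅ : Set (PN N)) := by
  refine ⟨{1}, ?_, ?_⟩
  · rintro P' hP'
    rw [Set.mem_singleton_iff.1 hP']
    exact ⟨0, isHomogeneous_one _ _⟩
  · ext x
    simp only [Set.mem_empty_iff_false, false_iff, Set.mem_ofPred_eq, not_and]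
    intro _ h
    have h1 := h 1 rfl
    unfold VanishesAt at h1
    rw [map_one] at h1
    exact one_ne_zero h1

/-- **The complement of two very general plane curves of total degree at least five.** -/
theorem main_generic (hd : ∀ m, 1 ≤ d m) (h5 : 5 ≤ d 0 + d 1) (hG : ∀ m, (G m).IsHomogeneous (d m)) (hgen : Generic d G) :
    GGLWith ⊥ G ∅ := by
  have hP : Homog (⊥ : Ideal (MvPolynomial (Fin 3) ℂ)) := homog_bot
  have hpair := pair_of_nc (n := 0) (a := ![]) (F := ![]) (fun j => j.elim0) hd (by simpa using (by omega : 4 ≤ d 0 + d 1))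
    (fun j => j.elim0) hG (fun x hx _ => hgen.normalCrossings hG x hx)
  have hQP : ∀ j : Fin 2, 2 ≤ (j : ℕ) → (Fin.cons (G 0) (Fin.cons (G 1) ![]) : Fin 2 → MvPolynomial (Fin 3) ℂ) j ∈
      (⊥ : Ideal (MvPolynomial (Fin 3) ℂ)) := fun j hj => absurd j.2 (by omega)
  obtain ⟨Ξ, hΞ⟩ := hpair.exists_four ⊥ hP hQP plane_dim
  obtain ⟨h0, h1⟩ := hpair.pre.notMem ⊥ hP hQP plane_dim
  have hgt := hpair.pre.logGeneralType ⊥ hQP h0 h1 plane_dim
  have hmain := (Pool.Agent.Results.MP_64ff02_ag.SmoothSurfaces.result (⊥ : Ideal (MvPolynomial (Fin 3) ℂ)) (fun _ : Fin 1 => G 0 * G 1) _ _ hP plane_dim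
    (fun x hx hxP => hpair.pre.tangent ⊥ hQP x hx hxP) (hpair.proper ⊥) hgt).1
  have h51 : (IsProperClosed (locVar (⊥ : Ideal (MvPolynomial (Fin 3) ℂ)) (fun _ : Fin 1 => G 0 * G 1)) ∅ ∧
      StronglyModulo (⊥ : Ideal (MvPolynomial (Fin 3) ℂ)) (fun _ : Fin 1 => G 0 * G 1) ∅ ∧
      DegenerateOrderTwo (⊥ : Ideal (MvPolynomial (Fin 3) ℂ)) (fun _ : Fin 1 => G 0 * G 1)) ↔
      FourProperties (⊥ : Ideal (MvPolynomial (Fin 3) ℂ)) (fun _ : Fin 1 => G 0 * G 1) ∅ := (hmain ∅).1.out 4 0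
  refine ggl_of_four (h51.1 ⟨⟨zariskiClosedIn_empty _, ?_⟩, ?_, fun f hf _ hfX hfn =>
    degenerate_of_mem hΞ.properClosed (hΞ.brody f hf hfX hfn)⟩)
  · -- `U` is not empty
    intro h2
    obtain ⟨Q', D, hQ', ⟨x, hx, -⟩, -⟩ := (hmain Ξ).2 hΞ
    have h3 : x ∈ (∅ : Set (PN 2)) := h2 ▸ hx
    exact h3
  · -- closed subvarieties
    intro Q _ hQ hPQ hsub w hw hz'
    obtain ⟨x, hx, -⟩ := Set.not_subset.1 hsub
    have hX : ∃ i, (X i : MvPolynomial (Fin 3) ℂ) ∉ Q := by
      by_contra hcon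
      push Not at hcon
      apply x.rep_nonzero
      funext i
      have h1 : VanishesAt (X i : MvPolynomial (Fin 3) ℂ) x := hx.1 _ (hcon i) 1 (isHomogeneous_X ℂ i)
      have h2 : eval x.rep (X i : MvPolynomial (Fin 3) ℂ) = 0 := h1
      rw [eval_X] at h2
      exact h2
    by_cases hle : Q ≤ ⊥
    · have hEq : (⊥ : Ideal (MvPolynomial (Fin 3) ℂ)) = Q := le_antisymm hPQ hle
      subst hEq
      have h1 : w ≤ 2 := Pool.Agent.H62.FC.trdeg_mono hP hP le_rfl plane_dim hz'
      have h2 : 2 ≤ w := Pool.Agent.H62.FC.trdeg_mono hP hP le_rfl hz' plane_dim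
      obtain rfl : w = 2 := le_antisymm h1 h2
      exact hgt
    · have hlt : w < 2 := Pool.Agent.H17BP.trdeg_lt hP hQ hPQ hle hX plane_dim hz'
      obtain rfl : w = 1 := by omega
      refine curve_lgt hG hd (gk_alg hgen hG hd h5) Q hQ (fun m hm => ?_) hz'
      obtain ⟨l, hl⟩ := hx.2
      apply hl
      have h4 : VanishesAt (G m) x := hx.1 _ hm (d m) (hG m)
      unfold VanishesAt at h4 ⊢
      rw [map_mul]
      fin_cases m
      · exact mul_eq_zero.2 (Or.inl h4)
      · exact mul_eq_zero.2 (Or.inr h4)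

end Pool.Agent.TC
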