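import Pool.Agent.TC.Cmp

/-!
# TC GQ: the mean normal vector of two points

`K = ∑ (e j - 1)`.  `gq x y = cross (dq (Q j) x y)_j` with difference quotients `Q_j(y) - Q_j(x) = ∑_i (y_i - x_i) (dq (Q j) x y)_i`, homogeneous of degree
`e j - 1`, `dq (Q j) x x = grad (Q j) x`: `gq` is continuous, homogeneous of degree `K` and `gq x x = nv Q x`.  Compactness of
`{‖x‖ = 1, ‖y - x‖ ≤ 1}` and uniform continuity.  If `Q_j (f z) = Q_j (g z)` for all `j` then `g z - f z` is orthogonal to all rows, so it is a multiple of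
`gq (f z) (g z)` (if this is not `0`), with the factor `(g z - f z) i / gq (f z) (g z) i` for an `i` with `gq (f z₀) (g z₀) i ≠ 0`.
-/

set_option autoImplicit false

open Topology Filter Metric

namespace Pool.Agent.TC

open Pool.Agent.H36.BP (EN fs wd Sub)

variable {n : ℕ} {Q : Fin (n + 2) → MvPolynomial (Fin (n + 3)) ℂ} {e : Fin (n + 2) → ℕ}

theorem exists_gq (h : Pair Q e) : ∃ gq : EN (n + 2) → EN (n + 2) → EN (n + 2),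
    Continuous (fun p : EN (n + 2) × EN (n + 2) => gq p.1 p.2) ∧
    (∃ C : ℝ, ∀ x y, ‖y - x‖ ≤ ‖x‖ → ‖gq x y‖ ≤ C * ‖x‖ ^ (∑ j, (e j - 1))) ∧
    (∀ η : ℝ, 0 < η → ∃ ε : ℝ, 0 < ε ∧ ∀ x y, ‖y - x‖ ≤ ε * ‖x‖ → ‖gq x y - nv Q x‖ ≤ η * ‖x‖ ^ (∑ j, (e j - 1))) ∧
    ∀ (f g : ℂ → EN (n + 2)) (z₀ : ℂ), AnalyticAt ℂ f z₀ → AnalyticAt ℂ g z₀ →
      (∀ᶠ z in 𝓝 z₀, ∀ j, ev (Q j) (f z) = ev (Q j) (g z)) → gq (f z₀) (g z₀) ≠ 0 →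
      ∃ l : ℂ → ℂ, AnalyticAt ℂ l z₀ ∧ ∀ᶠ z in 𝓝 z₀, g z - f z = l z • gq (f z) (g z) := by
  obtain ⟨C, -, hC⟩ := gq_le h
  refine ⟨gq Q, continuous_gq Q, ⟨C, hC⟩, fun η hη => ?_, fun f g z₀ hf hg hfg h0 => exists_l h hf hg hfg h0⟩
  obtain ⟨ε, h1, -, h2⟩ := gq_close h hη
  exact ⟨ε, h1, h2⟩

end Pool.Agent.TC
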