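import Pool.Agent.TC.LgtB

/-!
# TC GoodFib: entire curves in the non-critical fibres are constant

We work in `ℙ^(n+3)`, with one more coordinate `W` (the last one, `Fin.last`, or the first one): forms `A j = Q j (x) - κ j W ^ e j`, `κ 0 = a`, `κ 1 = b`, `κ j = 0` for `j ≥ 2` (`Q j (x)` = `rename` of `Q j` along `Fin.castSucc` resp. `Fin.succ`), `n + 2` forms, and `H = ![W]`.
`SmoothPair A H`: let `(x, W) ≠ 0` be a common zero of the `A j`, and `α`, `β` as in `SmoothPair`.  The `x`-components of the relation say `∑ α j • grad (Q j) x = 0`, the `W`-component `- ∑ α j κ j e j W ^ (e j - 1) + β = 0`.  If `W = 0`: `x ≠ 0`, all `Q j x = 0`, so `α = 0` by `trans`, and then `β = 0`.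
If `W ≠ 0`: `β = 0` by the hypothesis of `SmoothPair`; `y = x / W` has `OnV Q y`, `F₁ y = a`, `F₂ y = b`, so `nv Q y ≠ 0`, so (`cross_ne_zero_iff`) the gradients `grad (Q j) y` are linearly independent, and so are the `grad (Q j) x = W ^ (e j - 1) • grad (Q j) y` (`grad_smul`): `α = 0`.
The entire curve `f z = [G z : 1]` in `ℙ^(n+3)` (`HolomorphicInto` on `univ`), `I = mapIdeal f univ` prime, homogeneous (see `mem_of_degenerate` in `Results/MP_64ff02_ag/SmoothSurfaces.lean`), `A j ∈ I`, `W ∉ I`.  If `f` is not constant: transcendence basis of `FunField I` with `k + 1 ≥ 1` elements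
(`exists_fin_basis`, `eq_of_trdeg_zero`, see `Pre.fib_bdry`), `lgt_gen` with `(N, n, c, b) = (n + 3, 0, n + 2, 1)`, `n + 3 = 0 + 1 + (n + 2)`: `k = 0`, and the degrees `0 + (n + 2) + 3 ≤ ∑ e j + 1`: `I` is of log general type with boundary `OnBoundary I ![W]` = `OnBd I (fun _ : Fin 1 => W)`;
`const_of_logGeneralType`: `f` is constant, `[G z : 1] = [G w : 1]`, so `G z = G w`.
-/

set_option autoImplicit false

open MvPolynomial Topology Filter
open Pool.Agent.H17LG.Variety (FunField IsLogGeneralType OnBoundary)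
open Pool.Agent.H62.SA (OnBd locVar)
open Pool.Agent.H62.FC (Homog)

namespace Pool.Agent.TC

open Pool.Agent.H36.BP (EN)

variable {n : ℕ} {Q : Fin (n + 2) → MvPolynomial (Fin (n + 3)) ℂ} {e : Fin (n + 2) → ℕ}

private noncomputable def gfA (Q : MvPolynomial (Fin (n + 3)) ℂ) (κ : ℂ) (d : ℕ) : MvPolynomial (Fin (n + 3 + 1)) ℂ :=
  rename Fin.castSucc Q - C κ * X (Fin.last (n + 3)) ^ d

private theorem gf_hom {Q : MvPolynomial (Fin (n + 3)) ℂ} {κ : ℂ} {d : ℕ} (hQ : Q.IsHomogeneous d) :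
    (gfA Q κ d).IsHomogeneous d := by
  unfold gfA
  refine IsHomogeneous.sub (hQ.rename_isHomogeneous) ?_
  have h := (isHomogeneous_C (Fin (n + 3 + 1)) κ).mul ((isHomogeneous_X ℂ (Fin.last (n + 3))).pow d)
  simpa using h

private theorem gf_eval (Q : MvPolynomial (Fin (n + 3)) ℂ) (κ : ℂ) (d : ℕ) (x : Fin (n + 3 + 1) → ℂ) :
    eval x (gfA Q κ d) = eval (fun i => x (Fin.castSucc i)) Q - κ * x (Fin.last (n + 3)) ^ d := by
  unfold gfA
  rw [map_sub, map_mul, map_pow, eval_C, eval_X, eval_rename]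
  rfl

private theorem gf_pd (Q : MvPolynomial (Fin (n + 3)) ℂ) (κ : ℂ) (d : ℕ) (x : Fin (n + 3 + 1) → ℂ) (i : Fin (n + 3)) :
    eval x (pderiv (Fin.castSucc i) (gfA Q κ d)) = eval (fun i => x (Fin.castSucc i)) (pderiv i Q) := by
  unfold gfA
  have h1 : pderiv (Fin.castSucc i) (C κ * X (Fin.last (n + 3)) ^ d : MvPolynomial (Fin (n + 3 + 1)) ℂ) = 0 := by
    rw [pderiv_C_mul, pderiv_pow, pderiv_X_of_ne (Fin.castSucc_lt_last i).ne', mul_zero, mul_zero]
  rw [map_sub, h1, sub_zero, pderiv_rename (Fin.castSucc_injective _), eval_rename]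
  rfl

private theorem gf_pdl (Q : MvPolynomial (Fin (n + 3)) ℂ) (κ : ℂ) (d : ℕ) (x : Fin (n + 3 + 1) → ℂ) :
    eval x (pderiv (Fin.last (n + 3)) (gfA Q κ d)) = - (κ * (d * x (Fin.last (n + 3)) ^ (d - 1))) := by
  unfold gfA
  have h0 : pderiv (Fin.last (n + 3)) (rename Fin.castSucc Q) = 0 := by
    classical
    apply pderiv_eq_zero_of_notMem_vars
    intro h
    have h2 := vars_rename (Fin.castSucc : Fin (n + 3) → Fin (n + 3 + 1)) Q h
    rw [Finset.mem_image] at h2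
    obtain ⟨a, -, ha⟩ := h2
    exact (Fin.castSucc_lt_last a).ne ha
  rw [map_sub, h0, zero_sub, map_neg, pderiv_C_mul, pderiv_pow, pderiv_X_self]
  simp

private theorem gf_smooth (h : Pre Q e) {a b : ℂ} (hcr : ∀ x : EN (n + 2), OnV Q x → ev (Q 0) x = a → ev (Q 1) x = b → nv Q x ≠ 0)
    (κ : Fin (n + 2) → ℂ) (h0 : κ 0 = a) (h1 : κ 1 = b) (h2 : ∀ j : Fin (n + 2), 2 ≤ (j : ℕ) → κ j = 0) :
    Pool.Agent.H79.Log.SmoothPair (fun j => gfA (Q j) (κ j) (e j))
      (fun _ : Fin 1 => (X (Fin.last (n + 3)) : MvPolynomial (Fin (n + 3 + 1)) ℂ)) := by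
  intro x hx hA α β hβ hsum
  have hA' : ∀ l, eval (fun i => x (Fin.castSucc i)) (Q l) = κ l * x (Fin.last (n + 3)) ^ e l := by
    intro l
    have h3 : eval x (gfA (Q l) (κ l) (e l)) = 0 := hA l
    rw [gf_eval] at h3
    exact sub_eq_zero.1 h3
  obtain ⟨y, hy⟩ : ∃ y : EN (n + 2), y = WithLp.toLp 2 (fun i => x (Fin.castSucc i)) := ⟨_, rfl⟩
  obtain ⟨w, hw⟩ : ∃ w, w = x (Fin.last (n + 3)) := ⟨_, rfl⟩
  have hyi : ∀ i, y i = x (Fin.castSucc i) := fun i => by rw [hy]
  have hyf : (fun i => y i) = fun i => x (Fin.castSucc i) := funext hyi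
  have hev : ∀ l, ev (Q l) y = κ l * w ^ e l := by
    intro l
    rw [ev, hyf, hA', hw]
  have hgr : ∑ l, α l • grad (Q l) y = 0 := by
    funext i
    have h3 := hsum (Fin.castSucc i)
    rw [Finset.sum_apply]
    have h4 : ∑ l : Fin 1, β l * eval x (pderiv (Fin.castSucc i)
        (X (Fin.last (n + 3)) : MvPolynomial (Fin (n + 3 + 1)) ℂ)) = 0 := by
      rw [pderiv_X_of_ne (Fin.castSucc_lt_last i).ne']
      simp
    rw [h4, add_zero] at h3
    rw [Pi.zero_apply, ← h3]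
    refine Finset.sum_congr rfl fun l _ => ?_
    rw [gf_pd, Pi.smul_apply, smul_eq_mul, grad, ev, hyf]
  have hlast : ∑ l, α l * (- (κ l * (e l * w ^ (e l - 1)))) + β 0 = 0 := by
    have h3 := hsum (Fin.last (n + 3))
    simp only [gf_pdl, ← hw] at h3
    rw [Fin.sum_univ_one, pderiv_X_self, map_one, mul_one] at h3
    exact h3
  suffices hα : α = 0 by
    refine ⟨hα, ?_⟩
    funext l
    rw [Subsingleton.elim l 0, Pi.zero_apply]
    rw [hα] at hlast
    simpa using hlast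
  by_cases hw0 : w = 0
  · have hy0 : y ≠ 0 := by
      intro h3
      apply hx
      funext i
      refine Fin.lastCases ?_ (fun i => ?_) i
      · rw [← hw, hw0, Pi.zero_apply]
      · rw [← hyi, h3]
        rfl
    have hz : ∀ l, ev (Q l) y = 0 := by
      intro l
      rw [hev, hw0, zero_pow (by have := h.pos l; omega), mul_zero]
    exact h.trans y hy0 (fun j _ => hz j) (Or.inl (hz 0)) α hgr
  · have hyV : OnV Q (w⁻¹ • y) := by
      intro j hj
      rw [ev_smul (h.hom j), hev, h2 j hj]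
      simp
    have hy0 : ev (Q 0) (w⁻¹ • y) = a := by
      rw [ev_smul (h.hom 0), hev, h0, inv_pow]
      field_simp
    have hy1 : ev (Q 1) (w⁻¹ • y) = b := by
      rw [ev_smul (h.hom 1), hev, h1, inv_pow]
      field_simp
    have hnv := hcr _ hyV hy0 hy1
    have hli : LinearIndependent ℂ (fun j => grad (Q j) (w⁻¹ • y)) := by
      rw [← cross_ne_zero_iff]
      intro h3
      apply hnv
      rw [nv, h3]
      rfl
    rw [Fintype.linearIndependent_iff] at hli
    have h3 := hli (fun j => α j * w ^ (e j - 1)) (by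
      rw [← hgr]
      refine Finset.sum_congr rfl fun l _ => ?_
      rw [grad_smul (h.pos l) (h.hom l), smul_smul, mul_assoc, ← mul_pow, mul_inv_cancel₀ hw0, one_pow, mul_one])
    funext l
    have h4 := h3 l
    rw [Pi.zero_apply]
    exact (mul_eq_zero.1 h4).resolve_right (pow_ne_zero _ hw0)

theorem Pre.fib_good_all (h : Pre Q e) {a b : ℂ} (hcr : ∀ x : EN (n + 2), OnV Q x → ev (Q 0) x = a → ev (Q 1) x = b → nv Q x ≠ 0)
    {G : ℂ → EN (n + 2)} (hG : Differentiable ℂ G) (ha : ∀ z, ev (Q 0) (G z) = a) (hb : ∀ z, ev (Q 1) (G z) = b)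
    (hV : ∀ z, OnV Q (G z)) (z w : ℂ) : G z = G w := by
  by_contra hne
  classical
  obtain ⟨κ, hκ⟩ : ∃ κ : Fin (n + 2) → ℂ, κ = fun j => if j = 0 then a else if j = 1 then b else 0 := ⟨_, rfl⟩
  have h0 : κ 0 = a := by rw [hκ]; simp
  have h1 : κ 1 = b := by rw [hκ]; simp
  have h2 : ∀ j : Fin (n + 2), 2 ≤ (j : ℕ) → κ j = 0 := by
    intro j hj
    have e0 : j ≠ 0 := by
      rintro rfl
      simp at hj
    have e1 : j ≠ 1 := by
      rintro rfl
      simp at hj
    rw [hκ]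
    simp [e0, e1]
  have hsm := gf_smooth h hcr κ h0 h1 h2
  -- the curve
  obtain ⟨φ, hφ⟩ : ∃ φ : ℂ → Fin (n + 3 + 1) → ℂ, φ = fun z => Fin.snoc (α := fun _ => ℂ) (fun i => G z i) 1 := ⟨_, rfl⟩
  have hφc : ∀ z i, φ z (Fin.castSucc i) = G z i := fun z i => by rw [hφ]; simp
  have hφl : ∀ z, φ z (Fin.last (n + 3)) = 1 := fun z => by rw [hφ]; simp
  have hφ0 : ∀ z, φ z ≠ 0 := by
    intro z h3
    have h4 := hφl z
    rw [h3] at h4
    exact zero_ne_one h4
  have hφd : Differentiable ℂ φ := by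
    rw [differentiable_pi]
    intro i
    refine Fin.lastCases ?_ (fun i => ?_) i
    · have : (fun z => φ z (Fin.last (n + 3))) = fun _ => 1 := funext hφl
      rw [this]
      exact differentiable_const _
    · have : (fun z => φ z (Fin.castSucc i)) = fun z => G z i := funext fun z => hφc z i
      rw [this]
      exact (EuclideanSpace.proj (𝕜 := ℂ) i).differentiable.comp hG
  obtain ⟨f, hf⟩ : ∃ f : ℂ → Pool.Agent.H17.PN (n + 3), f = fun z => Projectivization.mk ℂ (φ z) (hφ0 z) := ⟨_, rfl⟩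
  have hfz : ∀ z, f z = Projectivization.mk ℂ (φ z) (hφ0 z) := fun z => by rw [hf]
  have hfh : Pool.Agent.H17.HolomorphicInto f Set.univ := fun z₀ _ =>
    ⟨φ, hφd.analyticAt z₀, Eventually.of_forall fun z => ⟨hφ0 z, hfz z⟩⟩
  have hvan : ∀ {d : ℕ} {R : MvPolynomial (Fin (n + 3 + 1)) ℂ}, R.IsHomogeneous d → ∀ z,
      (Pool.Agent.H17.VanishesAt R (f z) ↔ eval (φ z) R = 0) := by
    intro d R hR z
    rw [hfz, Pool.Agent.H17BP.vanishesAt_mk hR]
  obtain ⟨I, hI⟩ : ∃ I, I = Pool.Agent.H17BP.mapIdeal f Set.univ := ⟨_, rfl⟩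
  have hIp : I.IsPrime := by
    rw [hI]
    exact Pool.Agent.H17BP.mapIdeal_isPrime isOpen_univ isPreconnected_univ Set.univ_nonempty hfh
  have hIh : Homog I := by
    rw [hI]
    exact Pool.Agent.H17BP.mapIdeal_homog
  have hAI : ∀ j, gfA (Q j) (κ j) (e j) ∈ I := by
    intro j
    rw [hI, Pool.Agent.H17BP.mem_mapIdeal_form (gf_hom (h.hom j))]
    intro z _
    rw [hvan (gf_hom (h.hom j)), gf_eval, hφl, one_pow, mul_one]
    have h3 : (fun i => φ z (Fin.castSucc i)) = fun i => G z i := funext (hφc z)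
    rw [h3]
    show ev (Q j) (G z) - κ j = 0
    by_cases e0 : j = 0
    · rw [e0, ha, h0, sub_self]
    · by_cases e1 : j = 1
      · rw [e1, hb, h1, sub_self]
      · have hj : 2 ≤ (j : ℕ) := by
          have h4 : (j : ℕ) ≠ 0 := fun h5 => e0 (Fin.ext h5)
          have h5 : (j : ℕ) ≠ 1 := fun h6 => e1 (Fin.ext (by rw [h6]; rfl))
          omega
        rw [h2 j hj, sub_zero]
        exact hV z j hj
  have hWv : ∀ z, ¬ Pool.Agent.H17.VanishesAt (X (Fin.last (n + 3)) : MvPolynomial (Fin (n + 3 + 1)) ℂ) (f z) := by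
    intro z
    rw [hvan (isHomogeneous_X ℂ _), eval_X, hφl]
    exact one_ne_zero
  have hWI : (X (Fin.last (n + 3)) : MvPolynomial (Fin (n + 3 + 1)) ℂ) ∉ I := by
    intro h3
    rw [hI, Pool.Agent.H17BP.mem_mapIdeal_form (isHomogeneous_X ℂ _)] at h3
    exact hWv 0 (h3 0 (Set.mem_univ _))
  have hvar : ∀ z, (∀ R ∈ I, ∀ m, R.IsHomogeneous m → Pool.Agent.H17.VanishesAt R (f z)) := by
    intro z R hR m hm
    rw [hI] at hR
    exact (Pool.Agent.H17BP.mem_mapIdeal_form hm).1 hR z (Set.mem_univ z)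
  have hfne : f z ≠ f w := by
    intro h3
    rw [hfz, hfz, Projectivization.mk_eq_mk_iff'] at h3
    obtain ⟨c, hc⟩ := h3
    have h4 := congrFun hc (Fin.last (n + 3))
    rw [Pi.smul_apply, hφl, hφl, smul_eq_mul, mul_one] at h4
    apply hne
    ext i
    have h5 := congrFun hc (Fin.castSucc i)
    rw [Pi.smul_apply, hφc, hφc, h4, one_smul] at h5
    exact h5.symm
  obtain ⟨k, hk⟩ := Pool.Agent.H62.FC.exists_fin_basis (P := I) ⟨_, hWI⟩
  have hk0 : k ≠ 0 := by
    rintro rfl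
    exact hfne (Pool.Agent.H17BP.eq_of_trdeg_zero hIh ⟨_, hWI⟩ hk _ ⟨hvar z, fun m => m.elim0⟩ _
      ⟨hvar w, fun m => m.elim0⟩)
  obtain ⟨k, rfl⟩ := Nat.exists_eq_succ_of_ne_zero hk0
  obtain ⟨hk1, hk2⟩ := lgt_gen (N := n + 3) (n := 0) (c := n + 2) (b := 1) (by omega) (d := e) (δ := fun _ => 1) h.pos
    (G := fun j => gfA (Q j) (κ j) (e j)) (H := fun _ => X (Fin.last (n + 3))) (fun l => gf_hom (h.hom l))
    (fun _ => isHomogeneous_X ℂ _) hsm I hAI (fun _ => hWI) (k := k) hk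
  obtain rfl : k = 0 := by omega
  have hdeg : 0 + (n + 2) + 3 ≤ ∑ l, e l + ∑ m : Fin 1, (fun _ => 1) m := by
    have := h.deg
    simp
    omega
  have hlg := hk2 le_rfl hdeg
  have hB : (OnBoundary I (fun _ : Fin 1 => (X (Fin.last (n + 3)) : MvPolynomial (Fin (n + 3 + 1)) ℂ)) (k := 0 + 1)) =
      OnBd I (fun _ : Fin 1 => (X (Fin.last (n + 3)) : MvPolynomial (Fin (n + 3 + 1)) ℂ)) := by
    funext E
    apply propext
    constructor
    · rintro ⟨j, hj, h3, m, hm⟩
      exact ⟨j, hj, h3, fun _ => hm⟩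
    · rintro ⟨j, hj, h3, hm⟩
      exact ⟨j, hj, h3, 0, hm 0⟩
  rw [hB] at hlg
  exact hfne (Pool.Agent.H62.LGC.const_of_logGeneralType hIh hk (fun _ => ⟨1, isHomogeneous_X ℂ _⟩) hlg hfh
    (fun z => ⟨hvar z, 0, hWv z⟩) z w)

end Pool.Agent.TC
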