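import Pool.Agent.H62.EF.PrLip
import Pool.Agent.H73.CR.KA

/-!
# TC GrA: Harnack's inequality for a slow curve

`g z = ⟨F z₀, F z⟩ / ‖F z₀‖` is holomorphic on `ball z₀ ρ`, `‖g z‖ ≤ ‖F z‖`, `g z₀ = ‖F z₀‖`.  By `pr_lipschitz` `dist (pr (F z)) (pr (F z₀)) ≤ 2 (1 / (4 ρ)) ρ = 1 / 2`, so by `norm_inner_sq`
`‖g z‖² = ‖F z‖² (1 - dist² / 2) ≥ ‖F z‖² / 2`, in particular `g z ≠ 0` and `‖g z‖ ≥ exp (-C₀) / √2 =: m`.  `Pool.Agent.H73.CR` `harnack` for the function `w ↦ 1 / g (z₀ + ρ w)` on the unit ball,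
with `M = 1 / m`: for `‖z - z₀‖ ≤ ρ / 2` (so `(1 - ‖w‖) / (1 + ‖w‖) ≥ 1 / 3`, and `log (‖g z₀‖ / m) ≥ 0`) `log (‖g z‖ / m) ≥ log (‖g z₀‖ / m) / 3`.  So
`log ‖F z‖ ≥ log ‖g z‖ ≥ (2 / 3) log m + (1 / 3) log ‖F z₀‖` and `log m = - C₀ - (log 2) / 2`.
-/

set_option autoImplicit false

open Topology Filter Metric

namespace Pool.Agent.TC

open Pool.Agent.H36.BP (EN fs wd)

variable {N : ℕ}

theorem harnack_curve {F : ℂ → EN N} {z₀ : ℂ} {ρ : ℝ} (hρ : 0 < ρ) (hF : DifferentiableOn ℂ F (ball z₀ ρ)) (h0 : ∀ z ∈ ball z₀ ρ, F z ≠ 0)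
    (hfs : ∀ z ∈ ball z₀ ρ, fs (F z) (deriv F z) * ρ ≤ 1 / 4) {C₀ : ℝ} (hlow : ∀ z ∈ ball z₀ ρ, -C₀ ≤ Real.log ‖F z‖) {z : ℂ}
    (hz : z ∈ closedBall z₀ (ρ / 2)) : (Real.log ‖F z₀‖ + C₀) / 3 - 1 ≤ Real.log ‖F z‖ + C₀ := by
  have hz0 : z₀ ∈ ball z₀ ρ := mem_ball_self hρ
  have hn0 : 0 < ‖F z₀‖ := norm_pos_iff.mpr (h0 z₀ hz0)
  obtain ⟨g, hg⟩ : ∃ g : ℂ → ℂ, ∀ z, g z = ((‖F z₀‖ : ℂ))⁻¹ * inner ℂ (F z₀) (F z) := ⟨_, fun _ => rfl⟩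
  have hgn : ∀ z, ‖g z‖ = ‖F z₀‖⁻¹ * ‖(inner ℂ (F z₀) (F z) : ℂ)‖ := by
    intro z
    rw [hg, norm_mul, norm_inv, Complex.norm_real, Real.norm_of_nonneg hn0.le]
  have hgd : DifferentiableOn ℂ g (ball z₀ ρ) := by
    have h1 : g = fun z => ((‖F z₀‖ : ℂ))⁻¹ * (innerSL ℂ (F z₀)) (F z) := by
      funext z
      rw [hg]
      rfl
    rw [h1]
    exact ((innerSL ℂ (F z₀)).differentiable.comp_differentiableOn hF).const_mul _
  have hup : ∀ z, ‖g z‖ ≤ ‖F z‖ := by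
    intro z
    rw [hgn, inv_mul_le_iff₀ hn0]
    exact norm_inner_le_norm _ _
  have hlow2 : ∀ z ∈ ball z₀ ρ, ‖F z‖ ^ 2 / 2 ≤ ‖g z‖ ^ 2 := by
    intro z hz
    have h1 := Pool.Agent.H62.EF.pr_lipschitz isOpen_ball (convex_ball z₀ ρ) hF h0 (L := 1 / (4 * ρ)) (fun z hz => by
      rw [le_div_iff₀ (by positivity)]
      have := hfs z hz
      linarith) z₀ hz0 z hz
    have h2 := Pool.Agent.H62.EF.norm_inner_sq (h0 z₀ hz0) (h0 z hz)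
    have h3 : ‖z₀ - z‖ ≤ ρ := by
      rw [← dist_eq_norm, dist_comm]
      exact (mem_ball.mp hz).le
    have h4 : dist (Pool.Agent.H62.EF.pr (F z₀)) (Pool.Agent.H62.EF.pr (F z)) ≤ 1 / 2 := by
      refine le_trans h1 ?_
      have h5 : 2 * (1 / (4 * ρ)) * ‖z₀ - z‖ ≤ 2 * (1 / (4 * ρ)) * ρ := mul_le_mul_of_nonneg_left h3 (by positivity)
      refine le_trans h5 (le_of_eq ?_)
      field_simp
      norm_num
    have h5 : dist (Pool.Agent.H62.EF.pr (F z₀)) (Pool.Agent.H62.EF.pr (F z)) ^ 2 ≤ 1 := by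
      have h6 := dist_nonneg (x := Pool.Agent.H62.EF.pr (F z₀)) (y := Pool.Agent.H62.EF.pr (F z))
      nlinarith
    rw [hgn, mul_pow, h2, inv_pow]
    have h6 : (‖F z₀‖ ^ 2)⁻¹ * (‖F z₀‖ ^ 2 * ‖F z‖ ^ 2 *
        (1 - dist (Pool.Agent.H62.EF.pr (F z₀)) (Pool.Agent.H62.EF.pr (F z)) ^ 2 / 2)) =
        ‖F z‖ ^ 2 * (1 - dist (Pool.Agent.H62.EF.pr (F z₀)) (Pool.Agent.H62.EF.pr (F z)) ^ 2 / 2) := by
      field_simp
    rw [h6]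
    have h7 : 0 ≤ ‖F z‖ ^ 2 := by positivity
    nlinarith [mul_le_mul_of_nonneg_left h5 h7]
  have hgpos : ∀ z ∈ ball z₀ ρ, 0 < ‖g z‖ := by
    intro z hz
    have h1 := hlow2 z hz
    have h2 : 0 < ‖F z‖ := norm_pos_iff.mpr (h0 z hz)
    by_contra h3
    have h4 : ‖g z‖ = 0 := le_antisymm (not_lt.mp h3) (norm_nonneg _)
    rw [h4] at h1
    have h5 : 0 < ‖F z‖ ^ 2 := by positivity
    nlinarith
  have hlg : ∀ z ∈ ball z₀ ρ, -C₀ - 1 / 2 ≤ Real.log ‖g z‖ := by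
    intro z hz
    have h1 := hlow2 z hz
    have h2 : 0 < ‖F z‖ := norm_pos_iff.mpr (h0 z hz)
    have h3 := Real.log_le_log (by positivity) h1
    rw [Real.log_div (by positivity) (by norm_num), Real.log_pow, Real.log_pow] at h3
    have h4 := hlow z hz
    have h5 := Real.log_two_lt_d9
    push_cast at h3
    linarith
  obtain ⟨m, hm⟩ : ∃ m : ℝ, m = Real.exp (-C₀ - 1 / 2) := ⟨_, rfl⟩
  have hm0 : 0 < m := by rw [hm]; exact Real.exp_pos _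
  have hmlog : Real.log m = -C₀ - 1 / 2 := by rw [hm, Real.log_exp]
  have hmg : ∀ z ∈ ball z₀ ρ, m ≤ ‖g z‖ := by
    intro z hz
    rw [hm]
    exact (Real.le_log_iff_exp_le (hgpos z hz)).mp (hlg z hz)
  have hmap : ∀ w ∈ ball (0 : ℂ) 1, z₀ + (ρ : ℂ) * w ∈ ball z₀ ρ := by
    intro w hw
    rw [mem_ball_zero_iff] at hw
    rw [mem_ball, dist_eq_norm, add_sub_cancel_left, norm_mul, Complex.norm_real, Real.norm_of_nonneg hρ.le]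
    nlinarith
  have hd : DifferentiableOn ℂ (fun w => (g (z₀ + (ρ : ℂ) * w))⁻¹) (ball 0 1) := by
    have h1 : Differentiable ℂ (fun w : ℂ => z₀ + (ρ : ℂ) * w) := by fun_prop
    have h2 : DifferentiableOn ℂ (fun w : ℂ => g (z₀ + (ρ : ℂ) * w)) (ball 0 1) :=
      hgd.comp h1.differentiableOn hmap
    exact h2.inv fun w hw => norm_pos_iff.mp (hgpos _ (hmap w hw))
  have hzn : ‖z - z₀‖ ≤ ρ / 2 := by
    rw [← dist_eq_norm]
    exact mem_closedBall.mp hz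
  have hρc : (ρ : ℂ) ≠ 0 := by exact_mod_cast hρ.ne'
  obtain ⟨w, hw⟩ : ∃ w : ℂ, w = (z - z₀) / (ρ : ℂ) := ⟨_, rfl⟩
  have hwz : z₀ + (ρ : ℂ) * w = z := by
    rw [hw]
    field_simp
    ring
  have hwn : ‖w‖ ≤ 1 / 2 := by
    rw [hw, norm_div, Complex.norm_real, Real.norm_of_nonneg hρ.le, div_le_iff₀ hρ]
    linarith
  have hw1 : w ∈ ball (0 : ℂ) 1 := by
    rw [mem_ball_zero_iff]
    linarith
  have hH := (Pool.Agent.CR.harnack hd (fun w hw => inv_ne_zero (norm_pos_iff.mp (hgpos _ (hmap w hw)))) (M := m⁻¹)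
    (fun w hw => by
      rw [norm_inv]
      exact inv_anti₀ hm0 (hmg _ (hmap w hw))) hw1).1
  have hzb : z ∈ ball z₀ ρ := by
    rw [← hwz]
    exact hmap w hw1
  have hg0 : ‖g z₀‖ = ‖F z₀‖ := by
    rw [hgn, inner_self_eq_norm_sq_to_K]
    simp only [Complex.coe_algebraMap, norm_pow, Complex.norm_real, norm_norm]
    field_simp
  rw [hwz] at hH
  simp only [mul_zero, add_zero] at hH
  have e1 : ∀ z ∈ ball z₀ ρ, Real.log (m⁻¹ / ‖(g z)⁻¹‖) = Real.log ‖g z‖ - Real.log m := by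
    intro z hz
    have h1 : m⁻¹ / ‖(g z)⁻¹‖ = ‖g z‖ / m := by
      rw [norm_inv]
      field_simp
    rw [h1, Real.log_div (hgpos z hz).ne' hm0.ne']
  rw [e1 z hzb, e1 z₀ hz0, hg0, hmlog] at hH
  have hpos : 0 ≤ Real.log ‖F z₀‖ - (-C₀ - 1 / 2) := by
    have := hlow z₀ hz0
    linarith
  have h13 : 1 / 3 ≤ (1 - ‖w‖) / (1 + ‖w‖) := by
    have := norm_nonneg w
    rw [div_le_div_iff₀ (by norm_num) (by linarith)]
    linarith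
  have h1 := mul_le_mul_of_nonneg_right h13 hpos
  have h2 : Real.log ‖g z‖ ≤ Real.log ‖F z‖ := Real.log_le_log (hgpos z hzb) (hup z)
  linarith

end Pool.Agent.TC
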