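import Pool.Agent.H36.BP.SubD
import Pool.Agent.H36.BP.SubC
import Pool.Agent.H36.BP.SubB
import Pool.Agent.H36.BP.MaxP

/-!
# TC GrB: comparison in an annulus

Let `s = m / log (R / r) ≥ 0`.  For `ε > 0` consider on `S = {r ≤ ‖z - z₀‖ ≤ R}` (compact; `Re z ≥ 1 / 2` there)
`w z = ‖F z‖ ^ (-1) * exp (ψ (Re z)) * (R * ‖(z - z₀)⁻¹‖) ^ s * exp (ε ‖z‖²)`, `ψ x = - a log (2 x)`, a continuous function.  On `‖z - z₀‖ = R`: `w z ≤ exp C₀ * exp (ε ‖z‖²)` (`2 Re z ≥ 1`, `a ≥ 0`, `hlow`).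
On `‖z - z₀‖ = r`: `‖F z‖ ^ (-1) ≤ exp (C₀ - m)`, `(R / r) ^ s = exp m`, so again `w z ≤ exp C₀ * exp (ε ‖z‖²)`.  In the interior `w` has the `Sub` exponent
`- fs² / 2 + a / (4 (Re z)²) + 0 + ε ≥ ε > 0` (`Sub.norm_rpow` with the exponent `-1`; `Sub.of_re` with `w = id`, `ψ' = - a / x`, `ψ₂ = a / x²` and `peano`; `Sub.of_holo` and `Sub.rpow`; `Sub.exp_sq`; `Sub.mul`,
`Sub.anti`; `hfs`).  `max_principle` (`S` as above, `U` its interior, `A = exp C₀ * exp (ε T)`, `T = (‖z₀‖ + R)²`): `w z ≤ exp (C₀ + ε T)`; `ε → 0` and logarithms: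
`- log ‖F z‖ - a log (2 Re z) + s log (R / ‖z - z₀‖) ≤ C₀`.
-/

set_option autoImplicit false

open Topology Filter Metric

namespace Pool.Agent.TC

open Pool.Agent.H36.BP (EN fs wd Sub)

variable {N : ℕ}

private theorem GrB_sub {F : ℂ → EN N} {z₀ : ℂ} {R a s ε : ℝ} (hR : 0 < R) (hs : 0 ≤ s)
    (hF : DifferentiableOn ℂ F {z | 0 < z.re}) (h0 : ∀ z : ℂ, 0 < z.re → F z ≠ 0)
    (hfs : ∀ z : ℂ, 1 / 2 ≤ z.re → (fs (F z) (deriv F z) * z.re) ^ 2 ≤ a / 2) {z : ℂ} (hz2 : 1 / 2 ≤ z.re) (hz : 0 < z.re) (hne : z ≠ z₀) :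
    Sub (fun z => ‖F z‖ ^ (-1 : ℝ) * Real.exp (-a * Real.log (2 * z.re)) * ‖(R : ℂ) * (z - z₀)⁻¹‖ ^ s * Real.exp (ε * ‖z‖ ^ 2)) z ε := by
  have hopen : IsOpen {z : ℂ | 0 < z.re} := isOpen_lt continuous_const Complex.continuous_re
  have hFa : AnalyticAt ℂ F z := hF.analyticAt (hopen.mem_nhds hz)
  have e1 := Sub.norm_rpow hFa (h0 z hz) (-1)
  have e2 : Sub (fun z : ℂ => Real.exp (-a * Real.log (2 * z.re))) z (a / z.re ^ 2 / 4 * ‖deriv (fun z : ℂ => z) z‖ ^ 2) := by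
    have h1 : ∀ᶠ x in 𝓝 z.re, HasDerivAt (fun x : ℝ => -a * Real.log (2 * x)) (-a / x) x := by
      filter_upwards [lt_mem_nhds hz] with x hx
      have h2 : HasDerivAt (fun x : ℝ => 2 * x) (2 * 1) x := (hasDerivAt_id x).const_mul 2
      have h3 := (h2.log (by positivity)).const_mul (-a)
      refine h3.congr_deriv ?_
      field_simp
    have h2 : HasDerivAt (fun x : ℝ => -a / x) (a / z.re ^ 2) z.re := by
      have h3 := (hasDerivAt_inv hz.ne').const_mul (-a)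
      refine (h3.congr_deriv ?_).congr_of_eventuallyEq ?_
      · field_simp
      · exact Filter.Eventually.of_forall fun x => by simp [div_eq_mul_inv]
    exact Sub.of_re (w := fun z => z) (ψ := fun x : ℝ => -a * Real.log (2 * x)) analyticAt_id
      (Pool.Agent.H36.BP.peano (ψ' := fun x => -a / x) h1 h2)
  have hne' : z - z₀ ≠ 0 := sub_ne_zero.2 hne
  have e3 : Sub (fun z => ‖(R : ℂ) * (z - z₀)⁻¹‖) z 0 := by
    refine Sub.of_holo (analyticAt_const.mul ((analyticAt_id.sub analyticAt_const).inv hne')) ?_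
    exact mul_ne_zero (by exact_mod_cast hR.ne') (inv_ne_zero hne')
  have e4 := e3.rpow hs
  have e5 : Sub (fun z : ℂ => Real.exp (ε * ‖(fun z : ℂ => z) z‖ ^ 2)) z (ε * ‖deriv (fun z : ℂ => z) z‖ ^ 2) :=
    Sub.exp_sq (t := fun z : ℂ => z) analyticAt_id ε
  have e6 := ((e1.mul e2).mul e4).mul e5
  refine e6.anti ?_
  have h1 : deriv (fun z : ℂ => z) z = 1 := by simp
  rw [h1, norm_one]
  have h2 := hfs z hz2
  have h3 : fs (F z) (deriv F z) ^ 2 ≤ a / (2 * z.re ^ 2) := by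
    rw [le_div_iff₀ (by positivity)]
    rw [mul_pow] at h2
    linarith
  have h4 : a / z.re ^ 2 / 4 = a / (2 * z.re ^ 2) / 2 := by field_simp; norm_num
  rw [h4]
  linarith

theorem annulus {F : ℂ → EN N} {z₀ : ℂ} {r R a m C₀ : ℝ} (hr : 0 < r) (hrR : r < R) (hRe : R + 1 / 2 ≤ z₀.re) (ha : 0 ≤ a) (hm : 0 ≤ m)
    (hF : DifferentiableOn ℂ F {z | 0 < z.re}) (h0 : ∀ z : ℂ, 0 < z.re → F z ≠ 0)
    (hfs : ∀ z : ℂ, 1 / 2 ≤ z.re → (fs (F z) (deriv F z) * z.re) ^ 2 ≤ a / 2) (hlow : ∀ z : ℂ, 0 < z.re → -C₀ ≤ Real.log ‖F z‖)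
    (hin : ∀ z ∈ closedBall z₀ r, m ≤ Real.log ‖F z‖ + C₀) {z : ℂ} (h1 : r ≤ ‖z - z₀‖) (h2 : ‖z - z₀‖ ≤ R) :
    m * Real.log (R / ‖z - z₀‖) / Real.log (R / r) ≤ Real.log ‖F z‖ + C₀ + a * Real.log (2 * z.re) := by
  have hR : 0 < R := hr.trans hrR
  have hRr : 1 < R / r := (one_lt_div hr).2 hrR
  have hlogRr : 0 < Real.log (R / r) := Real.log_pos hRr
  obtain ⟨s, hs⟩ : ∃ s, s = m / Real.log (R / r) := ⟨_, rfl⟩
  have hs0 : 0 ≤ s := by rw [hs]; positivity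
  have hsm : s * Real.log (R / r) = m := by rw [hs]; field_simp
  have hre : ∀ w : ℂ, ‖w - z₀‖ ≤ R → 1 / 2 ≤ w.re := by
    intro w hw
    have h3 := (Complex.abs_re_le_norm (w - z₀)).trans hw
    rw [Complex.sub_re, abs_le] at h3
    linarith [h3.1]
  have hne : ∀ w : ℂ, r ≤ ‖w - z₀‖ → w ≠ z₀ := by
    intro w hw h
    rw [h, sub_self, norm_zero] at hw
    linarith
  -- the bound for each positive ε
  have key : ∀ ε : ℝ, 0 < ε → ‖F z‖ ^ (-1 : ℝ) * Real.exp (-a * Real.log (2 * z.re)) * ‖(R : ℂ) * (z - z₀)⁻¹‖ ^ s * Real.exp (ε * ‖z‖ ^ 2)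
      ≤ Real.exp C₀ * Real.exp (ε * (‖z₀‖ + R) ^ 2) := by
    intro ε hε
    obtain ⟨u, hu⟩ : ∃ u : ℂ → ℝ, u = fun z => ‖F z‖ ^ (-1 : ℝ) * Real.exp (-a * Real.log (2 * z.re)) * ‖(R : ℂ) * (z - z₀)⁻¹‖ ^ s *
      Real.exp (ε * ‖z‖ ^ 2) := ⟨_, rfl⟩
    have hnS : Continuous fun w : ℂ => ‖w - z₀‖ := (continuous_id.sub continuous_const).norm
    have hS : IsCompact {w : ℂ | r ≤ ‖w - z₀‖ ∧ ‖w - z₀‖ ≤ R} := by
      refine (isCompact_closedBall z₀ R).of_isClosed_subset ?_ ?_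
      · exact (isClosed_le continuous_const hnS).inter (isClosed_le hnS continuous_const)
      · intro w hw
        rw [mem_closedBall, dist_eq_norm]
        exact hw.2
    have hU : IsOpen {w : ℂ | r < ‖w - z₀‖ ∧ ‖w - z₀‖ < R} :=
      (isOpen_lt continuous_const hnS).inter (isOpen_lt hnS continuous_const)
    have hcont : ContinuousOn u {w : ℂ | r ≤ ‖w - z₀‖ ∧ ‖w - z₀‖ ≤ R} := by
      intro w hw
      have hw1 := hre w hw.2
      have hw2 : w - z₀ ≠ 0 := sub_ne_zero.2 (hne w hw.1)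
      have hopen : IsOpen {z : ℂ | 0 < z.re} := isOpen_lt continuous_const Complex.continuous_re
      have hw3 : 0 < w.re := by linarith
      have c1 : ContinuousAt F w := (hF.differentiableAt (hopen.mem_nhds hw3)).continuousAt
      have c2 : ContinuousAt (fun z : ℂ => ‖F z‖ ^ (-1 : ℝ)) w :=
        c1.norm.rpow_const (Or.inl (norm_ne_zero_iff.2 (h0 w hw3)))
      have c3 : ContinuousAt (fun z : ℂ => Real.exp (-a * Real.log (2 * z.re))) w := by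
        refine Real.continuous_exp.continuousAt.comp ?_
        refine continuousAt_const.mul ?_
        exact (continuousAt_const.mul Complex.continuous_re.continuousAt).log (mul_pos two_pos hw3).ne'
      have c4 : ContinuousAt (fun z : ℂ => ‖(R : ℂ) * (z - z₀)⁻¹‖ ^ s) w := by
        refine ContinuousAt.rpow_const ?_ (Or.inr hs0)
        exact (continuousAt_const.mul ((continuousAt_id.sub continuousAt_const).inv₀ hw2)).norm
      have c5 : ContinuousAt (fun z : ℂ => Real.exp (ε * ‖z‖ ^ 2)) w := by fun_prop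
      rw [hu]
      exact (((c2.mul c3).mul c4).mul c5).continuousWithinAt
    have hbd : ∀ w ∈ {w : ℂ | r ≤ ‖w - z₀‖ ∧ ‖w - z₀‖ ≤ R} \ {w : ℂ | r < ‖w - z₀‖ ∧ ‖w - z₀‖ < R},
        u w ≤ Real.exp C₀ * Real.exp (ε * (‖z₀‖ + R) ^ 2) := by
      intro w hw
      have hw1 := hre w hw.1.2
      have hw3 : 0 < w.re := by linarith
      have hFw : 0 < ‖F w‖ := norm_pos_iff.2 (h0 w hw3)
      have b1 : ‖w‖ ≤ ‖z₀‖ + R := by
        have h3 : ‖w‖ ≤ ‖w - z₀‖ + ‖z₀‖ := by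
          have := norm_add_le (w - z₀) z₀
          rwa [sub_add_cancel] at this
        linarith [hw.1.2]
      have b2 : Real.exp (ε * ‖w‖ ^ 2) ≤ Real.exp (ε * (‖z₀‖ + R) ^ 2) := by
        apply Real.exp_le_exp.2
        exact mul_le_mul_of_nonneg_left (by gcongr) hε.le
      have b3 : Real.exp (-a * Real.log (2 * w.re)) ≤ 1 := by
        rw [Real.exp_le_one_iff]
        have : 0 ≤ Real.log (2 * w.re) := Real.log_nonneg (by linarith)
        nlinarith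
      have b4 : ‖F w‖ ^ (-1 : ℝ) * ‖(R : ℂ) * (w - z₀)⁻¹‖ ^ s ≤ Real.exp C₀ := by
        have hlw : 0 < ‖w - z₀‖ := lt_of_lt_of_le hr hw.1.1
        have hq : ‖(R : ℂ) * (w - z₀)⁻¹‖ = R / ‖w - z₀‖ := by
          rw [norm_mul, norm_inv, Complex.norm_real, Real.norm_of_nonneg hR.le, div_eq_mul_inv]
        have hq0 : 0 < R / ‖w - z₀‖ := by positivity
        rw [hq, Real.rpow_def_of_pos hFw, Real.rpow_def_of_pos hq0, ← Real.exp_add]
        apply Real.exp_le_exp.2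
        rcases eq_or_lt_of_le hw.1.1 with hrw | hrw
        · rw [← hrw]
          have h3 := hin w (by rw [mem_closedBall, dist_eq_norm, ← hrw])
          nlinarith
        · rcases eq_or_lt_of_le hw.1.2 with hRw | hRw
          · rw [hRw, div_self hR.ne', Real.log_one]
            have h3 := hlow w hw3
            linarith
          · exact absurd ⟨hrw, hRw⟩ hw.2
      rw [hu]
      show ‖F w‖ ^ (-1 : ℝ) * Real.exp (-a * Real.log (2 * w.re)) * ‖(R : ℂ) * (w - z₀)⁻¹‖ ^ s * Real.exp (ε * ‖w‖ ^ 2) ≤ _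
      have n1 : 0 ≤ ‖F w‖ ^ (-1 : ℝ) * ‖(R : ℂ) * (w - z₀)⁻¹‖ ^ s := by positivity
      calc ‖F w‖ ^ (-1 : ℝ) * Real.exp (-a * Real.log (2 * w.re)) * ‖(R : ℂ) * (w - z₀)⁻¹‖ ^ s * Real.exp (ε * ‖w‖ ^ 2)
          = (‖F w‖ ^ (-1 : ℝ) * ‖(R : ℂ) * (w - z₀)⁻¹‖ ^ s) * Real.exp (-a * Real.log (2 * w.re)) * Real.exp (ε * ‖w‖ ^ 2) := by ring
        _ ≤ (‖F w‖ ^ (-1 : ℝ) * ‖(R : ℂ) * (w - z₀)⁻¹‖ ^ s) * 1 * Real.exp (ε * ‖w‖ ^ 2) := by gcongr
        _ ≤ Real.exp C₀ * Real.exp (ε * (‖z₀‖ + R) ^ 2) := by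
            rw [mul_one]
            exact mul_le_mul b4 b2 (Real.exp_pos _).le (Real.exp_pos _).le
    have hA : 0 ≤ Real.exp C₀ * Real.exp (ε * (‖z₀‖ + R) ^ 2) := by positivity
    have hmax := Pool.Agent.H36.BP.max_principle hS hU (fun w hw => ⟨hw.1.le, hw.2.le⟩) hcont.upperSemicontinuousOn
      (fun w hw _ => ⟨ε, hε, by
        rw [hu]
        exact GrB_sub hR hs0 hF h0 hfs (hre w hw.2.le) (by linarith [hre w hw.2.le]) (hne w hw.1.le)⟩) hA hbd z ⟨h1, h2⟩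
    rw [hu] at hmax
    exact hmax
  have hz1 := hre z h2
  have hz3 : 0 < z.re := by linarith
  have hFz : 0 < ‖F z‖ := norm_pos_iff.2 (h0 z hz3)
  have hlz : 0 < ‖z - z₀‖ := lt_of_lt_of_le hr h1
  have hq : ‖(R : ℂ) * (z - z₀)⁻¹‖ = R / ‖z - z₀‖ := by
    rw [norm_mul, norm_inv, Complex.norm_real, Real.norm_of_nonneg hR.le, div_eq_mul_inv]
  have hq0 : 0 < R / ‖z - z₀‖ := by positivity
  have key2 : ∀ ε : ℝ, 0 < ε → -Real.log ‖F z‖ - a * Real.log (2 * z.re) + s * Real.log (R / ‖z - z₀‖) ≤ C₀ + ε * (‖z₀‖ + R) ^ 2 := by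
    intro ε hε
    have h3 := key ε hε
    rw [hq, Real.rpow_def_of_pos hFz, Real.rpow_def_of_pos hq0, ← Real.exp_add, ← Real.exp_add, ← Real.exp_add, ← Real.exp_add,
      Real.exp_le_exp] at h3
    have h4 : 0 ≤ ε * ‖z‖ ^ 2 := by positivity
    linarith
  have key3 : -Real.log ‖F z‖ - a * Real.log (2 * z.re) + s * Real.log (R / ‖z - z₀‖) ≤ C₀ := by
    apply le_of_forall_pos_le_add
    intro δ hδ
    have hT : 0 < (‖z₀‖ + R) ^ 2 := by positivity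
    have h3 := key2 (δ / (‖z₀‖ + R) ^ 2) (by positivity)
    rwa [div_mul_cancel₀ _ hT.ne'] at h3
  have h5 : m * Real.log (R / ‖z - z₀‖) / Real.log (R / r) = s * Real.log (R / ‖z - z₀‖) := by
    rw [hs]; ring
  rw [h5]
  linarith

end Pool.Agent.TC
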