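import Pool.Agent.TC.Defs
import Pool.Agent.H36.BP.SubC

/-!
# TC SubX: lower supports of functions of the real part

For real `t`, `t₀` and `z`, `z₀` with real parts `t`, `t₀`: `(t - t₀)² = ‖z - z₀‖² / 2 + Re ((z - z₀)²) / 2`.

* `Sub.of_re`: `φ t ≥ φ t₀ + a (t - t₀) + b / 2 (t - t₀)²` near `t₀`, so `exp (φ z.re) ≥ ‖exp (φ t₀ + a (z - z₀) + b / 4 (z - z₀)²)‖ exp (b / 4 ‖z - z₀‖²)`.
* `sm`: `sm t = (1 + t²) / 2` for `|t| ≤ 1`, `sm t = |t|` for `|t| ≥ 1`, `|t| ≤ sm t ≤ (1 + t²) / 2` for all `t`, `sm` is convex (tangent lines).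
  `sub_exp_sm_pos`: for `|t₀| < 1` near `t₀` equality with the quadratic function; for `|t₀| ≥ 1` the tangent line is below the function.
  `sub_exp_sm_neg`: for `|t₀| ≤ 1`: `- κ sm t ≥ - κ (1 + t²) / 2`, equality at `t₀`; for `|t₀| > 1` near `t₀` `sm` is linear.
* `Sub.comp_mul`: if `h` is a support for `v` at `a z₀`, then `h (a z)` is a support for `v (a z)`.
-/

set_option autoImplicit false

open Topology Filter Metric

namespace Pool.Agent.TC

open Pool.Agent.H36.BP (EN fs wd Sub)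

theorem sub_of_re {φ : ℝ → ℝ} {z₀ : ℂ} {a b : ℝ} (h : ∀ᶠ t in 𝓝 z₀.re, φ z₀.re + a * (t - z₀.re) + b / 2 * (t - z₀.re) ^ 2 ≤ φ t) :
    Sub (fun z => Real.exp (φ z.re)) z₀ (b / 4) := by
  refine ⟨Real.exp_pos _, fun c' hc' => ?_⟩
  refine ⟨fun z => Complex.exp ((φ z₀.re : ℂ) + (a : ℂ) * (z - z₀) + ((b / 4 : ℝ) : ℂ) * (z - z₀) ^ 2), ?_, ?_, ?_⟩
  · have hd : Differentiable ℂ (fun z : ℂ => Complex.exp ((φ z₀.re : ℂ) + (a : ℂ) * (z - z₀) + ((b / 4 : ℝ) : ℂ) * (z - z₀) ^ 2)) := by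
      fun_prop
    exact hd.analyticAt z₀
  · rw [Complex.norm_exp]
    simp
  · have h1 : ∀ᶠ z : ℂ in 𝓝 z₀, φ z₀.re + a * (z.re - z₀.re) + b / 2 * (z.re - z₀.re) ^ 2 ≤ φ z.re :=
      Complex.continuous_re.continuousAt.eventually h
    filter_upwards [h1] with z hz
    rw [Complex.norm_exp, ← Real.exp_add]
    refine Real.exp_le_exp.mpr ?_
    have e1 : ((φ z₀.re : ℂ) + (a : ℂ) * (z - z₀) + ((b / 4 : ℝ) : ℂ) * (z - z₀) ^ 2).re =
        φ z₀.re + a * (z.re - z₀.re) + b / 4 * ((z.re - z₀.re) ^ 2 - (z.im - z₀.im) ^ 2) := by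
      simp only [Complex.add_re, Complex.ofReal_re, Complex.ofReal_im, zero_mul, sub_zero, Complex.sub_re, pow_two, Complex.mul_re, Complex.sub_im]
    have e2 : ‖z - z₀‖ ^ 2 = (z.re - z₀.re) ^ 2 + (z.im - z₀.im) ^ 2 := by
      rw [← Complex.normSq_eq_norm_sq, Complex.normSq_apply, Complex.sub_re, Complex.sub_im]
      ring
    rw [e1, e2]
    have h3 : c' * ((z.re - z₀.re) ^ 2 + (z.im - z₀.im) ^ 2) ≤ b / 4 * ((z.re - z₀.re) ^ 2 + (z.im - z₀.im) ^ 2) :=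
      mul_le_mul_of_nonneg_right hc'.le (by positivity)
    nlinarith [hz, h3]

theorem continuous_sm : Continuous sm := by
  unfold sm
  refine Continuous.if_le (by fun_prop) continuous_abs continuous_abs continuous_const ?_
  intro t ht
  rw [← sq_abs, ht]
  norm_num

theorem sm_of_le {t : ℝ} (h : |t| ≤ 1) : sm t = (1 + t ^ 2) / 2 := by
  unfold sm
  rw [if_pos h]

theorem sm_of_ge {t : ℝ} (h : 1 ≤ |t|) : sm t = |t| := by
  unfold sm
  by_cases h1 : |t| ≤ 1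
  · rw [if_pos h1, ← sq_abs, le_antisymm h1 h]
    norm_num
  · rw [if_neg h1]

theorem abs_le_sm (t : ℝ) : |t| ≤ sm t := by
  rcases le_total |t| 1 with h | h
  · rw [sm_of_le h, ← sq_abs]
    nlinarith [sq_nonneg (1 - |t|)]
  · rw [sm_of_ge h]

theorem sm_le (t : ℝ) : sm t ≤ (1 + t ^ 2) / 2 := by
  rcases le_total |t| 1 with h | h
  · rw [sm_of_le h]
  · rw [sm_of_ge h, ← sq_abs]
    nlinarith [sq_nonneg (1 - |t|)]

theorem sm_le_abs_add (t : ℝ) : sm t ≤ |t| + 1 / 2 := by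
  rcases le_total |t| 1 with h | h
  · rw [sm_of_le h, ← sq_abs]
    nlinarith [abs_nonneg t]
  · rw [sm_of_ge h]
    linarith

theorem sub_exp_sm_pos {κ : ℝ} (hκ : 0 ≤ κ) (z₀ : ℂ) : Sub (fun z => Real.exp (κ * sm z.re)) z₀ 0 := by
  obtain ⟨s, hs⟩ : ∃ s : ℝ, ∀ t, sm z₀.re + s * (t - z₀.re) ≤ sm t := by
    rcases le_total |z₀.re| 1 with h | h
    · refine ⟨z₀.re, fun t => ?_⟩
      rw [sm_of_le h]
      rcases le_total |t| 1 with h1 | h1
      · rw [sm_of_le h1]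
        nlinarith [sq_nonneg (t - z₀.re)]
      · rw [sm_of_ge h1]
        have h2 : z₀.re * t ≤ |z₀.re| * |t| := by
          rw [← abs_mul]
          exact le_abs_self _
        have h3 : z₀.re ^ 2 = |z₀.re| ^ 2 := (sq_abs _).symm
        have h4 : (1 - |z₀.re|) * 1 ≤ (1 - |z₀.re|) * |t| := mul_le_mul_of_nonneg_left h1 (by linarith)
        have h5 : (1 - |z₀.re|) * ((1 + |z₀.re|) / 2) ≤ (1 - |z₀.re|) * 1 :=
          mul_le_mul_of_nonneg_left (by linarith) (by linarith)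
        nlinarith
    · rcases le_total 0 z₀.re with h0 | h0
      · refine ⟨1, fun t => ?_⟩
        rw [sm_of_ge h, abs_of_nonneg h0]
        have := abs_le_sm t
        have := le_abs_self t
        linarith
      · refine ⟨-1, fun t => ?_⟩
        rw [sm_of_ge h, abs_of_nonpos h0]
        have := abs_le_sm t
        have := neg_le_abs t
        linarith
  have h1 := sub_of_re (φ := fun t => κ * sm t) (z₀ := z₀) (a := κ * s) (b := 0) (Filter.Eventually.of_forall fun t => by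
    show κ * sm z₀.re + κ * s * (t - z₀.re) + 0 / 2 * (t - z₀.re) ^ 2 ≤ κ * sm t
    have := mul_le_mul_of_nonneg_left (hs t) hκ
    linarith)
  rwa [zero_div] at h1

theorem sub_exp_sm_pos' {κ : ℝ} (hκ : 0 ≤ κ) {z₀ : ℂ} (h : |z₀.re| < 1) : Sub (fun z => Real.exp (κ * sm z.re)) z₀ (κ / 4) := by
  refine sub_of_re (φ := fun t => κ * sm t) (z₀ := z₀) (a := κ * z₀.re) (b := κ) ?_
  have h1 : ∀ᶠ t : ℝ in 𝓝 z₀.re, |t| < 1 := continuous_abs.continuousAt.eventually_lt_const h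
  filter_upwards [h1] with t ht
  show κ * sm z₀.re + κ * z₀.re * (t - z₀.re) + κ / 2 * (t - z₀.re) ^ 2 ≤ κ * sm t
  rw [sm_of_le h.le, sm_of_le ht.le]
  apply le_of_eq
  ring

theorem sub_exp_sm_neg {κ : ℝ} (hκ : 0 ≤ κ) {z₀ : ℂ} (h : |z₀.re| ≤ 1) : Sub (fun z => Real.exp (-κ * sm z.re)) z₀ (-κ / 4) := by
  refine sub_of_re (φ := fun t => -κ * sm t) (z₀ := z₀) (a := -κ * z₀.re) (b := -κ) ?_
  refine Filter.Eventually.of_forall fun t => ?_
  show -κ * sm z₀.re + -κ * z₀.re * (t - z₀.re) + -κ / 2 * (t - z₀.re) ^ 2 ≤ -κ * sm t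
  have h1 := mul_le_mul_of_nonneg_left (sm_le t) hκ
  rw [sm_of_le h]
  nlinarith

theorem sub_exp_sm_neg' {κ : ℝ} (hκ : 0 ≤ κ) {z₀ : ℂ} (h : 1 < |z₀.re|) : Sub (fun z => Real.exp (-κ * sm z.re)) z₀ 0 := by
  have key : ∃ s : ℝ, ∀ᶠ t : ℝ in 𝓝 z₀.re, sm t = sm z₀.re + s * (t - z₀.re) := by
    have h1 : ∀ᶠ t : ℝ in 𝓝 z₀.re, 1 < |t| := continuous_abs.continuousAt.eventually_const_lt h
    rcases lt_or_ge 0 z₀.re with h0 | h0
    · refine ⟨1, ?_⟩
      filter_upwards [h1, eventually_gt_nhds h0] with t ht ht0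
      rw [sm_of_ge ht.le, sm_of_ge h.le, abs_of_pos h0, abs_of_pos ht0]
      ring
    · have h0' : z₀.re < 0 := by
        rcases h0.lt_or_eq with h2 | h2
        · exact h2
        · rw [h2, abs_zero] at h
          linarith
      refine ⟨-1, ?_⟩
      filter_upwards [h1, eventually_lt_nhds h0'] with t ht ht0
      rw [sm_of_ge ht.le, sm_of_ge h.le, abs_of_neg h0', abs_of_neg ht0]
      ring
  obtain ⟨s, hs⟩ := key
  have h1 := sub_of_re (φ := fun t => -κ * sm t) (z₀ := z₀) (a := -κ * s) (b := 0) (by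
    filter_upwards [hs] with t ht
    show -κ * sm z₀.re + -κ * s * (t - z₀.re) + 0 / 2 * (t - z₀.re) ^ 2 ≤ -κ * sm t
    rw [ht]
    apply le_of_eq
    ring)
  rwa [zero_div] at h1

theorem sub_comp_mul {v : ℂ → ℝ} {z₀ a : ℂ} {c : ℝ} (ha : a ≠ 0) (h : Sub v (a * z₀) c) : Sub (fun z => v (a * z)) z₀ (‖a‖ ^ 2 * c) := by
  refine ⟨h.1, fun c' hc' => ?_⟩
  have hn : 0 < ‖a‖ ^ 2 := by
    have := norm_pos_iff.mpr ha
    positivity
  have h1 : c' / ‖a‖ ^ 2 < c := by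
    rw [div_lt_iff₀ hn]
    linarith
  obtain ⟨f, hf, hf0, hfe⟩ := h.2 _ h1
  have hc : Continuous fun z : ℂ => a * z := by fun_prop
  refine ⟨fun z => f (a * z), ?_, hf0, ?_⟩
  · have h2 : AnalyticAt ℂ (fun z : ℂ => a * z) z₀ := by fun_prop
    exact AnalyticAt.comp (g := f) (f := fun z : ℂ => a * z) hf h2
  · have h3 := (hc.continuousAt (x := z₀)).eventually hfe
    filter_upwards [h3] with z hz
    have e : c' / ‖a‖ ^ 2 * ‖a * z - a * z₀‖ ^ 2 = c' * ‖z - z₀‖ ^ 2 := by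
      rw [← mul_sub, norm_mul, mul_pow]
      field_simp
    rw [e] at hz
    exact hz

/-- the maximum of two functions: the exponent of the larger one at the point -/
theorem sub_max {u v : ℂ → ℝ} {z₀ : ℂ} {c : ℝ} (hu : v z₀ ≤ u z₀ → Sub u z₀ c) (hv : u z₀ ≤ v z₀ → Sub v z₀ c) :
    Sub (fun z => max (u z) (v z)) z₀ c := by
  rcases le_total (v z₀) (u z₀) with h | h
  · obtain ⟨h1, h2⟩ := hu h
    refine ⟨lt_of_lt_of_le h1 (le_max_left _ _), fun c' hc' => ?_⟩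
    obtain ⟨f, hf, hf0, hfe⟩ := h2 c' hc'
    refine ⟨f, hf, ?_, ?_⟩
    · rw [hf0]
      exact (max_eq_left h).symm
    · filter_upwards [hfe] with z hz
      exact le_trans hz (le_max_left _ _)
  · obtain ⟨h1, h2⟩ := hv h
    refine ⟨lt_of_lt_of_le h1 (le_max_right _ _), fun c' hc' => ?_⟩
    obtain ⟨f, hf, hf0, hfe⟩ := h2 c' hc'
    refine ⟨f, hf, ?_, ?_⟩
    · rw [hf0]
      exact (max_eq_right h).symm
    · filter_upwards [hfe] with z hz
      exact le_trans hz (le_max_right _ _)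

end Pool.Agent.TC
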