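import Pool.Agent.TC.Barrier
import Pool.Agent.TC.SubX
import Pool.Agent.TC.Lower
import Pool.Agent.TC.GQ

/-!
# TC HalfAxis: two sections which are close on a half strip are equal

`K = ∑ (e j - 1) ≥ 2`, `T_f = log ‖f‖`.  `norm_lower`: `T ≥ c₁ |x| - C₁`.  `κ = min (1/4) (c₁ / (2 A))`, `μ = K / 2 - κ ≥ 3/4`.
`p₁ = ‖g - f‖ / ‖gq f g‖ (‖f‖ ‖g‖)^κ`, `p₂ = ‖g - f‖ (‖f‖ ‖g‖)^(-μ)`: for `|x| ≤ W` (closeness) `p₁ ≤ exp (CN / 2) p₂`, `p₂ ≤ exp (CN / 2) p₁`.
`v = max (p₁ exp (3 CN - (4 CN / W) sm x)) p₂` for `|x| < W`, `v = p₂` elsewhere.  For `|x| ≤ W / 2` the first function is the larger one, for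
`|x| ≥ 7 W / 8` the second one.  `g - f = l gq f g` with `l` holomorphic, so `p₁` has the exponent `κ (fs_f² + fs_g²) / 2`, and `p₂` has the
exponent `≥ - μ (fs_f² + fs_g²) / 2 ≥ - μ C₀² / x²`.  `p₂` is bounded: `(1 - μ) T_f - μ T_g ≤ κ (T_f + C₁) - (3/4) (T_g + C₁) + 2 μ C₁`.  `barrier`: `v = 0` on the axis.
-/

set_option autoImplicit false

open Topology Filter Metric

namespace Pool.Agent.TC

open Pool.Agent.H36.BP (EN fs wd Sub)

variable {n : ℕ} {Q : Fin (n + 2) → MvPolynomial (Fin (n + 3)) ℂ} {e : Fin (n + 2) → ℕ}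

private theorem ha_isOpen_HP (σ ρ : ℝ) : IsOpen (HP σ ρ) := by
  unfold HP
  exact isOpen_lt continuous_const (continuous_const.mul Complex.continuous_im)

private theorem ha_ne {f : ℂ → EN (n + 2)} {U : Set ℂ} (h : Pair Q e) (hf : IsSec Q f U) {z : ℂ} (hz : z ∈ U) : f z ≠ 0 := by
  intro h0
  have h1 := (hf.2 z hz).1
  rw [h0] at h1
  have h2 : ev (Q 0) (0 : EN (n + 2)) = 0 := by
    unfold ev
    have h3 : (fun i => (0 : EN (n + 2)) i) = (0 : Fin (n + 3) → ℂ) := by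
      funext i
      rfl
    rw [h3]
    have h4 := (h.hom 0)
    rw [MvPolynomial.eval_zero]
    have h5 : MvPolynomial.coeff 0 (Q 0) = 0 := by
      apply h4.coeff_eq_zero
      have := h.pos 0
      simp
      omega
    rw [MvPolynomial.constantCoeff_eq]
    exact h5
  rw [h2] at h1
  exact Complex.exp_ne_zero z h1.symm

/-- the numerical comparison of the two functions -/
private theorem ha_cmp {K : ℕ} {a b d w c C CN κ μ : ℝ} (ha : 0 < a) (hb1 : a / 2 ≤ b) (hb2 : b ≤ 2 * a) (hd : 0 ≤ d) (hc : 0 < c)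
    (hw1 : c / 2 * a ^ K ≤ w) (hw2 : w ≤ C * a ^ K) (hC : 0 < C) (hCN : 2 ^ K * (C + 2 / c) ≤ Real.exp (CN / 2))
    (hκμ : κ + μ = K / 2) :
    d / w * (a ^ κ * b ^ κ) ≤ Real.exp (CN / 2) * (d * (a ^ (-μ) * b ^ (-μ))) ∧
      d * (a ^ (-μ) * b ^ (-μ)) ≤ Real.exp (CN / 2) * (d / w * (a ^ κ * b ^ κ)) := by
  have hb : 0 < b := by linarith
  have haK : 0 < a ^ K := pow_pos ha K
  have hw : 0 < w := lt_of_lt_of_le (by positivity) hw1
  have hs : (a * b) ^ (κ + μ) = (a * b) ^ κ * (a * b) ^ μ := Real.rpow_add (by positivity) _ _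
  have hab : 0 < a * b := by positivity
  have e1 : a ^ κ * b ^ κ = (a * b) ^ κ := (Real.mul_rpow ha.le hb.le).symm
  have e2 : a ^ (-μ) * b ^ (-μ) = (a * b) ^ (-μ) := (Real.mul_rpow ha.le hb.le).symm
  have e3 : (a * b) ^ κ = (a * b) ^ (κ + μ) * (a * b) ^ (-μ) := by
    rw [← Real.rpow_add hab]
    congr 1
    ring
  have hq : 0 < (a * b) ^ (-μ) := Real.rpow_pos_of_pos hab _
  -- bounds of (a b)^(K/2)
  have h2K : (1 : ℝ) ≤ 2 ^ K := one_le_pow₀ (by norm_num)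
  have f1 : (a * b) ^ (κ + μ) ≤ 2 ^ K * a ^ K := by
    rw [hκμ]
    have h1 : a * b ≤ (2 * a) ^ 2 := by nlinarith
    calc (a * b) ^ ((K : ℝ) / 2) ≤ ((2 * a) ^ 2) ^ ((K : ℝ) / 2) := Real.rpow_le_rpow hab.le h1 (by positivity)
      _ = (2 * a) ^ (K : ℝ) := by
          rw [← Real.rpow_natCast (2 * a) 2, ← Real.rpow_mul (by positivity)]
          congr 1
          push_cast
          ring
      _ = 2 ^ K * a ^ K := by rw [Real.rpow_natCast, mul_pow]
  have f2 : a ^ K ≤ 2 ^ K * (a * b) ^ (κ + μ) := by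
    rw [hκμ]
    have h1 : a ^ 2 ≤ 2 ^ 2 * (a * b) := by nlinarith
    calc a ^ K = (a ^ 2) ^ ((K : ℝ) / 2) := by
          rw [← Real.rpow_natCast a 2, ← Real.rpow_mul ha.le, ← Real.rpow_natCast a K]
          congr 1
          push_cast
          ring
      _ ≤ (2 ^ 2 * (a * b)) ^ ((K : ℝ) / 2) := Real.rpow_le_rpow (by positivity) h1 (by positivity)
      _ = 2 ^ K * (a * b) ^ ((K : ℝ) / 2) := by
          rw [Real.mul_rpow (by positivity) hab.le]
          congr 1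
          rw [← Real.rpow_natCast (2 : ℝ) 2, ← Real.rpow_mul (by positivity), ← Real.rpow_natCast (2 : ℝ) K]
          congr 1
          push_cast
          ring
  have hs0 : 0 < (a * b) ^ (κ + μ) := Real.rpow_pos_of_pos hab _
  have g1 : (a * b) ^ (κ + μ) / w ≤ Real.exp (CN / 2) := by
    rw [div_le_iff₀ hw]
    have h1 : 2 ^ K * (2 / c) ≤ Real.exp (CN / 2) := by
      refine le_trans ?_ hCN
      exact mul_le_mul_of_nonneg_left (by linarith) (by positivity)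
    calc (a * b) ^ (κ + μ) ≤ 2 ^ K * a ^ K := f1
      _ = 2 ^ K * (2 / c) * (c / 2 * a ^ K) := by field_simp
      _ ≤ Real.exp (CN / 2) * w := mul_le_mul h1 hw1 (by positivity) (Real.exp_pos _).le
  have g2 : w ≤ Real.exp (CN / 2) * (a * b) ^ (κ + μ) := by
    have h1 : 2 ^ K * C ≤ Real.exp (CN / 2) := by
      refine le_trans ?_ hCN
      exact mul_le_mul_of_nonneg_left (by have : 0 < 2 / c := by positivity
                                          linarith) (by positivity)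
    calc w ≤ C * a ^ K := hw2
      _ ≤ C * (2 ^ K * (a * b) ^ (κ + μ)) := mul_le_mul_of_nonneg_left f2 hC.le
      _ = (2 ^ K * C) * (a * b) ^ (κ + μ) := by ring
      _ ≤ Real.exp (CN / 2) * (a * b) ^ (κ + μ) := mul_le_mul_of_nonneg_right h1 hs0.le
  rw [e1, e2, e3]
  constructor
  · have h1 : d / w * ((a * b) ^ (κ + μ) * (a * b) ^ (-μ)) = ((a * b) ^ (κ + μ) / w) * (d * (a * b) ^ (-μ)) := by ring
    rw [h1]
    exact mul_le_mul_of_nonneg_right g1 (by positivity)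
  · have h1 : Real.exp (CN / 2) * (d / w * ((a * b) ^ (κ + μ) * (a * b) ^ (-μ)))
        = (Real.exp (CN / 2) * (a * b) ^ (κ + μ) / w) * (d * (a * b) ^ (-μ)) := by ring
    rw [h1]
    have h2 : 1 ≤ Real.exp (CN / 2) * (a * b) ^ (κ + μ) / w := by
      rw [le_div_iff₀ hw, one_mul]
      exact g2
    have h3 : 0 ≤ d * (a * b) ^ (-μ) := by positivity
    nlinarith

/-- the global bound -/
private theorem ha_bound {a b d x A c C κ μ : ℝ} (ha : 0 < a) (hb : 0 < b) (hd : d ≤ a + b) (hC : 0 ≤ C) (hc : 0 < c)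
    (hκ : 0 < κ) (hκA : κ * A ≤ 3 / 4 * c) (hμ : 1 - κ ≤ μ) (hμ' : 3 / 4 ≤ μ)
    (ha1 : c * x - C ≤ Real.log a) (hb1 : c * x - C ≤ Real.log b) (ha2 : Real.log a ≤ A * (1 + x)) (hb2 : Real.log b ≤ A * (1 + x))
    (hx : 0 ≤ x) : d * (a ^ (-μ) * b ^ (-μ)) ≤ 2 * Real.exp (κ * (A + C) + 2 * μ * C) := by
  have key : ∀ s t : ℝ, c * x - C ≤ s → c * x - C ≤ t → s ≤ A * (1 + x) →
      (1 - μ) * s - μ * t ≤ κ * (A + C) + 2 * μ * C := by
    intro s t hs ht hs2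
    have h1 : 0 ≤ s + C := by
      have : 0 ≤ c * x := by positivity
      linarith
    have h2 : (1 - μ) * (s + C) ≤ κ * (s + C) := mul_le_mul_of_nonneg_right (by linarith) h1
    have h3 : κ * (s + C) ≤ κ * (A * (1 + x) + C) := mul_le_mul_of_nonneg_left (by linarith) hκ.le
    have h4 : 3 / 4 * (c * x) ≤ μ * (t + C) := by
      have h5 : c * x ≤ t + C := by linarith
      have h6 : 0 ≤ c * x := by positivity
      calc 3 / 4 * (c * x) ≤ μ * (c * x) := mul_le_mul_of_nonneg_right hμ' h6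
        _ ≤ μ * (t + C) := mul_le_mul_of_nonneg_left h5 (by linarith)
    have h5 : κ * A * x ≤ 3 / 4 * c * x := mul_le_mul_of_nonneg_right hκA hx
    nlinarith
  have e1 : a ^ (-μ) = Real.exp (-μ * Real.log a) := by rw [Real.rpow_def_of_pos ha]; congr 1; ring
  have e2 : b ^ (-μ) = Real.exp (-μ * Real.log b) := by rw [Real.rpow_def_of_pos hb]; congr 1; ring
  have e3 : a = Real.exp (Real.log a) := (Real.exp_log ha).symm
  have e4 : b = Real.exp (Real.log b) := (Real.exp_log hb).symm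
  have h1 : d * (a ^ (-μ) * b ^ (-μ)) ≤ (a + b) * (a ^ (-μ) * b ^ (-μ)) :=
    mul_le_mul_of_nonneg_right hd (by positivity)
  have h2 : a * (a ^ (-μ) * b ^ (-μ)) ≤ Real.exp (κ * (A + C) + 2 * μ * C) := by
    rw [e1, e2]
    nth_rw 1 [e3]
    rw [← Real.exp_add, ← Real.exp_add, Real.exp_le_exp]
    have := key _ _ ha1 hb1 ha2
    linarith
  have h3 : b * (a ^ (-μ) * b ^ (-μ)) ≤ Real.exp (κ * (A + C) + 2 * μ * C) := by
    rw [e1, e2]
    nth_rw 1 [e4]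
    rw [← Real.exp_add, ← Real.exp_add, Real.exp_le_exp]
    have := key _ _ hb1 ha1 hb2
    linarith
  calc d * (a ^ (-μ) * b ^ (-μ)) ≤ (a + b) * (a ^ (-μ) * b ^ (-μ)) := h1
    _ = a * (a ^ (-μ) * b ^ (-μ)) + b * (a ^ (-μ) * b ^ (-μ)) := by ring
    _ ≤ _ := by linarith

theorem half_axis (h : Pair Q e) {C₀ c A : ℝ} (hC₀ : 0 < C₀) (hc : 0 < c) (hA : 0 < A) : ∃ W ε : ℝ, 4 ≤ W ∧ 0 < ε ∧ ε ≤ 1 / 2 ∧
    ∀ (σ ρ : ℝ) (f g : ℂ → EN (n + 2)), (σ = 1 ∨ σ = -1) → IsSec Q f (HP σ ρ) → IsSec Q g (HP σ ρ) →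
      (∀ z ∈ HP σ ρ, |z.re| * fs (f z) (deriv f z) ≤ C₀) → (∀ z ∈ HP σ ρ, |z.re| * fs (g z) (deriv g z) ≤ C₀) →
      (∀ z ∈ HP σ ρ, |z.re| ≤ 1 → c ≤ fs (f z) (deriv f z)) →
      (∀ z ∈ HP σ ρ, c * ‖f z‖ ^ (∑ j, (e j - 1)) ≤ ‖nv Q (f z)‖) →
      (∀ z ∈ HP σ ρ, Real.log ‖f z‖ ≤ A * (1 + |z.re|)) → (∀ z ∈ HP σ ρ, Real.log ‖g z‖ ≤ A * (1 + |z.re|)) →
      (∀ z ∈ HP σ ρ, |z.re| ≤ W → ‖g z - f z‖ ≤ ε * ‖f z‖) →
      ∀ z ∈ HP σ ρ, f z = g z := by
  obtain ⟨K, hK⟩ : ∃ K : ℕ, K = ∑ j, (e j - 1) := ⟨_, rfl⟩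
  obtain ⟨c₁, C₁', hc₁, hlow'⟩ := norm_lower h
  obtain ⟨gq, hgc, ⟨Cg', hCg'⟩, hgη, hgl⟩ := exists_gq h
  rw [← hK]
  rw [← hK] at hCg' hgη
  have hK2 : 2 ≤ K := by
    have h1 := h.deg
    have h2 : ∑ j, e j = ∑ j : Fin (n + 2), ((e j - 1) + 1) := by
      refine Finset.sum_congr rfl fun j _ => ?_
      have := h.pos j
      omega
    rw [h2, Finset.sum_add_distrib, ← hK] at h1
    simp at h1
    omega
  -- constants
  obtain ⟨C₁, hC₁⟩ : ∃ C₁ : ℝ, C₁ = |C₁'| := ⟨_, rfl⟩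
  have hC₁0 : 0 ≤ C₁ := hC₁ ▸ abs_nonneg _
  have hlow : ∀ (f : ℂ → EN (n + 2)) (U : Set ℂ), IsSec Q f U → ∀ z ∈ U, c₁ * |z.re| - C₁ ≤ Real.log ‖f z‖ := by
    intro f U hf z hz
    have h1 := (hlow' f U hf z hz).2
    have h2 := le_abs_self C₁'
    rw [← hC₁] at h2
    linarith
  obtain ⟨Cg, hCgdef⟩ : ∃ Cg : ℝ, Cg = |Cg'| + 1 := ⟨_, rfl⟩
  have hCg0 : 0 < Cg := by rw [hCgdef]; positivity
  have hCg : ∀ x y : EN (n + 2), ‖y - x‖ ≤ ‖x‖ → ‖gq x y‖ ≤ Cg * ‖x‖ ^ K := by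
    intro x y hxy
    refine (hCg' x y hxy).trans (mul_le_mul_of_nonneg_right ?_ (by positivity))
    rw [hCgdef]
    linarith [le_abs_self Cg']
  obtain ⟨ε₁, hε₁, hclose⟩ := hgη (c / 2) (by positivity)
  obtain ⟨κ, hκdef⟩ : ∃ κ : ℝ, κ = min (1 / 4) (c₁ / (2 * A)) := ⟨_, rfl⟩
  have hκ0 : 0 < κ := by rw [hκdef]; exact lt_min (by norm_num) (by positivity)
  have hκ1 : κ ≤ 1 / 4 := by rw [hκdef]; exact min_le_left _ _
  have hκA : κ * A ≤ 3 / 4 * c₁ := by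
    have h1 : κ ≤ c₁ / (2 * A) := by rw [hκdef]; exact min_le_right _ _
    rw [le_div_iff₀ (by positivity)] at h1
    nlinarith
  obtain ⟨μ, hμdef⟩ : ∃ μ : ℝ, μ = K / 2 - κ := ⟨_, rfl⟩
  have hKr : (2 : ℝ) ≤ K := by exact_mod_cast hK2
  have hμ1 : 1 - κ ≤ μ := by rw [hμdef]; linarith
  have hμ2 : 3 / 4 ≤ μ := by linarith
  obtain ⟨CN, hCN⟩ : ∃ CN : ℝ, CN = 2 * Real.log (2 ^ K * (Cg + 2 / c) + 1) := ⟨_, rfl⟩
  have hCNexp : 2 ^ K * (Cg + 2 / c) ≤ Real.exp (CN / 2) := by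
    rw [hCN, mul_div_cancel_left₀ _ (by norm_num : (2 : ℝ) ≠ 0), Real.exp_log (by positivity)]
    linarith
  have hCN0 : 0 < CN := by
    rw [hCN]
    have h1 : (0 : ℝ) < 2 ^ K * (Cg + 2 / c) := by positivity
    have := Real.log_pos (show (1 : ℝ) < 2 ^ K * (Cg + 2 / c) + 1 by linarith)
    linarith
  obtain ⟨g₀, hg₀⟩ : ∃ g₀ : ℝ, g₀ = κ * c ^ 2 := ⟨_, rfl⟩
  have hg₀0 : 0 < g₀ := by rw [hg₀]; positivity
  obtain ⟨C₂, hC₂⟩ : ∃ C₂ : ℝ, C₂ = 4 * μ * C₀ ^ 2 := ⟨_, rfl⟩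
  have hC₂0 : 0 < C₂ := by
    rw [hC₂]
    have : 0 < μ := by linarith
    positivity
  obtain ⟨W, hWdef⟩ : ∃ W : ℝ, W = 4 + 4 * CN / g₀ + 72 * C₂ / g₀ := ⟨_, rfl⟩
  have hW4 : 4 ≤ W := by
    rw [hWdef]
    have h1 : 0 < 4 * CN / g₀ := by positivity
    have h2 : 0 < 72 * C₂ / g₀ := by positivity
    linarith
  have hW0 : 0 < W := by linarith
  have hW1 : CN / W ≤ g₀ / 4 := by
    rw [div_le_iff₀ hW0]
    have h2 : 0 < 72 * C₂ / g₀ := by positivity
    have h3 : 4 * CN / g₀ ≤ W := by rw [hWdef]; linarith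
    rw [div_le_iff₀ hg₀0] at h3
    linarith
  have hW2 : 72 * C₂ ≤ g₀ * W := by
    have h2 : 0 < 4 * CN / g₀ := by positivity
    have h3 : 72 * C₂ / g₀ ≤ W := by rw [hWdef]; linarith
    rw [div_le_iff₀ hg₀0] at h3
    linarith
  refine ⟨W, min (1 / 2) ε₁, hW4, lt_min (by norm_num) hε₁, min_le_left _ _, ?_⟩
  intro σ ρ f g hσ hf hg hf1 hg1 hf2 hf3 hf4 hg4 hfg
  have hHo := ha_isOpen_HP σ ρ
  have hfa : ∀ z ∈ HP σ ρ, AnalyticAt ℂ f z := fun z hz => hf.1.analyticAt (hHo.mem_nhds hz)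
  have hga : ∀ z ∈ HP σ ρ, AnalyticAt ℂ g z := fun z hz => hg.1.analyticAt (hHo.mem_nhds hz)
  have hf0 : ∀ z ∈ HP σ ρ, 0 < ‖f z‖ := fun z hz => norm_pos_iff.mpr (ha_ne h hf hz)
  have hg0 : ∀ z ∈ HP σ ρ, 0 < ‖g z‖ := fun z hz => norm_pos_iff.mpr (ha_ne h hg hz)
  have hcl : ∀ z ∈ HP σ ρ, |z.re| ≤ W → ‖g z - f z‖ ≤ 1 / 2 * ‖f z‖ := fun z hz hzW =>
    (hfg z hz hzW).trans (mul_le_mul_of_nonneg_right (min_le_left _ _) (norm_nonneg _))
  have hw1 : ∀ z ∈ HP σ ρ, |z.re| ≤ W → c / 2 * ‖f z‖ ^ K ≤ ‖gq (f z) (g z)‖ := by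
    intro z hz hzW
    have h1 := hclose (f z) (g z) ((hfg z hz hzW).trans (mul_le_mul_of_nonneg_right (min_le_right _ _) (norm_nonneg _)))
    have h2 := hf3 z hz
    have h3 : ‖nv Q (f z)‖ ≤ ‖gq (f z) (g z)‖ + ‖gq (f z) (g z) - nv Q (f z)‖ := by
      have := norm_sub_norm_le (nv Q (f z)) (gq (f z) (g z))
      rw [norm_sub_rev] at this
      linarith
    linarith
  have hw2 : ∀ z ∈ HP σ ρ, |z.re| ≤ W → ‖gq (f z) (g z)‖ ≤ Cg * ‖f z‖ ^ K := by
    intro z hz hzW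
    refine hCg _ _ ((hcl z hz hzW).trans ?_)
    have := norm_nonneg (f z)
    linarith
  have hgn1 : ∀ z ∈ HP σ ρ, |z.re| ≤ W → ‖f z‖ / 2 ≤ ‖g z‖ := by
    intro z hz hzW
    have h1 := hcl z hz hzW
    have h2 := norm_sub_norm_le (f z) (g z)
    rw [norm_sub_rev] at h2
    linarith
  have hgn2 : ∀ z ∈ HP σ ρ, |z.re| ≤ W → ‖g z‖ ≤ 2 * ‖f z‖ := by
    intro z hz hzW
    have h1 := hcl z hz hzW
    have h2 := norm_sub_norm_le (g z) (f z)
    have h3 := norm_nonneg (f z)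
    linarith
  have hgq0 : ∀ z ∈ HP σ ρ, |z.re| ≤ W → gq (f z) (g z) ≠ 0 := by
    intro z hz hzW h0
    have h1 := hw1 z hz hzW
    rw [h0, norm_zero] at h1
    have h2 : 0 < c / 2 * ‖f z‖ ^ K := by
      have := hf0 z hz
      positivity
    linarith
  -- the functions
  obtain ⟨p₁, hp₁⟩ : ∃ p₁ : ℂ → ℝ, ∀ z, p₁ z = ‖g z - f z‖ / ‖gq (f z) (g z)‖ * (‖f z‖ ^ κ * ‖g z‖ ^ κ) := ⟨_, fun _ => rfl⟩
  obtain ⟨p₂, hp₂⟩ : ∃ p₂ : ℂ → ℝ, ∀ z, p₂ z = ‖g z - f z‖ * (‖f z‖ ^ (-μ) * ‖g z‖ ^ (-μ)) := ⟨_, fun _ => rfl⟩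
  have hp₁0 : ∀ z, 0 ≤ p₁ z := fun z => by rw [hp₁]; positivity
  have hp₂0 : ∀ z, 0 ≤ p₂ z := fun z => by rw [hp₂]; positivity
  have hcmp : ∀ z ∈ HP σ ρ, |z.re| ≤ W → p₁ z ≤ Real.exp (CN / 2) * p₂ z ∧ p₂ z ≤ Real.exp (CN / 2) * p₁ z := by
    intro z hz hzW
    rw [hp₁, hp₂]
    exact ha_cmp (hf0 z hz) (hgn1 z hz hzW) (hgn2 z hz hzW) (norm_nonneg _) hc (hw1 z hz hzW) (hw2 z hz hzW) hCg0 hCNexp
      (by rw [hμdef]; ring)
  obtain ⟨q₁, hq₁⟩ : ∃ q₁ : ℂ → ℝ, ∀ z, q₁ z = p₁ z * (Real.exp (3 * CN) * Real.exp (-(4 * CN / W) * sm z.re)) := ⟨_, fun _ => rfl⟩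
  have hq₁0 : ∀ z, 0 ≤ q₁ z := fun z => by
    rw [hq₁]
    exact mul_nonneg (hp₁0 z) (by positivity)
  have hκW : 0 ≤ 4 * CN / W := by positivity
  -- comparison of q₁ and p₂
  have hsmall : ∀ z ∈ HP σ ρ, |z.re| ≤ W / 2 → p₂ z ≤ q₁ z := by
    intro z hz hzW
    have h1 := (hcmp z hz (by linarith)).2
    have h2 : Real.exp (CN / 2) ≤ Real.exp (3 * CN) * Real.exp (-(4 * CN / W) * sm z.re) := by
      rw [← Real.exp_add, Real.exp_le_exp]
      have h3 := sm_le_abs_add z.re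
      have h4 : sm z.re ≤ 5 / 8 * W := by linarith
      have h5 : 4 * CN / W * sm z.re ≤ 4 * CN / W * (5 / 8 * W) := mul_le_mul_of_nonneg_left h4 hκW
      have h6 : 4 * CN / W * (5 / 8 * W) = 5 / 2 * CN := by field_simp; ring
      linarith
    rw [hq₁]
    calc p₂ z ≤ Real.exp (CN / 2) * p₁ z := h1
      _ = p₁ z * Real.exp (CN / 2) := mul_comm _ _
      _ ≤ _ := mul_le_mul_of_nonneg_left h2 (hp₁0 z)
  have hlarge : ∀ z ∈ HP σ ρ, 7 / 8 * W ≤ |z.re| → |z.re| ≤ W → q₁ z ≤ p₂ z := by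
    intro z hz hz7 hzW
    have h1 := (hcmp z hz hzW).1
    have h2 : Real.exp (CN / 2) * (Real.exp (3 * CN) * Real.exp (-(4 * CN / W) * sm z.re)) ≤ 1 := by
      rw [← Real.exp_add, ← Real.exp_add, Real.exp_le_one_iff]
      have h3 := abs_le_sm z.re
      have h5 : 4 * CN / W * (7 / 8 * W) ≤ 4 * CN / W * sm z.re := mul_le_mul_of_nonneg_left (by linarith) hκW
      have h6 : 4 * CN / W * (7 / 8 * W) = 7 / 2 * CN := by field_simp; ring
      linarith
    rw [hq₁]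
    calc p₁ z * (Real.exp (3 * CN) * Real.exp (-(4 * CN / W) * sm z.re))
        ≤ (Real.exp (CN / 2) * p₂ z) * (Real.exp (3 * CN) * Real.exp (-(4 * CN / W) * sm z.re)) :=
          mul_le_mul_of_nonneg_right h1 (by positivity)
      _ = (Real.exp (CN / 2) * (Real.exp (3 * CN) * Real.exp (-(4 * CN / W) * sm z.re))) * p₂ z := by ring
      _ ≤ 1 * p₂ z := mul_le_mul_of_nonneg_right h2 (hp₂0 z)
      _ = p₂ z := one_mul _
  have hq₁C : ∀ z ∈ HP σ ρ, |z.re| ≤ W → q₁ z ≤ Real.exp (4 * CN) * p₂ z := by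
    intro z hz hzW
    have h1 := (hcmp z hz hzW).1
    have h2 : Real.exp (CN / 2) * (Real.exp (3 * CN) * Real.exp (-(4 * CN / W) * sm z.re)) ≤ Real.exp (4 * CN) := by
      rw [← Real.exp_add, ← Real.exp_add, Real.exp_le_exp]
      have h3 := (abs_nonneg z.re).trans (abs_le_sm z.re)
      have h5 : 0 ≤ 4 * CN / W * sm z.re := mul_nonneg hκW h3
      linarith
    rw [hq₁]
    calc p₁ z * (Real.exp (3 * CN) * Real.exp (-(4 * CN / W) * sm z.re))
        ≤ (Real.exp (CN / 2) * p₂ z) * (Real.exp (3 * CN) * Real.exp (-(4 * CN / W) * sm z.re)) :=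
          mul_le_mul_of_nonneg_right h1 (by positivity)
      _ = (Real.exp (CN / 2) * (Real.exp (3 * CN) * Real.exp (-(4 * CN / W) * sm z.re))) * p₂ z := by ring
      _ ≤ _ := mul_le_mul_of_nonneg_right h2 (hp₂0 z)
  obtain ⟨v, hv⟩ : ∃ v : ℂ → ℝ, ∀ z, v z = if |z.re| < W then max (q₁ z) (p₂ z) else p₂ z := ⟨_, fun _ => rfl⟩
  have hvp₂ : ∀ z, p₂ z ≤ v z := by
    intro z
    rw [hv]
    split_ifs
    · exact le_max_right _ _
    · exact le_rfl
  have hvlt : ∀ z, |z.re| < W → v z = max (q₁ z) (p₂ z) := fun z hz => by rw [hv, if_pos hz]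
  have hvlarge : ∀ z ∈ HP σ ρ, 7 / 8 * W ≤ |z.re| → v z = p₂ z := by
    intro z hz hz7
    rw [hv]
    split_ifs with h1
    · exact max_eq_right (hlarge z hz hz7 h1.le)
    · rfl
  have hvsmall : ∀ z ∈ HP σ ρ, |z.re| ≤ W / 2 → v z = q₁ z := by
    intro z hz hz2
    rw [hvlt z (by linarith)]
    exact max_eq_left (hsmall z hz hz2)
  have hre : Continuous fun z : ℂ => |z.re| := Complex.continuous_re.abs
  -- continuity
  have hp₂c : ∀ z ∈ HP σ ρ, ContinuousAt p₂ z := by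
    intro z hz
    have e1 : p₂ = fun z => ‖g z - f z‖ * (‖f z‖ ^ (-μ) * ‖g z‖ ^ (-μ)) := funext hp₂
    rw [e1]
    have hfc := (hfa z hz).continuousAt
    have hgc' := (hga z hz).continuousAt
    exact (hgc'.sub hfc).norm.mul ((hfc.norm.rpow_const (Or.inl (hf0 z hz).ne')).mul
      (hgc'.norm.rpow_const (Or.inl (hg0 z hz).ne')))
  have hq₁c : ∀ z ∈ HP σ ρ, |z.re| < W → ContinuousAt q₁ z := by
    intro z hz hzW
    have e1 : q₁ = fun z => (‖g z - f z‖ / ‖gq (f z) (g z)‖ * (‖f z‖ ^ κ * ‖g z‖ ^ κ)) *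
        (Real.exp (3 * CN) * Real.exp (-(4 * CN / W) * sm z.re)) := by
      funext z
      rw [hq₁, hp₁]
    rw [e1]
    have hfc := (hfa z hz).continuousAt
    have hgc' := (hga z hz).continuousAt
    have hgqc : ContinuousAt (fun z => gq (f z) (g z)) z :=
      (hgc.continuousAt (x := (f z, g z))).comp (f := fun z => (f z, g z)) (hfc.prodMk hgc')
    refine ContinuousAt.mul ?_ ?_
    · exact ((hgc'.sub hfc).norm.div hgqc.norm (norm_ne_zero_iff.mpr (hgq0 z hz hzW.le))).mul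
        ((hfc.norm.rpow_const (Or.inl (hf0 z hz).ne')).mul (hgc'.norm.rpow_const (Or.inl (hg0 z hz).ne')))
    · exact (continuous_const.mul (Real.continuous_exp.comp (continuous_const.mul
        (continuous_sm.comp Complex.continuous_re)))).continuousAt
  have hvc : ContinuousOn v (HP σ ρ) := by
    intro z hz
    refine ContinuousAt.continuousWithinAt ?_
    by_cases hzW : |z.re| < W
    · have h1 : v =ᶠ[𝓝 z] fun z => max (q₁ z) (p₂ z) := by
        filter_upwards [(isOpen_lt hre continuous_const).mem_nhds hzW] with w hw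
        exact hvlt w hw
      have h2 : ContinuousAt (fun z => max (q₁ z) (p₂ z)) z := Filter.Tendsto.max (hq₁c z hz hzW) (hp₂c z hz)
      exact h2.congr h1.symm
    · have h2 : 7 / 8 * W < |z.re| := by
        rw [not_lt] at hzW
        linarith
      have h1 : v =ᶠ[𝓝 z] p₂ := by
        filter_upwards [(isOpen_lt continuous_const hre).mem_nhds h2, hHo.mem_nhds hz] with w hw hw2
        exact hvlarge w hw2 (le_of_lt hw)
      exact (hp₂c z hz).congr h1.symm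
  -- bound
  obtain ⟨E, hE⟩ : ∃ E : ℝ, E = κ * (A + C₁) + 2 * μ * C₁ := ⟨_, rfl⟩
  have hp₂C : ∀ z ∈ HP σ ρ, p₂ z ≤ 2 * Real.exp E := by
    intro z hz
    rw [hp₂, hE]
    refine ha_bound (x := |z.re|) (hf0 z hz) (hg0 z hz) ?_ hC₁0 hc₁ hκ0 hκA hμ1 hμ2 (hlow f _ hf z hz) (hlow g _ hg z hz)
      (hf4 z hz) (hg4 z hz) (abs_nonneg _)
    have h5 := norm_sub_le (g z) (f z)
    linarith
  have hvC : ∀ z ∈ HP σ ρ, v z ≤ Real.exp (4 * CN + E + Real.log 2) := by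
    intro z hz
    have h2 : Real.exp (4 * CN + E + Real.log 2) = Real.exp (4 * CN) * (2 * Real.exp E) := by
      rw [Real.exp_add, Real.exp_add, Real.exp_log (by norm_num)]
      ring
    have h3 : 1 ≤ Real.exp (4 * CN) := Real.one_le_exp (by positivity)
    have h4 := hp₂C z hz
    have h5 := hp₂0 z
    have h6 : p₂ z ≤ Real.exp (4 * CN) * (2 * Real.exp E) := by
      have : (0 : ℝ) < 2 * Real.exp E := by positivity
      nlinarith
    rw [hv, h2]
    split_ifs with h1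
    · refine max_le ?_ h6
      exact (hq₁C z hz h1.le).trans (mul_le_mul_of_nonneg_left h4 (by positivity))
    · exact h6
  -- supports
  have hfsn : ∀ x v : EN (n + 2), 0 ≤ fs x v := fun x v => Pool.Agent.H36.BP.fs_nonneg x v
  have hsub₂ : ∀ z ∈ HP σ ρ, 0 < |z.re| → 0 < p₂ z → Sub p₂ z (-(C₂ / (4 * z.re ^ 2))) := by
    intro z hz hx hp
    have hD0 : g z - f z ≠ 0 := by
      intro h0
      rw [hp₂, h0, norm_zero, zero_mul] at hp
      exact lt_irrefl _ hp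
    have hDa : AnalyticAt ℂ (fun z => g z - f z) z := (hga z hz).sub (hfa z hz)
    have s1 := Sub.norm_rpow hDa hD0 1
    have s2 := Sub.norm_rpow (hfa z hz) (norm_pos_iff.mp (hf0 z hz)) (-μ)
    have s3 := Sub.norm_rpow (hga z hz) (norm_pos_iff.mp (hg0 z hz)) (-μ)
    have s4 := s1.mul (s2.mul s3)
    have s5 := s4.congr (v := p₂) (Filter.Eventually.of_forall fun w => by
      rw [hp₂, Real.rpow_one])
    refine s5.anti ?_
    have hx2 : 0 < z.re ^ 2 := by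
      rw [← sq_abs]
      positivity
    have k1 : ∀ t : ℝ, 0 ≤ t → |z.re| * t ≤ C₀ → t ^ 2 ≤ C₀ ^ 2 / z.re ^ 2 := by
      intro t ht htC
      rw [le_div_iff₀ hx2]
      have h1 : (|z.re| * t) ^ 2 ≤ C₀ ^ 2 := pow_le_pow_left₀ (by positivity) htC 2
      rw [mul_pow, sq_abs] at h1
      linarith
    have k2 := k1 _ (hfsn _ _) (hf1 z hz)
    have k3 := k1 _ (hfsn _ _) (hg1 z hz)
    have k4 : C₂ / (4 * z.re ^ 2) = μ * (C₀ ^ 2 / z.re ^ 2) := by
      rw [hC₂]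
      field_simp
    rw [k4]
    have hμ0 : 0 ≤ μ := by linarith
    have k5 := mul_le_mul_of_nonneg_left k2 hμ0
    have k6 := mul_le_mul_of_nonneg_left k3 hμ0
    have k7 : 0 ≤ 1 * fs (g z - f z) (deriv (fun z => g z - f z) z) ^ 2 / 2 := by positivity
    linarith
  have hsub₁ : ∀ z ∈ HP σ ρ, |z.re| < W → 0 < q₁ z → ∀ d : ℝ,
      Sub (fun z => Real.exp (-(4 * CN / W) * sm z.re)) z d →
      Sub q₁ z (κ * fs (f z) (deriv f z) ^ 2 / 2 + d) := by
    intro z hz hzW hq d hd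
    obtain ⟨l, hl, hle⟩ := hgl f g z (hfa z hz) (hga z hz) (by
      filter_upwards [hHo.mem_nhds hz] with w hw j
      have h1 := hf.2 w hw
      have h2 := hg.2 w hw
      by_cases hj : 2 ≤ (j : ℕ)
      · rw [h1.2.2 j hj, h2.2.2 j hj]
      · have h3 : j = 0 ∨ j = 1 := by
          rcases Nat.lt_or_ge (j : ℕ) 1 with h4 | h4
          · left
            exact Fin.ext (by rw [Fin.val_zero]; omega)
          · right
            exact Fin.ext (by rw [Fin.val_one]; omega)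
        rcases h3 with rfl | rfl
        · rw [h1.1, h2.1]
        · rw [h1.2.1, h2.2.1]) (hgq0 z hz hzW.le)
    have hlz : l z ≠ 0 := by
      intro h0
      have h1 := hle.self_of_nhds
      rw [h0, zero_smul] at h1
      rw [hq₁, hp₁, h1, norm_zero, zero_div, zero_mul, zero_mul] at hq
      exact lt_irrefl _ hq
    have s1 := Sub.of_holo hl hlz
    have s2 := Sub.norm_rpow (hfa z hz) (norm_pos_iff.mp (hf0 z hz)) κ
    have s3 := Sub.norm_rpow (hga z hz) (norm_pos_iff.mp (hg0 z hz)) κ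
    have s4 := (s1.mul (s2.mul s3)).mul ((Sub.const (Real.exp_pos (3 * CN)) z).mul hd)
    have s5 := s4.congr (v := q₁) (by
      filter_upwards [hle, hHo.mem_nhds hz, (isOpen_lt hre continuous_const).mem_nhds hzW] with w hw hw1 hw2
      rw [hq₁, hp₁, hw, norm_smul, mul_div_cancel_right₀ _ (norm_ne_zero_iff.mpr (hgq0 w hw1 (le_of_lt hw2)))])
    refine s5.anti ?_
    have k7 : 0 ≤ κ * fs (g z) (deriv g z) ^ 2 / 2 := by positivity
    linarith
  have hbar := barrier (W := W) (v := v) hg₀0 hC₂0 (by linarith) hW2 hσ hvc (fun z hz => (hp₂0 z).trans (hvp₂ z)) hvC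
    (fun z hz hvz hx => by
      have h1 : |z.re| ≤ W / 2 := by linarith
      have h2 := hvsmall z hz h1
      have h3 : |z.re| < W := by linarith
      have s1 := hsub₁ z hz h3 (by rw [← h2]; exact hvz) _ (sub_exp_sm_neg hκW hx)
      have s2 := s1.mono (v := v) h2.symm (by
        filter_upwards [(isOpen_lt hre continuous_const).mem_nhds h3] with w hw
        rw [hvlt w hw]
        exact le_max_left _ _)
      refine s2.anti ?_
      have h4 := hf2 z hz hx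
      have h5 : c ^ 2 ≤ fs (f z) (deriv f z) ^ 2 := pow_le_pow_left₀ hc.le h4 2
      have h6 : κ * c ^ 2 ≤ κ * fs (f z) (deriv f z) ^ 2 := mul_le_mul_of_nonneg_left h5 hκ0.le
      have h7 : -(4 * CN / W) / 4 = -(CN / W) := by ring
      rw [h7]
      linarith)
    (fun z hz hvz hx1 hx2 => by
      have h2 := hvsmall z hz hx2.le
      have h3 : |z.re| < W := by linarith
      have s1 := hsub₁ z hz h3 (by rw [← h2]; exact hvz) _ (sub_exp_sm_neg' hκW hx1)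
      have s2 := s1.mono (v := v) h2.symm (by
        filter_upwards [(isOpen_lt hre continuous_const).mem_nhds h3] with w hw
        rw [hvlt w hw]
        exact le_max_left _ _)
      refine s2.anti ?_
      have h4 : 0 ≤ κ * fs (f z) (deriv f z) ^ 2 / 2 := by positivity
      have h5 : 0 ≤ C₂ / W ^ 2 := by positivity
      linarith)
    (fun z hz hvz hx => by
      have hx0 : 0 < |z.re| := by linarith
      have hx2 : 0 < z.re ^ 2 := by
        rw [← sq_abs]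
        positivity
      have hneg : -(C₂ / (4 * z.re ^ 2)) ≤ 0 := by
        have : 0 ≤ C₂ / (4 * z.re ^ 2) := by positivity
        linarith
      by_cases hzW : |z.re| < W
      · by_cases hqp : p₂ z ≤ q₁ z
        · have h2 : v z = q₁ z := by rw [hvlt z hzW]; exact max_eq_left hqp
          have s1 := hsub₁ z hz hzW (by rw [← h2]; exact hvz) _ (sub_exp_sm_neg' hκW (by linarith))
          have s2 := s1.mono (v := v) h2.symm (by
            filter_upwards [(isOpen_lt hre continuous_const).mem_nhds hzW] with w hw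
            rw [hvlt w hw]
            exact le_max_left _ _)
          refine s2.anti ?_
          have h4 : 0 ≤ κ * fs (f z) (deriv f z) ^ 2 / 2 := by positivity
          linarith
        · have h2 : v z = p₂ z := by rw [hvlt z hzW]; exact max_eq_right (le_of_lt (not_le.mp hqp))
          exact (hsub₂ z hz hx0 (by rw [← h2]; exact hvz)).mono h2.symm (Filter.Eventually.of_forall hvp₂)
      · have h2 : v z = p₂ z := by rw [hv, if_neg hzW]
        exact (hsub₂ z hz hx0 (by rw [← h2]; exact hvz)).mono h2.symm (Filter.Eventually.of_forall hvp₂))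
  -- conclusion
  have haxis : ∀ y : ℝ, ρ < σ * y → f (y * Complex.I) = g (y * Complex.I) := by
    intro y hy
    have h1 := hbar y hy
    have hz : (y * Complex.I : ℂ) ∈ HP σ ρ := by
      show ρ < σ * (y * Complex.I : ℂ).im
      simpa using hy
    have h2 : p₂ (y * Complex.I) = 0 := le_antisymm ((hvp₂ _).trans h1.le) (hp₂0 _)
    rw [hp₂] at h2
    have h3 : 0 < ‖f (y * Complex.I)‖ ^ (-μ) * ‖g (y * Complex.I)‖ ^ (-μ) :=
      mul_pos (Real.rpow_pos_of_pos (hf0 _ hz) _) (Real.rpow_pos_of_pos (hg0 _ hz) _)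
    rcases mul_eq_zero.mp h2 with h4 | h4
    · exact (sub_eq_zero.mp (norm_eq_zero.mp h4)).symm
    · exact absurd h4 h3.ne'
  have hconv : IsPreconnected (HP σ ρ) := by
    have : Convex ℝ (HP σ ρ) := by
      have h1 : HP σ ρ = (fun z : ℂ => σ * z.im) ⁻¹' Set.Ioi ρ := rfl
      rw [h1]
      refine Convex.is_linear_preimage (convex_Ioi ρ) ⟨fun x y => ?_, fun c x => ?_⟩
      · simp; ring
      · simp; ring
    exact this.isPreconnected
  have hσ0 : σ ≠ 0 := by rcases hσ with rfl | rfl <;> norm_num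
  have hσσ : σ * σ = 1 := by rcases hσ with rfl | rfl <;> norm_num
  obtain ⟨z₀, hz₀⟩ : ∃ z₀ : ℂ, z₀ = ((σ * (ρ + 1) : ℝ) : ℂ) * Complex.I := ⟨_, rfl⟩
  have hz₀H : z₀ ∈ HP σ ρ := by
    show ρ < σ * z₀.im
    rw [hz₀]
    simp
    have : σ * (σ * (ρ + 1)) = ρ + 1 := by rw [← mul_assoc, hσσ, one_mul]
    rw [this]
    linarith
  have hfA : AnalyticOnNhd ℂ f (HP σ ρ) := fun z hz => hfa z hz
  have hgA : AnalyticOnNhd ℂ g (HP σ ρ) := fun z hz => hga z hz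
  have hfreq : ∃ᶠ z in 𝓝[≠] z₀, f z = g z := by
    have h1 : Tendsto (fun t : ℝ => z₀ + (t : ℂ) * Complex.I) (𝓝[>] 0) (𝓝[≠] z₀) := by
      refine tendsto_nhdsWithin_iff.mpr ⟨?_, ?_⟩
      · have h2 : Continuous fun t : ℝ => z₀ + (t : ℂ) * Complex.I := by fun_prop
        have h3 := h2.tendsto 0
        simp only [Complex.ofReal_zero, zero_mul, add_zero] at h3
        exact h3.mono_left nhdsWithin_le_nhds
      · filter_upwards [self_mem_nhdsWithin] with t ht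
        simp only [Set.mem_compl_iff, Set.mem_singleton_iff, add_eq_left, mul_eq_zero, Complex.ofReal_eq_zero, Complex.I_ne_zero, or_false]
        exact (Set.mem_Ioi.mp ht).ne'
    refine h1.frequently ?_
    have h2 : ∀ᶠ t : ℝ in 𝓝[>] 0, z₀ + (t : ℂ) * Complex.I ∈ HP σ ρ := by
      have h3 := h1.mono_right nhdsWithin_le_nhds
      exact h3.eventually (hHo.mem_nhds hz₀H)
    refine (h2.mono fun t ht => ?_).frequently
    have h4 : z₀ + (t : ℂ) * Complex.I = ((σ * (ρ + 1) + t : ℝ) : ℂ) * Complex.I := by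
      rw [hz₀]
      push_cast
      ring
    rw [h4] at ht ⊢
    refine haxis _ ?_
    have h5 : ρ < σ * (((σ * (ρ + 1) + t : ℝ) : ℂ) * Complex.I).im := ht
    simpa using h5
  exact fun z hz => hfA.eqOn_of_preconnected_of_frequently_eq hgA hconv hz₀H hfreq hz

end Pool.Agent.TC
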