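import Pool.Agent.H17LG.Main
import Pool.Agent.H17LG.ModLFREE
import Pool.Agent.H17LG.Variety
import Pool.Agent.H17LG.Translate

/-!
# TC LgtA: smooth pairs of dimension `n + 1` with ample log canonical bundle are of log general type

`subst hN`.  `exists_point_log P z hz` gives the generic point `x` (`x ≠ 0`, `hgen`, `aeval x G = 0 ↔ G ∈ P` for forms, `x i = 0 ↔ coordFun P i = 0`, `x i / x j = ratio P i j`), `pairCertificate_of_smoothPair hsm` the certificate.
Then `isLogGeneralType_of_top` gives the second part for `OnBdry x H`, `onBdry_iff` for `OnBoundary P H` (of `H17LG.Defs`), and `isLogGeneralType_translate` (file `H17LG/Translate.lean`; `fun E => Iff.rfl`, see `allLogGeneralType_translate`) the statement in terms of `H17LG.Variety`.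
(`Algebra.EssFiniteType ℂ (functionField P)`: see how `H17LG/Main.lean` gets this instance.)  The first part: `k + 2 ≤ finrank (ker (jac G x)) = n + 2`, see the proof of `isLogGeneralType_of_top` (copy the private lemmas `free_exists_der`, `free_linearIndependent`, `free_finrank_ker`,
`free_jac_self`, `free_jac_der` of `H17LG/ModLFREE.lean` under new names; only the forms `G` and `certificate_of_pair` are used).
-/

set_option autoImplicit false

open MvPolynomial
open Pool.Agent.H17LG.Variety (FunField IsLogGeneralType OnBoundary)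
open Pool.Agent.H79.Log (SmoothPair)

namespace Pool.Agent.TC

open Pool.Agent.H17GT (jac Certificate)

section Copy

variable {K : Type} [Field K] [Algebra ℂ K]

private lemma lgtA_sum_apply {ι : Type*} (s : Finset ι) (F : ι → Derivation ℂ K K) (f : K) :
    (∑ i ∈ s, F i) f = ∑ i ∈ s, F i f := by
  classical
  induction s using Finset.induction_on with
  | empty => rfl
  | insert a s ha ih =>
    rw [Finset.sum_insert ha, Finset.sum_insert ha, Derivation.add_apply, ih]

private lemma lgtA_exists_der {k : ℕ} {z : Fin (k + 1) → K} (hz : IsTranscendenceBasis ℂ z) :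
    ∃ δ : Fin (k + 1) → Derivation ℂ K K, ∀ b : Fin (k + 1) → K,
      ∑ j, b j • δ j = 0 → b = 0 := by
  obtain ⟨B, hB⟩ := Pool.Agent.H23.exists_basis_kaehler hz
  refine ⟨fun i => Pool.Agent.H23.dualDer B i, fun b hb => ?_⟩
  funext j
  have h1 : (∑ i, b i • Pool.Agent.H23.dualDer B i) (z j) = 0 := by
    rw [hb]
    rfl
  have h2 : (∑ i, b i • Pool.Agent.H23.dualDer B i) (z j) = ∑ i, b i * Pool.Agent.H23.dualDer B i (z j) := by
    rw [lgtA_sum_apply]
    rfl
  rw [h2, Finset.sum_eq_single j] at h1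
  · rw [Pool.Agent.H23.dualDer_coord B hB, if_pos rfl, mul_one] at h1
    exact h1
  · intro i _ hij
    rw [Pool.Agent.H23.dualDer_coord B hB, if_neg hij, mul_zero]
  · intro h
    exact absurd (Finset.mem_univ j) h

private lemma lgtA_aeval_pderiv {N : ℕ} (D : Derivation ℂ K K) (x : Fin (N + 1) → K)
    (G : MvPolynomial (Fin (N + 1)) ℂ) :
    ∑ i, aeval x (pderiv i G) * D (x i) = D (aeval x G) := by
  induction G using MvPolynomial.induction_on with
  | C a =>
    rw [aeval_C, D.map_algebraMap]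
    refine Finset.sum_eq_zero fun i _ => ?_
    rw [pderiv_C, map_zero, zero_mul]
  | add p q hp hq =>
    rw [map_add, map_add, ← hp, ← hq, ← Finset.sum_add_distrib]
    refine Finset.sum_congr rfl fun i _ => ?_
    rw [map_add, map_add, add_mul]
  | mul_X p j hp =>
    rw [map_mul, aeval_X, D.leibniz, ← hp, smul_eq_mul, smul_eq_mul, Finset.mul_sum]
    have h1 : ∀ i, aeval x (pderiv i (p * X j)) * D (x i) =
        (if i = j then aeval x p * D (x j) else 0) + x j * (aeval x (pderiv i p) * D (x i)) := by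
      intro i
      rw [Derivation.leibniz, map_add, smul_eq_mul, smul_eq_mul, map_mul, map_mul, aeval_X,
        pderiv_X]
      by_cases hij : i = j
      · subst hij
        simp
        ring
      · rw [if_neg hij, Pi.single_eq_of_ne (fun h => hij h.symm)]
        simp
        ring
    rw [Finset.sum_congr rfl fun i _ => h1 i, Finset.sum_add_distrib, Finset.sum_ite_eq',
      if_pos (Finset.mem_univ j)]

private lemma lgtA_jac_apply {N c : ℕ} (G : Fin c → MvPolynomial (Fin (N + 1)) ℂ)
    (x v : Fin (N + 1) → K) (l : Fin c) :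
    jac G x v l = ∑ i, aeval x (pderiv i (G l)) * v i := rfl

private lemma lgtA_jac_der {N c : ℕ} {G : Fin c → MvPolynomial (Fin (N + 1)) ℂ}
    {x : Fin (N + 1) → K} (hGx : ∀ l, aeval x (G l) = 0) (D : Derivation ℂ K K) :
    jac G x (fun i => D (x i)) = 0 := by
  funext l
  rw [lgtA_jac_apply, lgtA_aeval_pderiv, hGx l, map_zero]
  rfl

private lemma lgtA_jac_self {N c : ℕ} {d : Fin c → ℕ} {G : Fin c → MvPolynomial (Fin (N + 1)) ℂ}
    (hG : ∀ l, (G l).IsHomogeneous (d l)) {x : Fin (N + 1) → K}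
    (hGx : ∀ l, aeval x (G l) = 0) : jac G x x = 0 := by
  funext l
  have h1 := congrArg (aeval x) (hG l).sum_X_mul_pderiv
  rw [map_sum, map_nsmul, hGx l, smul_zero] at h1
  rw [lgtA_jac_apply]
  refine Eq.trans (Finset.sum_congr rfl fun i _ => ?_) h1
  rw [map_mul, aeval_X, mul_comm]

private lemma lgtA_jac_surjective {N c : ℕ} {G : Fin c → MvPolynomial (Fin (N + 1)) ℂ}
    (hcert : Certificate G) {x : Fin (N + 1) → K} (hx : x ≠ 0)
    (hGx : ∀ l, aeval x (G l) = 0) : Function.Surjective (jac G x) := by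
  classical
  obtain ⟨j, hj⟩ : ∃ j, x j ≠ 0 := by
    by_contra hcon
    push Not at hcon
    exact hx (funext hcon)
  obtain ⟨M, A, B, hAB⟩ := hcert j
  have h1 := congrArg (aeval x) hAB
  rw [map_pow, aeval_X, map_add, map_sum, map_sum, Finset.sum_eq_zero, zero_add] at h1
  · have h2 : ∑ I : Fin c → Fin (N + 1), aeval x (B I * Matrix.det (Matrix.of fun l m =>
        pderiv (I m) (G l))) ≠ 0 := by
      rw [← h1]
      exact pow_ne_zero _ hj
    obtain ⟨I, -, hI⟩ := Finset.exists_ne_zero_of_sum_ne_zero h2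
    rw [map_mul] at hI
    have h3 : aeval x (Matrix.det (Matrix.of fun l m => pderiv (I m) (G l))) ≠ 0 :=
      right_ne_zero_of_mul hI
    rw [AlgHom.map_det] at h3
    set Q : Matrix (Fin c) (Fin c) K := Matrix.of fun l m => aeval x (pderiv (I m) (G l)) with hQ
    have h4 : Q.det ≠ 0 := by
      have h7 : Q = (aeval x : MvPolynomial (Fin (N + 1)) ℂ →ₐ[ℂ] K).mapMatrix
          (Matrix.of fun l m => pderiv (I m) (G l)) := by
        ext l m
        rfl
      rw [h7]
      exact h3
    have h5 : IsUnit Q.det := isUnit_iff_ne_zero.2 h4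
    intro y
    refine ⟨∑ m, (Q⁻¹.mulVec y) m • Pi.single (I m) (1 : K), ?_⟩
    rw [map_sum]
    funext l
    rw [Finset.sum_apply]
    have h6 : ∀ m, (jac G x ((Q⁻¹.mulVec y) m • Pi.single (I m) (1 : K))) l =
        Q l m * (Q⁻¹.mulVec y) m := by
      intro m
      rw [map_smul, Pi.smul_apply, smul_eq_mul, mul_comm]
      congr 1
      rw [lgtA_jac_apply, Finset.sum_eq_single (I m)]
      · rw [Pi.single_eq_same, mul_one]
        rfl
      · intro i _ hi
        rw [Pi.single_eq_of_ne hi, mul_zero]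
      · intro h
        exact absurd (Finset.mem_univ _) h
    rw [Finset.sum_congr rfl fun m _ => h6 m]
    change (Q.mulVec (Q⁻¹.mulVec y)) l = y l
    rw [Matrix.mulVec_mulVec, Matrix.mul_nonsing_inv Q h5, Matrix.one_mulVec]
  · intro l _
    rw [map_mul, hGx l, mul_zero]

private lemma lgtA_finrank_ker {N c : ℕ} {G : Fin c → MvPolynomial (Fin (N + 1)) ℂ}
    (hcert : Certificate G) {x : Fin (N + 1) → K} (hx : x ≠ 0)
    (hGx : ∀ l, aeval x (G l) = 0) :
    c + Module.finrank K (LinearMap.ker (jac G x)) = N + 1 := by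
  have h1 := LinearMap.finrank_range_add_finrank_ker (jac G x)
  rw [LinearMap.range_eq_top.2 (lgtA_jac_surjective hcert hx hGx), finrank_top] at h1
  simpa using h1

private lemma lgtA_linearIndependent {N k : ℕ} {x : Fin (N + 1) → K} (hx : x ≠ 0)
    (hgen : IntermediateField.adjoin ℂ {y | ∃ i j, y = x i / x j} = ⊤)
    {δ : Fin (k + 1) → Derivation ℂ K K}
    (hδ : ∀ b : Fin (k + 1) → K, ∑ j, b j • δ j = 0 → b = 0) :
    LinearIndependent K (Sum.elim (fun _ : Unit => x) fun i j => δ i (x j)) := by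
  rw [Fintype.linearIndependent_iff]
  intro g hg
  rw [Fintype.sum_sum_type] at hg
  simp only [Finset.univ_unique, Finset.sum_singleton, Sum.elim_inl, Sum.elim_inr] at hg
  set a : K := g (Sum.inl default) with ha
  set b : Fin (k + 1) → K := fun i => g (Sum.inr i) with hb
  set D : Derivation ℂ K K := ∑ j, b j • δ j with hD
  have hDapp : ∀ f, D f = ∑ j, b j * δ j f := by
    intro f
    rw [hD, lgtA_sum_apply]
    rfl
  have hDx : ∀ i, D (x i) = -a * x i := by
    intro i
    have h1 := congrFun hg i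
    rw [Pi.add_apply, Finset.sum_apply] at h1
    simp only [Pi.smul_apply, smul_eq_mul, Pi.zero_apply] at h1
    rw [hDapp]
    linear_combination h1
  have hD0 : D = 0 := by
    ext f
    have hf : f ∈ IntermediateField.adjoin ℂ {y | ∃ i j, y = x i / x j} := by
      rw [hgen]
      exact IntermediateField.mem_top
    induction hf using IntermediateField.adjoin_induction with
    | mem y hy =>
      obtain ⟨i, j, rfl⟩ := hy
      rw [D.leibniz_div, hDx, hDx]
      simp only [smul_eq_mul, Derivation.coe_zero, Pi.zero_apply]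
      ring
    | algebraMap c =>
      rw [D.map_algebraMap]
      rfl
    | add y y' _ _ h1 h2 =>
      rw [map_add, h1, h2]
      simp
    | inv y _ h1 =>
      rw [D.leibniz_inv, h1]
      simp
    | mul y y' _ _ h1 h2 =>
      rw [D.leibniz, h1, h2]
      simp
  have hb0 : b = 0 := hδ b hD0
  have ha0 : a = 0 := by
    by_contra hne
    apply hx
    funext i
    have h1 := hDx i
    rw [hD0, Derivation.coe_zero, Pi.zero_apply] at h1
    have h2 : a * x i = 0 := by linear_combination h1
    exact (mul_eq_zero.1 h2).resolve_left hne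
  rintro (u | i)
  · exact ha0
  · exact congrFun hb0 i

end Copy

private lemma lgtA_core {n c b : ℕ} {d : Fin c → ℕ} {δ : Fin b → ℕ} (hd : ∀ l, 1 ≤ d l)
    {G : Fin c → MvPolynomial (Fin (n + 1 + c + 1)) ℂ} {H : Fin b → MvPolynomial (Fin (n + 1 + c + 1)) ℂ} (hG : ∀ l, (G l).IsHomogeneous (d l))
    (hH : ∀ m, (H m).IsHomogeneous (δ m)) (hsm : SmoothPair G H) (P : Ideal (MvPolynomial (Fin (n + 1 + c + 1)) ℂ)) [P.IsPrime]
    (hGP : ∀ l, G l ∈ P) (hHP : ∀ m, H m ∉ P) {k : ℕ} (z : Fin (k + 1) → Pool.Agent.H17GT.functionField P) (hz : IsTranscendenceBasis ℂ z) :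
    k ≤ n ∧ (n ≤ k → n + c + 3 ≤ ∑ l, d l + ∑ m, δ m →
      Pool.Agent.H17LG.IsLogGeneralType (Pool.Agent.H17LG.OnBoundary P H (k := k + 1))) := by
  classical
  haveI := Pool.Agent.H17GT.essFiniteType_functionField P
  obtain ⟨x, hx, hgen, -, hFx, hx0, hxr⟩ := Pool.Agent.H17LG.exists_point_log P z hz
  have hcert := Pool.Agent.H17LG.pairCertificate_of_smoothPair hsm
  have hcG := Pool.Agent.H17LG.certificate_of_pair hcert
  have hGx : ∀ l, aeval x (G l) = 0 := fun l => (hFx _ _ (hG l)).2 (hGP l)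
  have hHx : ∀ m, aeval x (H m) ≠ 0 := fun m h0 => hHP m ((hFx _ _ (hH m)).1 h0)
  refine ⟨?_, fun hnk hdeg => ?_⟩
  · obtain ⟨η, hη⟩ := lgtA_exists_der hz
    have hli := lgtA_linearIndependent hx hgen hη
    have hfin := lgtA_finrank_ker hcG hx hGx
    have h1 : LinearIndependent (Pool.Agent.H17GT.functionField P) (fun s => (⟨Sum.elim (fun _ : Unit => x)
        (fun (i : Fin (k + 1)) j => η i (x j)) s, by
          rcases s with u | i
          · exact lgtA_jac_self hG hGx
          · exact lgtA_jac_der hGx (η i)⟩ : LinearMap.ker (jac G x))) := by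
      apply LinearIndependent.of_comp (LinearMap.ker (jac G x)).subtype
      exact hli
    have h2 := h1.fintype_card_le_finrank
    rw [Fintype.card_sum, Fintype.card_unit, Fintype.card_fin] at h2
    omega
  · refine Pool.Agent.H17LG.isLogGeneralType_congr (Pool.Agent.H17LG.onBdry_iff P hH hx0 hxr) ?_
    exact Pool.Agent.H17LG.isLogGeneralType_of_top hd hG hH hcert hx hgen hGx hHx hnk hz hdeg

theorem lgt_gen {N n c b : ℕ} (hN : N = n + 1 + c) {d : Fin c → ℕ} {δ : Fin b → ℕ} (hd : ∀ l, 1 ≤ d l)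
    {G : Fin c → MvPolynomial (Fin (N + 1)) ℂ} {H : Fin b → MvPolynomial (Fin (N + 1)) ℂ} (hG : ∀ l, (G l).IsHomogeneous (d l))
    (hH : ∀ m, (H m).IsHomogeneous (δ m)) (hsm : SmoothPair G H) (P : Ideal (MvPolynomial (Fin (N + 1)) ℂ)) [P.IsPrime]
    (hGP : ∀ l, G l ∈ P) (hHP : ∀ m, H m ∉ P) {k : ℕ} (hz : ∃ z : Fin (k + 1) → FunField P, IsTranscendenceBasis ℂ z) :
    k ≤ n ∧ (n ≤ k → n + c + 3 ≤ ∑ l, d l + ∑ m, δ m →
      IsLogGeneralType (K := FunField P) (k := k + 1) (OnBoundary P H)) := by
  subst hN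
  obtain ⟨z, hz⟩ := hz
  have h1 := lgtA_core hd hG hH hsm P hGP hHP (k := k) z hz
  exact ⟨h1.1, fun h2 h3 => Pool.Agent.H17LG.isLogGeneralType_translate (K := Pool.Agent.H17GT.functionField P)
    (B := Pool.Agent.H17LG.OnBoundary P H (k := k + 1)) (fun E => Iff.rfl) (h1.2 h2 h3)⟩

end Pool.Agent.TC
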