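import Pool.Agent.TC.Eul
import Pool.Agent.TC.LgtA
import Pool.Agent.H62.LGC.Final
import Pool.Agent.H62.SA.Defs
import Pool.Agent.H13.SM.Grad

/-!
# TC LgtB: the surface `U` and the boundary curves

`Pre.logGeneralType`: `lgt_gen` with `N = n + 2`, `(n, c, b) = (1, n, 2)`, `G l = Q (l + 2)` (`fun l : Fin n => Q (Fin.natAdd 2 l)` after a cast, or `fun l => Q l.succ.succ`), `H = ![Q 0, Q 1]`; `SmoothPair` from `smooth` and `trans`: let `α`, `β` be as in `SmoothPair`, `c 0 = β 0`,
`c 1 = β 1`, `c (l + 2) = α l`.  If `F₁ x ≠ 0` and `F₂ x ≠ 0` then `β = 0` and `smooth` applies, otherwise `trans`.  `∑ e j = e 0 + e 1 + ∑ e (l + 2)` (`Fin.sum_univ_succ` twice), so `n + 4 ≤ ∑ d + ∑ δ`.  `OnBoundary P ![Q 0, Q 1] E ↔ OnBd P (fun _ => Q 0 * Q 1) E`: in both `E.ord (ratio P i j) ≥ 0` for all `i`, so the two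
values `E.ord (aeval _ (Q 0))`, `E.ord (aeval _ (Q 1))` are `≥ 0` and their sum is `E.ord (aeval _ (Q 0 * Q 1))`, which is positive iff one of them is.

`Pre.fib_bdry`: by symmetry let `b = 0`, `a ≠ 0` (for `a = 0`, `b ≠ 0` exchange the roles of `Q 0` and `Q 1`: do the proof for a general pair of indices `i, i'` with `{i, i'} = {0, 1}`).  `f z = [G z]` (`Projectivization.mk`; `G z ≠ 0` because `F₁ (G z) = a ≠ 0` and `e 0 ≥ 1`) is `HolomorphicInto` on `univ`,
`I = mapIdeal f univ` is prime and homogeneous (see `mem_of_degenerate` in `Results/MP_64ff02_ag/SmoothSurfaces.lean` for all this), `Q j ∈ I` for `j ≥ 2` and `Q 1 ∈ I`, `Q 0 ∉ I` (`mem_mapIdeal_form`).  If `f` is constant, then `G z = c z • G w` with `c z ^ e 0 = 1` (`ev_smul`), and `c` is continuous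
(quotient of coordinates), with values in a finite set, so constant and `G z = G w`.  Otherwise `exists_fin_basis` gives a transcendence basis of `FunField I` with `w` elements, `w ≠ 0` (`eq_of_trdeg_zero`), `w = k + 1`; `lgt_gen` with `(n, c, b) = (0, n + 1, 1)`, `G` = all forms `Q j`, `j ≥ 2`, and `Q 1`,
`H = ![Q 0]`, `SmoothPair` from `trans` (`F₂ x = 0`; if `F₁ x ≠ 0` the coefficient `β 0 = 0`): `k ≤ 0`, so `k = 0`, and `I` is of log general type with the boundary `OnBoundary I ![Q 0]`, which is the same as `OnBd I (fun _ : Fin 1 => Q 0)`; the degrees: `0 + (n + 1) + 3 = n + 4 ≤ ∑ e j`.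
`Pool.Agent.H62.LGC.const_of_logGeneralType` with `G = fun _ : Fin 1 => Q 0`: `f` is constant.

`Pre.tangent`: the forms `Q j`, `j ≥ 2`, are in `P` and their gradients at `x` are linearly independent (`smooth` if `F₁ x F₂ x ≠ 0`, otherwise `trans`; in both cases the combinations with `c 0 = c 1 = 0`), `conTan P x` is contained in the space of the vectors `v` with `∑ v i * grad (Q j) x i = 0` for the `n` indices
`j ≥ 2`, of dimension `n + 3 - n = 3`.
-/

set_option autoImplicit false

open MvPolynomial Topology Filter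
open Pool.Agent.H17LG.Variety (FunField IsLogGeneralType OnBoundary)
open Pool.Agent.H62.SA (OnBd locVar)
open Pool.Agent.H62.FC (Homog)

namespace Pool.Agent.TC

open Pool.Agent.H36.BP (EN)

variable {n : ℕ} {Q : Fin (n + 2) → MvPolynomial (Fin (n + 3)) ℂ} {e : Fin (n + 2) → ℕ}

/-- the hypotheses of `Pair`, without the hypothesis on the fibres -/
structure Pre (Q : Fin (n + 2) → MvPolynomial (Fin (n + 3)) ℂ) (e : Fin (n + 2) → ℕ) : Prop where
  hom : ∀ j, (Q j).IsHomogeneous (e j)
  pos : ∀ j, 1 ≤ e j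
  deg : n + 4 ≤ ∑ j, e j
  smooth : ∀ x : EN (n + 2), x ≠ 0 → OnV Q x → ∀ c : Fin (n + 2) → ℂ, c 0 = 0 → c 1 = 0 → ∑ j, c j • grad (Q j) x = 0 → c = 0
  trans : ∀ x : EN (n + 2), x ≠ 0 → OnV Q x → (ev (Q 0) x = 0 ∨ ev (Q 1) x = 0) → ∀ c : Fin (n + 2) → ℂ, ∑ j, c j • grad (Q j) x = 0 → c = 0

private theorem lgtB_cons_sum {N : ℕ} {A : Fin (n + 2) → MvPolynomial (Fin (N + 1)) ℂ} (c : Fin (n + 2) → ℂ) (x : EN N) (j : Fin (N + 1)) :
    (∑ i, c i • grad (A i) x) j = c 0 * ev (pderiv j (A 0)) x + (c 1 * ev (pderiv j (A 1)) x +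
      ∑ l : Fin n, c l.succ.succ * ev (pderiv j (A l.succ.succ)) x) := by
  rw [Finset.sum_apply, Fin.sum_univ_succ, Fin.sum_univ_succ]
  rfl

private theorem lgtB_onV {x : Fin (n + 3) → ℂ} (h : ∀ l : Fin n, eval x (Q l.succ.succ) = 0) : OnV Q (WithLp.toLp 2 x) := by
  intro j hj
  obtain ⟨l, rfl⟩ : ∃ l : Fin n, j = l.succ.succ := by
    refine ⟨⟨(j : ℕ) - 2, by have := j.2; omega⟩, ?_⟩
    ext
    simp only [Fin.val_succ]
    omega
  exact h l

private theorem lgtB_ne {x : Fin (n + 3) → ℂ} (h : x ≠ 0) : (WithLp.toLp 2 x : EN (n + 2)) ≠ 0 := by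
  intro h0
  apply h
  funext i
  have := congrArg (fun y : EN (n + 2) => y i) h0
  exact this

private theorem lgtB_sum {M : Type} [AddCommMonoid M] (f : Fin (n + 2) → M) : ∑ j, f j = f 0 + (f 1 + ∑ l : Fin n, f l.succ.succ) := by
  rw [Fin.sum_univ_succ, Fin.sum_univ_succ]
  rfl

private theorem lgtB_ord {K : Type} [Field K] [Algebra ℂ K] {k : ℕ} (E : Pool.Agent.H23.Fano.PrimeDivisorOver K k) {σ : Type}
    {y : σ → K} (hy : ∀ i, 0 ≤ E.ord (y i)) (F : MvPolynomial σ ℂ) : 0 ≤ E.ord (aeval y F) := by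
  induction F using MvPolynomial.induction_on with
  | C a =>
    rw [aeval_C]
    exact E.ord_const a
  | add p q hp hq =>
    rw [map_add]
    exact (le_min hp hq).trans (E.ord.map_add _ _)
  | mul_X p i hp =>
    rw [map_mul, aeval_X, E.ord.map_mul]
    exact add_nonneg hp (hy i)

theorem Pre.logGeneralType (h : Pre Q e) (P : Ideal (MvPolynomial (Fin (n + 3)) ℂ)) [P.IsPrime] (hP : ∀ j : Fin (n + 2), 2 ≤ (j : ℕ) → Q j ∈ P)
    (h0 : Q 0 ∉ P) (h1 : Q 1 ∉ P) (hdim : ∃ z : Fin 2 → FunField P, IsTranscendenceBasis ℂ z) :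
    IsLogGeneralType (K := FunField P) (k := 2) (OnBd P (fun _ : Fin 1 => Q 0 * Q 1)) := by
  have hB : OnBoundary P ![Q 0, Q 1] (k := 2) = OnBd P (fun _ : Fin 1 => Q 0 * Q 1) := by
    funext E
    refine propext ?_
    have key : ∀ j, (∀ i, 0 ≤ E.ord (Pool.Agent.H17LG.Variety.ratio P i j)) →
        ((∃ m : Fin 2, 0 < E.ord (aeval (fun i => Pool.Agent.H17LG.Variety.ratio P i j) ((![Q 0, Q 1] : Fin 2 → _) m))) ↔
          ∀ _ : Fin 1, 0 < E.ord (aeval (fun i => Pool.Agent.H17LG.Variety.ratio P i j) (Q 0 * Q 1))) := by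
      intro j hj
      have e0 := lgtB_ord E hj (Q 0)
      have e1 := lgtB_ord E hj (Q 1)
      rw [map_mul, E.ord.map_mul]
      constructor
      · rintro ⟨m, hm⟩ _
        fin_cases m
        · exact lt_of_lt_of_le hm (le_add_of_nonneg_right e1)
        · exact lt_of_lt_of_le hm (le_add_of_nonneg_left e0)
      · intro hm
        have hm := hm 0
        by_contra hcon
        push Not at hcon
        have h2 := le_antisymm (hcon 0) e0
        have h3 := le_antisymm (hcon 1) e1
        have h2' : E.ord (aeval (fun i => Pool.Agent.H17LG.Variety.ratio P i j) (Q 0)) = 0 := h2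
        have h3' : E.ord (aeval (fun i => Pool.Agent.H17LG.Variety.ratio P i j) (Q 1)) = 0 := h3
        rw [h2', h3', add_zero] at hm
        exact lt_irrefl _ hm
    constructor
    · rintro ⟨j, hj, hj', hm⟩
      exact ⟨j, hj, hj', (key j hj').1 hm⟩
    · rintro ⟨j, hj, hj', hm⟩
      exact ⟨j, hj, hj', (key j hj').2 hm⟩
  rw [← hB]
  have hsm : Pool.Agent.H79.Log.SmoothPair (fun l : Fin n => Q l.succ.succ) (![Q 0, Q 1] : Fin 2 → _) := by
    intro x hx hxG α β hβ hsum
    set c : Fin (n + 2) → ℂ := Fin.cons (β 0) (Fin.cons (β 1) α) with hc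
    have hc0 : c 0 = β 0 := rfl
    have hc1 : c 1 = β 1 := rfl
    have hcl : ∀ l : Fin n, c l.succ.succ = α l := fun l => rfl
    have hzero : ∑ j, c j • grad (Q j) (WithLp.toLp 2 x : EN (n + 2)) = 0 := by
      funext j
      rw [lgtB_cons_sum, hc0, hc1]
      simp only [hcl]
      have h2 := hsum j
      rw [Fin.sum_univ_two] at h2
      simp only [Matrix.cons_val_zero, Matrix.cons_val_one] at h2
      change β 0 * eval x (pderiv j (Q 0)) + (β 1 * eval x (pderiv j (Q 1)) +
        ∑ l : Fin n, α l * eval x (pderiv j (Q l.succ.succ))) = 0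
      linear_combination h2
    have hcz : c = 0 := by
      by_cases h01 : ev (Q 0) (WithLp.toLp 2 x : EN (n + 2)) = 0 ∨ ev (Q 1) (WithLp.toLp 2 x : EN (n + 2)) = 0
      · exact h.trans _ (lgtB_ne hx) (lgtB_onV hxG) h01 c hzero
      · push Not at h01
        exact h.smooth _ (lgtB_ne hx) (lgtB_onV hxG) c (hβ 0 h01.1) (hβ 1 h01.2) hzero
    refine ⟨?_, ?_⟩
    · funext l
      rw [← hcl, hcz]
      rfl
    · funext m
      fin_cases m
      · exact congrFun hcz 0
      · exact congrFun hcz 1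
  refine (lgt_gen (N := n + 2) (n := 1) (c := n) (b := 2) (by omega) (d := fun l : Fin n => e l.succ.succ)
    (δ := ![e 0, e 1]) (fun l => h.pos _) (fun l => h.hom _) ?_ hsm P (fun l => hP _ (by simp)) ?_ (k := 1) hdim).2 le_rfl ?_
  · intro m
    fin_cases m
    · exact h.hom 0
    · exact h.hom 1
  · intro m
    fin_cases m
    · exact h0
    · exact h1
  · have h2 := h.deg
    rw [lgtB_sum] at h2
    rw [Fin.sum_univ_two]
    simp only [Matrix.cons_val_zero, Matrix.cons_val_one]
    omega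

private theorem lgtB_fib (h : Pre Q e) {i i' : Fin (n + 2)} (hii : i = 0 ∧ i' = 1 ∨ i = 1 ∧ i' = 0) {a : ℂ} (ha : a ≠ 0)
    {G : ℂ → EN (n + 2)} (hG : Differentiable ℂ G) (hi : ∀ z, ev (Q i) (G z) = a) (hi' : ∀ z, ev (Q i') (G z) = 0)
    (hV : ∀ z, OnV Q (G z)) (z w : ℂ) : G z = G w := by
  classical
  have hG0 : ∀ z, G z ≠ 0 := by
    intro z hz
    have h1 := ev_smul (h.hom i) 0 (G z)
    rw [zero_pow (by have := h.pos i; omega), zero_mul, zero_smul] at h1
    have h2 := hi z
    rw [hz, h1] at h2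
    exact ha h2.symm
  have hφ0 : ∀ z, (fun k => G z k) ≠ 0 := by
    intro z hz
    apply hG0 z
    ext k
    exact congrFun hz k
  obtain ⟨f, hf⟩ : ∃ f : ℂ → Pool.Agent.H17.PN (n + 2), f = fun z => Projectivization.mk ℂ (fun k => G z k) (hφ0 z) := ⟨_, rfl⟩
  have hfh : Pool.Agent.H17.HolomorphicInto f Set.univ := by
    intro z₀ _
    refine ⟨fun z k => G z k, ?_, Eventually.of_forall fun z => ⟨hφ0 z, by rw [hf]⟩⟩
    rw [analyticAt_pi_iff]
    intro k
    exact (((EuclideanSpace.proj (𝕜 := ℂ) k).differentiable.comp hG).analyticAt z₀)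
  have hvan : ∀ {R : MvPolynomial (Fin (n + 3)) ℂ} {d : ℕ}, R.IsHomogeneous d → ∀ z,
      (Pool.Agent.H17.VanishesAt R (f z) ↔ ev R (G z) = 0) := by
    intro R d hR z
    rw [hf]
    exact Pool.Agent.H17BP.vanishesAt_mk hR (hφ0 z)
  by_cases hconst : ∀ z w, f z = f w
  · have hnorm : ∀ z, ‖G z‖ = ‖G w‖ := by
      intro z
      have h1 := hconst z w
      rw [hf] at h1
      dsimp only at h1
      rw [Projectivization.mk_eq_mk_iff'] at h1
      obtain ⟨c, hc⟩ := h1
      have h2 : G z = c • G w := by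
        ext k
        exact (congrFun hc k).symm
      have h3 := hi z
      rw [h2, ev_smul (h.hom i), hi w] at h3
      have h4 : c ^ e i = 1 := by
        have h5 : (c ^ e i - 1) * a = 0 := by rw [sub_mul, h3, one_mul, sub_self]
        rcases mul_eq_zero.1 h5 with h6 | h6
        · exact sub_eq_zero.1 h6
        · exact absurd h6 ha
      have h5 : ‖c‖ = 1 := by
        have h6 := congrArg norm h4
        rw [norm_pow, norm_one] at h6
        exact (pow_eq_one_iff_of_nonneg (norm_nonneg c) (by have := h.pos i; omega)).1 h6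
      rw [h2, norm_smul, h5, one_mul]
    refine hG.apply_eq_apply_of_bounded ?_ z w
    refine (Metric.isBounded_closedBall (x := (0 : EN (n + 2))) (r := ‖G w‖)).subset ?_
    rintro _ ⟨z, rfl⟩
    rw [mem_closedBall_zero_iff]
    exact (hnorm z).le
  · exfalso
    apply hconst
    obtain ⟨I, hI⟩ : ∃ I, I = Pool.Agent.H17BP.mapIdeal f Set.univ := ⟨_, rfl⟩
    have hIp : I.IsPrime := by
      rw [hI]
      exact Pool.Agent.H17BP.mapIdeal_isPrime isOpen_univ isPreconnected_univ Set.univ_nonempty hfh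
    have hIh : Homog I := by
      rw [hI]
      exact Pool.Agent.H17BP.mapIdeal_homog
    have hIX : ∃ i, (X i : MvPolynomial (Fin (n + 2 + 1)) ℂ) ∉ I := by
      rw [hI]
      exact Pool.Agent.H17BP.exists_X_notMem Set.univ_nonempty
    have hmem : ∀ {R : MvPolynomial (Fin (n + 3)) ℂ} {d : ℕ}, R.IsHomogeneous d → (∀ z, ev R (G z) = 0) → R ∈ I := by
      intro R d hR h1
      rw [hI]
      exact (Pool.Agent.H17BP.mem_mapIdeal_form hR).2 fun z _ => (hvan hR z).2 (h1 z)
    have hQI : Q i ∉ I := by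
      intro h1
      rw [hI] at h1
      have h2 := (Pool.Agent.H17BP.mem_mapIdeal_form (h.hom i)).1 h1 0 (Set.mem_univ _)
      rw [hvan (h.hom i), hi 0] at h2
      exact ha h2
    have hfI : ∀ z, f z ∈ locVar I (fun _ : Fin 1 => Q i) := by
      intro z
      refine ⟨fun R hR m hm => ?_, 0, ?_⟩
      · rw [hI] at hR
        exact (Pool.Agent.H17BP.mem_mapIdeal_form hm).1 hR z (Set.mem_univ z)
      · intro h1
        rw [hvan (h.hom i), hi z] at h1
        exact ha h1
    obtain ⟨wd, hw⟩ := Pool.Agent.H62.FC.exists_fin_basis (P := I) hIX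
    have hw0 : wd ≠ 0 := by
      rintro rfl
      apply hconst
      intro a b
      exact Pool.Agent.H17BP.eq_of_trdeg_zero hIh hIX hw _ ⟨(hfI a).1, fun m => m.elim0⟩ _
        ⟨(hfI b).1, fun m => m.elim0⟩
    obtain ⟨k, rfl⟩ : ∃ k, wd = k + 1 := ⟨wd - 1, by omega⟩
    have hi'0 : (i' : ℕ) < 2 := by
      rcases hii with ⟨-, rfl⟩ | ⟨-, rfl⟩ <;> simp
    have hsm : Pool.Agent.H79.Log.SmoothPair (Fin.cons (Q i') fun l : Fin n => Q l.succ.succ : Fin (n + 1) → _)
        (fun _ : Fin 1 => Q i) := by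
      intro x hx hxG α β hβ hsum
      have hx' : eval x (Q i') = 0 := hxG 0
      have hxl : ∀ l : Fin n, eval x (Q l.succ.succ) = 0 := fun l => hxG l.succ
      have hor : ev (Q 0) (WithLp.toLp 2 x : EN (n + 2)) = 0 ∨ ev (Q 1) (WithLp.toLp 2 x : EN (n + 2)) = 0 := by
        rcases hii with ⟨-, rfl⟩ | ⟨-, rfl⟩
        · exact Or.inr hx'
        · exact Or.inl hx'
      have hsum' : ∀ j, α 0 * eval x (pderiv j (Q i')) + ∑ l : Fin n, α l.succ * eval x (pderiv j (Q l.succ.succ)) +
          β 0 * eval x (pderiv j (Q i)) = 0 := by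
        intro j
        have h1 := hsum j
        rw [Fin.sum_univ_succ] at h1
        simpa using h1
      rcases hii with ⟨rfl, rfl⟩ | ⟨rfl, rfl⟩
      · set c : Fin (n + 2) → ℂ := Fin.cons (β 0) (Fin.cons (α 0) fun l => α l.succ) with hc
        have hc0 : c 0 = β 0 := rfl
        have hc1 : c 1 = α 0 := rfl
        have hcl : ∀ l : Fin n, c l.succ.succ = α l.succ := fun l => rfl
        have hcz : c = 0 := by
          refine h.trans _ (lgtB_ne hx) (lgtB_onV hxl) hor c ?_
          funext j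
          rw [lgtB_cons_sum, hc0, hc1]
          simp only [hcl]
          change β 0 * eval x (pderiv j (Q 0)) + (α 0 * eval x (pderiv j (Q 1)) +
            ∑ l : Fin n, α l.succ * eval x (pderiv j (Q l.succ.succ))) = 0
          linear_combination hsum' j
        refine ⟨?_, ?_⟩
        · funext l
          refine Fin.cases ?_ (fun l => ?_) l
          · rw [← hc1, hcz]
            rfl
          · rw [← hcl, hcz]
            rfl
        · funext m
          rw [Subsingleton.elim m 0, ← hc0, hcz]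
          rfl
      · set c : Fin (n + 2) → ℂ := Fin.cons (α 0) (Fin.cons (β 0) fun l => α l.succ) with hc
        have hc0 : c 0 = α 0 := rfl
        have hc1 : c 1 = β 0 := rfl
        have hcl : ∀ l : Fin n, c l.succ.succ = α l.succ := fun l => rfl
        have hcz : c = 0 := by
          refine h.trans _ (lgtB_ne hx) (lgtB_onV hxl) hor c ?_
          funext j
          rw [lgtB_cons_sum, hc0, hc1]
          simp only [hcl]
          change α 0 * eval x (pderiv j (Q 0)) + (β 0 * eval x (pderiv j (Q 1)) +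
            ∑ l : Fin n, α l.succ * eval x (pderiv j (Q l.succ.succ))) = 0
          linear_combination hsum' j
        refine ⟨?_, ?_⟩
        · funext l
          refine Fin.cases ?_ (fun l => ?_) l
          · rw [← hc0, hcz]
            rfl
          · rw [← hcl, hcz]
            rfl
        · funext m
          rw [Subsingleton.elim m 0, ← hc1, hcz]
          rfl
    have hgen := lgt_gen (N := n + 2) (n := 0) (c := n + 1) (b := 1) (by omega)
      (d := (Fin.cons (e i') fun l : Fin n => e l.succ.succ : Fin (n + 1) → ℕ)) (δ := fun _ : Fin 1 => e i)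
      (fun l => by
        refine Fin.cases ?_ (fun l => ?_) l
        · exact h.pos i'
        · exact h.pos _)
      (G := (Fin.cons (Q i') fun l : Fin n => Q l.succ.succ : Fin (n + 1) → _)) (H := fun _ : Fin 1 => Q i)
      (fun l => by
        refine Fin.cases ?_ (fun l => ?_) l
        · exact h.hom i'
        · exact h.hom _)
      (fun _ => h.hom i) hsm I
      (fun l => by
        refine Fin.cases ?_ (fun l => ?_) l
        · exact hmem (h.hom i') hi'
        · exact hmem (h.hom _) fun z => hV z _ (by simp))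
      (fun _ => hQI) (k := k) hw
    obtain rfl : k = 0 := by have := hgen.1; omega
    have hdeg : 0 + (n + 1) + 3 ≤ ∑ l, (Fin.cons (e i') fun l : Fin n => e l.succ.succ : Fin (n + 1) → ℕ) l + ∑ _m : Fin 1, e i := by
      have h2 := h.deg
      rw [lgtB_sum] at h2
      rw [Fin.sum_univ_succ]
      simp only [Fin.cons_zero, Fin.cons_succ, Finset.univ_unique, Finset.sum_const, Finset.card_singleton, one_smul]
      rcases hii with ⟨rfl, rfl⟩ | ⟨rfl, rfl⟩ <;> omega
    have hlg := hgen.2 le_rfl hdeg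
    have hBd : OnBoundary I (fun _ : Fin 1 => Q i) (k := 0 + 1) = OnBd I (fun _ : Fin 1 => Q i) := by
      funext E
      refine propext ⟨?_, ?_⟩
      · rintro ⟨j, hj, hj', m, hm⟩
        exact ⟨j, hj, hj', fun _ => hm⟩
      · rintro ⟨j, hj, hj', hm⟩
        exact ⟨j, hj, hj', 0, hm 0⟩
    rw [hBd] at hlg
    exact fun z w => Pool.Agent.H62.LGC.const_of_logGeneralType hIh hw (fun _ => ⟨_, h.hom i⟩) hlg hfh hfI z w

theorem Pre.fib_bdry (h : Pre Q e) {a b : ℂ} (hab : a ≠ 0 ∨ b ≠ 0) (hab' : a = 0 ∨ b = 0) {G : ℂ → EN (n + 2)} (hG : Differentiable ℂ G)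
    (ha : ∀ z, ev (Q 0) (G z) = a) (hb : ∀ z, ev (Q 1) (G z) = b) (hV : ∀ z, OnV Q (G z)) (z w : ℂ) : G z = G w := by
  by_cases h0 : a = 0
  · subst h0
    exact lgtB_fib h (Or.inr ⟨rfl, rfl⟩) (hab.resolve_left fun h => h rfl) hG hb ha hV z w
  · obtain rfl := hab'.resolve_left h0
    exact lgtB_fib h (Or.inl ⟨rfl, rfl⟩) h0 hG ha hb hV z w

theorem Pre.tangent (h : Pre Q e) (P : Ideal (MvPolynomial (Fin (n + 3)) ℂ)) (hP : ∀ j : Fin (n + 2), 2 ≤ (j : ℕ) → Q j ∈ P)
    (x : Fin (n + 3) → ℂ) (hx : x ≠ 0) (hxP : ∀ R ∈ P, eval x R = 0) : Module.finrank ℂ (Pool.Agent.H13.SM.conTan P x) ≤ 3 := by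
  classical
  have key : ∀ α : Fin n → ℂ, (∑ l, α l • fun i : Fin (n + 3) => eval x (pderiv i (Q l.succ.succ))) = 0 → ∀ l, α l = 0 := by
    intro α hα l
    set c : Fin (n + 2) → ℂ := Fin.cons 0 (Fin.cons 0 α) with hc
    have hc0 : c 0 = 0 := rfl
    have hc1 : c 1 = 0 := rfl
    have hcl : ∀ l : Fin n, c l.succ.succ = α l := fun l => rfl
    have hcz : c = 0 := by
      refine h.smooth _ (lgtB_ne hx) (lgtB_onV fun l => hxP _ (hP _ (by simp))) c hc0 hc1 ?_
      funext j
      rw [lgtB_cons_sum, hc0, hc1]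
      simp only [hcl]
      have h1 := congrFun hα j
      rw [Finset.sum_apply] at h1
      rw [zero_mul, zero_mul, zero_add, zero_add]
      exact h1
    rw [← hcl, hcz]
    rfl
  set M : Matrix (Fin n) (Fin (n + 3)) ℂ := Matrix.of fun l i => eval x (pderiv i (Q l.succ.succ)) with hM
  have hli : LinearIndependent ℂ M := by
    have hli' : LinearIndependent ℂ fun (l : Fin n) (i : Fin (n + 3)) => eval x (pderiv i (Q l.succ.succ)) := by
      refine Fintype.linearIndependent_iff.2 ?_
      exact key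
    exact hli'
  have hrank : M.rank = n := by
    have := hli.rank_matrix
    simpa using this
  have hker : Module.finrank ℂ (LinearMap.ker M.mulVecLin) = 3 := by
    have h1 := M.mulVecLin.finrank_range_add_finrank_ker
    rw [Module.finrank_fin_fun] at h1
    have h2 : Module.finrank ℂ (LinearMap.range M.mulVecLin) = n := hrank
    omega
  have hle : Pool.Agent.H13.SM.conTan P x ≤ LinearMap.ker M.mulVecLin := by
    intro v hv
    rw [LinearMap.mem_ker, Matrix.mulVecLin_apply]
    funext l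
    have h1 := hv (Q l.succ.succ) (hP _ (by simp))
    simp only [Matrix.mulVec, dotProduct, Pi.zero_apply]
    rw [← h1]
    refine Finset.sum_congr rfl fun i _ => ?_
    simp only [hM, Matrix.of_apply]
    ring
  rw [← hker]
  exact Submodule.finrank_mono hle

end Pool.Agent.TC
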