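import Pool.Agent.TC.SecB
import Pool.Agent.TC.LimAlt
import Pool.Agent.TC.Bound
import Pool.Agent.TC.Lower

/-!
# TC Lim: limits of sections

* `IsSec.mono`, `IsSec.shift` (`exp (z + 2 π i m) = exp z`), `exists_shift`.
* `IsSec.fs_le`: `fs_bound` with the radius `r`, for all `r`: `fs ≤ L / (1 + |x|)` for entire sections (`r → ∞`).
* `lim_sec`.  For `‖z‖ ≤ ρ k - 1` `fs_bound` with `r = 1` gives `fs (F k z) ((F k)' z) ≤ 2 L`.  For a sequence `z k → z₀` apply `lim_alt` to the maps `w ↦ F k (w + z k)` on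
  `ball 0 (ρ k - ‖z k‖ - 1)` (`al k w = exp (w + z k) → exp (w + z₀)`, `be k w = exp (- (w + z k))`), and once to the `F k` (`z k = 0`).
  If the first alternative holds for the `F k`, then for every `z k → z₀` the first alternative holds for the shifted maps too: otherwise
  `F k (w k + z k) → G' w₀` for `w k → w₀`; take `w k = - z k`, `w₀ = - z₀`: `F k 0 → G' (- z₀)`, against `‖F k 0‖ → ∞`; evaluate at `w = 0`.
  If the second alternative holds for the `F k`, with `G`, then `F k (z k) → G z₀`, so the first alternative for the shifted maps is impossible, and for the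
  second one `F k (w k + z k) → G' w₀` whenever `w k → w₀`, so `G' w = G (w + z₀)` for all `w` (take `w k = w`, and `z k + w → z₀ + w`), and
  `fs (F k (z k)) (..) → fs (G' 0) (deriv G' 0) = fs (G z₀) (deriv G z₀)` (`deriv` of a translate).
* `unif_of_tendsto`: otherwise there are `z k ∈ closedBall 0 R` with `ε ≤ ‖F k (z k) - G (z k)‖` for almost all `k`; `z k → z₀` along the ultrafilter (compactness);
  `F k (z k) → G z₀` and `G (z k) → G z₀`.
* `Sec.eq_of_eqOn`: identity theorem.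
-/

set_option autoImplicit false

open Topology Filter Metric

namespace Pool.Agent.TC

open Pool.Agent.H36.BP (EN fs wd Sub)

variable {n : ℕ} {Q : Fin (n + 2) → MvPolynomial (Fin (n + 3)) ℂ} {e : Fin (n + 2) → ℕ}

/-- the alternative for the translates -/
private theorem Lim_key (h : Pair Q e) (𝒰 : Ultrafilter ℕ) (F : ℕ → ℂ → EN (n + 2)) (ρ : ℕ → ℝ) (hρ : Tendsto ρ 𝒰 atTop)
    (hF : ∀ᶠ k in (𝒰 : Filter ℕ), IsSec Q (F k) (ball 0 (ρ k))) (z : ℕ → ℂ) (z₀ : ℂ) (hz : Tendsto z 𝒰 (𝓝 z₀)) :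
    (∀ w, Tendsto (fun k => fs (F k (w + z k)) (deriv (F k) (w + z k))) 𝒰 (𝓝 0) ∧ Tendsto (fun k => ‖F k (w + z k)‖) 𝒰 atTop) ∨
    ∃ G : ℂ → EN (n + 2), Differentiable ℂ G ∧
      (∀ w, OnV Q (G w) ∧ ev (Q 0) (G w) = Complex.exp (w + z₀) ∧ ev (Q 1) (G w) = Complex.exp (-(w + z₀))) ∧
      (∀ (w : ℕ → ℂ) (w₀ : ℂ), Tendsto w 𝒰 (𝓝 w₀) → Tendsto (fun k => F k (w k + z k)) 𝒰 (𝓝 (G w₀))) ∧
      ∀ w, Tendsto (fun k => fs (F k (w + z k)) (deriv (F k) (w + z k))) 𝒰 (𝓝 (fs (G w) (deriv G w))) := by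
  obtain ⟨L, hL, hLb⟩ := fs_bound h
  have hρ' : Tendsto (fun k => ρ k + (-‖z k‖ - 1)) 𝒰 atTop :=
    hρ.atTop_add ((hz.norm.neg).sub_const 1)
  have hadd : ∀ (w : ℕ → ℂ) (w₀ : ℂ), Tendsto w 𝒰 (𝓝 w₀) → Tendsto (fun k => w k + z k) 𝒰 (𝓝 (w₀ + z₀)) :=
    fun w w₀ hw => hw.add hz
  have key := lim_alt h 𝒰 (fun k w => F k (w + z k)) (fun k => ρ k + (-‖z k‖ - 1)) hρ' (L := L * 2) (by positivity)
    (fun k w => Complex.exp (w + z k)) (fun k w => Complex.exp (-(w + z k))) (fun w => Complex.exp (w + z₀))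
    (fun w => Complex.exp (-(w + z₀))) ?_ ?_ ?_ ?_
  · simpa only [deriv_shift] using key
  · filter_upwards [hF] with k hk
    have hin : ∀ w ∈ ball (0 : ℂ) (ρ k + (-‖z k‖ - 1)), ‖w + z k‖ < ρ k - 1 := by
      intro w hw
      rw [mem_ball_zero_iff] at hw
      have := norm_add_le w (z k)
      linarith
    have hin' : ∀ w ∈ ball (0 : ℂ) (ρ k + (-‖z k‖ - 1)), w + z k ∈ ball (0 : ℂ) (ρ k) := by
      intro w hw
      rw [mem_ball_zero_iff]
      linarith [hin w hw]
    refine ⟨?_, ?_⟩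
    · refine hk.1.comp (t := ball 0 (ρ k)) ?_ ?_
      · exact (differentiable_id.add_const _).differentiableOn
      · intro w hw
        exact hin' w hw
    · intro w hw
      obtain ⟨h1, h2, h3⟩ := hk.2 _ (hin' w hw)
      refine ⟨h3, h1, h2, Complex.exp_ne_zero _, Complex.exp_ne_zero _, ?_⟩
      have hsub : ball (w + z k) 1 ⊆ ball (0 : ℂ) (ρ k) := by
        intro v hv
        rw [mem_ball_iff_norm] at hv
        rw [mem_ball_zero_iff]
        have h4 : ‖v‖ ≤ ‖v - (w + z k)‖ + ‖w + z k‖ := by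
          simpa using norm_add_le (v - (w + z k)) (w + z k)
        linarith [hin w hw]
      have h5 := hLb (F k) (w + z k) 1 (by norm_num) (hk.mono hsub)
      have h6 : 1 / (1 + |(w + z k).re|) ≤ 1 := by
        rw [div_le_one (by positivity)]
        linarith [abs_nonneg (w + z k).re]
      have h7 : deriv (fun w => F k (w + z k)) w = deriv (F k) (w + z k) := deriv_shift _ _ _
      show fs (F k (w + z k)) (deriv (fun w => F k (w + z k)) w) ≤ L * 2
      rw [h7]
      refine h5.trans ?_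
      refine mul_le_mul_of_nonneg_left ?_ hL.le
      linarith
  · intro w w₀ hw
    exact (Complex.continuous_exp.tendsto _).comp (hadd w w₀ hw)
  · intro w w₀ hw
    exact (Complex.continuous_exp.tendsto _).comp (hadd w w₀ hw).neg
  · intro w
    exact Or.inl (Complex.exp_ne_zero _)

/-- limits of sections along an ultrafilter -/
theorem lim_sec (h : Pair Q e) (𝒰 : Ultrafilter ℕ) (F : ℕ → ℂ → EN (n + 2)) (ρ : ℕ → ℝ) (hρ : Tendsto ρ 𝒰 atTop)
    (hF : ∀ᶠ k in (𝒰 : Filter ℕ), IsSec Q (F k) (ball 0 (ρ k))) :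
    (∀ (z : ℕ → ℂ) (z₀ : ℂ), Tendsto z 𝒰 (𝓝 z₀) → Tendsto (fun k => ‖F k (z k)‖) 𝒰 atTop ∧
      Tendsto (fun k => fs (F k (z k)) (deriv (F k) (z k))) 𝒰 (𝓝 0)) ∨
    ∃ G ∈ Sec Q, ∀ (z : ℕ → ℂ) (z₀ : ℂ), Tendsto z 𝒰 (𝓝 z₀) → Tendsto (fun k => F k (z k)) 𝒰 (𝓝 (G z₀)) ∧
      Tendsto (fun k => fs (F k (z k)) (deriv (F k) (z k))) 𝒰 (𝓝 (fs (G z₀) (deriv G z₀))) := by
  rcases Lim_key h 𝒰 F ρ hρ hF (fun _ => 0) 0 tendsto_const_nhds with h0 | ⟨G, hG, hG1, hG2, hG3⟩
  · refine Or.inl fun z z₀ hz => ?_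
    rcases Lim_key h 𝒰 F ρ hρ hF z z₀ hz with h1 | ⟨G', hG', hG1', hG2', hG3'⟩
    · have := h1 0
      simp only [zero_add] at this
      exact ⟨this.2, this.1⟩
    · exfalso
      have h2 := hG2' (fun k => -z k) (-z₀) hz.neg
      simp only [neg_add_cancel] at h2
      have h3 := (h0 0).2
      simp only [add_zero] at h3
      exact not_tendsto_nhds_of_tendsto_atTop h3 _ h2.norm
  · refine Or.inr ⟨G, ⟨hG.differentiableOn, fun z _ => ?_⟩, fun z z₀ hz => ?_⟩
    · have := hG1 z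
      simp only [add_zero] at this
      exact ⟨this.2.1, this.2.2, this.1⟩
    · simp only [add_zero] at hG2
      refine ⟨hG2 z z₀ hz, ?_⟩
      rcases Lim_key h 𝒰 F ρ hρ hF z z₀ hz with h1 | ⟨G', hG', hG1', hG2', hG3'⟩
      · exfalso
        have h3 := (h1 0).2
        simp only [zero_add] at h3
        exact not_tendsto_nhds_of_tendsto_atTop h3 _ (hG2 z z₀ hz).norm
      · have hGG : G' = fun w => G (w + z₀) := by
          funext w
          have h4 := hG2' (fun _ => w) w tendsto_const_nhds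
          have h5 := hG2 (fun k => w + z k) (w + z₀) (tendsto_const_nhds.add hz)
          exact tendsto_nhds_unique h4 h5
        have h6 := hG3' 0
        have h7 : deriv G' 0 = deriv G (0 + z₀) := by
          rw [hGG]
          exact deriv_shift _ _ _
        have h8 : G' 0 = G (0 + z₀) := by rw [hGG]
        rw [h7, h8] at h6
        simpa only [zero_add] using h6

end Pool.Agent.TC
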