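import Pool.Agent.TC.SmallFs
import Pool.Agent.TC.Barrier
import Pool.Agent.H36.BP.SubC
import Pool.Agent.TC.Eul

/-!
# TC NoExc: no section is large on a half axis

`norm_lower`: `c`, `C` with `c |x| - C ≤ log ‖f z‖` (and `f z ≠ 0`).  `C₂ = 2 C₀²`, `g₀ = c / 4`, `W ≥ 2` with `72 C₂ ≤ g₀ W`; `ε > 0` with `ε² ≤ c / 8`, `ε² ≤ 2 C₂ / W²`; `K`, `R` from `small_fs` for `W`, `ε`.
Suppose `K ≤ ‖f (y I)‖` for all `y` with `σ y > ρ`.  Let `ρ' = ρ + R`.  For `z ∈ HP σ ρ'` with `|z.re| ≤ W`: `w = z.im I`, `ball w R ⊆ HP σ ρ`, so `fs (f z) (deriv f z) ≤ ε`.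
`v z = exp (2 c sm (z.re / 2)) ‖f z‖⁻¹`: `2 sm (x / 2) ≤ |x| + 1`, so `v ≤ exp (c |x| + c - log ‖f z‖) ≤ exp (c + C) =: exp C₃`; `v > 0` and continuous on `HP σ ρ'`.
Exponents: `Sub (‖f‖ ^ (-1))` has exponent `- fs² / 2` (`Sub.norm_rpow` with `a = -1`).  The first factor: `sub_comp_mul` with `a = 1 / 2` and `sub_exp_sm_pos'` (`κ = 2 c`):
exponent `(1 / 4) (2 c / 4) = c / 8` for `|z.re| < 2`, and `0` everywhere (`sub_exp_sm_pos`).  Products: `Sub.mul`.  `h1`: `c / 8 - ε² / 2 ≥ c / 16 = g₀ / 4`.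
`h2`: `- ε² / 2 ≥ - C₂ / W²`.  `h3`: `|x| fs ≤ C₀`: `- fs² / 2 ≥ - C₀² / (2 x²) = - C₂ / (4 x²)`.  (`Sub.anti` to lower the exponents.)
`barrier` for `ρ'`: `v (y I) = 0` for `σ y > ρ'`: contradiction to `v > 0` (take `y = σ (ρ' + 1)`).
-/

set_option autoImplicit false

open Topology Filter Metric

namespace Pool.Agent.TC

open Pool.Agent.H36.BP (EN fs wd Sub)

variable {n : ℕ} {Q : Fin (n + 2) → MvPolynomial (Fin (n + 3)) ℂ} {e : Fin (n + 2) → ℕ}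

private theorem NoExc_re (z : ℂ) : ((1 / 2 : ℂ) * z).re = z.re / 2 := by
  have h1 : (1 / 2 : ℂ) * z = ((1 / 2 : ℝ) : ℂ) * z := by push_cast; ring
  rw [h1, Complex.re_ofReal_mul]
  ring

private theorem NoExc_open (σ ρ : ℝ) : IsOpen (HP σ ρ) := by
  unfold HP
  exact isOpen_lt continuous_const (continuous_const.mul Complex.continuous_im)

theorem no_exc (h : Pair Q e) {C₀ : ℝ} (hC₀ : 0 < C₀) : ∃ K : ℝ, 0 < K ∧ ∀ (σ ρ : ℝ) (f : ℂ → EN (n + 2)), (σ = 1 ∨ σ = -1) → IsSec Q f (HP σ ρ) →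
    (∀ z ∈ HP σ ρ, |z.re| * fs (f z) (deriv f z) ≤ C₀) → ∃ y : ℝ, ρ < σ * y ∧ ‖f (y * Complex.I)‖ < K := by
  obtain ⟨c, C, hc, hlow'⟩ := norm_lower h
  have hlow : ∀ (f : ℂ → EN (n + 2)) (U : Set ℂ), IsSec Q f U → ∀ z ∈ U, c * |z.re| - C ≤ Real.log ‖f z‖ := by
    intro f U hf z hz
    have h1 := hlow' f U hf z hz
    first
      | exact h1
      | exact h1.2
  obtain ⟨C₂, hC₂⟩ : ∃ C₂ : ℝ, C₂ = 2 * C₀ ^ 2 := ⟨_, rfl⟩
  have hC₂0 : 0 < C₂ := by rw [hC₂]; positivity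
  obtain ⟨g₀, hg₀⟩ : ∃ g₀ : ℝ, g₀ = c / 4 := ⟨_, rfl⟩
  have hg₀0 : 0 < g₀ := by rw [hg₀]; positivity
  obtain ⟨W, hW⟩ : ∃ W : ℝ, W = 2 + 72 * C₂ / g₀ := ⟨_, rfl⟩
  have hW2 : 2 ≤ W := by
    rw [hW]
    have : 0 ≤ 72 * C₂ / g₀ := by positivity
    linarith
  have hWg : 72 * C₂ ≤ g₀ * W := by
    rw [hW, mul_add, mul_div_cancel₀ _ hg₀0.ne']
    have : 0 ≤ g₀ * 2 := by positivity
    linarith
  obtain ⟨ε, hε, hε1, hε2⟩ : ∃ ε : ℝ, 0 < ε ∧ ε ^ 2 ≤ c / 8 ∧ ε ^ 2 ≤ 2 * C₂ / W ^ 2 := by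
    have h1 : 0 < min (c / 8) (2 * C₂ / W ^ 2) := lt_min (by positivity) (by positivity)
    refine ⟨Real.sqrt (min (c / 8) (2 * C₂ / W ^ 2)), Real.sqrt_pos.2 h1, ?_, ?_⟩
    · rw [Real.sq_sqrt h1.le]
      exact min_le_left _ _
    · rw [Real.sq_sqrt h1.le]
      exact min_le_right _ _
  have hW0 : 0 ≤ W := by linarith
  obtain ⟨K, R, hK, hR, hsm⟩ := small_fs h (W := W) (ε := ε) hW0 hε
  refine ⟨K, hK, fun σ ρ f hσ hf hfs => ?_⟩
  by_contra hcon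
  push Not at hcon
  have hσ1 : |σ| = 1 := by rcases hσ with h1 | h1 <;> simp [h1]
  have hσ2 : σ * σ = 1 := by rcases hσ with h1 | h1 <;> simp [h1]
  have hopen := NoExc_open σ ρ
  have hmono : HP σ (ρ + R) ⊆ HP σ ρ := by
    intro z hz
    have h1 : ρ + R < σ * z.im := hz
    show ρ < σ * z.im
    linarith
  have hne : ∀ z ∈ HP σ ρ, f z ≠ 0 := by
    intro z hz h0
    have h1 := (hf.2 z hz).1
    have h2 : ev (Q 0) (0 : EN (n + 2)) = 0 := by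
      have h3 := ev_smul (h.hom 0) (0 : ℂ) (0 : EN (n + 2))
      rwa [smul_zero, zero_pow (Nat.one_le_iff_ne_zero.mp (h.pos 0)), zero_mul] at h3
    rw [h0, h2] at h1
    exact Complex.exp_ne_zero z h1.symm
  have hsmall : ∀ z ∈ HP σ (ρ + R), |z.re| ≤ W → fs (f z) (deriv f z) ≤ ε := by
    intro z hz hzW
    have hz' : ρ + R < σ * z.im := hz
    have hmemw : ρ < σ * z.im := by linarith
    refine hsm f (z.im * Complex.I) z ?_ ?_ ?_ (hcon _ hmemw)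
    · simp [hW0]
    · have h1 : z - z.im * Complex.I = (z.re : ℂ) := by
        apply Complex.ext <;> simp
      rw [h1, Complex.norm_real, Real.norm_eq_abs]
      exact hzW
    · have hsub : ball ((z.im : ℂ) * Complex.I) R ⊆ HP σ ρ := by
        intro u hu
        rw [mem_ball, dist_eq_norm] at hu
        have h1 := (Complex.abs_im_le_norm (u - z.im * Complex.I)).trans_lt hu
        have h2 : (u - z.im * Complex.I).im = u.im - z.im := by simp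
        rw [h2] at h1
        have h3 : |σ * (u.im - z.im)| < R := by rwa [abs_mul, hσ1, one_mul]
        have h4 := (abs_lt.1 h3).1
        show ρ < σ * u.im
        nlinarith
      exact ⟨hf.1.mono hsub, fun u hu => hf.2 u (hsub hu)⟩
  -- the function
  obtain ⟨v, hv⟩ : ∃ v : ℂ → ℝ, v = fun z => Real.exp (2 * c * sm ((1 / 2 : ℂ) * z).re) * ‖f z‖ ^ (-1 : ℝ) := ⟨_, rfl⟩
  have hκ : 0 ≤ 2 * c := by positivity
  have ha : (1 / 2 : ℂ) ≠ 0 := by norm_num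
  have han : ‖(1 / 2 : ℂ)‖ ^ 2 = 1 / 4 := by
    rw [norm_div, norm_one, Complex.norm_two]
    norm_num
  have hsubf : ∀ z ∈ HP σ ρ, Sub (fun z => ‖f z‖ ^ (-1 : ℝ)) z (-1 * fs (f z) (deriv f z) ^ 2 / 2) := by
    intro z hz
    exact Pool.Agent.H36.BP.Sub.norm_rpow (hf.1.analyticAt (hopen.mem_nhds hz)) (hne z hz) (-1)
  have hsubv : ∀ z ∈ HP σ ρ, Sub v z (0 + -1 * fs (f z) (deriv f z) ^ 2 / 2) := by
    intro z hz
    have h1 := sub_comp_mul ha (sub_exp_sm_pos hκ ((1 / 2 : ℂ) * z))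
    rw [mul_zero] at h1
    rw [hv]
    exact Pool.Agent.H36.BP.Sub.mul h1 (hsubf z hz)
  have hsubv' : ∀ z ∈ HP σ ρ, |z.re| ≤ 1 → Sub v z (c / 8 + -1 * fs (f z) (deriv f z) ^ 2 / 2) := by
    intro z hz hz1
    have h0 : |((1 / 2 : ℂ) * z).re| < 1 := by
      rw [NoExc_re, abs_div, abs_two]
      linarith
    have h1 := sub_comp_mul ha (sub_exp_sm_pos' hκ h0)
    rw [han, show 1 / 4 * (2 * c / 4) = c / 8 by ring] at h1
    rw [hv]
    exact Pool.Agent.H36.BP.Sub.mul h1 (hsubf z hz)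
  have hvpos : ∀ z ∈ HP σ ρ, 0 < v z := by
    intro z hz
    rw [hv]
    exact mul_pos (Real.exp_pos _) (Real.rpow_pos_of_pos (norm_pos_iff.2 (hne z hz)) _)
  have hvcont : ContinuousOn v (HP σ (ρ + R)) := by
    rw [hv]
    refine ContinuousOn.mul ?_ ?_
    · refine (Real.continuous_exp.comp (continuous_const.mul (continuous_sm.comp
        (Complex.continuous_re.comp (continuous_const.mul continuous_id))))).continuousOn
    · refine ContinuousOn.rpow_const (hf.1.continuousOn.mono hmono).norm fun z hz => Or.inl ?_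
      exact norm_ne_zero_iff.2 (hne z (hmono hz))
  have hvC : ∀ z ∈ HP σ (ρ + R), v z ≤ Real.exp (c + C) := by
    intro z hz
    have hz' := hmono hz
    have hfn : 0 < ‖f z‖ := norm_pos_iff.2 (hne z hz')
    have h1 := hlow f _ hf z hz'
    have h2 : ‖f z‖ ^ (-1 : ℝ) = Real.exp (-Real.log ‖f z‖) := by
      rw [Real.rpow_def_of_pos hfn]
      congr 1
      ring
    have h3 : sm ((1 / 2 : ℂ) * z).re ≤ |z.re| / 2 + 1 / 2 := by
      have h4 := sm_le_abs_add ((1 / 2 : ℂ) * z).re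
      rw [NoExc_re, abs_div, abs_two] at h4
      rw [NoExc_re]
      exact h4
    have h5 : 2 * c * sm ((1 / 2 : ℂ) * z).re ≤ 2 * c * (|z.re| / 2 + 1 / 2) := mul_le_mul_of_nonneg_left h3 hκ
    rw [hv]
    show Real.exp (2 * c * sm ((1 / 2 : ℂ) * z).re) * ‖f z‖ ^ (-1 : ℝ) ≤ Real.exp (c + C)
    rw [h2, ← Real.exp_add]
    refine Real.exp_le_exp.2 ?_
    linarith
  have hb := barrier (g₀ := g₀) (C₂ := C₂) (C₃ := c + C) (W := W) (σ := σ) (ρ := ρ + R) hg₀0 hC₂0 hW2 hWg hσ (v := v) hvcont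
    (fun z hz => (hvpos z (hmono hz)).le) hvC
    (fun z hz _ hz1 => by
      refine Pool.Agent.H36.BP.Sub.anti (hsubv' z (hmono hz) hz1) ?_
      have h1 := hsmall z hz (by linarith)
      have h2 : fs (f z) (deriv f z) ^ 2 ≤ ε ^ 2 := pow_le_pow_left₀ (Pool.Agent.H36.BP.fs_nonneg _ _) h1 2
      rw [hg₀]
      linarith)
    (fun z hz _ hz1 hz2 => by
      refine Pool.Agent.H36.BP.Sub.anti (hsubv z (hmono hz)) ?_
      have h1 := hsmall z hz (by linarith)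
      have h2 : fs (f z) (deriv f z) ^ 2 ≤ ε ^ 2 := pow_le_pow_left₀ (Pool.Agent.H36.BP.fs_nonneg _ _) h1 2
      have h3 : 2 * C₂ / W ^ 2 = 2 * (C₂ / W ^ 2) := by ring
      rw [h3] at hε2
      linarith)
    (fun z hz _ hz1 => by
      refine Pool.Agent.H36.BP.Sub.anti (hsubv z (hmono hz)) ?_
      have hx : 0 < |z.re| := by linarith
      have h1 := hfs z (hmono hz)
      have h2 : (|z.re| * fs (f z) (deriv f z)) ^ 2 ≤ C₀ ^ 2 :=
        pow_le_pow_left₀ (mul_nonneg hx.le (Pool.Agent.H36.BP.fs_nonneg _ _)) h1 2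
      rw [mul_pow, sq_abs] at h2
      have hx2 : 0 < z.re ^ 2 := by rw [← sq_abs]; positivity
      have h3 : fs (f z) (deriv f z) ^ 2 ≤ C₀ ^ 2 / z.re ^ 2 := by
        rw [le_div_iff₀ hx2]
        linarith
      have h4 : C₂ / (4 * z.re ^ 2) = C₀ ^ 2 / z.re ^ 2 / 2 := by
        rw [hC₂]
        field_simp
        ring
      rw [h4]
      linarith)
  have hy : ρ + R < σ * (σ * (ρ + R + 1)) := by
    rw [← mul_assoc, hσ2]
    linarith
  have h0 := hb (σ * (ρ + R + 1)) hy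
  have hmem : ((σ * (ρ + R + 1) : ℝ) : ℂ) * Complex.I ∈ HP σ (ρ + R) := by
    show ρ + R < σ * (((σ * (ρ + R + 1) : ℝ) : ℂ) * Complex.I).im
    rw [Complex.im_ofReal_mul, Complex.I_im, mul_one]
    exact hy
  exact absurd h0 (hvpos _ (hmono hmem)).ne'

end Pool.Agent.TC
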