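import Pool.Agent.H62.EF.ZalA

/-!
# TC Resc: rescaling of a curve on a disc

The proof of `Pool.Agent.H62.EF.rescale_fs` (file `H62/EF/ZalA.lean`) on a disc: `u z = fs (F z) (F' z) * (R / 2 - ‖z - w₀‖)` is continuous on
`closedBall w₀ (R / 2)` (`F z ≠ 0`), it has a maximum at a point `v`, `u v ≥ u w₀ = fs (F w₀) (F' w₀) * R / 2 > 2 (m + 1)`; `b = fs (F v) (F' v)`,
`d = R / 2 - ‖v - w₀‖ ∈ (0, R / 2]`, `b d > 2 (m + 1)`, so `b > 4 (m + 1) / R`; `a = 1 / b`.  For `‖ζ‖ < m + 1`: `‖a ζ‖ < d / 2`, so `v + a ζ` is in the ball and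
`fs (F (v + a ζ)) (F' (v + a ζ)) * (d / 2) ≤ b d`.
-/

set_option autoImplicit false

open Topology Filter Metric

namespace Pool.Agent.TC

open Pool.Agent.H36.BP (EN fs wd wd_cont fs_nonneg fs_smul_right)

variable {N : ℕ}

theorem rescale_ball {F : ℂ → EN N} {w₀ : ℂ} {R : ℝ} (hR : 0 < R) (hF : DifferentiableOn ℂ F (ball w₀ R)) (h0 : ∀ z ∈ ball w₀ R, F z ≠ 0) (m : ℕ)
    (hbig : 4 * ((m : ℝ) + 1) < R * fs (F w₀) (deriv F w₀)) :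
    ∃ (v : ℂ) (a : ℝ), 0 < a ∧ a * (4 * ((m : ℝ) + 1)) ≤ R ∧ ‖v - w₀‖ ≤ R / 2 ∧
      (∀ ζ ∈ ball (0 : ℂ) (m + 1), v + (a : ℂ) * ζ ∈ ball w₀ R) ∧
      fs (F v) (deriv (fun ζ => F (v + (a : ℂ) * ζ)) 0) = 1 ∧
      ∀ ζ ∈ ball (0 : ℂ) (m + 1), fs (F (v + (a : ℂ) * ζ)) (deriv (fun ζ => F (v + (a : ℂ) * ζ)) ζ) ≤ 2 := by
  have hm0 : (0 : ℝ) ≤ m := Nat.cast_nonneg m
  have hsub : closedBall w₀ (R / 2) ⊆ ball w₀ R := closedBall_subset_ball (by linarith)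
  have hFc : ContinuousOn F (ball w₀ R) := hF.continuousOn
  have hF'c : ContinuousOn (deriv F) (ball w₀ R) := (hF.deriv isOpen_ball).continuousOn
  have hwc : ContinuousOn (fun z : ℂ => wd (F z) (deriv F z)) (ball w₀ R) := by
    have h2 : ContinuousOn (fun z : ℂ => (F z, deriv F z)) (ball w₀ R) := hFc.prodMk hF'c
    intro z hz
    have h3 := (wd_cont (N := N)).continuousAt (x := (F z, deriv F z))
    exact h3.comp_continuousWithinAt (f := fun z : ℂ => (F z, deriv F z)) (h2 z hz)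
  have hn2 : ContinuousOn (fun z : ℂ => ‖F z‖ ^ 2) (ball w₀ R) := hFc.norm.pow 2
  have hgc : ContinuousOn (fun z : ℂ => fs (F z) (deriv F z)) (ball w₀ R) :=
    hwc.div hn2 fun z hz => pow_ne_zero 2 (norm_ne_zero_iff.mpr (h0 z hz))
  set u : ℂ → ℝ := fun z => fs (F z) (deriv F z) * (R / 2 - ‖z - w₀‖) with hu
  have hdc : ContinuousOn (fun z : ℂ => R / 2 - ‖z - w₀‖) (closedBall w₀ (R / 2)) := by
    have h1 : Continuous fun z : ℂ => R / 2 - ‖z - w₀‖ := by fun_prop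
    exact h1.continuousOn
  have huc : ContinuousOn u (closedBall w₀ (R / 2)) := (hgc.mono hsub).mul hdc
  obtain ⟨z₀, hz₀, hmax⟩ := (isCompact_closedBall w₀ (R / 2)).exists_isMaxOn
    ⟨w₀, mem_closedBall_self (by linarith)⟩ huc
  have hz₀n : ‖z₀ - w₀‖ ≤ R / 2 := by rwa [mem_closedBall, dist_eq_norm] at hz₀
  have hu0z : u w₀ ≤ u z₀ := hmax (mem_closedBall_self (by linarith) : w₀ ∈ closedBall w₀ (R / 2))
  have hu0 : u w₀ = R * fs (F w₀) (deriv F w₀) / 2 := by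
    simp only [hu, sub_self, norm_zero]
    ring
  have hm : 2 * ((m : ℝ) + 1) < u z₀ := by rw [hu0] at hu0z; linarith
  set d : ℝ := R / 2 - ‖z₀ - w₀‖ with hd
  have hd0 : 0 ≤ d := by rw [hd]; linarith
  set a : ℝ := fs (F z₀) (deriv F z₀) with ha
  have ha0 : 0 ≤ a := fs_nonneg _ _
  have huz : u z₀ = a * d := rfl
  have hpos : 0 < a * d := by rw [← huz]; linarith
  have hapos : 0 < a := by
    rcases ha0.lt_or_eq with h | h
    · exact h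
    · rw [← h] at hpos; simp at hpos
  have hdpos : 0 < d := by
    rcases hd0.lt_or_eq with h | h
    · exact h
    · rw [← h] at hpos; simp at hpos
  have hd2 : d ≤ R / 2 := by rw [hd]; linarith [norm_nonneg (z₀ - w₀)]
  have haL : 4 * ((m : ℝ) + 1) < a * R := by
    have h1 : a * d ≤ a * (R / 2) := mul_le_mul_of_nonneg_left hd2 ha0
    rw [huz] at hm
    linarith
  have hinv : 0 < a⁻¹ := inv_pos.2 hapos
  set φ : ℂ → ℂ := fun ζ => z₀ + ((a⁻¹ : ℝ) : ℂ) * ζ with hφ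
  have hφd : ∀ ζ, HasDerivAt φ ((a⁻¹ : ℝ) : ℂ) ζ := by
    intro ζ
    have := ((hasDerivAt_id ζ).const_mul ((a⁻¹ : ℝ) : ℂ)).const_add z₀
    simpa [hφ] using this
  have hkey : ∀ ζ ∈ ball (0 : ℂ) (m + 1), ‖φ ζ - w₀‖ ≤ R / 2 - d / 2 := by
    intro ζ hζ
    have hζn : ‖ζ‖ < m + 1 := by simpa using hζ
    have h1 : ‖φ ζ - w₀‖ ≤ ‖z₀ - w₀‖ + a⁻¹ * ‖ζ‖ := by
      have e1 : φ ζ - w₀ = (z₀ - w₀) + ((a⁻¹ : ℝ) : ℂ) * ζ := by
        simp only [hφ]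
        ring
      calc ‖φ ζ - w₀‖ = ‖(z₀ - w₀) + ((a⁻¹ : ℝ) : ℂ) * ζ‖ := by rw [e1]
        _ ≤ ‖z₀ - w₀‖ + ‖((a⁻¹ : ℝ) : ℂ) * ζ‖ := norm_add_le _ _
        _ = ‖z₀ - w₀‖ + a⁻¹ * ‖ζ‖ := by
          rw [norm_mul, Complex.norm_real, Real.norm_of_nonneg hinv.le]
    have h2 : a⁻¹ * ‖ζ‖ ≤ d / 2 := by
      rw [inv_mul_le_iff₀ hapos]
      rw [huz] at hm
      linarith
    have h3 : ‖z₀ - w₀‖ = R / 2 - d := by rw [hd]; ring
    linarith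
  have hball : ∀ ζ ∈ ball (0 : ℂ) (m + 1), φ ζ ∈ closedBall w₀ (R / 2) := by
    intro ζ hζ
    have := hkey ζ hζ
    rw [mem_closedBall, dist_eq_norm]
    linarith
  have hder : ∀ ζ ∈ ball (0 : ℂ) (m + 1), deriv (fun ζ => F (φ ζ)) ζ = ((a⁻¹ : ℝ) : ℂ) • deriv F (φ ζ) := by
    intro ζ hζ
    have h1 : DifferentiableAt ℂ F (φ ζ) :=
      hF.differentiableAt (isOpen_ball.mem_nhds (hsub (hball ζ hζ)))
    exact (h1.hasDerivAt.scomp ζ (hφd ζ)).deriv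
  have hfs : ∀ ζ ∈ ball (0 : ℂ) (m + 1), fs (F (φ ζ)) (deriv (fun ζ => F (φ ζ)) ζ) = a⁻¹ * fs (F (φ ζ)) (deriv F (φ ζ)) := by
    intro ζ hζ
    rw [hder ζ hζ, fs_smul_right, Complex.norm_real, Real.norm_of_nonneg hinv.le]
  have hφ0 : φ 0 = z₀ := by simp [hφ]
  refine ⟨z₀, a⁻¹, hinv, ?_, hz₀n, fun ζ hζ => hsub (hball ζ hζ), ?_, ?_⟩
  · rw [inv_mul_le_iff₀ hapos]
    exact haL.le
  · have h1 := hfs 0 (mem_ball_self (by positivity))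
    rw [hφ0, ← ha, inv_mul_cancel₀ hapos.ne'] at h1
    exact h1
  · intro ζ hζ
    change fs (F (φ ζ)) (deriv (fun ζ => F (φ ζ)) ζ) ≤ 2
    rw [hfs ζ hζ]
    have h1 : u (φ ζ) ≤ u z₀ := hmax (hball ζ hζ)
    have h2 := hkey ζ hζ
    have h3 : fs (F (φ ζ)) (deriv F (φ ζ)) * (R / 2 - ‖φ ζ - w₀‖) ≤ a * d := h1
    have h4 : 0 ≤ fs (F (φ ζ)) (deriv F (φ ζ)) := fs_nonneg _ _
    have h5 : fs (F (φ ζ)) (deriv F (φ ζ)) * (d / 2) ≤ a * d :=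
      le_trans (mul_le_mul_of_nonneg_left (by linarith) h4) h3
    have h6 : fs (F (φ ζ)) (deriv F (φ ζ)) ≤ 2 * a := by
      by_contra hc
      push Not at hc
      have : 2 * a * (d / 2) < fs (F (φ ζ)) (deriv F (φ ζ)) * (d / 2) := mul_lt_mul_of_pos_right hc (by linarith)
      linarith
    rw [inv_mul_le_iff₀ hapos]
    linarith

end Pool.Agent.TC
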