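import Pool.Agent.TC.LimAlt
import Pool.Agent.TC.Resc
import Pool.Agent.TC.Crit
import Pool.Agent.TC.FibGood

/-!
# TC NormGood: sections are normal near the points which are not critical

`crit_isolated`.  If `z` is critical, with the point `x` (`x ≠ 0` because `F₁ x ≠ 0`), `crit_finite` gives `τ ∈ T` with `exp z ^ e 1 = τ exp (- z) ^ e 0`, i.e. `exp ((e 0 + e 1) z) = τ`.  `exp ((e 0 + e 1) z)` is injective on `closedBall z₀ ρ₁` with `ρ₁ = 1 / (e 0 + e 1)` (`2 ρ₁ (e 0 + e 1) < 2 π`), so there are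
only finitely many critical `z` in this disc; take `ρ` smaller than their distances to `z₀` (the ones different from `z₀`).

`norm_good`.  Suppose that the `t k = fs (F k (z k)) (deriv (F k) (z k))` are not bounded along `𝒰`: then (ultrafilter) `t k → ∞`.  `R k = (√ (t k))⁻¹ → 0`, `m k = ⌊√ (t k) / 8⌋₊ → ∞`, `4 (m k + 1) < R k * t k = √ (t k)` for large `t k`, `ball (z k) (R k) ⊆ ball z₀ r` for almost all `k`.  `rescale_ball`: `v k`, `a k`
with `0 < a k ≤ R k → 0`, `‖v k - z k‖ ≤ R k / 2`, so `v k → z₀`; `F' k ζ = F k (v k + a k ζ)` on `ball 0 (m k + 1)` has `fs ≤ 2`, and `fs = 1` at `0`.  `lim_alt` with `α k ζ = exp (v k + a k ζ) → exp z₀`, `β k ζ = exp (- (v k + a k ζ)) → exp (- z₀)`, `a = exp z₀`, `b = exp (- z₀)` (constants).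
First alternative: `fs → 0` at `0`: contradiction.  Second one: `G` entire in the fibre over `z₀`, `fs (G 0) (deriv G 0) = 1`; `Pre.fib_good` (`z₀` is not critical): `G` is constant, `deriv G 0 = 0`, `fs = 0`: contradiction.

`norm_good'`.  Otherwise for every `j : ℕ` for almost all `k` (ultrafilter) there is `z ∈ ball z₀ (r / (j + 1))` with `fs (F k z) (deriv (F k) z) > j + 1`.  For each `k` let `j k` be the largest `j ≤ k` with this property (`Nat.findGreatest`), `z k` such a point (`z₀` if there is none).  `j k → ∞` along `𝒰` if `𝒰` is a non-principal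
ultrafilter (`𝒰 ≤ atTop`); so `z k → z₀` and `fs (F k (z k)) _ > j k → ∞`: contradiction to `norm_good`.
-/

set_option autoImplicit false

open Topology Filter Metric

namespace Pool.Agent.TC

open Pool.Agent.H36.BP (EN fs wd Sub)

variable {n : ℕ} {Q : Fin (n + 2) → MvPolynomial (Fin (n + 3)) ℂ} {e : Fin (n + 2) → ℕ}

/-- the fibre over `z` has a singular point -/
def Crit (Q : Fin (n + 2) → MvPolynomial (Fin (n + 3)) ℂ) (z : ℂ) : Prop :=
  ∃ x : EN (n + 2), OnV Q x ∧ ev (Q 0) x = Complex.exp z ∧ ev (Q 1) x = Complex.exp (-z) ∧ nv Q x = 0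

private theorem NormGood_ne (h : Pair Q e) {x : EN (n + 2)} {c : ℂ} (hc : c ≠ 0) (hx : ev (Q 0) x = c) : x ≠ 0 := by
  rintro rfl
  have h1 := ev_smul (h.hom 0) 0 (0 : EN (n + 2))
  rw [smul_zero, zero_pow (Nat.one_le_iff_ne_zero.1 (h.pos 0)), zero_mul] at h1
  exact hc (hx.symm.trans h1)

theorem crit_isolated (h : Pair Q e) (z₀ : ℂ) : ∃ ρ : ℝ, 0 < ρ ∧ ∀ z ∈ closedBall z₀ ρ, z ≠ z₀ → ¬ Crit Q z := by
  classical
  obtain ⟨T, hT⟩ := crit_finite h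
  have hm : (1 : ℝ) ≤ ((e 0 + e 1 : ℕ) : ℝ) := by
    have h1 := h.pos 0
    exact_mod_cast (by omega : 1 ≤ e 0 + e 1)
  set m : ℕ := e 0 + e 1 with hmdef
  have hm0 : (0 : ℝ) < m := by linarith
  set ρ₁ : ℝ := 1 / m with hρ₁
  have hρ₁0 : 0 < ρ₁ := by positivity
  have hcrit : ∀ z, Crit Q z → Complex.exp (m * z) ∈ T := by
    rintro z ⟨x, hxV, hx0, hx1, hxn⟩
    obtain ⟨τ, hτ, h1⟩ := hT x (NormGood_ne h (Complex.exp_ne_zero z) hx0) hxV hxn
    rw [hx0, hx1, ← Complex.exp_nat_mul, ← Complex.exp_nat_mul] at h1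
    have h2 : Complex.exp (m * z) = τ := by
      have h3 : (m : ℂ) * z = (e 1 : ℂ) * z + (e 0 : ℂ) * z := by
        rw [hmdef]
        push_cast
        ring
      rw [h3, Complex.exp_add, h1, mul_assoc, ← Complex.exp_add]
      have h4 : (e 0 : ℂ) * -z + (e 0 : ℂ) * z = 0 := by ring
      rw [h4, Complex.exp_zero, mul_one]
    rw [h2]
    exact hτ
  have hinj : Set.InjOn (fun z : ℂ => Complex.exp (m * z)) (closedBall z₀ ρ₁) := by
    intro z hz w hw hzw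
    obtain ⟨k, hk⟩ := Complex.exp_eq_exp_iff_exists_int.1 hzw
    have h1 : (m : ℂ) * (z - w) = k * (2 * Real.pi * Complex.I) := by linear_combination hk
    have h2 : ‖z - w‖ ≤ 2 * ρ₁ := by
      rw [mem_closedBall, dist_eq_norm] at hz hw
      calc ‖z - w‖ = ‖(z - z₀) - (w - z₀)‖ := by congr 1; ring
        _ ≤ ‖z - z₀‖ + ‖w - z₀‖ := norm_sub_le _ _
        _ ≤ 2 * ρ₁ := by linarith
    have h3 : ‖(m : ℂ) * (z - w)‖ ≤ 2 := by
      rw [norm_mul, Complex.norm_natCast]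
      calc (m : ℝ) * ‖z - w‖ ≤ m * (2 * ρ₁) := mul_le_mul_of_nonneg_left h2 hm0.le
        _ = 2 := by rw [hρ₁]; field_simp
    have h4 : ‖(m : ℂ) * (z - w)‖ = |(k : ℝ)| * (2 * Real.pi) := by
      rw [h1, norm_mul, norm_mul, norm_mul, Complex.norm_I, Complex.norm_real, Complex.norm_intCast, Real.norm_eq_abs,
        abs_of_pos Real.pi_pos]
      simp
    have hk0 : k = 0 := by
      by_contra hk0
      have h5 : (1 : ℝ) ≤ |(k : ℝ)| := by
        have h6 : (1 : ℤ) ≤ |k| := Int.one_le_abs hk0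
        exact_mod_cast h6
      have h7 := Real.pi_gt_three
      nlinarith
    rw [hk0, Int.cast_zero, zero_mul, mul_eq_zero] at h1
    rcases h1 with h1 | h1
    · exfalso
      exact hm0.ne' (by exact_mod_cast h1)
    · exact sub_eq_zero.1 h1
  have hfin : {z | z ∈ closedBall z₀ ρ₁ ∧ Crit Q z}.Finite :=
    Set.Finite.of_injOn (f := fun z : ℂ => Complex.exp (m * z)) (t := (T : Set ℂ)) (fun z hz => hcrit z hz.2)
      (hinj.mono fun z hz => hz.1) T.finite_toSet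
  have hfin' : ({z | z ∈ closedBall z₀ ρ₁ ∧ Crit Q z} \ {z₀}).Finite := hfin.subset Set.sdiff_subset
  have hnb : ({z | z ∈ closedBall z₀ ρ₁ ∧ Crit Q z} \ {z₀})ᶜ ∈ 𝓝 z₀ :=
    hfin'.isClosed.isOpen_compl.mem_nhds fun hcon => hcon.2 rfl
  obtain ⟨ρ₂, hρ₂, hsub⟩ := Metric.mem_nhds_iff.1 hnb
  refine ⟨min ρ₁ (ρ₂ / 2), lt_min hρ₁0 (by linarith), ?_⟩
  intro z hz hne hc
  rw [mem_closedBall] at hz
  have h1 : z ∈ closedBall z₀ ρ₁ := mem_closedBall.2 (hz.trans (min_le_left _ _))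
  have h2 : z ∈ ball z₀ ρ₂ := mem_ball.2 (lt_of_le_of_lt (hz.trans (min_le_right _ _)) (by linarith))
  exact hsub h2 ⟨⟨h1, hc⟩, hne⟩

theorem norm_good (h : Pair Q e) (𝒰 : Ultrafilter ℕ) {F : ℕ → ℂ → EN (n + 2)} {z₀ : ℂ} {r : ℝ} (hr : 0 < r) (hz₀ : ¬ Crit Q z₀)
    (hF : ∀ᶠ k in (𝒰 : Filter ℕ), IsSec Q (F k) (ball z₀ r)) {z : ℕ → ℂ} (hz : Tendsto z 𝒰 (𝓝 z₀)) :
    ∃ L : ℝ, ∀ᶠ k in (𝒰 : Filter ℕ), fs (F k (z k)) (deriv (F k) (z k)) ≤ L := by
  classical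
  by_contra hcon
  push Not at hcon
  set t : ℕ → ℝ := fun k => fs (F k (z k)) (deriv (F k) (z k)) with ht
  have htop : Tendsto t 𝒰 atTop := by
    rw [Filter.tendsto_atTop]
    intro L
    filter_upwards [hcon L] with k hk
    exact hk.le
  set s : ℕ → ℝ := fun k => Real.sqrt (t k) with hs
  have hstop : Tendsto s 𝒰 atTop := Real.tendsto_sqrt_atTop.comp htop
  set R : ℕ → ℝ := fun k => (s k)⁻¹ with hR
  have hR0 : Tendsto R 𝒰 (𝓝 0) := tendsto_inv_atTop_zero.comp hstop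
  set m : ℕ → ℕ := fun k => ⌊s k / 8⌋₊ with hm
  have hmtop : Tendsto (fun k => (m k : ℝ) + 1) 𝒰 atTop := by
    refine tendsto_atTop_mono' (𝒰 : Filter ℕ) ?_ (hstop.atTop_div_const (by norm_num : (0 : ℝ) < 8))
    exact Eventually.of_forall fun k => (Nat.lt_floor_add_one (s k / 8)).le
  -- the good indices
  have hgood : ∀ᶠ k in (𝒰 : Filter ℕ), 0 < R k ∧ DifferentiableOn ℂ (F k) (ball (z k) (R k)) ∧
      (∀ w ∈ ball (z k) (R k), F k w ≠ 0) ∧ 4 * ((m k : ℝ) + 1) < R k * fs (F k (z k)) (deriv (F k) (z k)) ∧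
      ball (z k) (R k) ⊆ ball z₀ r := by
    have h1 : ∀ᶠ k in (𝒰 : Filter ℕ), dist (z k) z₀ < r / 2 := (Metric.tendsto_nhds.1 hz) _ (by linarith)
    have h2 : ∀ᶠ k in (𝒰 : Filter ℕ), R k < r / 2 := hR0.eventually_lt_const (by linarith)
    filter_upwards [h1, h2, hF, hstop.eventually_gt_atTop 8] with k h3 h4 h5 h6
    have hs0 : 0 < s k := by linarith
    have hsub : ball (z k) (R k) ⊆ ball z₀ r := by
      intro w hw
      rw [mem_ball] at hw ⊢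
      linarith [dist_triangle w (z k) z₀]
    have ht0 : 0 ≤ t k := Pool.Agent.H36.BP.fs_nonneg _ _
    have hss : s k * s k = t k := Real.mul_self_sqrt ht0
    have hRt : R k * t k = s k := by
      rw [← hss, hR]
      simp only
      rw [← mul_assoc, inv_mul_cancel₀ hs0.ne', one_mul]
    refine ⟨inv_pos.2 hs0, h5.1.mono hsub, fun w hw => ?_, ?_, hsub⟩
    · exact NormGood_ne h (Complex.exp_ne_zero w) (h5.2 w (hsub hw)).1
    · change 4 * ((m k : ℝ) + 1) < R k * t k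
      rw [hRt]
      have h7 : (m k : ℝ) ≤ s k / 8 := Nat.floor_le (by linarith)
      linarith
  have hex : ∀ k, ∃ (v : ℂ) (a : ℝ), (0 < R k ∧ DifferentiableOn ℂ (F k) (ball (z k) (R k)) ∧
      (∀ w ∈ ball (z k) (R k), F k w ≠ 0) ∧ 4 * ((m k : ℝ) + 1) < R k * fs (F k (z k)) (deriv (F k) (z k)) ∧
      ball (z k) (R k) ⊆ ball z₀ r) → 0 < a ∧ a * (4 * ((m k : ℝ) + 1)) ≤ R k ∧ ‖v - z k‖ ≤ R k / 2 ∧
      (∀ ζ ∈ ball (0 : ℂ) (m k + 1), v + (a : ℂ) * ζ ∈ ball (z k) (R k)) ∧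
      fs (F k v) (deriv (fun ζ => F k (v + (a : ℂ) * ζ)) 0) = 1 ∧
      ∀ ζ ∈ ball (0 : ℂ) (m k + 1), fs (F k (v + (a : ℂ) * ζ)) (deriv (fun ζ => F k (v + (a : ℂ) * ζ)) ζ) ≤ 2 := by
    intro k
    by_cases hk : (0 < R k ∧ DifferentiableOn ℂ (F k) (ball (z k) (R k)) ∧
      (∀ w ∈ ball (z k) (R k), F k w ≠ 0) ∧ 4 * ((m k : ℝ) + 1) < R k * fs (F k (z k)) (deriv (F k) (z k)) ∧
      ball (z k) (R k) ⊆ ball z₀ r)
    · obtain ⟨v, a, h1⟩ := rescale_ball hk.1 hk.2.1 hk.2.2.1 (m k) hk.2.2.2.1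
      exact ⟨v, a, fun _ => h1⟩
    · exact ⟨0, 0, fun h1 => (hk h1).elim⟩
  choose v a hva using hex
  have hva' : ∀ᶠ k in (𝒰 : Filter ℕ), 0 < a k ∧ a k * (4 * ((m k : ℝ) + 1)) ≤ R k ∧ ‖v k - z k‖ ≤ R k / 2 ∧
      (∀ ζ ∈ ball (0 : ℂ) (m k + 1), v k + (a k : ℂ) * ζ ∈ ball (z k) (R k)) ∧
      fs (F k (v k)) (deriv (fun ζ => F k (v k + (a k : ℂ) * ζ)) 0) = 1 ∧
      ∀ ζ ∈ ball (0 : ℂ) (m k + 1), fs (F k (v k + (a k : ℂ) * ζ)) (deriv (fun ζ => F k (v k + (a k : ℂ) * ζ)) ζ) ≤ 2 := by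
    filter_upwards [hgood] with k hk
    exact hva k hk
  have ha0 : Tendsto (fun k => a k) 𝒰 (𝓝 0) := by
    refine squeeze_zero' ?_ ?_ hR0
    · filter_upwards [hva'] with k hk
      exact hk.1.le
    · filter_upwards [hva'] with k hk
      have h1 : (0 : ℝ) ≤ m k := Nat.cast_nonneg _
      nlinarith [hk.1, hk.2.1]
  have hv0 : Tendsto v 𝒰 (𝓝 z₀) := by
    have h1 : Tendsto (fun k => v k - z k) 𝒰 (𝓝 0) := by
      rw [tendsto_zero_iff_norm_tendsto_zero]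
      refine squeeze_zero' (Eventually.of_forall fun k => norm_nonneg _) ?_ hR0
      filter_upwards [hva', hgood] with k hk hk'
      linarith [hk.2.2.1, hk'.1]
    have h2 := h1.add hz
    rw [zero_add] at h2
    refine h2.congr fun k => ?_
    ring
  have hlim : ∀ (ζ : ℕ → ℂ) (ζ₀ : ℂ), Tendsto ζ 𝒰 (𝓝 ζ₀) → Tendsto (fun k => v k + (a k : ℂ) * ζ k) 𝒰 (𝓝 z₀) := by
    intro ζ ζ₀ hζ
    have h1 : Tendsto (fun k => ((a k : ℝ) : ℂ)) 𝒰 (𝓝 ((0 : ℝ) : ℂ)) := (Complex.continuous_ofReal.tendsto 0).comp ha0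
    have h2 := hv0.add (h1.mul hζ)
    simpa using h2
  have halt := lim_alt h 𝒰 (fun k ζ => F k (v k + (a k : ℂ) * ζ)) (fun k => (m k : ℝ) + 1) hmtop (L := 2) (by norm_num)
    (fun k ζ => Complex.exp (v k + (a k : ℂ) * ζ)) (fun k ζ => Complex.exp (-(v k + (a k : ℂ) * ζ)))
    (fun _ => Complex.exp z₀) (fun _ => Complex.exp (-z₀)) (by
      filter_upwards [hva', hgood, hF] with k hk hk' hk''
      refine ⟨?_, fun ζ hζ => ?_⟩
      · refine hk'.2.1.comp (f := fun ζ => v k + (a k : ℂ) * ζ) ?_ fun ζ hζ => hk.2.2.2.1 ζ hζ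
        exact ((differentiable_id.const_mul _).const_add _).differentiableOn
      · have h1 := hk''.2 _ (hk'.2.2.2.2 (hk.2.2.2.1 ζ hζ))
        exact ⟨h1.2.2, h1.1, h1.2.1, Complex.exp_ne_zero _, Complex.exp_ne_zero _, hk.2.2.2.2.2 ζ hζ⟩)
    (fun ζ ζ₀ hζ => (Complex.continuous_exp.tendsto z₀).comp (hlim ζ ζ₀ hζ))
    (fun ζ ζ₀ hζ => (Complex.continuous_exp.tendsto (-z₀)).comp (hlim ζ ζ₀ hζ).neg)
    (fun _ => Or.inl (Complex.exp_ne_zero _))
  have hone : ∀ᶠ k in (𝒰 : Filter ℕ), fs ((fun k ζ => F k (v k + (a k : ℂ) * ζ)) k 0)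
      (deriv ((fun k ζ => F k (v k + (a k : ℂ) * ζ)) k) 0) = 1 := by
    filter_upwards [hva'] with k hk
    have h1 := hk.2.2.2.2.1
    simp only [mul_zero, add_zero]
    exact h1
  rcases halt with h1 | ⟨G, hG, hGV, -, hfs⟩
  · have h2 := (h1 0).1
    have h3 : Tendsto (fun _ : ℕ => (1 : ℝ)) 𝒰 (𝓝 0) := h2.congr' hone
    exact one_ne_zero (tendsto_nhds_unique tendsto_const_nhds h3)
  · have h2 := hfs 0
    have h3 : Tendsto (fun _ : ℕ => (1 : ℝ)) 𝒰 (𝓝 (fs (G 0) (deriv G 0))) := h2.congr' hone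
    have h4 : (1 : ℝ) = fs (G 0) (deriv G 0) := tendsto_nhds_unique tendsto_const_nhds h3
    have hconst : ∀ w, G w = G 0 := fun w => h.pre.fib_good (Complex.exp_ne_zero z₀) (Complex.exp_ne_zero (-z₀))
      (fun x hxV hx0 hx1 hxn => hz₀ ⟨x, hxV, hx0, hx1, hxn⟩) hG (fun w => (hGV w).2.1) (fun w => (hGV w).2.2)
      (fun w => (hGV w).1) w 0
    have h5 : G = fun _ => G 0 := funext hconst
    have h6 : deriv G 0 = 0 := by
      rw [h5, deriv_const]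
    have h7 : fs (G 0) (deriv G 0) = 0 := by
      have h8 := Pool.Agent.H36.BP.fs_smul_right (G 0) (0 : EN (n + 2)) 0
      rw [zero_smul, norm_zero, zero_mul] at h8
      rw [h6]
      exact h8
    rw [h7] at h4
    exact one_ne_zero h4

theorem norm_good' (h : Pair Q e) {𝒰 : Ultrafilter ℕ} (h𝒰 : (𝒰 : Filter ℕ) ≤ atTop) {F : ℕ → ℂ → EN (n + 2)} {z₀ : ℂ} {r : ℝ} (hr : 0 < r)
    (hz₀ : ¬ Crit Q z₀) (hF : ∀ᶠ k in (𝒰 : Filter ℕ), IsSec Q (F k) (ball z₀ r)) :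
    ∃ r' L : ℝ, 0 < r' ∧ r' ≤ r ∧ 0 < L ∧ ∀ᶠ k in (𝒰 : Filter ℕ), ∀ z ∈ ball z₀ r', fs (F k z) (deriv (F k) z) ≤ L := by
  classical
  by_contra hcon
  push Not at hcon
  set P : ℕ → ℕ → Prop := fun k j => ∃ z ∈ ball z₀ (r / (j + 1)), (j : ℝ) + 1 < fs (F k z) (deriv (F k) z) with hP
  have hPev : ∀ j : ℕ, ∀ᶠ k in (𝒰 : Filter ℕ), P k j := by
    intro j
    have hj : (0 : ℝ) < (j : ℝ) + 1 := by positivity
    have h1 := hcon (r / (j + 1)) (j + 1) (by positivity) (div_le_self hr.le (by linarith [(Nat.cast_nonneg j : (0 : ℝ) ≤ j)])) hj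
    filter_upwards [h1] with k hk
    exact hk
  set J : ℕ → ℕ := fun k => Nat.findGreatest (P k) k with hJ
  have hJspec : ∀ᶠ k in (𝒰 : Filter ℕ), P k (J k) := by
    filter_upwards [hPev 0] with k hk
    exact Nat.findGreatest_spec (Nat.zero_le k) hk
  have hJtop : ∀ j : ℕ, ∀ᶠ k in (𝒰 : Filter ℕ), j ≤ J k := by
    intro j
    filter_upwards [hPev j, h𝒰 (eventually_ge_atTop j)] with k hk hk'
    exact Nat.le_findGreatest hk' hk
  have hex : ∀ k, ∃ z : ℂ, P k (J k) → z ∈ ball z₀ (r / (J k + 1)) ∧ (J k : ℝ) + 1 < fs (F k z) (deriv (F k) z) := by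
    intro k
    by_cases hk : P k (J k)
    · obtain ⟨z, hz1, hz2⟩ := hk
      exact ⟨z, fun _ => ⟨hz1, hz2⟩⟩
    · exact ⟨z₀, fun h1 => (hk h1).elim⟩
  choose z hz using hex
  have hJR : Tendsto (fun k => (J k : ℝ)) 𝒰 atTop := by
    rw [Filter.tendsto_atTop]
    intro b
    filter_upwards [hJtop ⌈b⌉₊] with k hk
    exact (Nat.le_ceil b).trans (by exact_mod_cast hk)
  have hzt : Tendsto z 𝒰 (𝓝 z₀) := by
    rw [tendsto_iff_dist_tendsto_zero]
    have h1 : Tendsto (fun k => r / ((J k : ℝ) + 1)) 𝒰 (𝓝 0) :=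
      (tendsto_atTop_add_const_right _ 1 hJR).const_div_atTop r
    refine squeeze_zero' (Eventually.of_forall fun k => dist_nonneg) ?_ h1
    filter_upwards [hJspec] with k hk
    exact (mem_ball.1 (hz k hk).1).le
  obtain ⟨L, hL⟩ := norm_good h 𝒰 hr hz₀ hF hzt
  have h2 : ∀ᶠ k in (𝒰 : Filter ℕ), L < J k := hJR.eventually_gt_atTop L
  obtain ⟨k, hk1, hk2, hk3⟩ := (hL.and (h2.and hJspec)).exists
  linarith [(hz k hk3).2]

end Pool.Agent.TC
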