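import Pool.Agent.TC.Strip
import Pool.Agent.TC.Cmp

/-!
# TC NvLow: the normal vector is bounded below along the entire sections

For `|x|` large `f z` is near one of the boundary curves (`|F₁ (f z)| = exp x`, `|F₂ (f z)| = exp (-x)`, `|f z| ≥ 1`) and `nv_lower_bdry` applies; for
bounded `x` use the compactness of the set of the entire sections (`sec_lim`) and `nv_ne_zero_sec`.
-/

set_option autoImplicit false

open Topology Filter Metric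

namespace Pool.Agent.TC

open Pool.Agent.H36.BP (EN fs wd Sub)

variable {n : ℕ} {Q : Fin (n + 2) → MvPolynomial (Fin (n + 3)) ℂ} {e : Fin (n + 2) → ℕ}

private theorem NvLow_far (h : Pair Q e) : ∃ c : ℝ, 0 < c ∧ ∃ X₀ : ℝ, ∀ f ∈ Sec Q, ∀ z : ℂ, X₀ ≤ |z.re| →
    c * ‖f z‖ ^ (∑ j, (e j - 1)) ≤ ‖nv Q (f z)‖ := by
  obtain ⟨c₁, hc₁, ε, hε, h1⟩ := nv_lower_bdry h
  obtain ⟨a, C, ha, h2⟩ := norm_lower h
  refine ⟨c₁, hc₁, max (C / a) (-Real.log ε), fun f hf z hz => ?_⟩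
  have hf' : IsSec Q f Set.univ := hf
  obtain ⟨hne, hlog⟩ := h2 f Set.univ hf' z (Set.mem_univ z)
  have hpos : 0 < ‖f z‖ := norm_pos_iff.2 hne
  have h3 : C / a ≤ |z.re| := (le_max_left _ _).trans hz
  have h4 : -Real.log ε ≤ |z.re| := (le_max_right _ _).trans hz
  have h5 : 1 ≤ ‖f z‖ := by
    have h6 : C ≤ a * |z.re| := by
      rw [div_le_iff₀ ha] at h3
      linarith
    have h7 : 0 ≤ Real.log ‖f z‖ := by linarith
    exact (Real.log_nonneg_iff hpos).1 h7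
  have h6 : Real.exp (-|z.re|) ≤ ε := by
    calc Real.exp (-|z.re|) ≤ Real.exp (Real.log ε) := Real.exp_le_exp.2 (by linarith)
      _ = ε := Real.exp_log hε
  have h7 : ∀ k : ℕ, ε ≤ ε * ‖f z‖ ^ k := fun k => le_mul_of_one_le_right hε.le (one_le_pow₀ h5)
  obtain ⟨e0, e1, hV⟩ := hf'.2 z (Set.mem_univ z)
  refine h1 (f z) hV ?_
  rcases le_total z.re 0 with hx | hx
  · left
    rw [e0, Complex.norm_exp]
    rw [abs_of_nonpos hx, neg_neg] at h6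
    exact h6.trans (h7 _)
  · right
    rw [e1, Complex.norm_exp, Complex.neg_re]
    rw [abs_of_nonneg hx] at h6
    exact h6.trans (h7 _)

private theorem NvLow_near (h : Pair Q e) (X₀ : ℝ) : ∃ c : ℝ, 0 < c ∧ ∀ f ∈ Sec Q, ∀ z : ℂ, |z.re| ≤ X₀ →
    c * ‖f z‖ ^ (∑ j, (e j - 1)) ≤ ‖nv Q (f z)‖ := by
  by_contra hcon
  push Not at hcon
  have hk : ∀ k : ℕ, ∃ f ∈ Sec Q, ∃ z : ℂ, |z.re| ≤ X₀ ∧
      ‖nv Q (f z)‖ < (1 / ((k : ℝ) + 1)) * ‖f z‖ ^ (∑ j, (e j - 1)) := fun k => hcon _ (by positivity)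
  choose f hf z hz hfz using hk
  choose m hm0 hm1 using fun k => exists_shift (z k).im
  set F : ℕ → ℂ → EN (n + 2) := fun k w => f k (w + 2 * Real.pi * m k * Complex.I) with hF
  have hFS : ∀ k, F k ∈ Sec Q := fun k => Sec.shift (hf k) (m k)
  set 𝒰 : Ultrafilter ℕ := hyperfilter ℕ with h𝒰
  have h𝒰' : (𝒰 : Filter ℕ) ≤ atTop := Nat.hyperfilter_le_atTop
  set z' : ℕ → ℂ := fun k => z k - 2 * Real.pi * m k * Complex.I with hz'
  have hz're : ∀ k, (z' k).re = (z k).re := fun k => by simp [hz']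
  have hz'im : ∀ k, (z' k).im = (z k).im - 2 * Real.pi * m k := fun k => by simp [hz']
  have hbd : ∀ k, ‖z' k‖ ≤ X₀ + 2 * Real.pi := by
    intro k
    refine (Complex.norm_le_abs_re_add_abs_im _).trans ?_
    rw [hz're, hz'im, abs_of_nonneg (hm0 k)]
    exact add_le_add (hz k) (hm1 k)
  have hFz : ∀ k : ℕ, ‖nv Q (F k (z' k))‖ ≤ (1 / ((k : ℝ) + 1)) * ‖F k (z' k)‖ ^ (∑ j, (e j - 1)) := by
    intro k
    simp only [hF, hz', sub_add_cancel]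
    exact (hfz k).le
  obtain ⟨z₀, -, hz₀⟩ := exists_lim 𝒰 (Eventually.of_forall hbd)
  obtain ⟨G, hG, hlim⟩ := sec_lim h 𝒰 (Eventually.of_forall hFS)
  have h1 : Tendsto (fun k => F k (z' k)) 𝒰 (𝓝 (G z₀)) := (hlim _ _ hz₀).1
  have h2 : Tendsto (fun k => ‖nv Q (F k (z' k))‖) 𝒰 (𝓝 ‖nv Q (G z₀)‖) :=
    (((continuous_nv Q).tendsto _).comp h1).norm
  have h3 : Tendsto (fun k : ℕ => (1 / ((k : ℝ) + 1)) * ‖F k (z' k)‖ ^ (∑ j, (e j - 1))) 𝒰
      (𝓝 (0 * ‖G z₀‖ ^ (∑ j, (e j - 1)))) :=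
    (tendsto_one_div_add_atTop_nhds_zero_nat.mono_left h𝒰').mul (h1.norm.pow _)
  have h4 : ‖nv Q (G z₀)‖ ≤ 0 := by
    have := le_of_tendsto_of_tendsto' h2 h3 hFz
    simpa using this
  exact nv_ne_zero_sec h isOpen_univ (show IsSec Q G Set.univ from hG) (Set.mem_univ z₀) (norm_le_zero_iff.1 h4)

theorem nv_lower (h : Pair Q e) : ∃ c : ℝ, 0 < c ∧ ∀ f ∈ Sec Q, ∀ z, c * ‖f z‖ ^ (∑ j, (e j - 1)) ≤ ‖nv Q (f z)‖ := by
  obtain ⟨c₁, hc₁, X₀, h1⟩ := NvLow_far h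
  obtain ⟨c₂, hc₂, h2⟩ := NvLow_near h X₀
  refine ⟨min c₁ c₂, lt_min hc₁ hc₂, fun f hf z => ?_⟩
  rcases le_total X₀ |z.re| with hx | hx
  · refine le_trans ?_ (h1 f hf z hx)
    gcongr
    exact min_le_left _ _
  · refine le_trans ?_ (h2 f hf z hx)
    gcongr
    exact min_le_right _ _

end Pool.Agent.TC
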