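import Pool.Agent.TC.Defs

/-!
# TC SecB: simple lemmas on sections
-/

set_option autoImplicit false

open Topology Filter Metric

namespace Pool.Agent.TC

open Pool.Agent.H36.BP (EN fs wd Sub)

variable {n : ℕ} {Q : Fin (n + 2) → MvPolynomial (Fin (n + 3)) ℂ} {e : Fin (n + 2) → ℕ}

theorem IsSec.mono {f : ℂ → EN (n + 2)} {U V : Set ℂ} (hf : IsSec Q f U) (hV : V ⊆ U) : IsSec Q f V :=
  ⟨hf.1.mono hV, fun z hz => hf.2 z (hV hz)⟩

private theorem SecB_exp (m : ℤ) : Complex.exp (2 * Real.pi * m * Complex.I) = 1 := by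
  have : (2 * Real.pi * m * Complex.I : ℂ) = m * (2 * Real.pi * Complex.I) := by ring
  rw [this]
  exact Complex.exp_int_mul_two_pi_mul_I m

theorem IsSec.shift {f : ℂ → EN (n + 2)} {U : Set ℂ} (hf : IsSec Q f U) (m : ℤ) :
    IsSec Q (fun z => f (z + 2 * Real.pi * m * Complex.I)) {z | z + 2 * Real.pi * m * Complex.I ∈ U} := by
  refine ⟨?_, ?_⟩
  · refine hf.1.comp (t := U) ?_ ?_
    · exact (differentiable_id.add_const _).differentiableOn
    · intro z hz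
      exact hz
  · intro z hz
    obtain ⟨h1, h2, h3⟩ := hf.2 _ hz
    refine ⟨?_, ?_, h3⟩
    · show ev (Q 0) (f (z + 2 * Real.pi * m * Complex.I)) = _
      rw [h1, Complex.exp_add, SecB_exp, mul_one]
    · show ev (Q 1) (f (z + 2 * Real.pi * m * Complex.I)) = _
      rw [h2, neg_add, Complex.exp_add, Complex.exp_neg (2 * Real.pi * m * Complex.I), SecB_exp, inv_one, mul_one]

theorem Sec.shift {f : ℂ → EN (n + 2)} (hf : f ∈ Sec Q) (m : ℤ) : (fun z => f (z + 2 * Real.pi * m * Complex.I)) ∈ Sec Q :=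
  (IsSec.shift (U := Set.univ) hf m).mono (fun _ _ => Set.mem_univ _)

theorem Sec.differentiable {f : ℂ → EN (n + 2)} (hf : f ∈ Sec Q) : Differentiable ℂ f :=
  differentiableOn_univ.mp (show IsSec Q f Set.univ from hf).1

theorem deriv_shift (f : ℂ → EN (n + 2)) (a z : ℂ) : deriv (fun z => f (z + a)) z = deriv f (z + a) :=
  deriv_comp_add_const f a z

/-- every point is a translate of a point with imaginary part in `[0, 2 π]` -/
theorem exists_shift (y : ℝ) : ∃ m : ℤ, 0 ≤ y - 2 * Real.pi * m ∧ y - 2 * Real.pi * m ≤ 2 * Real.pi := by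
  have hp : 0 < 2 * Real.pi := by positivity
  refine ⟨⌊y / (2 * Real.pi)⌋, ?_, ?_⟩
  · have h1 := Int.floor_le (y / (2 * Real.pi))
    rw [le_div_iff₀ hp] at h1
    linarith
  · have h1 := (Int.lt_floor_add_one (y / (2 * Real.pi))).le
    rw [div_le_iff₀ hp] at h1
    linarith

theorem Sec.fs_le {L : ℝ} (hL : ∀ (f : ℂ → EN (n + 2)) (z₀ : ℂ) (r : ℝ), 1 / 2 ≤ r → IsSec Q f (ball z₀ r) →
    fs (f z₀) (deriv f z₀) ≤ L * (1 / r + 1 / (1 + |z₀.re|))) {f : ℂ → EN (n + 2)} (hf : f ∈ Sec Q) (z : ℂ) :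
    fs (f z) (deriv f z) ≤ L / (1 + |z.re|) := by
  have h1 : Tendsto (fun r : ℝ => L * (1 / r + 1 / (1 + |z.re|))) atTop (𝓝 (L * (0 + 1 / (1 + |z.re|)))) := by
    refine Tendsto.const_mul _ (Tendsto.add_const _ ?_)
    have h0 : Tendsto (fun r : ℝ => r⁻¹) atTop (𝓝 0) := tendsto_inv_atTop_zero
    refine h0.congr fun r => ?_
    rw [one_div]
  have h2 : fs (f z) (deriv f z) ≤ L * (0 + 1 / (1 + |z.re|)) := by
    refine ge_of_tendsto h1 ?_
    filter_upwards [eventually_ge_atTop (1 / 2 : ℝ)] with r hr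
    exact hL f z r hr (IsSec.mono (U := Set.univ) hf (fun _ _ => Set.mem_univ _))
  rwa [zero_add, mul_one_div] at h2

/-- bounded sequences converge along an ultrafilter -/
theorem exists_lim (𝒰 : Ultrafilter ℕ) {z : ℕ → ℂ} {R : ℝ} (hz : ∀ᶠ k in (𝒰 : Filter ℕ), ‖z k‖ ≤ R) : ∃ z₀ : ℂ, ‖z₀‖ ≤ R ∧ Tendsto z 𝒰 (𝓝 z₀) := by
  have hc : IsCompact (closedBall (0 : ℂ) R) := isCompact_closedBall 0 R
  rw [isCompact_iff_ultrafilter_le_nhds] at hc
  obtain ⟨z₀, h1, h2⟩ := hc (𝒰.map z) (by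
    rw [le_principal_iff, Ultrafilter.coe_map, mem_map]
    filter_upwards [hz] with k hk
    show z k ∈ closedBall (0 : ℂ) R
    rwa [mem_closedBall_zero_iff])
  exact ⟨z₀, mem_closedBall_zero_iff.1 h1, h2⟩

theorem unif_of_tendsto {E : Type*} [NormedAddCommGroup E] (𝒰 : Ultrafilter ℕ) {F : ℕ → ℂ → E} {G : ℂ → E} (hG : Continuous G)
    (hF : ∀ (z : ℕ → ℂ) (z₀ : ℂ), Tendsto z 𝒰 (𝓝 z₀) → Tendsto (fun k => F k (z k)) 𝒰 (𝓝 (G z₀))) (R : ℝ) {ε : ℝ} (hε : 0 < ε) :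
    ∀ᶠ k in (𝒰 : Filter ℕ), ∀ z ∈ closedBall (0 : ℂ) R, ‖F k z - G z‖ < ε := by
  classical
  by_contra hcon
  rw [← Ultrafilter.eventually_not] at hcon
  have hex : ∀ k, ∃ z : ℂ, (¬ ∀ z ∈ closedBall (0 : ℂ) R, ‖F k z - G z‖ < ε) → z ∈ closedBall (0 : ℂ) R ∧ ε ≤ ‖F k z - G z‖ := by
    intro k
    by_cases hk : ∀ z ∈ closedBall (0 : ℂ) R, ‖F k z - G z‖ < ε
    · exact ⟨0, fun h => absurd hk h⟩
    · have hk' := hk
      push Not at hk'
      obtain ⟨z, hz, hz'⟩ := hk'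
      exact ⟨z, fun _ => ⟨hz, hz'⟩⟩
  choose z hz using hex
  have hz1 : ∀ᶠ k in (𝒰 : Filter ℕ), ‖z k‖ ≤ R := by
    filter_upwards [hcon] with k hk
    exact mem_closedBall_zero_iff.1 (hz k hk).1
  obtain ⟨z₀, -, hz₀⟩ := exists_lim 𝒰 hz1
  have h1 := hF z z₀ hz₀
  have h2 : Tendsto (fun k => G (z k)) 𝒰 (𝓝 (G z₀)) := (hG.tendsto z₀).comp hz₀
  have h3 := (h1.sub h2).norm
  rw [sub_self, norm_zero] at h3
  have h4 : ∀ᶠ k in (𝒰 : Filter ℕ), ‖F k (z k) - G (z k)‖ < ε := h3.eventually_lt_const hε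
  obtain ⟨k, hk1, hk2⟩ := (h4.and hcon).exists
  exact absurd hk1 (not_lt.2 (hz k hk2).2)

theorem Sec.eq_of_eqOn {f g : ℂ → EN (n + 2)} (hf : f ∈ Sec Q) (hg : g ∈ Sec Q) {U : Set ℂ} (hU : IsOpen U) (hU' : U.Nonempty)
    (hfg : ∀ z ∈ U, f z = g z) : f = g := by
  obtain ⟨z₀, hz₀⟩ := hU'
  have hfa : AnalyticOnNhd ℂ f Set.univ := fun z _ => (Sec.differentiable hf).analyticAt z
  have hga : AnalyticOnNhd ℂ g Set.univ := fun z _ => (Sec.differentiable hg).analyticAt z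
  refine AnalyticOnNhd.eq_of_eventuallyEq hfa hga (z₀ := z₀) ?_
  filter_upwards [hU.mem_nhds hz₀] with z hz
  exact hfg z hz

end Pool.Agent.TC
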