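import Pool.Agent.TC.Lim

/-!
# TC SmallFs: a section which is large at a point has a small derivative near the point

Otherwise for every `k : ℕ` there are `f k`, `w k`, `z k` with `|(w k).re| ≤ W`, `‖z k - w k‖ ≤ W`, `IsSec Q (f k) (ball (w k) k)`, `k ≤ ‖f k (w k)‖`, `ε < fs`.  Let `m k` be the integer of
`exists_shift` for `(w k).im`, `a k = 2 π m k I`, `F k z = f k (z + a k)`, `w' k = w k - a k` (`‖w' k‖ ≤ W + 2 π`), `z' k = z k - a k`.  `F k` is a section on `ball (w' k) k ⊇ ball 0 (k - W - 2 π)`.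
`𝒰 = hyperfilter ℕ` (`Filter.hyperfilter`), `w' k → w₀`, `z' k → z₀` along `𝒰` (`exists_lim`), `lim_sec`: the second alternative is impossible because `‖F k (w' k)‖ ≥ k → ∞`; the
first one gives `fs (F k (z' k)) (deriv (F k) (z' k)) → 0`, and it is `fs (f k (z k)) (deriv (f k) (z k)) > ε` (`deriv_shift`).
-/

set_option autoImplicit false

open Topology Filter Metric

namespace Pool.Agent.TC

open Pool.Agent.H36.BP (EN fs wd Sub)

variable {n : ℕ} {Q : Fin (n + 2) → MvPolynomial (Fin (n + 3)) ℂ} {e : Fin (n + 2) → ℕ}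

theorem small_fs (h : Pair Q e) {W ε : ℝ} (hW : 0 ≤ W) (hε : 0 < ε) : ∃ K R : ℝ, 0 < K ∧ 0 < R ∧ ∀ (f : ℂ → EN (n + 2)) (w z : ℂ), |w.re| ≤ W →
    ‖z - w‖ ≤ W → IsSec Q f (ball w R) → K ≤ ‖f w‖ → fs (f z) (deriv f z) ≤ ε := by
  by_contra hcon
  push Not at hcon
  have key : ∀ k : ℕ, ∃ (f : ℂ → EN (n + 2)) (w z : ℂ), |w.re| ≤ W ∧ ‖z - w‖ ≤ W ∧
      IsSec Q f (ball w ((k : ℝ) + 1)) ∧ (k : ℝ) + 1 ≤ ‖f w‖ ∧ ε < fs (f z) (deriv f z) := by
    intro k
    obtain ⟨f, w, z, h1, h2, h3, h4, h5⟩ := hcon ((k : ℝ) + 1) ((k : ℝ) + 1) (by positivity) (by positivity)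
    exact ⟨f, w, z, h1, h2, h3, h4, h5⟩
  choose f w z h1 h2 h3 h4 h5 using key
  choose m hm1 hm2 using fun k => exists_shift (w k).im
  have hre : ∀ k, (2 * (Real.pi : ℂ) * (m k : ℂ) * Complex.I).re = 0 := by
    intro k
    have : (2 * (Real.pi : ℂ) * (m k : ℂ) * Complex.I) = ((2 * Real.pi * (m k : ℝ) : ℝ) : ℂ) * Complex.I := by
      push_cast
      ring
    rw [this, Complex.re_ofReal_mul, Complex.I_re, mul_zero]
  have him : ∀ k, (2 * (Real.pi : ℂ) * (m k : ℂ) * Complex.I).im = 2 * Real.pi * (m k : ℝ) := by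
    intro k
    have : (2 * (Real.pi : ℂ) * (m k : ℂ) * Complex.I) = ((2 * Real.pi * (m k : ℝ) : ℝ) : ℂ) * Complex.I := by
      push_cast
      ring
    rw [this, Complex.im_ofReal_mul, Complex.I_im, mul_one]
  have hw' : ∀ k, ‖w k - 2 * (Real.pi : ℂ) * (m k : ℂ) * Complex.I‖ ≤ W + 2 * Real.pi := by
    intro k
    refine (Complex.norm_le_abs_re_add_abs_im _).trans ?_
    rw [Complex.sub_re, Complex.sub_im, hre, him, sub_zero]
    have := h1 k
    have h3 : |(w k).im - 2 * Real.pi * (m k : ℝ)| ≤ 2 * Real.pi := by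
      rw [abs_of_nonneg (hm1 k)]
      exact hm2 k
    linarith
  have hz' : ∀ k, ‖z k - 2 * (Real.pi : ℂ) * (m k : ℂ) * Complex.I‖ ≤ W + (W + 2 * Real.pi) := by
    intro k
    have e1 : z k - 2 * (Real.pi : ℂ) * (m k : ℂ) * Complex.I =
        (z k - w k) + (w k - 2 * (Real.pi : ℂ) * (m k : ℂ) * Complex.I) := by ring
    rw [e1]
    exact (norm_add_le _ _).trans (add_le_add (h2 k) (hw' k))
  obtain ⟨w₀, -, hw₀⟩ := exists_lim (hyperfilter ℕ) (z := fun k => w k - 2 * (Real.pi : ℂ) * (m k : ℂ) * Complex.I)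
    (Eventually.of_forall hw')
  obtain ⟨z₀, -, hz₀⟩ := exists_lim (hyperfilter ℕ) (z := fun k => z k - 2 * (Real.pi : ℂ) * (m k : ℂ) * Complex.I)
    (Eventually.of_forall hz')
  have hcast : Tendsto (fun k : ℕ => (k : ℝ)) (hyperfilter ℕ : Filter ℕ) atTop :=
    tendsto_natCast_atTop_atTop.mono_left Nat.hyperfilter_le_atTop
  have hρ : Tendsto (fun k : ℕ => (k : ℝ) + (1 - W - 2 * Real.pi)) (hyperfilter ℕ : Filter ℕ) atTop :=
    tendsto_atTop_add_const_right _ _ hcast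
  have hsec : ∀ k, IsSec Q (fun z => f k (z + 2 * Real.pi * m k * Complex.I)) (ball 0 ((k : ℝ) + (1 - W - 2 * Real.pi))) := by
    intro k
    refine ((h3 k).shift (m k)).mono ?_
    intro u hu
    have hu' : ‖u‖ < (k : ℝ) + (1 - W - 2 * Real.pi) := by simpa using hu
    show u + 2 * Real.pi * m k * Complex.I ∈ ball (w k) ((k : ℝ) + 1)
    rw [mem_ball, dist_eq_norm]
    have e1 : u + 2 * (Real.pi : ℂ) * (m k : ℂ) * Complex.I - w k =
        u - (w k - 2 * (Real.pi : ℂ) * (m k : ℂ) * Complex.I) := by ring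
    rw [e1]
    have := (norm_sub_le u (w k - 2 * (Real.pi : ℂ) * (m k : ℂ) * Complex.I))
    have := hw' k
    linarith
  have hval : ∀ k (u : ℂ), (fun z => f k (z + 2 * Real.pi * m k * Complex.I)) (u - 2 * (Real.pi : ℂ) * (m k : ℂ) * Complex.I) = f k u := by
    intro k u
    show f k (u - 2 * (Real.pi : ℂ) * (m k : ℂ) * Complex.I + 2 * Real.pi * m k * Complex.I) = f k u
    rw [sub_add_cancel]
  have hder : ∀ k (u : ℂ), deriv (fun z => f k (z + 2 * Real.pi * m k * Complex.I)) (u - 2 * (Real.pi : ℂ) * (m k : ℂ) * Complex.I) = deriv (f k) u := by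
    intro k u
    rw [deriv_shift, sub_add_cancel]
  rcases lim_sec h (hyperfilter ℕ) (fun k => fun z => f k (z + 2 * Real.pi * m k * Complex.I))
    (fun k => (k : ℝ) + (1 - W - 2 * Real.pi)) hρ (Eventually.of_forall hsec) with hA | ⟨G, -, hG⟩
  · have h6 := (hA _ _ hz₀).2
    simp only [hval, hder] at h6
    obtain ⟨k, hk⟩ := (h6.eventually_lt_const hε).exists
    exact absurd hk (not_lt.2 (h5 k).le)
  · have h6 := (hG _ _ hw₀).1.norm
    simp only [hval] at h6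
    obtain ⟨k, hk1, hk2⟩ := ((h6.eventually_lt_const (lt_add_one ‖G w₀‖)).and
      (hcast.eventually_ge_atTop (‖G w₀‖ + 1))).exists
    have := h4 k
    linarith

end Pool.Agent.TC
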