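import Pool.Agent.TC.NvLow
import Pool.Agent.TC.Growth
import Pool.Agent.TC.HalfAxis

/-!
# TC Tame: uniform constants for the entire sections

`L` from `fs_bound` (`Sec.fs_le`: `|x| fs ≤ L |x| / (1 + |x|) ≤ L`); `M` from `strip_bound` with `W = 1`, `fs_lower` with this `M` (`U = univ`); `nv_lower`;
`growth` with `x₀ = 0` and the number `log M` (`‖f z‖ ≤ M` for `|z.re| ≤ 1`): `log ‖f z‖ ≤ A (1 + |x|)` for `|x| ≥ 1`, and `log ‖f z‖ ≤ log M ≤ |log M| (1 + |x|)` for `|x| ≤ 1`; `norm_lower` for the lower bound of `‖f z‖` (`‖f z‖ ≥ exp (- C)`).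

`half_axis_sec`: `half_axis` for two entire sections, with the constants of `sec_tame` (`c` = the minimum of the two constants, `ε ≤ 1 / 2`), then `Sec.eq_of_eqOn` (`HP σ ρ` is open and nonempty for `σ = 1` or `-1`).
-/

set_option autoImplicit false

open Topology Filter Metric

namespace Pool.Agent.TC

open Pool.Agent.H36.BP (EN fs wd Sub)

variable {n : ℕ} {Q : Fin (n + 2) → MvPolynomial (Fin (n + 3)) ℂ} {e : Fin (n + 2) → ℕ}

theorem sec_tame (h : Pair Q e) : ∃ C₀ c A : ℝ, 0 < C₀ ∧ 0 < c ∧ 0 < A ∧ ∀ f ∈ Sec Q, ∀ z, |z.re| * fs (f z) (deriv f z) ≤ C₀ ∧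
    (|z.re| ≤ 1 → c ≤ fs (f z) (deriv f z)) ∧ c * ‖f z‖ ^ (∑ j, (e j - 1)) ≤ ‖nv Q (f z)‖ ∧ Real.log ‖f z‖ ≤ A * (1 + |z.re|) ∧ c ≤ ‖f z‖ := by
  obtain ⟨L, hL, hfb⟩ := fs_bound h
  obtain ⟨M, hM, hMb⟩ := strip_bound h 1
  obtain ⟨c₁, hc₁, hfl⟩ := fs_lower h M
  obtain ⟨c₂, hc₂, hnv⟩ := nv_lower h
  obtain ⟨A₁, hA₁, hgr⟩ := growth h (Real.log M) (x₀ := 0) le_rfl
  obtain ⟨c₃, C₃, hc₃, hnl⟩ := norm_lower h
  refine ⟨L, min c₁ (min c₂ (Real.exp (-C₃))), A₁ + |Real.log M|, hL,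
    lt_min hc₁ (lt_min hc₂ (Real.exp_pos _)), by positivity, ?_⟩
  intro f hf z
  have hsec : ∀ U : Set ℂ, IsSec Q f U := fun U =>
    IsSec.mono (Q := Q) (show IsSec Q f Set.univ from hf) (Set.subset_univ U)
  obtain ⟨hne, hlog⟩ := hnl f Set.univ hf z (Set.mem_univ z)
  have hpos : 0 < ‖f z‖ := norm_pos_iff.mpr hne
  have habs : 0 ≤ |z.re| := abs_nonneg _
  have hlM : ∀ w : ℂ, |w.re| ≤ 1 → Real.log ‖f w‖ ≤ Real.log M := fun w hw =>
    Real.log_le_log (norm_pos_iff.mpr (hnl f Set.univ hf w (Set.mem_univ w)).1) (hMb f hf w hw)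
  refine ⟨?_, ?_, ?_, ?_, ?_⟩
  · have h1 := Sec.fs_le hfb hf z
    have h2 : 0 < 1 + |z.re| := by positivity
    calc |z.re| * fs (f z) (deriv f z) ≤ |z.re| * (L / (1 + |z.re|)) :=
          mul_le_mul_of_nonneg_left h1 habs
      _ = L * (|z.re| / (1 + |z.re|)) := by ring
      _ ≤ L * 1 := by
          refine mul_le_mul_of_nonneg_left ?_ hL.le
          rw [div_le_one h2]
          linarith
      _ = L := mul_one L
  · intro hz
    exact (min_le_left _ _).trans (hfl f Set.univ isOpen_univ hf z (Set.mem_univ z) hz (hMb f hf z hz))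
  · refine le_trans ?_ (hnv f hf z)
    refine mul_le_mul_of_nonneg_right ((min_le_right _ _).trans (min_le_left _ _)) ?_
    positivity
  · rcases le_total |z.re| 1 with hz | hz
    · have h1 := hlM z hz
      have h2 := le_abs_self (Real.log M)
      have h3 : 0 ≤ |Real.log M| := abs_nonneg _
      nlinarith [mul_nonneg h3 habs, mul_nonneg hA₁.le habs]
    · have h3 : 0 ≤ |Real.log M| * (1 + |z.re|) := by positivity
      rcases le_total 0 z.re with h0 | h0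
      · rw [abs_of_nonneg h0] at hz
        have h1 := (hgr f).1 (hsec _) z (by linarith) (hlM _ (by simp))
        linarith [add_mul A₁ |Real.log M| (1 + |z.re|)]
      · rw [abs_of_nonpos h0] at hz
        have h1 := (hgr f).2 (hsec _) z (by linarith) (hlM _ (by simp))
        linarith [add_mul A₁ |Real.log M| (1 + |z.re|)]
  · refine ((min_le_right _ _).trans (min_le_right _ _)).trans ?_
    rw [← Real.le_log_iff_exp_le hpos]
    have : 0 ≤ c₃ * |z.re| := mul_nonneg hc₃.le habs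
    linarith

theorem isOpen_HP (σ ρ : ℝ) : IsOpen (HP σ ρ) := by
  unfold HP
  exact isOpen_lt continuous_const (continuous_const.mul Complex.continuous_im)

theorem half_axis_sec (h : Pair Q e) : ∃ W ε : ℝ, 4 ≤ W ∧ 0 < ε ∧ ε ≤ 1 / 2 ∧ ∀ (σ ρ : ℝ), (σ = 1 ∨ σ = -1) → ∀ f ∈ Sec Q, ∀ g ∈ Sec Q,
    (∀ z ∈ HP σ ρ, |z.re| ≤ W → ‖g z - f z‖ ≤ ε * ‖f z‖) → f = g := by
  obtain ⟨C₀, c, A, hC₀, hc, hA, ht⟩ := sec_tame h
  obtain ⟨W, ε, hW, hε, hε2, H⟩ := half_axis h hC₀ hc hA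
  refine ⟨W, ε, hW, hε, hε2, ?_⟩
  intro σ ρ hσ f hf g hg hclose
  have hsec : ∀ F : ℂ → EN (n + 2), F ∈ Sec Q → ∀ U : Set ℂ, IsSec Q F U := fun F hF U =>
    IsSec.mono (Q := Q) (show IsSec Q F Set.univ from hF) (Set.subset_univ U)
  refine Sec.eq_of_eqOn (Q := Q) hf hg (isOpen_HP σ ρ) ⟨⟨0, σ * (ρ + 1)⟩, ?_⟩ ?_
  · show ρ < σ * (σ * (ρ + 1))
    rcases hσ with rfl | rfl <;> linarith
  · intro z hz
    exact H σ ρ f g hσ (hsec f hf _) (hsec g hg _) (fun z _ => (ht f hf z).1) (fun z _ => (ht g hg z).1)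
      (fun z _ => (ht f hf z).2.1) (fun z _ => (ht f hf z).2.2.1) (fun z _ => (ht f hf z).2.2.2.1)
      (fun z _ => (ht g hg z).2.2.2.1) hclose z hz

end Pool.Agent.TC
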